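import Mathlib

-- part Pool.Agent.P.MP_111ca2_co.PrDefs
section

/-! Power residue difference sets, finiteness: the structures used in the proof. -/

namespace Pool.Agent.P.MP_111ca2_co.PR

open Finset

noncomputable section

/-- The system of equations satisfied by the halved Gauss sums of a difference set of index `2 m`. -/
structure GS (Ω : Type) [Field Ω] (m : ℕ) [NeZero m] where
  g : ZMod (2 * m) → Ω
  s : ZMod (2 * m) → Ω
  W : ZMod (2 * m) → Ω
  τ : Ω
  τ0 : τ ≠ 0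
  g0 : 2 * g 0 = -1
  s_add : ∀ a b, s (a + b) = s a * s b
  s_one : s 1 = -1
  W_add : ∀ a b, W (a + b) = W a * W b
  W_m : W (m : ZMod (2 * m)) = 1
  rfx : ∀ a, a ≠ 0 → g a * g (-a) = s a * τ
  dup : ∀ a, g a * g (a + (m : ZMod (2 * m))) = W a * g (a + a) * g (m : ZMod (2 * m))
  eqn : ∀ u, u ≠ 0 → ∑ a, s a * (g a * g (u - a)) = 0

namespace GS

variable {Ω : Type} [Field Ω] {m : ℕ} [NeZero m] (S : GS Ω m)

/-- halved Jacobi sums -/
def jj (a b : ZMod (2 * m)) : Ω := S.g a * S.g b / S.g (a + b)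

/-- Jacobi sums -/
def Jac (a b : ZMod (2 * m)) : Ω :=
  if a + b ≠ 0 then 2 * S.jj a b else if a ≠ 0 then -S.s a else 4 * S.τ - 2

/-- values of the Gauss sums, normalised at `0` -/
def psi {Γ : Type} [LinearOrderedCommGroupWithZero Γ] (v : Valuation Ω Γ) (a : ZMod (2 * m)) : Γ :=
  if a = 0 then 1 else v (S.g a)

end GS

/-- discrete logarithm modulo `n` and the characters of order dividing `n` -/
structure CS (K : Type) [Field K] (n k : ℕ) [NeZero n] where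
  ind : K → ZMod n
  X : ZMod n → MulChar K ℂ
  ind_mul : ∀ x y, x ≠ 0 → y ≠ 0 → ind (x * y) = ind x + ind y
  ind_zero : ∀ x, x ≠ 0 → (ind x = 0 ↔ x ^ k = 1)
  ind_one : ∃ x, x ≠ 0 ∧ ind x = 1
  X_apply : ∀ a x, x ≠ 0 → X a x = ZMod.stdAddChar (a * ind x)

/-- the complex system of a field with `q` elements, with the integrality of its Jacobi sums -/
structure Act (m : ℕ) [NeZero m] (q : ℕ) extends GS ℂ m where
  hτ : τ = (q : ℂ) / 4
  int : ∀ a b, ∃ N : ZMod (2 * m) → ℤ, (∀ k, |N k| ≤ q) ∧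
    ∀ t, toGS.Jac (t * a) (t * b) = ∑ k, (N k : ℂ) * ZMod.stdAddChar (t * k)

/-- the system in an ultrapower: `O` bounded elements, `B` elements with bounded denominator -/
structure Ult (Ω : Type) [Field Ω] [CharZero Ω] (m : ℕ) [NeZero m] extends GS Ω m where
  O : Subalgebra ℚ Ω
  B : Subalgebra ℚ Ω
  inv_mem : τ⁻¹ ∈ O
  τ_mem : τ ∈ B
  sep : ∀ x ∈ B, x * τ ∈ O → x = 0
  ε : ZMod (2 * m) → Ω
  ε_add : ∀ a b, ε (a + b) = ε a * ε b
  ε_zero : ε 0 = 1
  ε_sum : ∀ b, b ≠ 0 → ∑ t, ε (t * b) = 0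
  int : ∀ a b, ∃ N : ZMod (2 * m) → Ω, (∀ k, N k ∈ B ∧ N k * τ⁻¹ ∈ O) ∧
    ∀ t, toGS.Jac (t * a) (t * b) = ∑ k, N k * ε (t * k)

/-- the ultrapower of the complex numbers -/
abbrev Om : Type := Filter.Germ (Filter.hyperfilter ℕ : Filter ℕ) ℂ

/-- constants -/
def cst : ℂ →+* Om := (Filter.Germ.coeRingHom _).comp (Pi.constRingHom ℕ ℂ)

instance omCharZero : CharZero Om := charZero_of_injective_ringHom cst.injective

/-- the local system before reduction: the additive equation holds up to value `D` -/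
structure Pre {Ω Γ : Type} [Field Ω] [LinearOrderedCommGroupWithZero Γ] (v : Valuation Ω Γ)
    (D : Γ) (m : ℕ) where
  y : ℕ → Ω
  ω : Ω
  unit : ∀ i, 0 < i → i < 2 * m → v (y i) = 1
  ωm : ω ^ m = 1
  y1 : y 1 = 1
  star : ∀ c, 0 < c → c < m →
    v (y (2 * c) + ∑ a ∈ Ioo 0 (2 * c), (-1) ^ a * (y a * y (2 * c - a))) ≤ D
  dup : ∀ a, 0 < a → a < m → y a * y (a + m) = ω ^ a * y (2 * a) * y m
  rfx : ∀ a, 0 < a → a < 2 * m → y a * y (2 * m - a) = (-1) ^ (a + m) * y m ^ 2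

/-- the local system: units in a ring in which `2` is neither zero nor a unit -/
structure Loc (R : Type) [CommRing R] (m : ℕ) where
  z : ℕ → Rˣ
  w : Rˣ
  two_ne : (2 : R) ≠ 0
  two_nu : ¬ IsUnit (2 : R)
  wm : w ^ m = 1
  z1 : z 1 = 1
  star : ∀ c, 0 < c → c < m →
    (z (2 * c) : R) + ∑ a ∈ Ioo 0 (2 * c), (-1) ^ a * ((z a : R) * z (2 * c - a)) = 0
  dup : ∀ a, 0 < a → a < m → z a * z (a + m) = w ^ a * z (2 * a) * z m
  rfx : ∀ a, 0 < a → a < 2 * m → z a * z (2 * m - a) = (-1) ^ (a + m) * z m ^ 2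

namespace Loc

variable {R : Type} [CommRing R] {m : ℕ} (L : Loc R m)

def D (a : ℕ) : Rˣ := L.z (2 * a) / L.z a ^ 2

def Z (c j : ℕ) : Rˣ := L.z j * L.z (2 * c - j) / L.z (2 * c)

def U (c i : ℕ) : Rˣ := L.z i * L.z (2 * c) / L.z (2 * c + i)

/-- the key identity, for `m = 2 M` -/
def Key (M c : ℕ) : Prop :=
  ∑ j ∈ Ioo 0 c, (-1) ^ j * ((L.Z c j : R) - ((L.Z c j * L.D j * L.D (2 * c - j))⁻¹ : Rˣ)) =
    (1 + (-(L.w : R)) ^ c) * ((L.D (2 * c))⁻¹ : Rˣ) +
      ∑ i ∈ Ioo 0 (M - c), (L.U c i : R) * (1 + (L.D i / L.D (i + 2 * c) : Rˣ))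

end Loc

/-- sums of the first `2 a` terms -/
def QQ {R : Type} [CommRing R] (ν : ℕ → R) (a : ℕ) : R := ∑ j ∈ range (2 * a), ν j

/-- the two sides of the last congruence -/
def EL {R : Type} [CommRing R] (ν : ℕ → R) (c : ℕ) : R :=
  ∑ j ∈ Ioo 0 c, (QQ ν j + ν j ^ 2 + (QQ ν (2 * c - j) + ν (2 * c - j) ^ 2))

def ER {R : Type} [CommRing R] (ν : ℕ → R) (M c : ℕ) : R :=
  (((M - c) / 2 : ℕ) : R) + ∑ i ∈ Ioo 0 (M - c), (QQ ν i + QQ ν (i + 2 * c))

/-- the residual system in a field of characteristic two -/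
structure Res (k : Type) [Field k] (M : ℕ) where
  ν : ℕ → k
  two : (2 : k) = 0
  even : ∀ a, ν (2 * a) = 0
  per : ∀ a, ν (a + 2 * M) = ν a
  rfx : ∀ a, a ≤ 2 * M → ν a + ν (2 * M - a) = a
  E : ∀ c, 0 < c → c < M → EL ν c = ER ν M c

end

end Pool.Agent.P.MP_111ca2_co.PR
end

-- part Pool.Agent.P.MP_111ca2_co.PrU1a
section

/-! Bounded rank of a ring generated by an algebraic element. -/

namespace Pool.Agent.P.MP_111ca2_co.PR

open Finset Polynomial

variable {Ω : Type} [Field Ω] [CharZero Ω]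

theorem rank_bound {τ e : Ω} (he : IsAlgebraic (Algebra.adjoin ℚ {τ}) e) :
    ∃ d : ℕ, ∀ u : Fin (d + 1) → Ω, (∀ i, u i ∈ Algebra.adjoin ℚ {τ, e}) →
      ∃ p : Fin (d + 1) → ℚ[X], (∃ i, p i ≠ 0) ∧ ∑ i, aeval τ (p i) * u i = 0 := by
  classical
  let F : IntermediateField ℚ Ω := IntermediateField.adjoin ℚ {τ}
  have hle : Algebra.adjoin ℚ {τ} ≤ F.toSubalgebra := IntermediateField.algebra_adjoin_le_adjoin ℚ _
  have heF : IsAlgebraic F e := IsAlgebraic.tower_top_of_subalgebra_le hle he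
  let N : Subalgebra F Ω := Algebra.adjoin F {e}
  have : Module.Finite F N := Algebra.finite_adjoin_simple_of_isIntegral heF.isIntegral
  refine ⟨Module.finrank F N, fun u hu => ?_⟩
  have hsub : Algebra.adjoin ℚ {τ, e} ≤ N.restrictScalars ℚ := by
    refine Algebra.adjoin_le ?_
    rintro x (rfl | rfl)
    · exact N.algebraMap_mem ⟨x, IntermediateField.mem_adjoin_simple_self ℚ x⟩
    · exact Algebra.self_mem_adjoin_singleton F x
  let w : Fin (Module.finrank F N + 1) → N := fun i => ⟨u i, hsub (hu i)⟩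
  have hdep : ¬ LinearIndependent F w := fun h => by
    have := h.fintype_card_le_finrank
    rw [Fintype.card_fin] at this
    omega
  obtain ⟨c, hc, i0, hi0⟩ := Fintype.not_linearIndependent_iff.1 hdep
  have hc' : ∑ i, (c i : Ω) * u i = 0 := by
    have h1 := congrArg N.val hc
    rw [map_sum, map_zero] at h1
    exact h1
  have hrs : ∀ i, ∃ r s : ℚ[X], aeval τ s ≠ 0 ∧ aeval τ r = (c i : Ω) * aeval τ s := by
    intro i
    obtain ⟨r, s, h1⟩ := (IntermediateField.mem_adjoin_simple_iff ℚ (c i : Ω)).1 (c i).2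
    by_cases hs : aeval τ s = 0
    · refine ⟨0, 1, by simp, ?_⟩
      rw [h1, hs, div_zero, zero_mul, map_zero]
    · exact ⟨r, s, hs, by rw [h1, div_mul_cancel₀ _ hs]⟩
  choose r s hs hr using hrs
  have hp : ∀ i, aeval τ (r i * ∏ j ∈ univ.erase i, s j) = (c i : Ω) * ∏ j, aeval τ (s j) := by
    intro i
    rw [map_mul, map_prod, hr, mul_assoc,
      mul_prod_erase univ (fun j => aeval τ (s j)) (mem_univ i)]
  refine ⟨fun i => r i * ∏ j ∈ univ.erase i, s j, ⟨i0, fun h0 => ?_⟩, ?_⟩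
  · have h1 := hp i0
    simp only at h0
    rw [h0, map_zero] at h1
    have h2 : (c i0 : Ω) ≠ 0 := fun h => hi0 (Subtype.ext h)
    exact mul_ne_zero h2 (prod_ne_zero_iff.2 fun j _ => hs j) h1.symm
  · simp only [hp]
    calc ∑ i, (c i : Ω) * (∏ j, aeval τ (s j)) * u i
        = (∏ j, aeval τ (s j)) * ∑ i, (c i : Ω) * u i := by
          rw [mul_sum]
          exact sum_congr rfl fun i _ => by ring
      _ = 0 := by rw [hc', mul_zero]

end Pool.Agent.P.MP_111ca2_co.PR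
end

-- part Pool.Agent.P.MP_111ca2_co.PrU1b
section

/-! Leading coefficients of a polynomial relation. -/

namespace Pool.Agent.P.MP_111ca2_co.PR

open Finset Polynomial

variable {Ω : Type} [Field Ω] [CharZero Ω]

theorem pru1b_split (O : Subalgebra ℚ Ω) {τ : Ω} (h0 : τ ≠ 0) (hτ : τ⁻¹ ∈ O)
    (p : ℚ[X]) (δ : ℕ) (hδ : p.natDegree ≤ δ) :
    ∃ r ∈ O, algebraMap ℚ Ω (p.coeff δ) * τ = aeval τ p * (τ * τ⁻¹ ^ δ) - r := by
  refine ⟨∑ k ∈ range δ, p.coeff k • τ⁻¹ ^ (δ - 1 - k),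
    O.sum_mem fun k _ => O.smul_mem (O.pow_mem hτ _) _, ?_⟩
  rw [aeval_eq_sum_range' (Nat.lt_succ_of_le hδ), sum_range_succ, add_mul, sum_mul]
  have h1 : ∀ k ∈ range δ, p.coeff k • τ ^ k * (τ * τ⁻¹ ^ δ) = p.coeff k • τ⁻¹ ^ (δ - 1 - k) := by
    intro k hk
    have hk' : k < δ := mem_range.mp hk
    obtain ⟨j, rfl⟩ : ∃ j, δ = k + 1 + j := ⟨δ - 1 - k, by omega⟩
    have hj : k + 1 + j - 1 - k = j := by omega
    rw [hj, smul_mul_assoc]
    congr 1
    rw [pow_add, pow_add, inv_pow, inv_pow, inv_pow]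
    have := pow_ne_zero k h0
    have := pow_ne_zero j h0
    field_simp
  rw [sum_congr rfl h1, add_sub_cancel_left, Algebra.smul_def, inv_pow]
  have := pow_ne_zero δ h0
  field_simp

theorem lead_rel {ι : Type} [Fintype ι] (O : Subalgebra ℚ Ω) {τ : Ω} (h0 : τ ≠ 0) (hτ : τ⁻¹ ∈ O)
    (x : ι → Ω) (hx : ∀ i, x i ∈ O) (p : ι → ℚ[X]) (hp : ∃ i, p i ≠ 0)
    (h : ∑ i, aeval τ (p i) * x i = 0) :
    ∃ c : ι → ℚ, (∃ i, c i ≠ 0) ∧ (∑ i, c i • x i) * τ ∈ O := by
  classical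
  obtain ⟨i0, hi0⟩ := hp
  obtain ⟨j, hj, hmax⟩ := exists_max_image (univ.filter fun i => p i ≠ 0)
    (fun i => (p i).natDegree) ⟨i0, by simp [hi0]⟩
  have hj0 : p j ≠ 0 := (mem_filter.mp hj).2
  have hle : ∀ i, (p i).natDegree ≤ (p j).natDegree := by
    intro i
    by_cases hi : p i = 0
    · simp [hi]
    · exact hmax i (by simp [hi])
  refine ⟨fun i => (p i).coeff (p j).natDegree, ⟨j, ?_⟩, ?_⟩
  · exact leadingCoeff_ne_zero.mpr hj0
  · choose r hr hr' using fun i => pru1b_split O h0 hτ (p i) (p j).natDegree (hle i)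
    have h2 : (∑ i, (p i).coeff (p j).natDegree • x i) * τ = -∑ i, r i * x i := by
      have h3 : ∀ i, (p i).coeff (p j).natDegree • x i * τ =
          aeval τ (p i) * x i * (τ * τ⁻¹ ^ (p j).natDegree) - r i * x i := by
        intro i
        rw [Algebra.smul_def]
        linear_combination x i * hr' i
      rw [sum_mul, sum_congr rfl fun i _ => h3 i, sum_sub_distrib, ← sum_mul, h, zero_mul,
        zero_sub]
    rw [h2]
    exact O.neg_mem (O.sum_mem fun i _ => O.mul_mem (hr i) (hx i))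

theorem trans_of_sep (O B : Subalgebra ℚ Ω) {τ : Ω} (h0 : τ ≠ 0) (hτ : τ⁻¹ ∈ O)
    (sep : ∀ x ∈ B, x * τ ∈ O → x = 0) : Transcendental ℚ τ := by
  rintro ⟨q, hq, hq0⟩
  obtain ⟨c, ⟨i, hi⟩, hc⟩ := lead_rel (ι := Unit) O h0 hτ (fun _ => 1) (fun _ => O.one_mem)
    (fun _ => q) ⟨(), hq⟩ (by simp [hq0])
  have h1 : (∑ i, c i • (1 : Ω)) = c () • (1 : Ω) := by simp
  rw [h1] at hc
  have h2 := sep _ (B.smul_mem B.one_mem (c ())) hc
  rcases smul_eq_zero.mp h2 with h3 | h3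
  · exact hi h3
  · exact one_ne_zero h3

end Pool.Agent.P.MP_111ca2_co.PR
end

-- part Pool.Agent.P.MP_111ca2_co.PrU1c
section

/-! The argument of Runge. -/

namespace Pool.Agent.P.MP_111ca2_co.PR

open Finset Polynomial

variable {Ω : Type} [Field Ω] [CharZero Ω]

/-- elements of the ring of order at most `L` -/
def pru1c_V (O : Subalgebra ℚ Ω) (τ e : Ω) (L : ℕ) : Submodule ℚ Ω where
  carrier := {u | u ∈ Algebra.adjoin ℚ {τ, e} ∧ u * τ⁻¹ ^ L ∈ O}
  add_mem' := fun ha hb => ⟨add_mem ha.1 hb.1, by rw [add_mul]; exact add_mem ha.2 hb.2⟩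
  zero_mem' := ⟨zero_mem _, by rw [zero_mul]; exact zero_mem _⟩
  smul_mem' := fun c x hx => ⟨Subalgebra.smul_mem _ hx.1 c, by
    rw [smul_mul_assoc]; exact Subalgebra.smul_mem _ hx.2 c⟩

/-- small elements -/
def pru1c_W (O : Subalgebra ℚ Ω) (τ : Ω) : Submodule ℚ Ω where
  carrier := {x | x * τ ∈ O}
  add_mem' := fun {a b} ha hb => by
    show (a + b) * τ ∈ O
    rw [add_mul]
    exact add_mem ha hb
  zero_mem' := by
    show (0 : Ω) * τ ∈ O
    rw [zero_mul]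
    exact zero_mem _
  smul_mem' := fun c x hx => by
    show (c • x) * τ ∈ O
    rw [smul_mul_assoc]
    exact Subalgebra.smul_mem _ hx c

/-- the leading term -/
noncomputable def pru1c_pi (O : Subalgebra ℚ Ω) (τ : Ω) (L : ℕ) : Ω →ₗ[ℚ] Ω ⧸ pru1c_W O τ :=
  (pru1c_W O τ).mkQ ∘ₗ LinearMap.mulRight ℚ (τ⁻¹ ^ L)

/-- the leading terms of order `L` -/
noncomputable def pru1c_I (O : Subalgebra ℚ Ω) (τ e : Ω) (L : ℕ) : Submodule ℚ (Ω ⧸ pru1c_W O τ) :=
  (pru1c_V O τ e L).map (pru1c_pi O τ L)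

theorem pru1c_pi_eq_zero {O : Subalgebra ℚ Ω} {τ : Ω} {L : ℕ} {u : Ω} :
    pru1c_pi O τ L u = 0 ↔ u * τ⁻¹ ^ L * τ ∈ O :=
  Submodule.Quotient.mk_eq_zero (pru1c_W O τ)

theorem pru1c_shift {τ : Ω} (h0 : τ ≠ 0) (u : Ω) (K j : ℕ) :
    τ ^ j * u * τ⁻¹ ^ (K + j) = u * τ⁻¹ ^ K := by
  rw [pow_add]
  have : τ ^ j * τ⁻¹ ^ j = 1 := by rw [← mul_pow, mul_inv_cancel₀ h0, one_pow]
  linear_combination (u * τ⁻¹ ^ K) * this

theorem pru1c_pi_shift (O : Subalgebra ℚ Ω) {τ : Ω} (h0 : τ ≠ 0) (u : Ω) (K j : ℕ) :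
    pru1c_pi O τ (K + j) (τ ^ j * u) = pru1c_pi O τ K u :=
  congrArg (pru1c_W O τ).mkQ (pru1c_shift h0 u K j)

theorem pru1c_tau_mem (τ e : Ω) : τ ∈ Algebra.adjoin ℚ {τ, e} :=
  Algebra.subset_adjoin (Set.mem_insert _ _)

theorem pru1c_V_shift {O : Subalgebra ℚ Ω} {τ e : Ω} (h0 : τ ≠ 0) {u : Ω} {K : ℕ}
    (hu : u ∈ pru1c_V O τ e K) (j : ℕ) : τ ^ j * u ∈ pru1c_V O τ e (K + j) :=
  ⟨mul_mem (pow_mem (pru1c_tau_mem τ e) j) hu.1, by rw [pru1c_shift h0]; exact hu.2⟩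

theorem pru1c_I_mono (O : Subalgebra ℚ Ω) {τ : Ω} (e : Ω) (h0 : τ ≠ 0) (K j : ℕ) :
    pru1c_I O τ e K ≤ pru1c_I O τ e (K + j) := by
  rintro _ ⟨u, hu, rfl⟩
  exact ⟨τ ^ j * u, pru1c_V_shift h0 hu j, pru1c_pi_shift O h0 u K j⟩

theorem pru1c_rank (O : Subalgebra ℚ Ω) {τ e : Ω} (h0 : τ ≠ 0) (hτ : τ⁻¹ ∈ O)
    (he : IsAlgebraic (Algebra.adjoin ℚ {τ}) e) :
    ∃ d : ℕ, ∀ L, Module.rank ℚ (pru1c_I O τ e L) < (d + 1 : ℕ) := by
  obtain ⟨d, hd⟩ := rank_bound he
  refine ⟨d, fun L => lt_of_not_ge fun hle => ?_⟩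
  obtain ⟨v, hv⟩ := Module.le_rank_iff.1 hle
  choose u hu hπ using fun i => (v i).2
  obtain ⟨p, hp, hrel⟩ := hd u fun i => (hu i).1
  obtain ⟨c, ⟨i, hi⟩, hc⟩ := lead_rel O h0 hτ (fun i => u i * τ⁻¹ ^ L) (fun i => (hu i).2) p hp (by
    have := congrArg (· * τ⁻¹ ^ L) hrel
    simpa only [Finset.sum_mul, zero_mul, mul_assoc] using this)
  refine hi (Fintype.linearIndependent_iff.1 hv c (Subtype.ext ?_) i)
  have h1 : pru1c_pi O τ L (∑ i, c i • u i) = 0 := by
    rw [pru1c_pi_eq_zero]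
    simpa only [Finset.sum_mul, smul_mul_assoc] using hc
  rw [map_sum] at h1
  simp only [map_smul, hπ] at h1
  simpa using h1

theorem pru1c_stab (O : Subalgebra ℚ Ω) {τ e : Ω} (h0 : τ ≠ 0) (hτ : τ⁻¹ ∈ O)
    (he : IsAlgebraic (Algebra.adjoin ℚ {τ}) e) :
    (∀ L, (pru1c_I O τ e L).FG) ∧ ∃ L₀, ∀ j, pru1c_I O τ e (L₀ + j) = pru1c_I O τ e L₀ := by
  obtain ⟨d, hd⟩ := pru1c_rank O h0 hτ he
  have hfin : ∀ L, Module.Finite ℚ (pru1c_I O τ e L) := fun L =>
    Module.rank_lt_aleph0_iff.1 ((hd L).trans (Cardinal.natCast_lt_aleph0))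
  refine ⟨fun L => Module.Finite.iff_fg.1 (hfin L), ?_⟩
  have hb : BddAbove (Set.range fun L => Module.finrank ℚ (pru1c_I O τ e L)) := by
    refine ⟨d + 1, ?_⟩
    rintro _ ⟨L, rfl⟩
    exact Module.finrank_le_of_rank_le (hd L).le
  obtain ⟨L₀, hL₀⟩ := Nat.sSup_mem (Set.range_nonempty _) hb
  refine ⟨L₀, fun j => (Submodule.eq_of_le_of_finrank_le (pru1c_I_mono O e h0 L₀ j) ?_).symm⟩
  exact (le_csSup hb ⟨L₀ + j, rfl⟩).trans hL₀.ge

theorem pru1c_gen (O : Subalgebra ℚ Ω) (τ e : Ω) (K : ℕ) (h : (pru1c_I O τ e K).FG) :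
    ∃ s : Set Ω, s.Finite ∧ s ⊆ pru1c_V O τ e K ∧
      ∀ y ∈ pru1c_I O τ e K, ∃ v ∈ Submodule.span ℚ s, pru1c_pi O τ K v = y := by
  obtain ⟨n, t, ht⟩ := Submodule.fg_iff_exists_fin_generating_family.1 h
  have h1 : ∀ i, t i ∈ pru1c_I O τ e K := fun i => ht ▸ Submodule.subset_span ⟨i, rfl⟩
  choose g hg hg' using h1
  refine ⟨Set.range g, Set.finite_range g, by rintro _ ⟨i, rfl⟩; exact hg i, fun y hy => ?_⟩
  rw [← ht] at hy
  obtain ⟨c, rfl⟩ := (Submodule.mem_span_range_iff_exists_fun ℚ).1 hy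
  refine ⟨∑ i, c i • g i, Submodule.sum_mem _ fun i _ =>
    Submodule.smul_mem _ _ (Submodule.subset_span ⟨i, rfl⟩), ?_⟩
  simp only [map_sum, map_smul, hg']

theorem pru1c_cover (O : Subalgebra ℚ Ω) {τ e : Ω} (h0 : τ ≠ 0) (hτ : τ⁻¹ ∈ O)
    (heO : e * τ⁻¹ ∈ O) {u : Ω} (hu : u ∈ Algebra.adjoin ℚ {τ, e}) :
    ∃ L : ℕ, u * τ⁻¹ ^ L ∈ O := by
  induction hu using Algebra.adjoin_induction with
  | mem x hx =>
    rcases hx with rfl | rfl
    · exact ⟨1, by rw [pow_one, mul_inv_cancel₀ h0]; exact one_mem _⟩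
    · exact ⟨1, by rw [pow_one]; exact heO⟩
  | algebraMap r => exact ⟨0, by rw [pow_zero, mul_one]; exact O.algebraMap_mem r⟩
  | add x y _ _ hx hy =>
    obtain ⟨a, ha⟩ := hx
    obtain ⟨b, hb⟩ := hy
    refine ⟨a + b, ?_⟩
    have : (x + y) * τ⁻¹ ^ (a + b) = x * τ⁻¹ ^ a * τ⁻¹ ^ b + y * τ⁻¹ ^ b * τ⁻¹ ^ a := by ring
    rw [this]
    exact add_mem (mul_mem ha (pow_mem hτ b)) (mul_mem hb (pow_mem hτ a))
  | mul x y _ _ hx hy =>
    obtain ⟨a, ha⟩ := hx
    obtain ⟨b, hb⟩ := hy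
    refine ⟨a + b, ?_⟩
    have : x * y * τ⁻¹ ^ (a + b) = x * τ⁻¹ ^ a * (y * τ⁻¹ ^ b) := by ring
    rw [this]
    exact mul_mem ha hb

theorem runge (O B : Subalgebra ℚ Ω) {τ e : Ω} (h0 : τ ≠ 0) (hτ : τ⁻¹ ∈ O) (hB : τ ∈ B)
    (sep : ∀ x ∈ B, x * τ ∈ O → x = 0) (heB : e ∈ B) (heO : e * τ⁻¹ ∈ O)
    (he : IsAlgebraic (Algebra.adjoin ℚ {τ}) e) : IsIntegral (Algebra.adjoin ℚ {τ}) e := by
  obtain ⟨hfg, L₀, hL₀⟩ := pru1c_stab O h0 hτ he
  choose s hs hsV hsI using fun K => pru1c_gen O τ e K (hfg K)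
  obtain ⟨M, hM⟩ : ∃ M : Submodule (Algebra.adjoin ℚ {τ}) Ω,
      M = Submodule.span _ (⋃ K ∈ Set.Iic L₀, s K) := ⟨_, rfl⟩
  have hRB : Algebra.adjoin ℚ {τ, e} ≤ B := Algebra.adjoin_le (by
    rintro x (rfl | rfl)
    exacts [hB, heB])
  have hMR : ∀ x ∈ M, x ∈ Algebra.adjoin ℚ {τ, e} := by
    intro x hx
    rw [hM] at hx
    induction hx using Submodule.span_induction with
    | mem x hx =>
      obtain ⟨K, -, hK⟩ := Set.mem_iUnion₂.1 hx
      exact (hsV K hK).1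
    | zero => exact zero_mem _
    | add x y _ _ hx hy => exact add_mem hx hy
    | smul a x _ hx =>
      exact mul_mem (Algebra.adjoin_mono (Set.singleton_subset_iff.2 (Set.mem_insert _ _)) a.2) hx
  have step : ∀ L, ∀ u ∈ pru1c_V O τ e L, ∃ w ∈ M, (u - w) * τ⁻¹ ^ L * τ ∈ O := by
    intro L u hu
    obtain ⟨K, j, hK, rfl, hI⟩ : ∃ K j, K ≤ L₀ ∧ L = K + j ∧
        pru1c_I O τ e (K + j) = pru1c_I O τ e K := by
      rcases le_total L L₀ with h | h
      · exact ⟨L, 0, h, rfl, rfl⟩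
      · obtain ⟨j, rfl⟩ := Nat.exists_eq_add_of_le h
        exact ⟨L₀, j, le_rfl, rfl, hL₀ j⟩
    obtain ⟨v, hv, hvπ⟩ := hsI K (pru1c_pi O τ (K + j) u) (hI ▸ ⟨u, hu, rfl⟩)
    have hvM : v ∈ M := by
      rw [hM]
      exact Submodule.span_mono (Set.subset_biUnion_of_mem (u := s) (Set.mem_Iic.2 hK))
        (Submodule.span_subset_span ℚ _ _ hv)
    refine ⟨τ ^ j * v, M.smul_mem
      (⟨τ ^ j, pow_mem (Algebra.self_mem_adjoin_singleton ℚ τ) j⟩ : Algebra.adjoin ℚ {τ}) hvM, ?_⟩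
    rw [← pru1c_pi_eq_zero, map_sub, pru1c_pi_shift O h0, hvπ, sub_self]
  have hVM : ∀ L, ∀ u ∈ pru1c_V O τ e L, u ∈ M := by
    intro L
    induction L with
    | zero =>
      intro u hu
      obtain ⟨w, hw, h⟩ := step 0 u hu
      rw [pow_zero, mul_one] at h
      have := sep _ (hRB (sub_mem hu.1 (hMR w hw))) h
      rwa [sub_eq_zero.1 this]
    | succ L ih =>
      intro u hu
      obtain ⟨w, hw, h⟩ := step (L + 1) u hu
      have h1 : (u - w) * τ⁻¹ ^ (L + 1) * τ = (u - w) * τ⁻¹ ^ L := by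
        rw [pow_succ, mul_assoc, mul_assoc, inv_mul_cancel₀ h0, mul_one]
      rw [h1] at h
      have h2 := add_mem (ih _ ⟨sub_mem hu.1 (hMR w hw), h⟩) hw
      rwa [sub_add_cancel] at h2
  have hRM : ∀ u ∈ Algebra.adjoin ℚ {τ, e}, u ∈ M := fun u hu => by
    obtain ⟨L, hL⟩ := pru1c_cover O h0 hτ heO hu
    exact hVM L u ⟨hu, hL⟩
  refine isIntegral_of_smul_mem_submodule M ?_ ?_ e fun x hx => hRM _ ?_
  · intro h
    have := hRM 1 (one_mem _)
    rw [h] at this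
    exact one_ne_zero ((Submodule.mem_bot _).1 this)
  · rw [hM]
    exact Submodule.fg_span ((Set.finite_Iic L₀).biUnion fun K _ => hs K)
  · exact mul_mem (Algebra.subset_adjoin (Set.mem_insert_of_mem _ rfl)) (hMR x hx)

end Pool.Agent.P.MP_111ca2_co.PR
end

-- part Pool.Agent.P.MP_111ca2_co.PrB
section

/-! Basic facts on the system of halved Gauss sums. -/

namespace Pool.Agent.P.MP_111ca2_co.PR

open Finset

variable {m : ℕ} [NeZero m]

omit [NeZero m] in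
theorem m_add_m : (m : ZMod (2 * m)) + m = 0 := by
  rw [← Nat.cast_add, ← two_mul, ZMod.natCast_self]

omit [NeZero m] in
theorem cast_ne {i : ℕ} (h0 : 0 < i) (h : i < 2 * m) : (i : ZMod (2 * m)) ≠ 0 := by
  rw [Ne, ZMod.natCast_eq_zero_iff]
  intro hd
  have := Nat.le_of_dvd h0 hd
  omega

theorem m_ne : (m : ZMod (2 * m)) ≠ 0 :=
  cast_ne (NeZero.pos m) (by have := NeZero.pos m; omega)

omit [NeZero m] in
theorem neg_m : -(m : ZMod (2 * m)) = m := neg_eq_of_add_eq_zero_left m_add_m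

theorem add_self_eq_zero (a : ZMod (2 * m)) : a + a = 0 ↔ a = 0 ∨ a = m := by
  rw [← neg_eq_iff_add_eq_zero, ZMod.neg_eq_self_iff]
  refine or_congr Iff.rfl ⟨fun h => ?_, fun h => ?_⟩
  · rw [← ZMod.natCast_zmod_val a, show a.val = m by omega]
  · rw [h, ZMod.val_cast_of_lt (by have := NeZero.pos m; omega)]

namespace GS

variable {Ω : Type} [Field Ω] (S : GS Ω m)

theorem s_zero : S.s 0 = 1 := by
  have := S.s_add 0 1
  rw [zero_add, S.s_one] at this
  linear_combination this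

theorem s_nat (i : ℕ) : S.s i = (-1) ^ i := by
  induction i with
  | zero => simp [S.s_zero]
  | succ i ih => rw [Nat.cast_succ, S.s_add, ih, S.s_one, pow_succ]

theorem s_val (a : ZMod (2 * m)) : S.s a = (-1) ^ a.val := by
  rw [← S.s_nat, ZMod.natCast_zmod_val]

theorem s_sq (a : ZMod (2 * m)) : S.s a * S.s a = 1 := by
  rw [S.s_val, ← mul_pow]; simp

theorem s_neg (a : ZMod (2 * m)) : S.s (-a) = S.s a := by
  have := S.s_add a (-a)
  rw [add_neg_cancel, S.s_zero] at this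
  linear_combination (-S.s (-a)) * S.s_sq a - S.s a * this

theorem W_zero : S.W 0 = 1 := by
  have := S.W_add 0 m
  rw [zero_add, S.W_m] at this
  linear_combination -this

theorem W_nat (i : ℕ) (a : ZMod (2 * m)) : S.W (i * a) = S.W a ^ i := by
  induction i with
  | zero => simp [S.W_zero]
  | succ i ih => rw [Nat.cast_succ, add_mul, one_mul, S.W_add, ih, pow_succ]

theorem W_pow (a : ZMod (2 * m)) : S.W a ^ m = 1 := by
  rw [← S.W_nat, mul_comm, ← ZMod.natCast_zmod_val a, S.W_nat, S.W_m, one_pow]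

theorem g_ne (a : ZMod (2 * m)) : S.g a ≠ 0 := by
  intro h
  by_cases ha : a = 0
  · have := S.g0
    rw [← ha, h] at this
    simp at this
  · have := S.rfx a ha
    rw [h, zero_mul] at this
    apply S.τ0
    linear_combination (-S.τ) * S.s_sq a - S.s a * this

theorem g_m_sq : S.g m ^ 2 = S.s m * S.τ := by
  rw [← S.rfx _ m_ne, neg_m, sq]

variable {Γ : Type} [LinearOrderedCommGroupWithZero Γ] (v : Valuation Ω Γ)

theorem v_s (a : ZMod (2 * m)) : v (S.s a) = 1 := by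
  rw [S.s_val]; simp

theorem v_W (a : ZMod (2 * m)) : v (S.W a) = 1 := by
  have := congrArg v (S.W_pow a)
  rw [map_pow, map_one] at this
  exact (pow_eq_one_iff_left (NeZero.ne m)).1 this

theorem v_g_ne (a : ZMod (2 * m)) : v (S.g a) ≠ 0 := (map_ne_zero v).2 (S.g_ne a)

theorem psi_ne (a : ZMod (2 * m)) : S.psi v a ≠ 0 := by
  unfold psi
  split_ifs
  · exact one_ne_zero
  · exact S.v_g_ne v a

theorem psi_zero : S.psi v 0 = 1 := if_pos rfl

theorem psi_of_ne {a : ZMod (2 * m)} (h : a ≠ 0) : S.psi v a = v (S.g a) := if_neg h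

theorem psi_neg {a : ZMod (2 * m)} (h : a ≠ 0) : S.psi v a * S.psi v (-a) = v S.τ := by
  rw [S.psi_of_ne v h, S.psi_of_ne v (neg_ne_zero.2 h), ← map_mul, S.rfx a h, map_mul, S.v_s, one_mul]

theorem v_g_m : v (S.g m) ^ 2 = v S.τ := by
  rw [← map_pow, S.g_m_sq, map_mul, S.v_s, one_mul]

end GS

end Pool.Agent.P.MP_111ca2_co.PR
end

-- part Pool.Agent.P.MP_111ca2_co.PrU3
section

/-! Finite Fourier inversion and integrality. -/

namespace Pool.Agent.P.MP_111ca2_co.PR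

open Finset

variable {Ω : Type} [Field Ω] [CharZero Ω]

theorem pru3_mem (A : Subalgebra ℚ Ω) {x : Ω} (hx : x ∈ A) : IsIntegral A x :=
  isIntegral_algebraMap (x := (⟨x, hx⟩ : A))

theorem pru3_eps {n : ℕ} [NeZero n] (A : Subalgebra ℚ Ω) (ε : ZMod n → Ω)
    (ε_add : ∀ a b, ε (a + b) = ε a * ε b) (ε_zero : ε 0 = 1) (k : ZMod n) :
    IsIntegral A (ε k) := by
  have h : ∀ i : ℕ, ε (i * k) = ε k ^ i := by
    intro i
    induction i with
    | zero => simp [ε_zero]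
    | succ i ih => rw [Nat.cast_succ, add_mul, one_mul, ε_add, ih, pow_succ]
  have h1 : ε k ^ n = 1 := by rw [← h, ZMod.natCast_self, zero_mul, ε_zero]
  refine IsIntegral.of_pow (NeZero.pos n) ?_
  rw [h1]
  exact isIntegral_one

theorem dft_int {n : ℕ} [NeZero n] (A : Subalgebra ℚ Ω) (ε J N : ZMod n → Ω)
    (ε_add : ∀ a b, ε (a + b) = ε a * ε b) (ε_zero : ε 0 = 1)
    (ε_sum : ∀ b, b ≠ 0 → ∑ t, ε (t * b) = 0) (hJ : ∀ t, J t = ∑ k, N k * ε (t * k))
    (halg : ∀ t, IsAlgebraic A (J t)) (hN : ∀ k, IsAlgebraic A (N k) → IsIntegral A (N k)) :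
    IsIntegral A (J 1) := by
  have hε := pru3_eps A ε ε_add ε_zero
  have hn : (n : Ω) ≠ 0 := Nat.cast_ne_zero.2 (NeZero.ne n)
  have inv : ∀ k, N k = (n : Ω)⁻¹ * ∑ t, J t * ε (-(t * k)) := by
    intro k
    have e : ∑ t, J t * ε (-(t * k)) = ∑ l, N l * ∑ t, ε (t * (l - k)) := by
      simp only [hJ, sum_mul, mul_sum]
      rw [sum_comm]
      refine sum_congr rfl fun l _ => sum_congr rfl fun t _ => ?_
      rw [mul_assoc, ← ε_add, mul_sub, sub_eq_add_neg]
    rw [e, sum_eq_single k]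
    · simp only [sub_self, mul_zero, ε_zero, sum_const, card_univ, ZMod.card, nsmul_eq_mul, mul_one]
      field_simp
    · intro l _ hl
      rw [ε_sum _ (sub_ne_zero.2 hl), mul_zero]
    · intro h
      exact absurd (mem_univ k) h
  have hNa : ∀ k, IsAlgebraic A (N k) := by
    intro k
    rw [inv k]
    refine IsAlgebraic.mul ?_ ?_
    · refine (pru3_mem A ?_).isAlgebraic
      have : (n : Ω)⁻¹ = algebraMap ℚ Ω ((n : ℚ)⁻¹) := by simp
      rw [this]
      exact A.algebraMap_mem _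
    · refine sum_induction _ (fun x => IsAlgebraic A x) (fun a b ha hb => ha.add hb)
        isAlgebraic_zero fun t _ => (halg t).mul (hε _).isAlgebraic
  rw [hJ 1]
  exact IsIntegral.sum _ fun k _ => (hN k (hNa k)).mul (hε _)

theorem alg_jac {m : ℕ} [NeZero m] (S : GS Ω m)
    (h : ∀ a b, a ≠ 0 → b ≠ 0 → a + b ≠ 0 → IsAlgebraic (Algebra.adjoin ℚ {S.τ}) (S.jj a b))
    (a b : ZMod (2 * m)) : IsAlgebraic (Algebra.adjoin ℚ {S.τ}) (S.Jac a b) := by
  have h2 : (2 : Ω) ∈ Algebra.adjoin ℚ {S.τ} := ofNat_mem _ 2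
  have h4 : (4 : Ω) ∈ Algebra.adjoin ℚ {S.τ} := ofNat_mem _ 4
  have h1 : (-1 : Ω) ∈ Algebra.adjoin ℚ {S.τ} := neg_mem (one_mem _)
  have hτ : S.τ ∈ Algebra.adjoin ℚ {S.τ} := Algebra.subset_adjoin rfl
  unfold GS.Jac
  split_ifs with hab ha
  · by_cases ha : a = 0
    · have : 2 * S.jj a b = -1 := by
        unfold GS.jj
        rw [ha, zero_add, mul_div_assoc, div_self (S.g_ne b), mul_one, S.g0]
      rw [this]
      exact (pru3_mem _ h1).isAlgebraic
    · by_cases hb : b = 0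
      · have : 2 * S.jj a b = -1 := by
          unfold GS.jj
          rw [hb, add_zero, mul_comm (S.g a), mul_div_assoc, div_self (S.g_ne a), mul_one, S.g0]
        rw [this]
        exact (pru3_mem _ h1).isAlgebraic
      · exact (pru3_mem _ h2).isAlgebraic.mul (h a b ha hb hab)
  · rw [S.s_val]
    exact (pru3_mem _ (neg_mem (pow_mem h1 _))).isAlgebraic
  · exact (pru3_mem _ (sub_mem (mul_mem h4 hτ) h2)).isAlgebraic

theorem int_jj {m : ℕ} [NeZero m] (S : GS Ω m) {a b : ZMod (2 * m)} (hab : a + b ≠ 0)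
    (h : IsIntegral (Algebra.adjoin ℚ {S.τ}) (S.Jac a b)) :
    IsIntegral (Algebra.adjoin ℚ {S.τ}) (S.jj a b) := by
  have e : S.jj a b = (2 : Ω)⁻¹ * S.Jac a b := by
    unfold GS.Jac
    rw [if_pos hab]
    field_simp
  rw [e]
  refine IsIntegral.mul (pru3_mem _ ?_) h
  have : (2 : Ω)⁻¹ = algebraMap ℚ Ω ((2 : ℚ)⁻¹) := by simp
  rw [this]
  exact Subalgebra.algebraMap_mem _ _

end Pool.Agent.P.MP_111ca2_co.PR
end

-- part Pool.Agent.P.MP_111ca2_co.PrG1
section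

/-! Folding the quadratic equations. -/

namespace Pool.Agent.P.MP_111ca2_co.PR

open Finset

theorem sum_fold {α M : Type} [DecidableEq α] [AddCommMonoid M] (s : Finset α) (ι : α → α)
    (f : α → M) (h1 : ∀ a ∈ s, ι a ∈ s) (h2 : ∀ a ∈ s, ι (ι a) = a) (h3 : ∀ a ∈ s, ι a ≠ a)
    (h4 : ∀ a ∈ s, f (ι a) = f a) : ∃ A ⊆ s, ∑ a ∈ s, f a = 2 • ∑ a ∈ A, f a := by
  induction s using Finset.strongInduction with
  | H s ih =>
    rcases s.eq_empty_or_nonempty with rfl | ⟨a, ha⟩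
    · exact ⟨∅, Subset.refl _, by simp⟩
    · have hb : ι a ∈ s.erase a := mem_erase.2 ⟨h3 a ha, h1 a ha⟩
      have hsub : (s.erase a).erase (ι a) ⊆ s := (erase_subset _ _).trans (erase_subset _ _)
      have hss : (s.erase a).erase (ι a) ⊂ s :=
        (erase_subset _ _).trans_ssubset (erase_ssubset ha)
      obtain ⟨A, hA, hsum⟩ := ih _ hss
        (fun x hx => by
          have hx1 := mem_erase.1 hx
          have hx2 := mem_erase.1 hx1.2
          refine mem_erase.2 ⟨fun h => hx2.1 ?_, mem_erase.2 ⟨fun h => hx1.1 ?_, h1 x hx2.2⟩⟩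
          · rw [← h2 x hx2.2, h, h2 a ha]
          · rw [← h, h2 x hx2.2])
        (fun x hx => h2 x (hsub hx)) (fun x hx => h3 x (hsub hx)) (fun x hx => h4 x (hsub hx))
      have haA : a ∉ A := fun h => (mem_erase.1 (mem_erase.1 (hA h)).2).1 rfl
      refine ⟨insert a A, insert_subset ha (hA.trans hsub), ?_⟩
      rw [← add_sum_erase s f ha, ← add_sum_erase _ f hb, hsum, h4 a ha, sum_insert haA, smul_add,
        two_smul ℕ (f a), add_assoc]

variable {Ω : Type} [Field Ω] {m : ℕ} [NeZero m] (S : GS Ω m)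

theorem GS.fold [CharZero Ω] {c : ZMod (2 * m)} (hc : c + c ≠ 0) :
    ∃ A : Finset (ZMod (2 * m)), (∀ a ∈ A, a ≠ 0 ∧ c + c - a ≠ 0) ∧
      S.s c * S.g c ^ 2 + S.s (c + m) * S.g (c + m) ^ 2 - S.g (c + c) +
        2 * ∑ a ∈ A, S.s a * (S.g a * S.g (c + c - a)) = 0 := by
  classical
  have hc0 : c ≠ 0 := fun h => hc (by rw [h, add_zero])
  have hcm : c + m ≠ 0 := fun h => hc (by
    have : c = m := by rw [← neg_m]; exact eq_neg_of_add_eq_zero_left h
    rw [this, m_add_m])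
  have hmm : (m : ZMod (2 * m)) + m = 0 := m_add_m
  have hm0 : (m : ZMod (2 * m)) ≠ 0 := m_ne
  let f : ZMod (2 * m) → Ω := fun a => S.s a * (S.g a * S.g (c + c - a))
  let T : Finset (ZMod (2 * m)) := {0, c + c, c, c + m}
  have hsym : ∀ a, S.s (c + c - a) = S.s a := by
    intro a
    rw [sub_eq_add_neg, S.s_add, S.s_add, S.s_sq, S.s_neg, one_mul]
  have hmem : ∀ a, a ∈ univ \ T ↔ a ≠ 0 ∧ a ≠ c + c ∧ a ≠ c ∧ a ≠ c + m := by
    intro a
    simp [T]
  obtain ⟨A, hA, hsum⟩ := sum_fold (univ \ T) (fun a => c + c - a) f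
    (fun a ha => by
      obtain ⟨a1, a2, a3, a4⟩ := (hmem a).1 ha
      refine (hmem _).2 ⟨fun h => a2 ?_, fun h => a1 ?_, fun h => a3 ?_, fun h => a4 ?_⟩
      · linear_combination -h
      · linear_combination -h
      · linear_combination -h
      · linear_combination -h - hmm)
    (fun a _ => by ring)
    (fun a ha h => by
      obtain ⟨a1, a2, a3, a4⟩ := (hmem a).1 ha
      have h' : c + c - a = a := h
      rcases (add_self_eq_zero (a - c)).1 (by linear_combination -h') with h5 | h5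
      · exact a3 (by linear_combination h5)
      · exact a4 (by linear_combination h5))
    (fun a _ => by
      simp only [f]
      rw [hsym, sub_sub_cancel, mul_comm (S.g a)])
  refine ⟨A, fun a ha => ?_, ?_⟩
  · obtain ⟨a1, a2, -, -⟩ := (hmem a).1 (hA ha)
    exact ⟨a1, fun h => a2 (by linear_combination -h)⟩
  · have e := S.eqn (c + c) hc
    have e1 : ∑ a ∈ univ \ T, f a + ∑ a ∈ T, f a = 0 := by
      rw [sum_sdiff (subset_univ T)]
      exact e
    have n1 : (0 : ZMod (2 * m)) ∉ ({c + c, c, c + m} : Finset (ZMod (2 * m))) := by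
      simp only [mem_insert, mem_singleton, not_or]
      exact ⟨hc.symm, hc0.symm, hcm.symm⟩
    have n2 : c + c ∉ ({c, c + m} : Finset (ZMod (2 * m))) := by
      simp only [mem_insert, mem_singleton, not_or]
      exact ⟨fun h => hc0 (by linear_combination h), fun h => hcm (by linear_combination h + hmm)⟩
    have n3 : c ∉ ({c + m} : Finset (ZMod (2 * m))) := by
      simp only [mem_singleton]
      exact fun h => hm0 (by linear_combination -h)
    have e2 : ∑ a ∈ T, f a = f 0 + (f (c + c) + (f c + f (c + m))) := by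
      simp only [T]
      rw [sum_insert n1, sum_insert n2, sum_insert n3, sum_singleton]
    have f0 : f 0 = S.g 0 * S.g (c + c) := by
      simp only [f]
      rw [S.s_zero, sub_zero, one_mul]
    have f1 : f (c + c) = S.g (c + c) * S.g 0 := by
      simp only [f]
      rw [S.s_add, S.s_sq, sub_self, one_mul]
    have f2 : f c = S.s c * S.g c ^ 2 := by
      simp only [f]
      rw [add_sub_cancel_right, sq]
    have f3 : f (c + m) = S.s (c + m) * S.g (c + m) ^ 2 := by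
      simp only [f]
      rw [show c + c - (c + m) = c + m by linear_combination -hmm, sq]
    rw [hsum, e2, f0, f1, f2, f3, two_smul] at e1
    have g0 := S.g0
    change _ + 2 * ∑ a ∈ A, f a = 0
    linear_combination e1 - S.g (c + c) * g0

end Pool.Agent.P.MP_111ca2_co.PR
end

-- part Pool.Agent.P.MP_111ca2_co.PrG1b
section

/-! A maximum principle at the valuations above `2` for which `τ` is a unit. -/

namespace Pool.Agent.P.MP_111ca2_co.PR

open Finset

variable {Ω : Type} [Field Ω] {m : ℕ} [NeZero m] (S : GS Ω m)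
  {Γ : Type} [LinearOrderedCommGroupWithZero Γ] (v : Valuation Ω Γ)

theorem prg1b_le [CharZero Ω] (h2 : v 2 < 1) (hτ : v S.τ = 1) {a : ZMod (2 * m)} (ha : a ≠ 0) :
    v (S.g a) ≤ 1 := by
  have hm : v (S.g m) = 1 := by
    have := S.v_g_m v
    rw [hτ] at this
    exact (pow_eq_one_iff_left two_ne_zero).1 this
  obtain ⟨c, hc, hmax⟩ := Finset.exists_max_image (univ.filter fun a : ZMod (2 * m) => a ≠ 0)
    (fun a => v (S.g a)) ⟨a, by simp [ha]⟩
  have hc0 : c ≠ 0 := (mem_filter.1 hc).2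
  have hle : ∀ b : ZMod (2 * m), b ≠ 0 → v (S.g b) ≤ v (S.g c) := fun b hb =>
    hmax b (by simp [hb])
  refine (hle a ha).trans (not_lt.1 fun hμ => ?_)
  have hpos : 0 < v (S.g c) := zero_lt_one.trans hμ
  have hcm : c ≠ m := by
    rintro rfl
    rw [hm] at hμ
    exact lt_irrefl _ hμ
  have hcc : c + c ≠ 0 := fun h => ((add_self_eq_zero c).1 h).elim hc0 hcm
  have hcm' : c + m ≠ 0 := fun h => hcm (by rw [eq_neg_of_add_eq_zero_left h, neg_m])
  have hsq : v (S.g c) < v (S.g c) ^ 2 := by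
    rw [sq]
    exact lt_mul_of_one_lt_right hpos hμ
  obtain ⟨A, hA, hf⟩ := S.fold hcc
  have h1 : v (S.g (c + c)) < v (S.g c) ^ 2 := (hle _ hcc).trans_lt hsq
  have h3 : v (∑ a ∈ A, S.s a * (S.g a * S.g (c + c - a))) ≤ v (S.g c) ^ 2 := by
    refine v.map_sum_le fun b hb => ?_
    rw [map_mul, map_mul, S.v_s, one_mul, sq]
    exact mul_le_mul' (hle _ (hA b hb).1) (hle _ (hA b hb).2)
  have h4 : v (2 * ∑ a ∈ A, S.s a * (S.g a * S.g (c + c - a))) < v (S.g c) ^ 2 := by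
    rw [map_mul]
    calc v 2 * v (∑ a ∈ A, S.s a * (S.g a * S.g (c + c - a))) ≤ v 2 * v (S.g c) ^ 2 :=
          mul_le_mul' le_rfl h3
      _ < v (S.g c) ^ 2 := mul_lt_of_lt_one_left (pow_pos hpos 2) h2
  have h5 : v (S.g (c + m)) = v (S.g c) := by
    refine le_antisymm (hle _ hcm') (not_lt.1 fun hlt => ?_)
    have h6 : v (S.s (c + m) * S.g (c + m) ^ 2) < v (S.g c) ^ 2 := by
      rw [map_mul, S.v_s, one_mul, map_pow]
      exact pow_lt_pow_left₀ hlt zero_le two_ne_zero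
    have e : S.s c * S.g c ^ 2 = S.g (c + c) - S.s (c + m) * S.g (c + m) ^ 2 -
        2 * ∑ a ∈ A, S.s a * (S.g a * S.g (c + c - a)) := by linear_combination hf
    have h7 : v (S.s c * S.g c ^ 2) < v (S.g c) ^ 2 := by
      rw [e]
      exact v.map_sub_lt (v.map_sub_lt h1 h6) h4
    rw [map_mul, S.v_s, one_mul, map_pow] at h7
    exact lt_irrefl _ h7
  have h8 := congrArg v (S.dup c)
  rw [map_mul, map_mul, map_mul, S.v_W, hm, one_mul, mul_one, h5, ← sq] at h8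
  exact h1.ne h8.symm

theorem GS.all_unit [CharZero Ω] (h2 : v 2 < 1) (hτ : v S.τ = 1) {a : ZMod (2 * m)} (ha : a ≠ 0) :
    v (S.g a) = 1 := by
  have h1 := prg1b_le S v h2 hτ ha
  have h3 := prg1b_le S v h2 hτ (neg_ne_zero.2 ha)
  have h4 := congrArg v (S.rfx a ha)
  rw [map_mul, map_mul, S.v_s, one_mul, hτ] at h4
  refine le_antisymm h1 ?_
  calc (1 : Γ) = v (S.g a) * v (S.g (-a)) := h4.symm
    _ ≤ v (S.g a) * 1 := mul_le_mul' le_rfl h3
    _ = v (S.g a) := mul_one _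

end Pool.Agent.P.MP_111ca2_co.PR
end

-- part Pool.Agent.P.MP_111ca2_co.PrG2
section

/-! Integrality over the polynomial ring localised at `2`. -/

namespace Pool.Agent.P.MP_111ca2_co.PR

open Polynomial

theorem prg2_clear {Ω : Type} [Field Ω] (τ y : Ω) (hτ : τ ≠ 0) (s : Ω)
    (hs : s ∈ Subring.closure ({τ, τ⁻¹, y} : Set Ω)) :
    ∃ (k : ℕ) (P : ℤ[X][X]), τ ^ k * s = eval₂ (aeval τ : ℤ[X] →ₐ[ℤ] Ω).toRingHom y P := by
  induction hs using Subring.closure_induction with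
  | mem z hz =>
    simp only [Set.mem_insert_iff, Set.mem_singleton_iff] at hz
    rcases hz with rfl | rfl | rfl
    · exact ⟨0, C X, by simp⟩
    · exact ⟨1, 1, by simp [hτ]⟩
    · exact ⟨0, X, by simp⟩
  | zero => exact ⟨0, 0, by simp⟩
  | one => exact ⟨0, 1, by simp⟩
  | add a b _ _ ha hb =>
    obtain ⟨k, P, hP⟩ := ha
    obtain ⟨l, Q, hQ⟩ := hb
    refine ⟨k + l, C (X ^ l) * P + C (X ^ k) * Q, ?_⟩
    rw [eval₂_add, eval₂_mul, eval₂_mul, ← hP, ← hQ, eval₂_C, eval₂_C]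
    simp only [AlgHom.toRingHom_eq_coe, RingHom.coe_coe, map_pow, aeval_X]
    ring
  | neg a _ ha =>
    obtain ⟨k, P, hP⟩ := ha
    exact ⟨k, -P, by rw [eval₂_neg, ← hP]; ring⟩
  | mul a b _ _ ha hb =>
    obtain ⟨k, P, hP⟩ := ha
    obtain ⟨l, Q, hQ⟩ := hb
    exact ⟨k + l, P * Q, by rw [eval₂_mul, ← hP, ← hQ]; ring⟩

theorem prg2_not_dvd (k : ℕ) (a : ℤ[X]) : ¬ (2 : ℤ[X]) ∣ X ^ k - 2 * a := by
  intro h
  have h1 : (2 : ℤ[X]) ∣ X ^ k := by
    have := dvd_add h (dvd_mul_right (2 : ℤ[X]) a)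
    simpa using this
  obtain ⟨c, hc⟩ := h1
  have h2 := congrArg (eval 1) hc
  simp only [eval_pow, eval_X, one_pow, eval_mul, eval_ofNat] at h2
  omega

theorem prg2_int {Ω : Type} [Field Ω] (τ y : Ω)
    (h : (aeval τ : ℤ[X] →ₐ[ℤ] Ω).toRingHom.IsIntegralElem y) :
    IsIntegral (Algebra.adjoin ℤ {τ}) y := by
  obtain ⟨p, hp, hy⟩ := h
  let ψ : ℤ[X] →+* Algebra.adjoin ℤ {τ} :=
    ((aeval τ : ℤ[X] →ₐ[ℤ] Ω).toRingHom).codRestrict (Algebra.adjoin ℤ {τ})
      (fun q => aeval_mem_adjoin_singleton ℤ τ)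
  refine ⟨p.map ψ, hp.map ψ, ?_⟩
  rw [eval₂_map]
  exact hy

theorem int_loc {Ω : Type} [Field Ω] (τ x : Ω)
    (h : ∀ V : ValuationSubring Ω, V.valuation 2 < 1 → V.valuation τ = 1 → x ∈ V) :
    ∃ f : ℤ[X], ¬ (2 : ℤ[X]) ∣ f ∧ IsIntegral (Algebra.adjoin ℤ {τ}) (aeval τ f * x) := by
  by_cases hτ : τ = 0
  · refine ⟨X ^ 1 - 2 * 0, prg2_not_dvd 1 0, ?_⟩
    have : aeval τ (X ^ 1 - 2 * 0 : ℤ[X]) * x = 0 := by simp [hτ]
    rw [this]
    exact isIntegral_zero
  by_cases hx : x = 0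
  · refine ⟨X ^ 0 - 2 * 0, prg2_not_dvd 0 0, ?_⟩
    rw [hx, mul_zero]
    exact isIntegral_zero
  set S := Subring.closure ({τ, τ⁻¹, x⁻¹} : Set Ω) with hS
  have hτS : τ ∈ S := Subring.subset_closure (by simp)
  have hτS' : τ⁻¹ ∈ S := Subring.subset_closure (by simp)
  have hxS : x⁻¹ ∈ S := Subring.subset_closure (by simp)
  let I : Ideal S := Ideal.span {2, ⟨x⁻¹, hxS⟩}
  have hI : I = ⊤ := by
    by_contra hI
    obtain ⟨V, hV, hn⟩ := Ideal.image_subset_nonunits_valuationSubring I hI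
    have h2 : V.valuation 2 < 1 := by
      have : (2 : Ω) ∈ V.nonunits :=
        hn ⟨2, Ideal.subset_span (by simp), rfl⟩
      exact V.mem_nonunits_iff.mp this
    have hy : V.valuation x⁻¹ < 1 := by
      have : x⁻¹ ∈ V.nonunits :=
        hn ⟨⟨x⁻¹, hxS⟩, Ideal.subset_span (by simp), rfl⟩
      exact V.mem_nonunits_iff.mp this
    have h3 : V.valuation τ = 1 := by
      have a1 : V.valuation τ ≤ 1 := (V.valuation_le_one_iff τ).mpr (hV hτS)
      have a2 : V.valuation τ⁻¹ ≤ 1 := (V.valuation_le_one_iff τ⁻¹).mpr (hV hτS')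
      refine le_antisymm a1 ?_
      have a3 : V.valuation τ * V.valuation τ⁻¹ = 1 := by
        rw [← map_mul, mul_inv_cancel₀ hτ, map_one]
      calc (1 : V.ValueGroup) = V.valuation τ * V.valuation τ⁻¹ := a3.symm
        _ ≤ V.valuation τ * 1 := by gcongr
        _ = V.valuation τ := mul_one _
    have h4 : V.valuation x ≤ 1 := (V.valuation_le_one_iff x).mpr (h V h2 h3)
    have a3 : V.valuation x * V.valuation x⁻¹ = 1 := by
      rw [← map_mul, mul_inv_cancel₀ hx, map_one]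
    have a4 : V.valuation x * V.valuation x⁻¹ ≤ 1 * V.valuation x⁻¹ := by gcongr
    rw [a3, one_mul] at a4
    exact absurd hy (not_lt.mpr a4)
  have h1 : (1 : S) ∈ I := hI ▸ Submodule.mem_top
  obtain ⟨a, b, hab⟩ := Ideal.mem_span_pair.mp h1
  have hab' : (a : Ω) * 2 + (b : Ω) * x⁻¹ = 1 := by
    have := congrArg (S.subtype) hab
    rw [map_add, map_mul, map_mul, map_ofNat, map_one] at this
    exact this
  obtain ⟨k, P, hP⟩ := prg2_clear τ x⁻¹ hτ a a.2
  obtain ⟨l, Q, hQ⟩ := prg2_clear τ x⁻¹ hτ b b.2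
  set φ := (aeval τ : ℤ[X] →ₐ[ℤ] Ω).toRingHom with hφ
  let R : ℤ[X][X] := C (X ^ (k + l)) - C (2 * X ^ l) * P - C (X ^ k) * Q * X
  have hR : eval₂ φ x⁻¹ R = 0 := by
    simp only [R]
    rw [eval₂_sub, eval₂_sub, eval₂_mul, eval₂_mul, eval₂_mul, ← hP, ← hQ, eval₂_C, eval₂_C,
      eval₂_C, eval₂_X]
    simp only [hφ, AlgHom.toRingHom_eq_coe, RingHom.coe_coe, map_pow, aeval_X, map_mul, map_ofNat]
    linear_combination (-(τ ^ (k + l))) * hab'
  have hc : R.coeff 0 = X ^ (k + l) - 2 * (X ^ l * P.coeff 0) := by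
    simp only [R, coeff_sub, coeff_C_zero, mul_coeff_zero, coeff_X_zero]
    ring
  have hnd : ¬ (2 : ℤ[X]) ∣ R.coeff 0 := hc ▸ prg2_not_dvd _ _
  have hc0 : R.coeff 0 ≠ 0 := fun h0 => hnd (h0 ▸ dvd_zero _)
  refine ⟨R.coeff 0, hnd, prg2_int τ _ ?_⟩
  let _ : Invertible x⁻¹ := invertibleOfNonzero (inv_ne_zero hx)
  have hrev : eval₂ φ x R.reverse = 0 := by
    have := (eval₂_reverse_eq_zero_iff φ x⁻¹ R).mpr hR
    rwa [invOf_eq_inv, inv_inv] at this
  have := φ.isIntegralElem_leadingCoeff_mul R.reverse x hrev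
  rwa [reverse_leadingCoeff, trailingCoeff_eq_coeff_zero hc0] at this

end Pool.Agent.P.MP_111ca2_co.PR
end

-- part Pool.Agent.P.MP_111ca2_co.PrG3
section

/-! Combining the two integrality statements. -/

namespace Pool.Agent.P.MP_111ca2_co.PR

open Polynomial

theorem prg3_step {R S : Type*} [CommRing R] [CommRing S] [IsDomain R] [IsDomain S] [Algebra R S]
    [IsIntegrallyClosed R] [Module.IsTorsionFree R S] {p f : R} (hp : Prime p) (hf : ¬ p ∣ f)
    {y : S} (h1 : IsIntegral R (p • y)) (h2 : IsIntegral R (f • y)) : IsIntegral R y := by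
  have hf0 : f ≠ 0 := by rintro rfl; exact hf (dvd_zero _)
  have e1 := IsIntegrallyClosed.minpoly_smul hf0 h1
  have e2 := IsIntegrallyClosed.minpoly_smul hp.ne_zero h2
  have e3 : f • p • y = p • f • y := smul_comm _ _ _
  rw [e3, e2] at e1
  set P := minpoly R (p • y) with hP
  set Q := minpoly R (f • y) with hQ
  have hdeg : Q.natDegree = P.natDegree := by
    have := congrArg natDegree e1
    simpa [natDegree_scaleRoots] using this
  have hdv : ∀ i, p ^ (P.natDegree - i) ∣ P.coeff i := by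
    intro i
    have := congrArg (fun q => coeff q i) e1
    simp only [coeff_scaleRoots, hdeg] at this
    refine hp.pow_dvd_of_dvd_mul_right _ (b := f ^ (P.natDegree - i))
      (fun h => hf (hp.dvd_of_dvd_pow h)) ?_
    rw [← this]
    exact dvd_mul_left _ _
  choose c hc using hdv
  have hPm : P.Monic := minpoly.monic h1
  let q : R[X] := ∑ i ∈ Finset.range (P.natDegree + 1), monomial i (c i)
  have hqc : ∀ i, q.coeff i = if i < P.natDegree + 1 then c i else 0 := by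
    intro i
    simp only [q, finsetSum_coeff, coeff_monomial, Finset.sum_ite_eq', Finset.mem_range]
  have hctop : c P.natDegree = 1 := by
    have := hc P.natDegree
    rw [Nat.sub_self, pow_zero, one_mul] at this
    rw [← this]
    exact hPm.coeff_natDegree
  have hqle : q.natDegree ≤ P.natDegree := by
    rw [natDegree_le_iff_coeff_eq_zero]
    intro N hN
    rw [hqc, if_neg (by omega)]
  have hqtop : q.coeff P.natDegree = 1 := by
    rw [hqc, if_pos (by omega), hctop]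
  have hqm : q.Monic := monic_of_natDegree_le_of_coeff_eq_one _ hqle hqtop
  have hqd : q.natDegree = P.natDegree :=
    le_antisymm hqle (le_natDegree_of_ne_zero (by rw [hqtop]; exact one_ne_zero))
  have hsc : q.scaleRoots p = P := by
    ext i
    rw [coeff_scaleRoots, hqd, hqc]
    split_ifs with hi
    · rw [mul_comm]; exact (hc i).symm
    · rw [zero_mul, coeff_eq_zero_of_natDegree_lt (by omega)]
  refine ⟨q, hqm, ?_⟩
  have h0 : eval₂ (algebraMap R S) (algebraMap R S p * y) (q.scaleRoots p) = 0 := by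
    rw [hsc, ← Algebra.smul_def, ← aeval_def]
    exact minpoly.aeval _ _
  rw [scaleRoots_eval₂_mul] at h0
  rcases mul_eq_zero.1 h0 with h | h
  · exfalso
    have hz : algebraMap R S p = 0 := eq_zero_of_pow_eq_zero h
    exact hp.ne_zero ((FaithfulSMul.algebraMap_eq_zero_iff R S).1 hz)
  · exact h

theorem prg3_pow {R S : Type*} [CommRing R] [CommRing S] [IsDomain R] [IsDomain S] [Algebra R S]
    [IsIntegrallyClosed R] [Module.IsTorsionFree R S] {p f : R} (hp : Prime p) (hf : ¬ p ∣ f)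
    {y : S} (s : ℕ) (h1 : IsIntegral R (p ^ s • y)) (h2 : IsIntegral R (f • y)) :
    IsIntegral R y := by
  induction s with
  | zero => simpa using h1
  | succ s ih =>
    apply ih
    refine prg3_step hp hf ?_ ?_
    · rw [← mul_smul, ← pow_succ']; exact h1
    · rw [smul_comm]; exact h2.smul _

variable {Ω : Type} [Field Ω] [CharZero Ω]

theorem prg3_trans {τ : Ω} (hτ : Transcendental ℚ τ) : Transcendental ℤ τ := by
  intro h
  exact hτ (h.extendScalars (algebraMap ℤ ℚ).injective_int)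

theorem prg3_le {τ : Ω} {b : Ω} (hb : b ∈ Algebra.adjoin ℤ {τ}) : b ∈ Algebra.adjoin ℚ {τ} := by
  induction hb using Algebra.adjoin_induction with
  | mem x hx => exact Algebra.subset_adjoin hx
  | algebraMap r => simp
  | add x y _ _ hx hy => exact add_mem hx hy
  | mul x y _ _ hx hy => exact mul_mem hx hy

theorem prg3_den {τ : Ω} {b : Ω} (hb : b ∈ Algebra.adjoin ℚ {τ}) :
    ∃ n : ℤ, n ≠ 0 ∧ (n : Ω) * b ∈ Algebra.adjoin ℤ {τ} := by
  induction hb using Algebra.adjoin_induction with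
  | mem x hx => exact ⟨1, one_ne_zero, by simpa using Algebra.subset_adjoin hx⟩
  | algebraMap r =>
    refine ⟨r.den, by exact_mod_cast r.den_ne_zero, ?_⟩
    have : ((r.den : ℤ) : Ω) * algebraMap ℚ Ω r = (r.num : Ω) := by
      rw [eq_ratCast]
      exact_mod_cast Rat.den_mul_eq_num r
    rw [this]
    exact intCast_mem _ _
  | add x y _ _ hx hy =>
    obtain ⟨n, hn, hx⟩ := hx
    obtain ⟨k, hk, hy⟩ := hy
    refine ⟨n * k, mul_ne_zero hn hk, ?_⟩
    have : ((n * k : ℤ) : Ω) * (x + y) = (k : Ω) * ((n : Ω) * x) + (n : Ω) * ((k : Ω) * y) := by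
      push_cast; ring
    rw [this]
    exact add_mem (mul_mem (intCast_mem _ _) hx) (mul_mem (intCast_mem _ _) hy)
  | mul x y _ _ hx hy =>
    obtain ⟨n, hn, hx⟩ := hx
    obtain ⟨k, hk, hy⟩ := hy
    refine ⟨n * k, mul_ne_zero hn hk, ?_⟩
    have : ((n * k : ℤ) : Ω) * (x * y) = ((n : Ω) * x) * ((k : Ω) * y) := by
      push_cast; ring
    rw [this]
    exact mul_mem hx hy

theorem prg3_mult {τ x : Ω} (hq : IsIntegral (Algebra.adjoin ℚ {τ}) x) :
    ∃ n : ℤ, n ≠ 0 ∧ IsIntegral (Algebra.adjoin ℤ {τ}) ((n : Ω) * x) := by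
  obtain ⟨p, hm, hp⟩ := hq
  choose d hd0 hd using fun i : ℕ => prg3_den (p.coeff i).2
  let n : ℤ := ∏ i ∈ Finset.range (p.natDegree + 1), d i
  have hn0 : n ≠ 0 := Finset.prod_ne_zero_iff.2 fun i _ => hd0 i
  have hn : ∀ i, i < p.natDegree → (n : Ω) * (p.coeff i : Ω) ∈ Algebra.adjoin ℤ {τ} := by
    intro i hi
    obtain ⟨k, hk⟩ : d i ∣ n := Finset.dvd_prod_of_mem _ (Finset.mem_range.2 (by omega))
    have : (n : Ω) * (p.coeff i : Ω) = (k : Ω) * ((d i : Ω) * (p.coeff i : Ω)) := by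
      rw [hk]; push_cast; ring
    rw [this]
    exact mul_mem (intCast_mem _ _) (hd i)
  let P : Polynomial Ω := p.map (algebraMap (Algebra.adjoin ℚ {τ}) Ω)
  have hPm : P.Monic := hm.map _
  have hPd : P.natDegree = p.natDegree := hm.natDegree_map _
  have hl : P.scaleRoots (n : Ω) ∈ lifts (algebraMap (Algebra.adjoin ℤ {τ}) Ω) := by
    rw [lifts_iff_coeff_lifts]
    intro i
    have key : (P.scaleRoots (n : Ω)).coeff i ∈ Algebra.adjoin ℤ {τ} := by
      rw [coeff_scaleRoots]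
      rcases lt_trichotomy i P.natDegree with h | h | h
      · obtain ⟨j, hj⟩ : ∃ j, P.natDegree - i = j + 1 := ⟨P.natDegree - i - 1, by omega⟩
        have hc : P.coeff i = (p.coeff i : Ω) := by simp [P]
        have : P.coeff i * (n : Ω) ^ (P.natDegree - i)
            = ((n : Ω) * (p.coeff i : Ω)) * (n : Ω) ^ j := by
          rw [hj, hc]; ring
        rw [this]
        exact mul_mem (hn i (by omega)) (pow_mem (intCast_mem _ _) _)
      · rw [h, hPm.coeff_natDegree, Nat.sub_self, pow_zero, one_mul]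
        exact one_mem _
      · rw [coeff_eq_zero_of_natDegree_lt h, zero_mul]
        exact zero_mem _
    exact ⟨⟨_, key⟩, rfl⟩
  obtain ⟨q, hq, -, hqm⟩ :=
    lifts_and_natDegree_eq_and_monic hl ((monic_scaleRoots_iff _).2 hPm)
  refine ⟨n, hn0, q, hqm, ?_⟩
  rw [← eval_map, hq, scaleRoots_eval_mul, eval_map, hp, mul_zero]

omit [CharZero Ω] in
theorem prg3_mem (τ : Ω) (f : ℤ[X]) : aeval τ f ∈ Algebra.adjoin ℤ {τ} :=
  aeval_mem_adjoin_singleton ℤ τ

theorem alg_of_int {τ x : Ω} (hτ : Transcendental ℚ τ) {f : ℤ[X]} (hf : ¬ (2 : ℤ[X]) ∣ f)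
    (h : IsIntegral (Algebra.adjoin ℤ {τ}) (aeval τ f * x)) :
    IsAlgebraic (Algebra.adjoin ℚ {τ}) x := by
  have hf0 : f ≠ 0 := by rintro rfl; exact hf (dvd_zero _)
  have hne : aeval τ f ≠ 0 := fun h0 => prg3_trans hτ ⟨f, hf0, h0⟩
  let φ : Algebra.adjoin ℤ {τ} →+* Algebra.adjoin ℚ {τ} :=
    RingHom.codRestrict (algebraMap (Algebra.adjoin ℤ {τ}) Ω) (Algebra.adjoin ℚ {τ})
      (fun b => prg3_le b.2)
  have h2 : IsIntegral (Algebra.adjoin ℚ {τ}) (aeval τ f * x) :=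
    IsIntegral.map_of_comp_eq φ (RingHom.id Ω) (by ext b; rfl) h
  let c : Algebra.adjoin ℚ {τ} := ⟨aeval τ f, prg3_le (prg3_mem τ f)⟩
  have hc : c ≠ 0 := fun h0 => hne (congrArg Subtype.val h0)
  refine IsAlgebraic.of_smul_isIntegral (y := c) (by rwa [isNilpotent_iff_eq_zero]) ?_
  exact h2

theorem odd_int {τ x : Ω} (hτ : Transcendental ℚ τ) {f : ℤ[X]} (hf : ¬ (2 : ℤ[X]) ∣ f)
    (h : IsIntegral (Algebra.adjoin ℤ {τ}) (aeval τ f * x))
    (hq : IsIntegral (Algebra.adjoin ℚ {τ}) x) :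
    ∃ N : ℤ, Odd N ∧ IsIntegral (Algebra.adjoin ℤ {τ}) ((N : Ω) * x) := by
  obtain ⟨n, hn0, hn⟩ := prg3_mult hq
  obtain ⟨s, N, hN, hs⟩ : ∃ (s : ℕ) (N : ℤ), ¬ (2 : ℤ) ∣ N ∧ n = 2 ^ s * N :=
    WfDvdMonoid.max_power_factor hn0 Int.prime_two.irreducible
  refine ⟨N, Int.not_even_iff_odd.1 (fun he => hN he.two_dvd), ?_⟩
  let e := Polynomial.algEquivOfTranscendental ℤ τ (prg3_trans hτ)
  have : IsIntegrallyClosed (Algebra.adjoin ℤ {τ}) := IsIntegrallyClosed.of_equiv e.toRingEquiv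
  have hp2 : Prime (2 : ℤ[X]) := by
    have := (Polynomial.prime_C_iff (r := (2 : ℤ))).2 Int.prime_two
    simpa using this
  have hp : Prime (e 2) := (MulEquiv.prime_iff e).2 hp2
  have hfe : ¬ e 2 ∣ e f := fun hd => hf ((map_dvd_iff e).1 hd)
  have hef : ((e f : Algebra.adjoin ℤ {τ}) : Ω) = aeval τ f := by
    simp [e, algEquivOfTranscendental_apply]
  have he2 : ((e 2 : Algebra.adjoin ℤ {τ}) : Ω) = 2 := by
    rw [map_ofNat]; rfl
  refine prg3_pow hp hfe s ?_ ?_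
  · have : (e 2) ^ s • ((N : Ω) * x) = (n : Ω) * x := by
      rw [Subalgebra.smul_def, smul_eq_mul, hs]
      push_cast
      rw [he2]; ring
    rw [this]; exact hn
  · have : (e f) • ((N : Ω) * x) = (N : Ω) * (aeval τ f * x) := by
      rw [Subalgebra.smul_def, smul_eq_mul, hef]; ring
    rw [this]
    have hNi : IsIntegral (Algebra.adjoin ℤ {τ}) (N : Ω) := by
      have := isIntegral_algebraMap (R := Algebra.adjoin ℤ {τ}) (A := Ω)
        (x := (N : Algebra.adjoin ℤ {τ}))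
      simpa using this
    exact hNi.mul h

end Pool.Agent.P.MP_111ca2_co.PR
end

-- part Pool.Agent.P.MP_111ca2_co.PrV1
section

/-! The valuation above `2` for which `τ` is infinitely divisible by `2`. -/

namespace Pool.Agent.P.MP_111ca2_co.PR

open Polynomial

variable {Ω : Type} [Field Ω] [CharZero Ω]

theorem exists_V {τ : Ω} (hτ : Transcendental ℚ τ) : ∃ V : ValuationSubring Ω,
    V.valuation 2 < 1 ∧ ∀ k : ℕ, V.valuation τ ≤ V.valuation 2 ^ k := by
  let T : Subring ℚ[X] := (Int.castRingHom ℚ).range.comap (constantCoeff : ℚ[X] →+* ℚ)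
  let S : Subring Ω := T.map (aeval τ : ℚ[X] →ₐ[ℚ] Ω).toRingHom
  have hinj : Function.Injective (aeval τ : ℚ[X] →ₐ[ℚ] Ω) := transcendental_iff_injective.1 hτ
  have hI : Ideal.span {(2 : S)} ≠ ⊤ := by
    rw [Ne, Ideal.span_singleton_eq_top]
    intro h
    obtain ⟨⟨y, p, hp, rfl⟩, hy⟩ := h.exists_right_inv
    obtain ⟨z, hz⟩ : constantCoeff p ∈ (Int.castRingHom ℚ).range := hp
    have h1 : (2 : Ω) * aeval τ p = 1 := congrArg Subtype.val hy
    have h2 : 2 * p = 1 := hinj (by rw [map_mul, map_ofNat, map_one, h1])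
    have h3 : (2 : ℚ) * constantCoeff p = 1 := by
      have := congrArg (constantCoeff : ℚ[X] →+* ℚ) h2
      rwa [map_mul, map_ofNat, map_one] at this
    rw [← hz, eq_intCast] at h3
    have h4 : 2 * z = 1 := by exact_mod_cast h3
    omega
  obtain ⟨V, hSV, hV⟩ := Ideal.image_subset_nonunits_valuationSubring _ hI
  have h2 : V.valuation 2 < 1 :=
    V.mem_nonunits_iff.1 (hV ⟨2, Ideal.mem_span_singleton_self _, rfl⟩)
  refine ⟨V, h2, fun k => ?_⟩
  have hm : τ / 2 ^ k ∈ S := by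
    refine ⟨C (1 / 2 ^ k) * X, ⟨0, by simp⟩, ?_⟩
    simp [div_eq_inv_mul]
  have h1 : V.valuation (τ / 2 ^ k) ≤ 1 := (V.valuation_le_one_iff _).2 (hSV hm)
  have h0 : (0 : V.ValueGroup) < V.valuation 2 ^ k :=
    pow_pos (zero_lt_iff.2 ((Valuation.ne_zero_iff _).2 two_ne_zero)) k
  rwa [map_div₀, map_pow, div_le_one₀ h0] at h1

omit [CharZero Ω] in
theorem le_one_of_odd_int (V : ValuationSubring Ω) (h2 : V.valuation 2 < 1) {τ x : Ω}
    (hτ : V.valuation τ ≤ 1) {N : ℤ} (hN : Odd N)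
    (h : IsIntegral (Algebra.adjoin ℤ {τ}) ((N : Ω) * x)) : V.valuation x ≤ 1 := by
  have hle : ∀ y ∈ Algebra.adjoin ℤ {τ}, y ∈ V := by
    intro y hy
    induction hy using Algebra.adjoin_induction with
    | mem y hy => rw [Set.mem_singleton_iff.1 hy]; exact (V.valuation_le_one_iff _).1 hτ
    | algebraMap r => simp
    | add _ _ _ _ h1 h2 => exact add_mem h1 h2
    | mul _ _ _ _ h1 h2 => exact mul_mem h1 h2
  let φ : Algebra.adjoin ℤ {τ} →+* V :=
    (Algebra.adjoin ℤ {τ}).val.toRingHom.codRestrict V (fun y => hle y y.2)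
  have h1 : IsIntegral V ((N : Ω) * x) :=
    IsIntegral.map_of_comp_eq φ (RingHom.id Ω) (by ext y; rfl) h
  obtain ⟨y, hy⟩ := IsIntegrallyClosed.isIntegral_iff.1 h1
  have h3 : V.valuation ((N : Ω) * x) ≤ 1 := by
    rw [← hy]
    exact (V.valuation_le_one_iff _).2 y.2
  obtain ⟨j, rfl⟩ := hN
  have hj : V.valuation (j : Ω) ≤ 1 := (V.valuation_le_one_iff _).2 (intCast_mem V j)
  have h4 : V.valuation ((2 * j + 1 : ℤ) : Ω) = 1 := by
    have : V.valuation (2 * (j : Ω)) < 1 := by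
      rw [map_mul]
      exact lt_of_le_of_lt (mul_le_of_le_one_right' hj) h2
    push_cast
    rw [add_comm]
    exact Valuation.map_one_add_of_lt _ this
  rwa [map_mul, h4, one_mul] at h3

end Pool.Agent.P.MP_111ca2_co.PR
end

-- part Pool.Agent.P.MP_111ca2_co.PrV2a
section

/-! Values of the Gauss sums when all Jacobi sums are integral. -/

namespace Pool.Agent.P.MP_111ca2_co.PR

open Finset

variable {Ω : Type} [Field Ω] {m : ℕ} [NeZero m] (S : GS Ω m)
  {Γ : Type} [LinearOrderedCommGroupWithZero Γ] (v : Valuation Ω Γ)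

theorem GS.psi_le (hτ : v S.τ ≤ 1)
    (hj : ∀ a b, a ≠ 0 → b ≠ 0 → a + b ≠ 0 → v (S.jj a b) ≤ 1) (a b : ZMod (2 * m)) :
    S.psi v a * S.psi v b ≤ S.psi v (a + b) := by
  by_cases ha : a = 0
  · rw [ha, S.psi_zero, one_mul, zero_add]
  by_cases hb : b = 0
  · rw [hb, S.psi_zero, mul_one, add_zero]
  by_cases hab : a + b = 0
  · rw [hab, S.psi_zero, eq_neg_of_add_eq_zero_right hab, S.psi_neg v ha]
    exact hτ
  have h := hj a b ha hb hab
  rw [GS.jj, map_div₀, map_mul, div_le_one₀ (zero_lt_iff.2 (S.v_g_ne v _))] at h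
  rw [S.psi_of_ne v ha, S.psi_of_ne v hb, S.psi_of_ne v hab]
  exact h

theorem GS.le_psi (hτ : v S.τ ≤ 1)
    (hj : ∀ a b, a ≠ 0 → b ≠ 0 → a + b ≠ 0 → v (S.jj a b) ≤ 1) (a b : ZMod (2 * m)) :
    v S.τ * S.psi v (a + b) ≤ S.psi v a * S.psi v b := by
  by_cases hb : b = 0
  · rw [hb, S.psi_zero, mul_one, add_zero]
    calc v S.τ * S.psi v a ≤ 1 * S.psi v a := by gcongr
      _ = S.psi v a := one_mul _
  have h := S.psi_le v hτ hj (a + b) (-b)
  rw [add_neg_cancel_right] at h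
  calc v S.τ * S.psi v (a + b) = S.psi v (a + b) * S.psi v (-b) * S.psi v b := by
        rw [← S.psi_neg v hb]; ac_rfl
    _ ≤ S.psi v a * S.psi v b := by gcongr

theorem GS.psi_shift [CharZero Ω] (h2 : v 2 < 1)
    (hj : ∀ a b, a ≠ 0 → b ≠ 0 → a + b ≠ 0 → v (S.jj a b) ≤ 1) (c : ZMod (2 * m)) :
    S.psi v (c + m) = S.psi v c * v (S.g m) ∨ S.psi v (c + m) * v (S.g m) = S.psi v c := by
  by_cases hc0 : c = 0
  · left
    rw [hc0, zero_add, S.psi_zero, one_mul, S.psi_of_ne v m_ne]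
  by_cases hcm : c = m
  · right
    rw [hcm, m_add_m, S.psi_zero, one_mul, S.psi_of_ne v m_ne]
  have hcc : c + c ≠ 0 := fun h => ((add_self_eq_zero c).1 h).elim hc0 hcm
  have hcm' : c + (m : ZMod (2 * m)) ≠ 0 := fun h =>
    hcm ((eq_neg_of_add_eq_zero_left h).trans neg_m)
  have hsum : c + (m : ZMod (2 * m)) + (c + m) = c + c := by
    linear_combination (m_add_m : (m : ZMod (2 * m)) + m = 0)
  obtain ⟨A, hA, hf⟩ := S.fold hcc
  have hg := S.g_ne (c + c)
  have hT : v (∑ a ∈ A, S.s a * S.jj a (c + c - a)) ≤ 1 := by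
    refine v.map_sum_le fun a ha => ?_
    rw [map_mul, S.v_s, one_mul]
    refine hj a _ (hA a ha).1 (hA a ha).2 ?_
    rwa [add_sub_cancel]
  have hT2 : v (-(2 * ∑ a ∈ A, S.s a * S.jj a (c + c - a))) < 1 := by
    rw [Valuation.map_neg, map_mul]
    calc v 2 * v (∑ a ∈ A, S.s a * S.jj a (c + c - a)) ≤ v 2 * 1 := by gcongr
      _ = v 2 := mul_one _
      _ < 1 := h2
  have hs : ∑ a ∈ A, S.s a * (S.g a * S.g (c + c - a)) =
      (∑ a ∈ A, S.s a * S.jj a (c + c - a)) * S.g (c + c) := by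
    rw [sum_mul]
    refine sum_congr rfl fun a _ => ?_
    rw [GS.jj, add_sub_cancel, mul_assoc, div_mul_cancel₀ _ hg]
  have he : S.s c * S.jj c c + S.s (c + m) * S.jj (c + m) (c + m) =
      1 + -(2 * ∑ a ∈ A, S.s a * S.jj a (c + c - a)) := by
    rw [hs] at hf
    apply mul_right_cancel₀ hg
    rw [GS.jj, GS.jj, hsum, add_mul, mul_assoc, mul_assoc, div_mul_cancel₀ _ hg,
      div_mul_cancel₀ _ hg]
    linear_combination hf
  have hv : v (S.s c * S.jj c c + S.s (c + m) * S.jj (c + m) (c + m)) = 1 := by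
    rw [he]
    exact v.map_one_add_of_lt hT2
  have hd : v (S.g c) * v (S.g (c + m)) = v (S.g (c + c)) * v (S.g m) := by
    have := congrArg v (S.dup c)
    rwa [map_mul, map_mul, map_mul, S.v_W, one_mul] at this
  have h1 := hj c c hc0 hc0 hcc
  have h1' := hj (c + m) (c + m) hcm' hcm' (hsum ▸ hcc)
  rw [S.psi_of_ne v hcm', S.psi_of_ne v hc0]
  rcases h1.eq_or_lt with h | h
  · left
    rw [GS.jj, map_div₀, map_mul, div_eq_one_iff_eq (S.v_g_ne v _)] at h
    rw [← h, mul_assoc] at hd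
    exact mul_left_cancel₀ (S.v_g_ne v c) hd
  rcases h1'.eq_or_lt with h' | h'
  · right
    rw [GS.jj, map_div₀, map_mul, div_eq_one_iff_eq (S.v_g_ne v _), hsum] at h'
    rw [← h', mul_assoc, mul_comm] at hd
    exact (mul_left_cancel₀ (S.v_g_ne v (c + m)) hd).symm
  exfalso
  have hlt : v (S.s c * S.jj c c + S.s (c + m) * S.jj (c + m) (c + m)) < 1 := by
    refine v.map_add_lt ?_ ?_
    · rwa [map_mul, S.v_s, one_mul]
    · rwa [map_mul, S.v_s, one_mul]
  exact absurd hv hlt.ne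

end Pool.Agent.P.MP_111ca2_co.PR
end

-- part Pool.Agent.P.MP_111ca2_co.PrV2b
section

/-! Two lemmas on functions with values in an ordered group. -/

namespace Pool.Agent.P.MP_111ca2_co.PR

open Finset

variable {Γ : Type} [LinearOrderedCommGroupWithZero Γ]

theorem triple {A : Type} [AddCommGroup A] (ψ : A → Γ) (μ : A) (κ : Γ) (hμ : μ + μ = 0)
    (h0 : ∀ a, ψ a ≠ 0) (hκ : κ ≠ 0)
    (hs : ∀ c, ψ (c + μ) = ψ c * κ ∨ ψ (c + μ) * κ = ψ c)
    (hu : ∀ a b, ψ a * ψ b ≤ ψ (a + b)) (hl : ∀ a b, κ ^ 2 * ψ (a + b) ≤ ψ a * ψ b) (a b : A) :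
    ψ a * ψ b = ψ (a + b) ∨ ψ a * ψ b = κ ^ 2 * ψ (a + b) := by
  have hk : 0 < κ := zero_lt_iff.2 hκ
  have e1 : a + μ + (b + μ) = a + b := by
    rw [add_add_add_comm, hμ, add_zero]
  have mixed : ∀ a b : A, ψ (a + μ) = ψ a * κ → ψ (b + μ) * κ = ψ b →
      ψ a * ψ b = ψ (a + b) ∨ ψ a * ψ b = κ ^ 2 * ψ (a + b) := by
    intro a b ha hb
    rcases hs (a + b) with h | h
    · right
      refine le_antisymm ?_ (hl a b)
      have := mul_le_mul_left (hu a (b + μ)) κ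
      rw [← add_assoc, h, mul_assoc, hb] at this
      calc ψ a * ψ b ≤ ψ (a + b) * κ * κ := this
        _ = κ ^ 2 * ψ (a + b) := by rw [sq]; ac_rfl
    · left
      refine le_antisymm (hu a b) ?_
      have := hl (a + μ) b
      rw [add_right_comm, ha] at this
      refine le_of_mul_le_mul_right ?_ hk
      calc ψ (a + b) * κ = κ ^ 2 * ψ (a + b + μ) := by rw [← h, sq]; ac_rfl
        _ ≤ ψ a * κ * ψ b := this
        _ = ψ a * ψ b * κ := by ac_rfl
  rcases hs a with ha | ha <;> rcases hs b with hb | hb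
  · left
    refine le_antisymm (hu a b) ?_
    have := hl (a + μ) (b + μ)
    rw [e1, ha, hb] at this
    refine le_of_mul_le_mul_left ?_ (pow_pos hk 2)
    calc κ ^ 2 * ψ (a + b) ≤ ψ a * κ * (ψ b * κ) := this
      _ = κ ^ 2 * (ψ a * ψ b) := by rw [sq]; ac_rfl
  · exact mixed a b ha hb
  · rw [mul_comm, add_comm]; exact mixed b a hb ha
  · right
    refine le_antisymm ?_ (hl a b)
    have := mul_le_mul_right (hu (a + μ) (b + μ)) (κ ^ 2)
    rw [e1] at this
    calc ψ a * ψ b = κ ^ 2 * (ψ (a + μ) * ψ (b + μ)) := by rw [← ha, ← hb, sq]; ac_rfl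
      _ ≤ _ := this

theorem exists_t {n : ℕ} [NeZero n] (hn : 1 < n) (ψ : ZMod n → Γ) (D : Γ) (hD0 : D ≠ 0) (hD : D < 1)
    (h0 : ψ 0 = 1) (hneg : ∀ a, a ≠ 0 → ψ a * ψ (-a) = D)
    (hd : ∀ a b, ψ a * ψ b = ψ (a + b) ∨ ψ a * ψ b = D * ψ (a + b)) :
    ∃ t : ZMod n, IsUnit t ∧ ψ t ^ n = D ∧ ∀ i : ℕ, i < n → ψ (i * t) = ψ t ^ i := by
  have hDpos : 0 < D := zero_lt_iff.2 hD0
  have inj : ∀ {i j : ℕ}, D ^ i = D ^ j → i = j := fun h =>
    (pow_right_strictAnti₀ hDpos hD).injective h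
  have hpow : ∀ (a : ZMod n) (j : ℕ), ∃ e : ℕ, ψ a ^ j = D ^ e * ψ (j * a) := by
    intro a j
    induction j with
    | zero => exact ⟨0, by simp [h0]⟩
    | succ j ih =>
      obtain ⟨e, he⟩ := ih
      rw [pow_succ, he, Nat.cast_succ, add_mul, one_mul, mul_assoc]
      rcases hd (j * a) a with h | h
      · exact ⟨e, by rw [h]⟩
      · exact ⟨e + 1, by rw [h, pow_succ, mul_assoc]⟩
  have hk : ∀ a : ZMod n, ∃ e : ℕ, ψ a ^ n = D ^ e := fun a => by
    obtain ⟨e, he⟩ := hpow a n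
    exact ⟨e, by simpa [h0] using he⟩
  choose k hk using hk
  have k0 : k 0 = 0 := inj (by rw [← hk, h0]; simp)
  have kadd : ∀ a b, k a + k b = k (a + b) ∨ k a + k b = k (a + b) + n := by
    intro a b
    rcases hd a b with h | h
    · left; apply inj; rw [pow_add, ← hk, ← hk, ← hk, ← mul_pow, h]
    · right; apply inj; rw [pow_add, pow_add, ← hk, ← hk, ← hk, ← mul_pow, h, mul_pow, mul_comm]
  have kneg : ∀ a, a ≠ 0 → k a + k (-a) = n := fun a ha => by
    apply inj; rw [pow_add, ← hk, ← hk, ← mul_pow, hneg a ha]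
  have kne : ∀ a, a ≠ 0 → k a ≠ 0 := by
    intro a ha h
    have : ∀ j : ℕ, k (j * a) = 0 := by
      intro j
      induction j with
      | zero => simpa using k0
      | succ j ih =>
        rw [Nat.cast_succ, add_mul, one_mul]
        rcases kadd (j * a) a with h1 | h1 <;> omega
    have h1 := this (n - 1)
    rw [Nat.cast_sub hn.le, ZMod.natCast_self, Nat.cast_one, zero_sub, neg_one_mul] at h1
    have := kneg a ha
    omega
  have klt : ∀ a, k a < n := by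
    intro a
    by_cases ha : a = 0
    · rw [ha, k0]; omega
    · have := kneg a ha
      have := kne (-a) (neg_ne_zero.2 ha)
      omega
  let φ : ZMod n →+ ZMod n := AddMonoidHom.mk' (fun a => (k a : ZMod n)) fun a b => by
    rcases kadd a b with h | h
    · rw [← h, Nat.cast_add]
    · have := congrArg (Nat.cast : ℕ → ZMod n) h
      simpa using this.symm
  have φinj : Function.Injective φ := by
    rw [injective_iff_map_eq_zero]
    intro a ha
    by_contra h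
    have h1 : n ∣ k a := (ZMod.natCast_eq_zero_iff _ _).1 ha
    have := Nat.le_of_dvd (Nat.pos_of_ne_zero (kne a h)) h1
    have := klt a
    omega
  obtain ⟨t, ht⟩ := Finite.surjective_of_injective φinj 1
  have φm : ∀ i : ℕ, φ (i * t) = i := fun i => by
    rw [← nsmul_eq_mul, map_nsmul, ht, nsmul_eq_mul, mul_one]
  have ki : ∀ i : ℕ, i < n → k (i * t) = i := fun i hi => by
    have := (ZMod.natCast_eq_natCast_iff' _ _ _).1 (φm i)
    rwa [Nat.mod_eq_of_lt (klt _), Nat.mod_eq_of_lt hi] at this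
  have k1 : ψ t ^ n = D := by
    have := ki 1 hn
    rw [Nat.cast_one, one_mul] at this
    rw [hk, this, pow_one]
  refine ⟨t, ?_, k1, fun i hi => ?_⟩
  · have : Function.Injective fun x : ZMod n => x * t := by
      intro x y hxy
      have := congrArg φ hxy
      simp only at this
      rw [← ZMod.natCast_zmod_val x, ← ZMod.natCast_zmod_val y, φm, φm] at this
      rw [← ZMod.natCast_zmod_val x, ← ZMod.natCast_zmod_val y, this]
    obtain ⟨x, hx⟩ := Finite.surjective_of_injective this 1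
    exact IsUnit.of_mul_eq_one_right x hx
  · refine pow_left_injective (NeZero.ne n) ?_
    simp only
    rw [hk, ki i hi, ← pow_mul, mul_comm, pow_mul, k1]

end Pool.Agent.P.MP_111ca2_co.PR
end
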