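import Pool.Agent.K.MP_111ca2_co.C0

-- part Pool.Agent.P.MP_111ca2_co.PrV3a
section

/-! The quotient of a valuation ring by the elements infinitely divisible by `2`. -/

namespace Pool.Agent.P.MP_111ca2_co.PR

open Finset

variable {Ω : Type} [Field Ω] [CharZero Ω]

/-- elements infinitely divisible by `2` -/
def prv3a_ideal (V : ValuationSubring Ω) : Ideal V where
  carrier := {x | ∀ k : ℕ, V.valuation x ≤ V.valuation 2 ^ k}
  add_mem' := fun {x y} hx hy k => by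
    rw [AddMemClass.coe_add]
    exact V.valuation.map_add_le (hx k) (hy k)
  zero_mem' := fun k => by simp
  smul_mem' := fun c x hx k => by
    rw [smul_eq_mul, MulMemClass.coe_mul, map_mul]
    exact (mul_le_of_le_one_left' (V.valuation_le_one c)).trans (hx k)

omit [CharZero Ω] in
theorem prv3a_mem (V : ValuationSubring Ω) (x : V) :
    x ∈ prv3a_ideal V ↔ ∀ k : ℕ, V.valuation x ≤ V.valuation 2 ^ k := Iff.rfl

theorem exists_quot (V : ValuationSubring Ω) (h2 : V.valuation 2 < 1) :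
    ∃ (R : Type) (_ : CommRing R) (_ : IsDomain R) (_ : ValuationRing R) (π : V →+* R),
      (2 : R) ≠ 0 ∧ ¬ IsUnit (2 : R) ∧
        ∀ x : V, (∀ k : ℕ, V.valuation x ≤ V.valuation 2 ^ k) → π x = 0 := by
  have h0 : 0 < V.valuation 2 := by
    rw [zero_lt_iff, Valuation.ne_zero_iff]
    exact two_ne_zero
  have hprime : (prv3a_ideal V).IsPrime := by
    refine ⟨fun h => ?_, fun {x y} hxy => ?_⟩
    · have h1 : (1 : V) ∈ prv3a_ideal V := by rw [h]; trivial
      have h3 := (prv3a_mem V 1).1 h1 1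
      rw [OneMemClass.coe_one, map_one, pow_one] at h3
      exact absurd h2 (not_lt.2 h3)
    · by_contra hne
      rw [not_or, prv3a_mem, prv3a_mem] at hne
      push Not at hne
      obtain ⟨⟨k, hk⟩, ⟨l, hl⟩⟩ := hne
      have h3 := (prv3a_mem V _).1 hxy (k + l)
      rw [MulMemClass.coe_mul, map_mul, pow_add] at h3
      exact absurd (mul_lt_mul'' hk hl zero_le zero_le) (not_lt.2 h3)
  have hc2 : ((2 : V) : Ω) = 2 := rfl
  refine ⟨V ⧸ prv3a_ideal V, inferInstance, inferInstance,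
    Function.Surjective.valuationRing (Ideal.Quotient.mk _) Ideal.Quotient.mk_surjective,
    Ideal.Quotient.mk _, ?_, ?_, fun x hx => Ideal.Quotient.eq_zero_iff_mem.2 hx⟩
  · intro h
    have h1 : Ideal.Quotient.mk (prv3a_ideal V) 2 = 0 := by rw [map_ofNat]; exact h
    have h3 := (prv3a_mem V _).1 (Ideal.Quotient.eq_zero_iff_mem.1 h1) 2
    rw [hc2, sq] at h3
    have h4 := mul_lt_mul_of_pos_left h2 h0
    rw [mul_one] at h4
    exact absurd h4 (not_lt.2 h3)
  · intro h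
    obtain ⟨b, hb⟩ := h.exists_right_inv
    obtain ⟨a, rfl⟩ := Ideal.Quotient.mk_surjective b
    have h1 : Ideal.Quotient.mk (prv3a_ideal V) (1 + -(2 * a)) = 0 := by
      rw [map_add, map_neg, map_mul, map_ofNat, hb, map_one, add_neg_cancel]
    have h3 := (prv3a_mem V _).1 (Ideal.Quotient.eq_zero_iff_mem.1 h1) 1
    have h4 : V.valuation (-(2 * (a : Ω))) < 1 := by
      rw [Valuation.map_neg, map_mul]
      exact lt_of_le_of_lt (mul_le_of_le_one_right' (V.valuation_le_one a)) h2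
    have h5 : ((1 + -(2 * a) : V) : Ω) = 1 + -(2 * (a : Ω)) := rfl
    rw [h5, Valuation.map_one_add_of_lt _ h4, pow_one] at h3
    exact absurd h2 (not_lt.2 h3)

end Pool.Agent.P.MP_111ca2_co.PR
end

-- part Pool.Agent.P.MP_111ca2_co.PrV3b
section

/-! The normalised Gauss sums along an extremal generator. -/

namespace Pool.Agent.P.MP_111ca2_co.PR

open Finset

variable {Ω : Type} [Field Ω] {m : ℕ} [NeZero m] (S : GS Ω m)
  {Γ : Type} [LinearOrderedCommGroupWithZero Γ] (v : Valuation Ω Γ)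

theorem prv3b_odd {t : ZMod (2 * m)} (ht : IsUnit t) : ∃ k : ℕ, t.val = 2 * k + 1 := by
  have h : IsUnit ((t.val : ℕ) : ZMod (2 * m)) := by rwa [ZMod.natCast_zmod_val]
  rw [ZMod.isUnit_iff_coprime] at h
  exact Nat.coprime_two_right.1 (Nat.Coprime.coprime_mul_right_right h)

theorem prv3b_s {t : ZMod (2 * m)} (ht : IsUnit t) (i : ℕ) : S.s (i * t) = (-1) ^ i := by
  obtain ⟨k, hk⟩ := prv3b_odd ht
  have h1 : S.s t = -1 := by rw [S.s_val, hk, pow_succ, pow_mul]; simp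
  induction i with
  | zero => simp [S.s_zero]
  | succ i ih => rw [Nat.cast_succ, add_mul, one_mul, S.s_add, ih, h1, pow_succ]

theorem prv3b_m {t : ZMod (2 * m)} (ht : IsUnit t) : (m : ZMod (2 * m)) * t = m := by
  obtain ⟨k, hk⟩ := prv3b_odd ht
  have h : t = 2 * (k : ZMod (2 * m)) + 1 := by
    rw [← ZMod.natCast_zmod_val t, hk]; push_cast; ring
  rw [h]
  linear_combination (k : ZMod (2 * m)) * (m_add_m (m := m))

omit [NeZero m] in
theorem prv3b_ne {t : ZMod (2 * m)} (ht : IsUnit t) {i : ℕ} (h0 : 0 < i) (h : i < 2 * m) :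
    (i : ZMod (2 * m)) * t ≠ 0 := fun h' => cast_ne h0 h (ht.mul_left_eq_zero.1 h')

theorem prv3b_sum {M : Type} [AddCommMonoid M] {t : ZMod (2 * m)} (ht : IsUnit t)
    (f : ZMod (2 * m) → M) : ∑ a, f a = ∑ i ∈ range (2 * m), f ((i : ZMod (2 * m)) * t) := by
  have h1 : ∑ a, f a = ∑ a, f (a * t) := (Equiv.sum_comp ht.unit.mulRight f).symm
  rw [h1]
  refine Finset.sum_nbij' (fun a => a.val) (fun i => (i : ZMod (2 * m))) ?_ ?_ ?_ ?_ ?_
  · intro a _
    exact mem_range.2 (ZMod.val_lt a)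
  · intro i _
    exact mem_univ _
  · intro a _
    exact ZMod.natCast_zmod_val a
  · intro i hi
    exact ZMod.val_cast_of_lt (mem_range.1 hi)
  · intro a _
    rw [ZMod.natCast_zmod_val]

theorem prv3b_split {M : Type} [AddCommMonoid M] {c N : ℕ} (h0 : 0 < c) (h : c < N) (f : ℕ → M) :
    ∑ i ∈ range N, f i = f 0 + ∑ i ∈ Ioo 0 c, f i + f c + ∑ i ∈ Ioo c N, f i := by
  rw [range_eq_Ico, ← sum_Ico_consecutive f (Nat.zero_le c) h.le,
    sum_eq_sum_Ico_succ_bot h0, sum_eq_sum_Ico_succ_bot h, Finset.Ico_add_one_left_eq_Ioo,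
    Finset.Ico_add_one_left_eq_Ioo, ← add_assoc]

theorem GS.exists_pre {t : ZMod (2 * m)} (ht : IsUnit t) (hD : S.psi v t ^ (2 * m) = v S.τ)
    (hi : ∀ i : ℕ, i < 2 * m → S.psi v (i * t) = S.psi v t ^ i) : Nonempty (Pre v (v S.τ) m) := by
  have hm : 0 < m := Nat.pos_of_ne_zero (NeZero.ne m)
  have ht0 : t ≠ 0 := by simpa using prv3b_ne ht (i := 1) one_pos (by omega)
  have hG : (-S.g t) ≠ 0 := neg_ne_zero.2 (S.g_ne t)
  have hvG : v (-S.g t) ≠ 0 := (map_ne_zero v).2 hG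
  have hv : ∀ i : ℕ, 0 < i → i < 2 * m → v (S.g (i * t)) = v (-S.g t) ^ i := by
    intro i h0 h
    rw [← S.psi_of_ne v (prv3b_ne ht h0 h), hi i h, S.psi_of_ne v ht0, Valuation.map_neg]
  have hD' : v (-S.g t) ^ (2 * m) = v S.τ := by
    rw [← hD, S.psi_of_ne v ht0, Valuation.map_neg]
  have h2m : ((2 * m : ℕ) : ZMod (2 * m)) = 0 := ZMod.natCast_self _
  refine ⟨⟨fun i => -S.g (i * t) / (-S.g t) ^ i, S.W t, ?_, S.W_pow t, ?_, ?_, ?_, ?_⟩⟩
  · intro i h0 h
    rw [map_div₀, Valuation.map_neg, hv i h0 h, map_pow, div_self (pow_ne_zero _ hvG)]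
  · simp [S.g_ne t]
  · intro c h0 hc
    have e := S.eqn _ (prv3b_ne ht (i := 2 * c) (by omega) (by omega))
    rw [prv3b_sum ht, prv3b_split (c := 2 * c) (by omega) (by omega)] at e
    simp only [prv3b_s S ht] at e
    have e1 : ∑ a ∈ Ioo 0 (2 * c), (-1 : Ω) ^ a * (-S.g ((a : ZMod (2 * m)) * t) / (-S.g t) ^ a *
        (-S.g (((2 * c - a : ℕ) : ZMod (2 * m)) * t) / (-S.g t) ^ (2 * c - a))) =
        (∑ a ∈ Ioo 0 (2 * c), (-1 : Ω) ^ a * (S.g ((a : ZMod (2 * m)) * t) *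
          S.g (((2 * c : ℕ) : ZMod (2 * m)) * t - (a : ZMod (2 * m)) * t))) / (-S.g t) ^ (2 * c) := by
      rw [Finset.sum_div]
      refine Finset.sum_congr rfl fun a ha => ?_
      have ha' := (mem_Ioo.1 ha).2.le
      rw [Nat.cast_sub ha', sub_mul, div_mul_div_comm, ← pow_add, Nat.add_sub_cancel' ha',
        neg_mul_neg, ← mul_div_assoc]
    have e2 : -S.g (((2 * c : ℕ) : ZMod (2 * m)) * t) / (-S.g t) ^ (2 * c) +
        (∑ a ∈ Ioo 0 (2 * c), (-1 : Ω) ^ a * (S.g ((a : ZMod (2 * m)) * t) *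
          S.g (((2 * c : ℕ) : ZMod (2 * m)) * t - (a : ZMod (2 * m)) * t))) / (-S.g t) ^ (2 * c) =
        -∑ a ∈ Ioo (2 * c) (2 * m), ((-1 : Ω) ^ a * (S.g ((a : ZMod (2 * m)) * t) *
          S.g (((2 * c : ℕ) : ZMod (2 * m)) * t - (a : ZMod (2 * m)) * t))) / (-S.g t) ^ (2 * c) := by
      rw [← Finset.sum_div, ← neg_div, ← add_div]
      congr 1
      have e3 : (-1 : Ω) ^ (2 * c) = 1 := by rw [pow_mul]; simp
      rw [e3] at e
      simp only [Nat.cast_zero, zero_mul, sub_zero, sub_self, pow_zero, one_mul] at e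
      linear_combination e - S.g (((2 * c : ℕ) : ZMod (2 * m)) * t) * S.g0
    show v (-S.g (((2 * c : ℕ) : ZMod (2 * m)) * t) / (-S.g t) ^ (2 * c) + _) ≤ _
    rw [e1, e2, Valuation.map_neg]
    refine Valuation.map_sum_le v fun a ha => le_of_eq ?_
    obtain ⟨ha1, ha2⟩ := mem_Ioo.1 ha
    have e4 : ((2 * c : ℕ) : ZMod (2 * m)) * t - (a : ZMod (2 * m)) * t =
        ((2 * m + 2 * c - a : ℕ) : ZMod (2 * m)) * t := by
      rw [Nat.cast_sub (by omega), Nat.cast_add, h2m, zero_add, sub_mul]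
    rw [e4, map_div₀, map_mul, map_mul, map_pow, map_pow, Valuation.map_neg, map_one, one_pow,
      one_mul, hv a (by omega) ha2, hv _ (by omega) (by omega), ← pow_add,
      show a + (2 * m + 2 * c - a) = 2 * m + 2 * c by omega, pow_add, hD',
      mul_div_assoc, div_self (pow_ne_zero _ hvG), mul_one]
  · intro a h0 ha
    have e := S.dup (a * t)
    have e1 : ((a + m : ℕ) : ZMod (2 * m)) * t = a * t + m := by
      rw [Nat.cast_add, add_mul, prv3b_m ht]
    have e2 : ((2 * a : ℕ) : ZMod (2 * m)) * t = a * t + a * t := by push_cast; ring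
    rw [S.W_nat] at e
    show -S.g (a * t) / _ * (-S.g (((a + m : ℕ) : ZMod (2 * m)) * t) / _) =
      _ * (-S.g (((2 * a : ℕ) : ZMod (2 * m)) * t) / _) * (-S.g ((m : ZMod (2 * m)) * t) / _)
    rw [e1, e2, prv3b_m ht, div_mul_div_comm, neg_mul_neg, e, mul_assoc (S.W t ^ a) (_ / _),
      div_mul_div_comm, neg_mul_neg, ← pow_add, ← pow_add,
      show a + (a + m) = 2 * a + m by omega, mul_assoc, mul_div_assoc]
  · intro a h0 ha
    have e := S.rfx (a * t) (prv3b_ne ht h0 ha)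
    have e1 : ((2 * m - a : ℕ) : ZMod (2 * m)) * t = -(a * t) := by
      rw [Nat.cast_sub ha.le, h2m, zero_sub, neg_mul]
    show -S.g (a * t) / _ * (-S.g (((2 * m - a : ℕ) : ZMod (2 * m)) * t) / _) =
      _ * (-S.g ((m : ZMod (2 * m)) * t) / _) ^ 2
    rw [e1, prv3b_m ht, div_mul_div_comm, neg_mul_neg, e, div_pow, neg_sq, S.g_m_sq, S.s_nat,
      prv3b_s S ht, ← pow_add, ← pow_mul, Nat.add_sub_cancel' ha.le, mul_comm m 2,
      ← mul_div_assoc, ← mul_assoc, ← pow_add, add_assoc, pow_add, ← two_mul, pow_mul]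
    simp

end Pool.Agent.P.MP_111ca2_co.PR
end

-- part Pool.Agent.P.MP_111ca2_co.PrV3c
section

/-! Reduction of the local system. -/

namespace Pool.Agent.P.MP_111ca2_co.PR

open Finset

theorem prv3c_unit {Ω : Type} [Field Ω] (V : ValuationSubring Ω) (x : Ω)
    (hx : V.valuation x = 1) : ∃ u : Vˣ, ((u : V) : Ω) = x := by
  have hmem : x ∈ V := (V.valuation_le_one_iff x).mp hx.le
  have hu : IsUnit (⟨x, hmem⟩ : V) := (V.valuation_eq_one_iff ⟨x, hmem⟩).mpr hx
  obtain ⟨u, hu⟩ := hu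
  exact ⟨u, by rw [hu]⟩

theorem prv3c_inj {Ω : Type} [Field Ω] (V : ValuationSubring Ω) {u w : Vˣ}
    (h : ((u : V) : Ω) = ((w : V) : Ω)) : u = w :=
  Units.ext (Subtype.ext h)

theorem loc_of_pre {Ω R : Type} [Field Ω] [CommRing R] (V : ValuationSubring Ω) (π : V →+* R)
    (h2 : (2 : R) ≠ 0) (h2u : ¬ IsUnit (2 : R)) {D : V.ValueGroup}
    (hπ : ∀ x : V, V.valuation x ≤ D → π x = 0) {m : ℕ} (hm : 0 < m) (P : Pre V.valuation D m) :
    Nonempty (Loc R m) := by
  have hY : ∀ i : ℕ, ∃ u : Vˣ, 0 < i → i < 2 * m → ((u : V) : Ω) = P.y i := by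
    intro i
    by_cases h : 0 < i ∧ i < 2 * m
    · obtain ⟨u, hu⟩ := prv3c_unit V (P.y i) (P.unit i h.1 h.2)
      exact ⟨u, fun _ _ => hu⟩
    · exact ⟨1, fun h1 h2 => absurd ⟨h1, h2⟩ h⟩
  choose Y hY using hY
  have hω : V.valuation P.ω = 1 := by
    have h1 : V.valuation P.ω ^ m = 1 := by rw [← map_pow, P.ωm, map_one]
    exact (pow_eq_one_iff_left hm.ne').mp h1
  obtain ⟨W, hW⟩ := prv3c_unit V P.ω hω
  have hneg : Units.map (π : V →* R) (-1) = -1 := by
    apply Units.ext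
    simp
  refine ⟨{ z := fun i => Units.map (π : V →* R) (Y i), w := Units.map (π : V →* R) W,
            two_ne := h2, two_nu := h2u, wm := ?_, z1 := ?_, star := ?_, dup := ?_, rfx := ?_ }⟩
  · have : W ^ m = 1 := by
      apply prv3c_inj V
      push_cast
      rw [hW, P.ωm]
    rw [← map_pow, this, map_one]
  · have : Y 1 = 1 := by
      apply prv3c_inj V
      rw [hY 1 one_pos (by omega), P.y1]
      simp
    rw [this, map_one]
  · intro c hc hcm
    have h1 := hπ ((Y (2 * c) : V) + ∑ a ∈ Ioo 0 (2 * c), (-1) ^ a * ((Y a : V) * Y (2 * c - a))) (by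
      have h3 : (((Y (2 * c) : V) + ∑ a ∈ Ioo 0 (2 * c),
          (-1) ^ a * ((Y a : V) * Y (2 * c - a)) : V) : Ω) =
          P.y (2 * c) + ∑ a ∈ Ioo 0 (2 * c), (-1) ^ a * (P.y a * P.y (2 * c - a)) := by
        push_cast
        rw [hY (2 * c) (by omega) (by omega)]
        congr 1
        refine Finset.sum_congr rfl fun a ha => ?_
        rw [Finset.mem_Ioo] at ha
        rw [hY a ha.1 (by omega), hY (2 * c - a) (by omega) (by omega)]
      rw [h3]
      exact P.star c hc hcm)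
    rw [map_add, map_sum] at h1
    simpa using h1
  · intro a ha ham
    have : Y a * Y (a + m) = W ^ a * Y (2 * a) * Y m := by
      apply prv3c_inj V
      push_cast
      rw [hY a ha (by omega), hY (a + m) (by omega) (by omega), hY (2 * a) (by omega) (by omega),
        hY m hm (by omega), hW]
      exact P.dup a ha ham
    simp only [← map_mul, ← map_pow, this]
  · intro a ha ham
    have : Y a * Y (2 * m - a) = (-1) ^ (a + m) * Y m ^ 2 := by
      apply prv3c_inj V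
      push_cast
      rw [hY a ha ham, hY (2 * m - a) (by omega) (by omega), hY m hm (by omega)]
      exact P.rfx a ha ham
    rw [← map_mul, this, map_mul, map_pow, map_pow, hneg]

end Pool.Agent.P.MP_111ca2_co.PR
end

-- part Pool.Agent.P.MP_111ca2_co.PrL1
section

/-! Local system: first consequences. -/

namespace Pool.Agent.P.MP_111ca2_co.PR

open Finset

theorem prl1_fold {R : Type} [CommRing R] {c : ℕ} (h0 : 0 < c) (f : ℕ → R)
    (hf : ∀ j, j < c → f (2 * c - j) = f j) :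
    ∑ a ∈ Ioo 0 (2 * c), f a = f c + 2 * ∑ j ∈ Ioo 0 c, f j := by
  have e : Ioo 0 (2 * c) = insert c (Ioo 0 c ∪ Ioo c (2 * c)) := by
    ext a; simp only [mem_Ioo, mem_insert, mem_union]; omega
  rw [e, sum_insert (by simp), sum_union (by
    rw [disjoint_left]; intro a ha hb; simp only [mem_Ioo] at ha hb; omega)]
  have : ∑ a ∈ Ioo c (2 * c), f a = ∑ j ∈ Ioo 0 c, f j := by
    refine sum_nbij' (fun a => 2 * c - a) (fun a => 2 * c - a) ?_ ?_ ?_ ?_ ?_
    · intro a ha; simp only [mem_Ioo] at ha ⊢; omega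
    · intro a ha; simp only [mem_Ioo] at ha ⊢; omega
    · intro a ha; simp only [mem_Ioo] at ha ⊢; omega
    · intro a ha; simp only [mem_Ioo] at ha ⊢; omega
    · intro a ha
      simp only [mem_Ioo] at ha
      rw [← hf (2 * c - a) (by omega), show 2 * c - (2 * c - a) = a by omega]
  rw [this]; ring

namespace Loc

variable {R : Type} [CommRing R] {m : ℕ} (L : Loc R m)

theorem prl1_star {c : ℕ} (h0 : 0 < c) (hc : c < m) :
    (L.z (2 * c) : R) + (-1) ^ c * (L.z c : R) ^ 2 +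
      2 * ∑ j ∈ Ioo 0 c, (-1) ^ j * ((L.z j : R) * L.z (2 * c - j)) = 0 := by
  have := L.star c h0 hc
  rw [prl1_fold h0 (fun a => (-1) ^ a * ((L.z a : R) * L.z (2 * c - a))) (fun j hj => by
    have e : (-1 : R) ^ (2 * c - j) = (-1) ^ j := by
      have h1 : (-1 : R) ^ (2 * c - j) * (-1) ^ j = 1 := by
        rw [← pow_add, show 2 * c - j + j = 2 * c by omega, pow_mul]; simp
      have h2 : (-1 : R) ^ j * (-1) ^ j = 1 := by rw [← mul_pow]; simp
      linear_combination (-1) ^ j * h1 - (-1) ^ (2 * c - j) * h2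
    simp only [e, show 2 * c - (2 * c - j) = j by omega]; ring)] at this
  simp only [show 2 * c - c = c by omega] at this
  linear_combination this

theorem star1 {c : ℕ} (h0 : 0 < c) (hc : c < m) :
    1 + (-1) ^ c * (((L.D c)⁻¹ : Rˣ) : R) + 2 * ∑ j ∈ Ioo 0 c, (-1) ^ j * (L.Z c j : R) = 0 := by
  have h := L.prl1_star h0 hc
  have e : ∑ j ∈ Ioo 0 c, (-1) ^ j * (L.Z c j : R) =
      (∑ j ∈ Ioo 0 c, (-1) ^ j * ((L.z j : R) * L.z (2 * c - j))) * ((L.z (2 * c))⁻¹ : Rˣ) := by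
    rw [sum_mul]
    refine sum_congr rfl fun j _ => ?_
    simp only [Z, div_eq_mul_inv, Units.val_mul]; ring
  have e2 : (((L.D c)⁻¹ : Rˣ) : R) = (L.z c : R) ^ 2 * ((L.z (2 * c))⁻¹ : Rˣ) := by
    rw [D, inv_div, div_eq_mul_inv, Units.val_mul, Units.val_pow_eq_pow_val]
  rw [e, e2]
  linear_combination (((L.z (2 * c))⁻¹ : Rˣ) : R) * h - (L.z (2 * c)).mul_inv

theorem star0 {c : ℕ} (h0 : 0 < c) (hc : c < m) : (L.D c : R) + (-1) ^ c +
    2 * ∑ j ∈ Ioo 0 c, (-1) ^ j * ((L.z j * L.z (2 * c - j) / L.z c ^ 2 : Rˣ) : R) = 0 := by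
  have h := L.prl1_star h0 hc
  have e : ∑ j ∈ Ioo 0 c, (-1) ^ j * ((L.z j * L.z (2 * c - j) / L.z c ^ 2 : Rˣ) : R) =
      (∑ j ∈ Ioo 0 c, (-1) ^ j * ((L.z j : R) * L.z (2 * c - j))) * ((L.z c ^ 2)⁻¹ : Rˣ) := by
    rw [sum_mul]
    refine sum_congr rfl fun j _ => ?_
    simp only [div_eq_mul_inv, Units.val_mul]; ring
  have e2 : (L.D c : R) = (L.z (2 * c) : R) * ((L.z c ^ 2)⁻¹ : Rˣ) := by
    rw [D, div_eq_mul_inv, Units.val_mul]
  have e3 := (L.z c ^ 2).mul_inv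
  rw [Units.val_pow_eq_pow_val] at e3
  rw [e, e2]
  linear_combination (((L.z c ^ 2)⁻¹ : Rˣ) : R) * h - (-1) ^ c * e3

theorem z_two (hm : 1 < m) : L.z 2 = 1 := by
  have h := L.prl1_star one_pos hm
  rw [show Ioo 0 1 = (∅ : Finset ℕ) by decide, sum_empty, L.z1] at h
  ext
  simp only [Units.val_one, mul_one] at h ⊢
  linear_combination h

theorem D_one (hm : 1 < m) : L.D 1 = 1 := by
  rw [D, mul_one, L.z_two hm, L.z1]; simp

theorem D_cong {a : ℕ} (h0 : 0 < a) (ha : a < m) : (2 : R) ∣ (L.D a : R) - 1 := by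
  have h := L.star0 h0 ha
  generalize ∑ j ∈ Ioo 0 a, (-1) ^ j * ((L.z j * L.z (2 * a - j) / L.z a ^ 2 : Rˣ) : R) = T at h
  rcases neg_one_pow_eq_or R a with e | e <;> rw [e] at h
  · exact ⟨-1 - T, by linear_combination h⟩
  · exact ⟨-T, by linear_combination h⟩

theorem z_dbl (a : ℕ) : L.z (2 * a) = L.D a * L.z a ^ 2 := by
  rw [D, div_mul_cancel]

theorem up {a : ℕ} (h0 : 0 < a) (ha : a < m) : L.z (a + m) = L.w ^ a * L.D a * L.z a * L.z m := by
  refine mul_left_cancel (a := L.z a) ?_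
  rw [L.dup a h0 ha, L.z_dbl, sq]; ac_rfl

theorem down {a : ℕ} (h0 : 0 < a) (ha : a < m) :
    L.z a * L.z (m - a) * L.w ^ a * L.D a = (-1) ^ a * L.z m := by
  have h := L.rfx (a + m) (by omega) (by omega)
  rw [L.up h0 ha, show 2 * m - (a + m) = m - a by omega, show a + m + m = a + 2 * m by omega,
    pow_add, pow_mul, neg_one_sq, one_pow, mul_one] at h
  refine mul_right_cancel (b := L.z m) ?_
  rw [mul_assoc ((-1) ^ a), ← sq, ← h]; ac_rfl

end Loc

end Pool.Agent.P.MP_111ca2_co.PR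
end

-- part Pool.Agent.P.MP_111ca2_co.PrL2
section

/-! Local system: the reflected equations. -/

namespace Pool.Agent.P.MP_111ca2_co.PR

open Finset

theorem prl2_sq {R : Type} [CommRing R] :
    (2 : ℕ) • Additive.ofMul (-1 : Rˣ) = 0 := by
  rw [← ofMul_pow]
  simp

namespace Loc

variable {R : Type} [CommRing R] {m : ℕ} (L : Loc R m)

theorem prl2_ZU {c j : ℕ} (h0 : 0 < c) (hc : c < m) (hj : j < 2 * (m - c)) :
    (-1) ^ j * L.Z (m - c) j = L.U c j := by
  have h1 := L.rfx (2 * c) (by omega) (by omega)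
  have h2 := L.rfx (2 * c + j) (by omega) (by omega)
  have e1 : 2 * m - 2 * c = 2 * (m - c) := by omega
  have e2 : 2 * m - (2 * c + j) = 2 * (m - c) - j := by omega
  rw [e1] at h1
  rw [e2] at h2
  have hs := prl2_sq (R := R)
  have h1' := congrArg Additive.ofMul h1
  have h2' := congrArg Additive.ofMul h2
  apply Additive.ofMul.injective
  simp only [Z, U, ofMul_mul, ofMul_div, ofMul_pow] at h1' h2' ⊢
  linear_combination (norm := module) h2' - h1' + j • hs

theorem prl2_mid {c : ℕ} (h0 : 0 < c) (hc : c < m) :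
    L.U c (m - c) = (-1) ^ c * (L.w ^ (2 * c) * L.D c)⁻¹ := by
  have h1 := L.down h0 hc
  have h2 := L.up h0 hc
  have h3 := L.z_dbl c
  have e1 : 2 * c + (m - c) = c + m := by omega
  have h1' := congrArg Additive.ofMul h1
  have h2' := congrArg Additive.ofMul h2
  have h3' := congrArg Additive.ofMul h3
  apply Additive.ofMul.injective
  simp only [U, e1, ofMul_mul, ofMul_div, ofMul_pow, ofMul_inv] at h1' h2' h3' ⊢
  linear_combination (norm := module) h1' - h2' + h3'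

theorem star2 {c : ℕ} (h0 : 0 < c) (hc : c < m) :
    1 + (-1) ^ c * (((L.w ^ (2 * c) * L.D c)⁻¹ : Rˣ) : R) +
      2 * ∑ a ∈ Ioo 0 (m - c), (L.U c a : R) = 0 := by
  have h := L.star1 (c := m - c) (by omega) (by omega)
  have hZ : L.Z (m - c) (m - c) = (L.D (m - c))⁻¹ := by
    have e : 2 * (m - c) - (m - c) = m - c := by omega
    simp only [Z, D, e, inv_div, pow_two]
  have h1 : (-1) ^ (m - c) * (L.D (m - c))⁻¹ = (-1) ^ c * (L.w ^ (2 * c) * L.D c)⁻¹ := by
    rw [← hZ, L.prl2_ZU h0 hc (by omega), L.prl2_mid h0 hc]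
  have h2 := congrArg (fun u : Rˣ => (u : R)) h1
  simp only [Units.val_mul, Units.val_pow_eq_pow_val, Units.val_neg, Units.val_one] at h2
  have h3 : ∑ j ∈ Ioo 0 (m - c), (-1) ^ j * (L.Z (m - c) j : R) =
      ∑ a ∈ Ioo 0 (m - c), (L.U c a : R) := by
    refine sum_congr rfl fun j hj => ?_
    have hj' := (mem_Ioo.1 hj).2
    rw [← L.prl2_ZU h0 hc (j := j) (by omega)]
    simp only [Units.val_mul, Units.val_pow_eq_pow_val, Units.val_neg, Units.val_one]
  rw [h2, h3] at h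
  exact h

theorem U_sym {c a : ℕ} (h0 : 0 < a) (ha : a + 2 * c < m) :
    L.U c (m - 2 * c - a) = L.U c a * L.D a / (L.w ^ (2 * c) * L.D (a + 2 * c)) := by
  have h1 := L.down h0 (by omega)
  have h2 := L.down (a := a + 2 * c) (by omega) ha
  have e1 : m - 2 * c - a = m - (a + 2 * c) := by omega
  have e2 : 2 * c + (m - (a + 2 * c)) = m - a := by omega
  have e3 : 2 * c + a = a + 2 * c := by omega
  have hs := prl2_sq (R := R)
  have h1' := congrArg Additive.ofMul h1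
  have h2' := congrArg Additive.ofMul h2
  apply Additive.ofMul.injective
  simp only [U, e1, e2, e3, ofMul_mul, ofMul_div, ofMul_pow] at h1' h2' ⊢
  linear_combination (norm := module) h2' - h1' + c • hs

theorem U_end {c : ℕ} (h0 : 0 < c) (hc : 2 * c < m) :
    L.U c (m - 2 * c) = (L.w ^ (2 * c) * L.D (2 * c))⁻¹ := by
  have h1 := L.down (a := 2 * c) (by omega) hc
  have e1 : 2 * c + (m - 2 * c) = m := by omega
  have hs := prl2_sq (R := R)
  have h1' := congrArg Additive.ofMul h1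
  apply Additive.ofMul.injective
  simp only [U, e1, ofMul_mul, ofMul_div, ofMul_pow, ofMul_inv] at h1' ⊢
  linear_combination (norm := module) h1' + c • hs

theorem U_top {c j : ℕ} (h0 : 0 < j) (hj : j < 2 * c) (hc : 2 * c < m) :
    L.U c (m - j) = (-1) ^ j * (L.w ^ (2 * c) * (L.Z c j * L.D j * L.D (2 * c - j)))⁻¹ := by
  obtain ⟨i, hi⟩ : ∃ i, 2 * c = j + i := ⟨2 * c - j, by omega⟩
  have h1 := L.down h0 (by omega)
  have h2 := L.up (a := i) (by omega) (by omega)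
  have e1 : 2 * c + (m - j) = i + m := by omega
  have e2 : 2 * c - j = i := by omega
  have h3 : L.w ^ (2 * c) = L.w ^ j * L.w ^ i := by rw [hi, pow_add]
  have h1' := congrArg Additive.ofMul h1
  have h2' := congrArg Additive.ofMul h2
  apply Additive.ofMul.injective
  simp only [U, Z, e1, e2, h3, ofMul_mul, ofMul_div, ofMul_pow, ofMul_inv] at h1' h2' ⊢
  linear_combination (norm := module) h1' - h2'

end Loc

namespace Loc

variable {R : Type} [CommRing R] {M : ℕ} (L : Loc R (2 * M))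

theorem neg_w_pow (hM : 0 < M) : (-L.w) ^ M = 1 := by
  have h1 := L.down (a := M) hM (by omega)
  have h2 := L.z_dbl M
  have e1 : 2 * M - M = M := by omega
  have hs := prl2_sq (R := R)
  have h1' := congrArg Additive.ofMul h1
  have h2' := congrArg Additive.ofMul h2
  rw [neg_eq_neg_one_mul]
  apply Additive.ofMul.injective
  simp only [e1, ofMul_mul, ofMul_pow, ofMul_one] at h1' h2' ⊢
  linear_combination (norm := module) h1' + h2' + M • hs

theorem U_mid (hw : L.w ^ 2 = 1) {c : ℕ} (h0 : 0 < c) (hc : c < M) :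
    L.U c (M - c) = (-L.w) ^ c / L.D (2 * c) := by
  obtain ⟨d, hd⟩ : ∃ d, M = c + d := ⟨M - c, by omega⟩
  have e0 : M - c = d := by omega
  have h1 := L.down (a := d) (by omega) (by omega)
  have h2 := L.z_dbl d
  have h3 := L.down (a := 2 * c) (by omega) (by omega)
  have h4 := L.neg_w_pow (by omega)
  have e1 : 2 * M - d = 2 * c + d := by omega
  have e2 : 2 * M - 2 * c = 2 * d := by omega
  have h5 : (-L.w) ^ M = (-L.w) ^ c * (-L.w) ^ d := by rw [← pow_add, ← hd]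
  rw [h5, neg_eq_neg_one_mul] at h4
  rw [e1] at h1
  rw [e2] at h3
  have hs := prl2_sq (R := R)
  have h1' := congrArg Additive.ofMul h1
  have h2' := congrArg Additive.ofMul h2
  have h3' := congrArg Additive.ofMul h3
  have h4' := congrArg Additive.ofMul h4
  have hw' := congrArg Additive.ofMul hw
  rw [e0, neg_eq_neg_one_mul]
  apply Additive.ofMul.injective
  simp only [U, ofMul_mul, ofMul_div, ofMul_pow, ofMul_one] at h1' h2' h3' h4' hw' ⊢
  linear_combination (norm := module) h3' - h1' - h2' + h4' - (2 * c) • hw' - d • hs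

end Loc

end Pool.Agent.P.MP_111ca2_co.PR
end

-- part Pool.Agent.P.MP_111ca2_co.PrL3
section

/-! Local system: odd `m`. -/

namespace Pool.Agent.P.MP_111ca2_co.PR

open Finset

variable {R : Type} [CommRing R] [IsDomain R] [ValuationRing R]

theorem prl3_unit (h2 : ¬ IsUnit (2 : R)) {x : R} (hx : (2 : R) ∣ x - 1) : IsUnit x := by
  obtain ⟨y, hy⟩ := hx
  rcases IsLocalRing.isUnit_or_isUnit_one_sub_self x with h | h
  · exact h
  · have : 1 - x = 2 * (-y) := by linear_combination -hy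
    rw [this] at h
    exact absurd (isUnit_of_mul_isUnit_left h) h2

theorem prl3_w {m : ℕ} (h2 : ¬ IsUnit (2 : R)) (hm : Odd m) {w : R} (hw : w ^ m = 1)
    (h : (2 : R) ∣ w ^ 2 - 1) : w = 1 := by
  obtain ⟨j, rfl⟩ := hm
  have h1 : (2 : R) ∣ w - 1 := by
    have a : (2 : R) ∣ (w ^ 2) ^ j - 1 := by
      have := sub_dvd_pow_sub_pow (w ^ 2) 1 j
      rw [one_pow] at this
      exact h.trans this
    have b : w - 1 = -(w * ((w ^ 2) ^ j - 1)) := by linear_combination hw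
    rw [b]
    exact (a.mul_left w).neg_right
  have h3 : (2 : R) ∣ ∑ i ∈ range (2 * j + 1), w ^ i - 1 := by
    have a : (2 : R) ∣ ∑ i ∈ range (2 * j + 1), (w ^ i - 1) := dvd_sum fun i _ => by
      have := sub_dvd_pow_sub_pow w 1 i
      rw [one_pow] at this
      exact h1.trans this
    rw [sum_sub_distrib, sum_const, card_range, nsmul_eq_mul, mul_one] at a
    have b : ∑ i ∈ range (2 * j + 1), w ^ i - 1 =
        (∑ i ∈ range (2 * j + 1), w ^ i - ((2 * j + 1 : ℕ) : R)) + 2 * j := by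
      push_cast
      ring
    rw [b]
    exact a.add (dvd_mul_right _ _)
  have h4 := geom_sum_mul w (2 * j + 1)
  rw [hw, sub_self] at h4
  exact sub_eq_zero.1 ((prl3_unit h2 h3).mul_right_eq_zero.1 h4)

theorem Loc.odd_false {m : ℕ} (L : Loc R m) (hm : Odd m) (h3 : 3 ≤ m) : False := by
  have hs := L.star2 (c := 1) one_pos (by omega)
  rw [L.D_one (by omega), mul_one, mul_one, pow_one] at hs
  have hw : L.w = 1 := by
    refine Units.ext (prl3_w L.two_nu hm (by rw [← Units.val_pow_eq_pow_val, L.wm]; rfl) ?_)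
    have e : ((L.w ^ 2 : Rˣ) : R) * (((L.w ^ 2)⁻¹ : Rˣ) : R) = 1 := Units.mul_inv _
    rw [← Units.val_pow_eq_pow_val]
    exact ⟨-((L.w ^ 2 : Rˣ) * ∑ a ∈ Ioo 0 (m - 1), (L.U 1 a : R)), by
      linear_combination ((L.w ^ 2 : Rˣ) : R) * hs + e⟩
  have hT : ∑ a ∈ Ioo 0 (m - 1), (L.U 1 a : R) = 0 := by
    rw [hw, one_pow, inv_one, Units.val_one] at hs
    exact (mul_eq_zero.1 (show 2 * ∑ a ∈ Ioo 0 (m - 1), (L.U 1 a : R) = 0 by
      linear_combination hs)).resolve_left L.two_ne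
  have hI : Ioo 0 (m - 1) = insert (m - 2) (Ioo 0 (m - 2)) := by
    ext a
    simp only [mem_Ioo, mem_insert]
    omega
  rw [hI, sum_insert (by simp)] at hT
  set π := Ideal.Quotient.mk (Ideal.span {(2 : R)}) with hπ
  have hz : ∀ x : R, π x = 0 ↔ (2 : R) ∣ x := fun x => by
    rw [hπ, Ideal.Quotient.eq_zero_iff_mem, Ideal.mem_span_singleton]
  have hD : ∀ a, 0 < a → a < m → π (L.D a) = 1 := fun a h0 ha => by
    have := (hz _).2 (L.D_cong h0 ha)
    rwa [map_sub, map_one, sub_eq_zero] at this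
  have h0 : ∑ a ∈ Ioo 0 (m - 2), π (L.U 1 a) = 0 := by
    refine sum_involution (fun a _ => m - 2 - a) ?_ ?_ ?_ ?_
    · intro a ha
      rw [mem_Ioo] at ha
      have e := L.U_sym (c := 1) ha.1 (by omega)
      rw [hw, one_pow, one_mul, eq_div_iff_mul_eq'] at e
      have e' := congrArg (fun u : Rˣ => π (u : R)) e
      simp only [Units.val_mul, map_mul, mul_one] at e'
      rw [hD a ha.1 (by omega), hD (a + 2) (by omega) (by omega), mul_one, mul_one] at e'
      rw [e', ← map_add, hz]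
      exact ⟨_, (two_mul _).symm⟩
    · intro a ha _
      rw [mem_Ioo] at ha
      obtain ⟨j, rfl⟩ := hm
      omega
    · intro a ha
      rw [mem_Ioo] at ha ⊢
      omega
    · intro a ha
      rw [mem_Ioo] at ha
      omega
  have h1 := congrArg π hT
  rw [map_add, map_sum, h0, add_zero, map_zero, hz] at h1
  exact L.two_nu (isUnit_of_dvd_unit h1 (Units.isUnit _))

end Pool.Agent.P.MP_111ca2_co.PR
end

-- part Pool.Agent.P.MP_111ca2_co.PrL4
section

/-! Local system: the root of unity is a sign. -/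

namespace Pool.Agent.P.MP_111ca2_co.PR

open Finset

variable {R : Type} [CommRing R] [IsDomain R] [ValuationRing R]

theorem prl4_two (h : ¬ IsUnit (2 : R)) : (2 : IsLocalRing.ResidueField R) = 0 := by
  have h1 : IsLocalRing.residue R 2 = 0 :=
    (IsLocalRing.residue_eq_zero_iff _).2 ((IsLocalRing.mem_maximalIdeal _).2 h)
  rwa [map_ofNat] at h1

theorem prl4_dvd (h : ¬ IsUnit (2 : R)) {x : R} (hx : (2 : R) ∣ x - 1) :
    IsLocalRing.residue R x = 1 := by
  obtain ⟨y, hy⟩ := hx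
  have : x = 1 + 2 * y := by linear_combination hy
  rw [this, map_add, map_mul, map_ofNat, prl4_two h, map_one, zero_mul, add_zero]

theorem prl4_root (h2 : (2 : R) ≠ 0) (h : ¬ IsUnit (2 : R)) (N : ℕ) :
    ∀ u : R, 0 < N → u ^ N = 1 → (4 : R) ∣ u - 1 → u = 1 := by
  induction N using Nat.strong_induction_on with
  | _ N ih =>
    intro u hN hu h4
    rcases Nat.even_or_odd' N with ⟨n, rfl | rfl⟩
    · have hn : 0 < n := by omega
      have h5 : u ^ 2 = 1 := by
        refine ih n (by omega) (u ^ 2) hn (by rw [← pow_mul, hu]) ?_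
        have : u ^ 2 - 1 = (u - 1) * (u + 1) := by ring
        rw [this]
        exact h4.mul_right _
      rcases sq_eq_one_iff.1 h5 with h6 | h6
      · exact h6
      · exfalso
        obtain ⟨y, hy⟩ := h4
        rw [h6] at hy
        have h7 : (2 : R) * (2 * (-y) - 1) = 0 := by linear_combination hy
        rcases mul_eq_zero.1 h7 with h8 | h8
        · exact h2 h8
        · exact h (IsUnit.of_mul_eq_one (-y) (by linear_combination h8))
    · have h5 : IsLocalRing.residue R u = 1 := by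
        refine prl4_dvd h (Dvd.dvd.trans ⟨2, by norm_num⟩ h4)
      have h6 : (∑ i ∈ range (2 * n + 1), u ^ i) * (u - 1) = 0 := by
        rw [geom_sum_mul, hu, sub_self]
      rcases mul_eq_zero.1 h6 with h7 | h7
      · exfalso
        have h8 := congrArg (IsLocalRing.residue R) h7
        rw [map_sum, map_zero] at h8
        simp only [map_pow, h5, one_pow, sum_const, card_range, nsmul_eq_mul, mul_one] at h8
        push_cast at h8
        rw [prl4_two h, zero_mul, zero_add] at h8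
        exact one_ne_zero h8
      · exact sub_eq_zero.1 h7

theorem prl4_sq {k : Type} [Field k] (h : (2 : k) = 0) {x : k} (hx : x ^ 2 = 1) : x = 1 := by
  have h1 : (x - 1) ^ 2 = 0 := by linear_combination hx + (1 - x) * h
  exact sub_eq_zero.1 (pow_eq_zero_iff (two_ne_zero) |>.1 h1)

theorem Loc.w_sq {M : ℕ} (L : Loc R (2 * M)) (hM : 2 ≤ M) : L.w ^ 2 = 1 := by
  have hs := L.star2 (c := 1) one_pos (by omega)
  rw [L.D_one (by omega), mul_one, mul_one, pow_one] at hs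
  set T := ∑ a ∈ Ioo 0 (2 * M - 1), (L.U 1 a : R) with hT
  have hinv : ((L.w : R) ^ 2) * (((L.w ^ 2)⁻¹ : Rˣ) : R) = 1 := by
    rw [← Units.val_pow_eq_pow_val, Units.mul_inv]
  have hw2 : (L.w : R) ^ 2 - 1 = 2 * (-((L.w : R) ^ 2 * T)) := by
    linear_combination ((L.w : R) ^ 2) * hs + hinv
  have hwm : (L.w : R) ^ (2 * M) = 1 := by
    rw [← Units.val_pow_eq_pow_val, L.wm, Units.val_one]
  have hw4 : ((L.w : R) ^ 2) ^ 2 = 1 := by
    refine prl4_root L.two_ne L.two_nu M _ (by omega) ?_ ?_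
    · rw [← pow_mul, ← pow_mul, pow_mul', hwm, one_pow]
    · set y := -((L.w : R) ^ 2 * T)
      refine ⟨y + y ^ 2, ?_⟩
      have : (L.w : R) ^ 2 = 1 + 2 * y := by linear_combination hw2
      rw [this]; ring
  rcases sq_eq_one_iff.1 hw4 with h1 | h1
  · exact Units.ext (by rw [Units.val_pow_eq_pow_val, h1, Units.val_one])
  exfalso
  have hT1 : T = -1 := by
    have h2 : (2 : R) * (T + 1) = 0 := by
      rw [h1] at hw2
      linear_combination -hw2
    rcases mul_eq_zero.1 h2 with h3 | h3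
    · exact absurd h3 L.two_ne
    · linear_combination h3
  have h2 := prl4_two L.two_nu
  let ψ : Rˣ →* IsLocalRing.ResidueField R :=
    (IsLocalRing.residue R : R →* IsLocalRing.ResidueField R).comp (Units.coeHom R)
  have hψ : ∀ u : Rˣ, ψ u = IsLocalRing.residue R u := fun u => rfl
  have hψ0 : ∀ u : Rˣ, ψ u ≠ 0 := fun u => (u.isUnit.map (IsLocalRing.residue R)).ne_zero
  have hD : ∀ a, 0 < a → a < 2 * M → ψ (L.D a) = 1 := fun a h0 ha =>
    prl4_dvd L.two_nu (L.D_cong h0 ha)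
  have hw : ψ L.w ^ 2 = 1 := by
    rw [hψ, ← map_pow]
    exact prl4_dvd L.two_nu ⟨_, hw2⟩
  have hend : ψ (L.U 1 (2 * M - 2)) = 1 := by
    have := congrArg ψ (L.U_end (c := 1) one_pos (by omega))
    rw [map_inv, map_mul, map_pow, mul_one, hw, hD 2 (by omega) (by omega)] at this
    simpa using this
  have hsym : ∀ a, 0 < a → a + 2 < 2 * M → ψ (L.U 1 (2 * M - 2 - a)) = ψ (L.U 1 a) := by
    intro a h0 ha
    have := congrArg ψ (L.U_sym (c := 1) h0 (by omega))
    rw [map_div, map_mul, map_mul, map_pow, mul_one, hw, hD a h0 (by omega),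
      hD (a + 2) (by omega) ha] at this
    simpa using this
  have hz2 : L.z 2 = 1 := L.z_two (by omega)
  have hdn : ψ (L.z (2 * M - 2)) = ψ (L.z (2 * M)) := by
    have := congrArg ψ (L.down (a := 2) two_pos (by omega))
    rw [map_mul, map_mul, map_mul, map_pow, hw, hD 2 (by omega) (by omega), hz2, map_one,
      neg_one_sq, one_mul, one_mul] at this
    simpa using this
  have hup : ψ (L.z (2 + 2 * M)) = ψ (L.z (2 * M)) := by
    have := congrArg ψ (L.up (a := 2) two_pos (by omega))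
    rw [map_mul, map_mul, map_mul, map_pow, hw, hD 2 (by omega) (by omega), hz2, map_one] at this
    simpa using this
  have hmid : ψ (L.U 1 (M - 1)) = 1 := by
    refine prl4_sq h2 ?_
    have e1 := congrArg ψ (L.z_dbl (M - 1))
    have e2 := congrArg ψ (L.z_dbl (M + 1))
    rw [map_mul, map_pow, hD _ (by omega) (by omega), one_mul] at e1 e2
    rw [show 2 * (M - 1) = 2 * M - 2 by omega, hdn] at e1
    rw [show 2 * (M + 1) = 2 + 2 * M by omega, hup] at e2
    unfold Loc.U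
    rw [show 2 * 1 + (M - 1) = M + 1 by omega, mul_one, hz2, mul_one, map_div, div_pow, ← e1, ← e2,
      div_self (hψ0 _)]
  have hpairs : ∑ a ∈ (Ioo 0 (2 * M - 2)).erase (M - 1), ψ (L.U 1 a) = 0 := by
    refine Finset.sum_involution (fun a _ => 2 * M - 2 - a) ?_ ?_ ?_ ?_
    · intro a ha
      rw [mem_erase, mem_Ioo] at ha
      rw [hsym a ha.2.1 (by omega), ← two_mul, h2, zero_mul]
    · intro a ha _
      rw [mem_erase, mem_Ioo] at ha
      omega
    · intro a ha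
      rw [mem_erase, mem_Ioo] at ha ⊢
      omega
    · intro a ha
      rw [mem_erase, mem_Ioo] at ha
      omega
  have hsplit : Ioo 0 (2 * M - 1) =
      insert (2 * M - 2) (insert (M - 1) ((Ioo 0 (2 * M - 2)).erase (M - 1))) := by
    ext a
    simp only [mem_insert, mem_erase, mem_Ioo]
    omega
  have hres : IsLocalRing.residue R T = 0 := by
    rw [hT, map_sum]
    simp only [← hψ]
    rw [hsplit, sum_insert (by simp only [mem_insert, mem_erase, mem_Ioo]; omega),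
      sum_insert (notMem_erase _ _), hpairs, hend, hmid, add_zero, one_add_one_eq_two, h2]
  rw [hT1, map_neg, map_one, neg_eq_zero] at hres
  exact one_ne_zero hres

end Pool.Agent.P.MP_111ca2_co.PR
end

-- part Pool.Agent.P.MP_111ca2_co.PrL5
section

/-! Local system: the key identity. -/

namespace Pool.Agent.P.MP_111ca2_co.PR

open Finset

theorem prl5_split {R : Type} [AddCommMonoid R] (f : ℕ → R) {a b c : ℕ} (h1 : a < b) (h2 : b < c) :
    ∑ i ∈ Ioo a c, f i = ∑ i ∈ Ioo a b, f i + f b + ∑ i ∈ Ioo b c, f i := by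
  have h : Ioo a c = insert b (Ioo a b ∪ Ioo b c) := by
    ext x
    simp only [mem_Ioo, mem_insert, mem_union]
    omega
  have hb : b ∉ Ioo a b ∪ Ioo b c := by
    simp only [mem_Ioo, mem_union]
    omega
  have hd : Disjoint (Ioo a b) (Ioo b c) := by
    rw [disjoint_left]
    intro x hx hy
    simp only [mem_Ioo] at hx hy
    omega
  rw [h, sum_insert hb, sum_union hd]
  abel

theorem prl5_refl {R : Type} [AddCommMonoid R] (f : ℕ → R) (d : ℕ) :
    ∑ i ∈ Ioo d (2 * d), f i = ∑ i ∈ Ioo 0 d, f (2 * d - i) := by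
  refine sum_nbij' (fun i => 2 * d - i) (fun i => 2 * d - i) ?_ ?_ ?_ ?_ ?_
  · intro x hx
    simp only [mem_Ioo] at hx ⊢
    omega
  · intro x hx
    simp only [mem_Ioo] at hx ⊢
    omega
  · intro x hx
    simp only [mem_Ioo] at hx ⊢
    omega
  · intro x hx
    simp only [mem_Ioo] at hx ⊢
    omega
  · intro x hx
    simp only [mem_Ioo] at hx
    congr 1
    omega

theorem prl5_shift {R : Type} [AddCommMonoid R] (f : ℕ → R) (d c : ℕ) :
    ∑ i ∈ Ioo d (d + c), f i = ∑ i ∈ Ioo 0 c, f (d + i) := by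
  refine sum_nbij' (fun i => i - d) (fun i => d + i) ?_ ?_ ?_ ?_ ?_
  · intro x hx
    simp only [mem_Ioo] at hx ⊢
    omega
  · intro x hx
    simp only [mem_Ioo] at hx ⊢
    omega
  · intro x hx
    simp only [mem_Ioo] at hx ⊢
    omega
  · intro x hx
    simp only [mem_Ioo] at hx ⊢
    omega
  · intro x hx
    simp only [mem_Ioo] at hx
    congr 1
    omega

theorem Loc.key {R : Type} [CommRing R] [IsDomain R] {M : ℕ} (L : Loc R (2 * M)) (hw : L.w ^ 2 = 1)
    {c : ℕ} (h0 : 0 < c) (hc : c < M) : L.Key M c := by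
  have hw2 : L.w ^ (2 * c) = 1 := by rw [pow_mul, hw, one_pow]
  have s1 := L.star1 h0 (by omega : c < 2 * M)
  have s2 := L.star2 h0 (by omega : c < 2 * M)
  rw [hw2, one_mul] at s2
  have e1 : ∑ j ∈ Ioo 0 c, (-1) ^ j * (L.Z c j : R) = ∑ a ∈ Ioo 0 (2 * M - c), (L.U c a : R) := by
    apply mul_left_cancel₀ L.two_ne
    linear_combination s1 - s2
  have p1 := prl5_split (fun a => (L.U c a : R)) (a := 0) (b := 2 * (M - c)) (c := 2 * M - c)
    (by omega) (by omega)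
  have p2 := prl5_split (fun a => (L.U c a : R)) (a := 0) (b := M - c) (c := 2 * (M - c))
    (by omega) (by omega)
  have p3 := prl5_refl (fun a => (L.U c a : R)) (M - c)
  have p4 := prl5_shift (fun a => (L.U c a : R)) (2 * (M - c)) c
  have q0 : 2 * (M - c) + c = 2 * M - c := by omega
  rw [q0] at p4
  have a3 : ∑ i ∈ Ioo 0 (M - c), (L.U c (2 * (M - c) - i) : R) =
      ∑ i ∈ Ioo 0 (M - c), (L.U c i : R) * ((L.D i / L.D (i + 2 * c) : Rˣ) : R) := by
    refine sum_congr rfl fun i hi => ?_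
    rw [mem_Ioo] at hi
    have h := L.U_sym (c := c) (a := i) hi.1 (by omega)
    have q : 2 * (M - c) - i = 2 * M - 2 * c - i := by omega
    rw [q, h, hw2, one_mul, mul_div_assoc, Units.val_mul]
  have a4 : ∑ j ∈ Ioo 0 c, (L.U c (2 * (M - c) + j) : R) =
      ∑ j ∈ Ioo 0 c, (-1) ^ j * (((L.Z c j * L.D j * L.D (2 * c - j))⁻¹ : Rˣ) : R) := by
    refine sum_congr rfl fun j hj => ?_
    rw [mem_Ioo] at hj
    have h := L.U_top (c := c) (j := 2 * c - j) (by omega) (by omega) (by omega)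
    have q : 2 * (M - c) + j = 2 * M - (2 * c - j) := by omega
    have q' : 2 * c - (2 * c - j) = j := by omega
    have hz : L.Z c (2 * c - j) = L.Z c j := by
      unfold Loc.Z
      rw [q', mul_comm]
    have hs : (-1 : Rˣ) ^ (2 * c - j) = (-1) ^ j := by
      have h1 : (-1 : Rˣ) ^ (2 * c - j) * (-1) ^ j = 1 := by
        rw [← pow_add, show 2 * c - j + j = 2 * c by omega, pow_mul, neg_one_sq, one_pow]
      have h2 : (-1 : Rˣ) ^ j * (-1) ^ j = 1 := by
        rw [← pow_add, ← two_mul, pow_mul, neg_one_sq, one_pow]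
      exact mul_right_cancel (h1.trans h2.symm)
    rw [q, h, hw2, one_mul, hz, q', hs, mul_right_comm (L.Z c j), Units.val_mul]
    simp only [Units.val_pow_eq_pow_val, Units.val_neg, Units.val_one]
  have a1 : (L.U c (M - c) : R) = (-(L.w : R)) ^ c * (((L.D (2 * c))⁻¹ : Rˣ) : R) := by
    rw [L.U_mid hw h0 hc, div_eq_mul_inv, Units.val_mul]
    simp only [Units.val_pow_eq_pow_val, Units.val_neg]
  have a2 : (L.U c (2 * (M - c)) : R) = (((L.D (2 * c))⁻¹ : Rˣ) : R) := by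
    have h := L.U_end (c := c) h0 (by omega)
    have q : 2 * (M - c) = 2 * M - 2 * c := by omega
    rw [q, h, hw2, one_mul]
  unfold Loc.Key
  simp only [mul_sub, mul_add, mul_one, sum_sub_distrib, sum_add_distrib]
  linear_combination e1 + p1 + p2 + p3 + p4 + a3 + a4 + a1 + a2

end Pool.Agent.P.MP_111ca2_co.PR
end

-- part Pool.Agent.P.MP_111ca2_co.PrL6
section

/-! Local system: congruences modulo `2`. -/

namespace Pool.Agent.P.MP_111ca2_co.PR

open Finset

variable {R : Type} [CommRing R] [IsDomain R] {M : ℕ} (L : Loc R (2 * M))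

/-- reduction modulo `2` -/
abbrev prl6_pi (R : Type) [CommRing R] : R →+* R ⧸ Ideal.span {(2 : R)} :=
  Ideal.Quotient.mk _

/-- reduction of units modulo `2` -/
def prl6_phi (R : Type) [CommRing R] : Rˣ →* (R ⧸ Ideal.span {(2 : R)})ˣ :=
  Units.map (prl6_pi R : R →* R ⧸ Ideal.span {(2 : R)})

omit [IsDomain R] in
theorem prl6_coe (u : Rˣ) : prl6_pi R (u : R) = (prl6_phi R u : R ⧸ Ideal.span {(2 : R)}) := rfl

omit [IsDomain R] in
theorem prl6_two : (2 : R ⧸ Ideal.span {(2 : R)}) = 0 := by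
  have : prl6_pi R 2 = 0 := Ideal.Quotient.eq_zero_iff_mem.2 (Ideal.mem_span_singleton_self _)
  rwa [map_ofNat] at this

omit [IsDomain R] in
theorem prl6_iff (u : Rˣ) : prl6_phi R u = 1 ↔ (2 : R) ∣ (u : R) - 1 := by
  rw [Units.ext_iff, ← prl6_coe, ← Ideal.mem_span_singleton, ← Ideal.Quotient.eq]
  simp

omit [IsDomain R] in
theorem prl6_neg : prl6_phi R (-1) = 1 := by
  rw [prl6_iff]
  exact ⟨-1, by simp; ring⟩

omit [IsDomain R] in
theorem prl6_D {a : ℕ} (h0 : 0 < a) (ha : a < 2 * M) : prl6_phi R (L.D a) = 1 :=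
  (prl6_iff _).2 (L.D_cong h0 ha)

theorem prl6_w (hw : L.w ^ 2 = 1) : prl6_phi R L.w = 1 := by
  have h : (L.w : R) * L.w = 1 := by
    have := congrArg (fun u : Rˣ => (u : R)) hw
    simpa [sq] using this
  rw [prl6_iff]
  rcases mul_self_eq_one_iff.1 h with h1 | h1
  · rw [h1]; simp
  · rw [h1]; exact ⟨-1, by ring⟩

omit [IsDomain R] in
theorem prl6_dbl {a : ℕ} (h0 : 0 < a) (ha : a < 2 * M) :
    prl6_phi R (L.z (2 * a)) = prl6_phi R (L.z a) ^ 2 := by
  rw [L.z_dbl, map_mul, prl6_D L h0 ha, one_mul, map_pow]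

omit [IsDomain R] in
theorem prl6_neg_one : (-1 : R ⧸ Ideal.span {(2 : R)}) = 1 := by
  have := prl6_two (R := R)
  linear_combination -this

theorem prl6_key (hw : L.w ^ 2 = 1) {c : ℕ} (h0 : 0 < c) (hc : c < M) :
    ∑ j ∈ Ioo 0 c, ((prl6_phi R (L.Z c j) : R ⧸ Ideal.span {(2 : R)}) +
      ((prl6_phi R (L.Z c j))⁻¹ : (R ⧸ Ideal.span {(2 : R)})ˣ)) = 0 := by
  have hk := congrArg (prl6_pi R) (L.key hw h0 hc)
  have h2 := prl6_two (R := R)
  simp only [map_sum, map_add, map_mul, map_sub, map_pow, map_neg, map_one, prl6_coe, map_inv,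
    map_div, prl6_w L hw] at hk
  rw [prl6_neg_one] at hk
  have e1 : ∑ i ∈ Ioo 0 (M - c), (prl6_phi R (L.U c i) : R ⧸ Ideal.span {(2 : R)}) *
      (1 + ((prl6_phi R (L.D i) / prl6_phi R (L.D (i + 2 * c)) :
        (R ⧸ Ideal.span {(2 : R)})ˣ) : R ⧸ Ideal.span {(2 : R)})) = 0 := by
    refine sum_eq_zero fun i hi => ?_
    rw [mem_Ioo] at hi
    rw [prl6_D L hi.1 (by omega), prl6_D L (by omega) (by omega)]
    simp only [div_one, Units.val_one]
    linear_combination (prl6_phi R (L.U c i) : R ⧸ Ideal.span {(2 : R)}) * h2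
  rw [e1, Units.val_one, prl6_neg_one] at hk
  have e2 : (1 + 1 ^ c : R ⧸ Ideal.span {(2 : R)}) = 0 := by
    rw [one_pow]; linear_combination h2
  rw [e2, zero_mul, zero_add] at hk
  rw [← hk]
  refine sum_congr rfl fun j hj => ?_
  rw [mem_Ioo] at hj
  rw [prl6_D L hj.1 (by omega), prl6_D L (by omega) (by omega), one_pow, one_mul, mul_one, mul_one]
  linear_combination
    (((prl6_phi R (L.Z c j))⁻¹ : (R ⧸ Ideal.span {(2 : R)})ˣ) : R ⧸ Ideal.span {(2 : R)}) * h2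

theorem prl6_ind (hw : L.w ^ 2 = 1) (c : ℕ) (hc : c < M) :
    ∀ j, 0 < j → j ≤ 2 * c → prl6_phi R (L.z j) ^ 2 = 1 := by
  induction c with
  | zero => intro j h0 hj; omega
  | succ c ih =>
    have ih := ih (by omega)
    have h1 : prl6_phi R (L.z 1) = 1 := by rw [L.z1, map_one]
    have hc1 : prl6_phi R (L.z (c + 1)) ^ 2 = 1 := by
      rcases Nat.eq_zero_or_pos c with rfl | hpos
      · rw [zero_add, h1, one_pow]
      · exact ih _ (by omega) (by omega)
    have htop : prl6_phi R (L.z (2 * (c + 1))) = 1 := by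
      rw [prl6_dbl L (by omega) (by omega), hc1]
    intro j h0 hj
    by_cases hj1 : j ≤ 2 * c
    · exact ih j h0 hj1
    by_cases hj2 : j = 2 * (c + 1)
    · rw [hj2, htop, one_pow]
    have hj3 : j = 2 * (c + 1) - 1 := by omega
    rcases Nat.eq_zero_or_pos c with rfl | hpos
    · have : j = 1 := by omega
      rw [this, h1, one_pow]
    have hk := prl6_key L hw (c := c + 1) (by omega) hc
    have h2 := prl6_two (R := R)
    rw [sum_eq_single_of_mem 1 (by rw [mem_Ioo]; omega)] at hk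
    · have hZ : prl6_phi R (L.Z (c + 1) 1) = prl6_phi R (L.z j) := by
        rw [Loc.Z, map_div, map_mul, h1, htop, one_mul, div_one, hj3]
      rw [hZ] at hk
      ext
      have hm := (prl6_phi R (L.z j)).mul_inv
      rw [Units.val_pow_eq_pow_val, Units.val_one]
      linear_combination (prl6_phi R (L.z j) : R ⧸ Ideal.span {(2 : R)}) * hk - hm - h2
    · intro i hi hi1
      rw [mem_Ioo] at hi
      have hsq : prl6_phi R (L.Z (c + 1) i) ^ 2 = 1 := by
        rw [Loc.Z, map_div, map_mul, htop, div_one, mul_pow, ih i hi.1 (by omega),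
          ih _ (by omega) (by omega), one_mul]
      have hinv : (prl6_phi R (L.Z (c + 1) i))⁻¹ = prl6_phi R (L.Z (c + 1) i) := by
        rw [inv_eq_iff_mul_eq_one, ← sq, hsq]
      rw [hinv]
      linear_combination (prl6_phi R (L.Z (c + 1) i) : R ⧸ Ideal.span {(2 : R)}) * h2

theorem prl6_all (hM : 2 ≤ M) (hw : L.w ^ 2 = 1) {j : ℕ} (h0 : 0 < j) (hj : j < 2 * (2 * M)) :
    prl6_phi R (L.z j) ^ 2 = 1 := by
  have hA := prl6_ind L hw (M - 1) (by omega)
  have htop : prl6_phi R (L.z (2 * M)) = 1 := by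
    rw [prl6_dbl L (by omega) (by omega), hA M (by omega) (by omega)]
  have hB : ∀ a, 0 < a → a < 2 * M → prl6_phi R (L.z a) ^ 2 = 1 := by
    intro a ha0 ha
    by_cases h : a ≤ 2 * (M - 1)
    · exact hA a ha0 h
    have ha1 : a = 2 * M - 1 := by omega
    have hd := congrArg (prl6_phi R) (L.down (a := 1) (by omega) (by omega))
    simp only [map_mul, map_pow, prl6_w L hw, prl6_neg, htop, L.z1,
      prl6_D L (a := 1) (by omega) (by omega), one_pow, one_mul, mul_one] at hd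
    rw [ha1, hd, one_pow]
  rcases lt_trichotomy j (2 * M) with h | h | h
  · exact hB j h0 h
  · rw [h, htop, one_pow]
  · obtain ⟨a, rfl⟩ : ∃ a, j = a + 2 * M := ⟨j - 2 * M, by omega⟩
    rw [L.up (a := a) (by omega) (by omega)]
    simp only [map_mul, map_pow, prl6_w L hw, htop, prl6_D L (a := a) (by omega) (by omega),
      one_pow, one_mul, mul_one]
    exact hB a (by omega) (by omega)

theorem Loc.sq_cong (hM : 2 ≤ M) (hw : L.w ^ 2 = 1) {j : ℕ} (h0 : 0 < j) (hj : j < 2 * (2 * M)) :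
    (2 : R) ∣ (L.z j : R) ^ 2 - 1 := by
  have h := prl6_all L hM hw h0 hj
  rw [← map_pow, prl6_iff, Units.val_pow_eq_pow_val] at h
  exact h

theorem Loc.even_cong (hM : 2 ≤ M) (hw : L.w ^ 2 = 1) {a : ℕ} (h0 : 0 < a) (ha : a < 2 * M) :
    (2 : R) ∣ (L.z (2 * a) : R) - 1 := by
  rw [← prl6_iff, prl6_dbl L h0 ha]
  exact prl6_all L hM hw h0 (by omega)

end Pool.Agent.P.MP_111ca2_co.PR
end

-- part Pool.Agent.P.MP_111ca2_co.PrL7
section

/-! Local system: congruences modulo `2 λ`. -/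

namespace Pool.Agent.P.MP_111ca2_co.PR

open Finset

theorem prl7_mul {R : Type} [CommRing R] {d : R} {u v : Rˣ} (hu : d ∣ (u : R) - 1)
    (hv : d ∣ (v : R) - 1) : d ∣ ((u * v : Rˣ) : R) - 1 := by
  have e : ((u * v : Rˣ) : R) - 1 = ((u : R) - 1) * v + ((v : R) - 1) := by
    rw [Units.val_mul]; ring
  rw [e]
  exact dvd_add (hu.mul_right _) hv

theorem prl7_inv {R : Type} [CommRing R] {d : R} {u : Rˣ} (hu : d ∣ (u : R) - 1) :
    d ∣ ((u⁻¹ : Rˣ) : R) - 1 := by
  have e : ((u⁻¹ : Rˣ) : R) - 1 = ((u : R) - 1) * -((u⁻¹ : Rˣ) : R) := by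
    linear_combination u.mul_inv
  rw [e]
  exact hu.mul_right _

theorem prl7_div {R : Type} [CommRing R] {d : R} {u v : Rˣ} (hu : d ∣ (u : R) - 1)
    (hv : d ∣ (v : R) - 1) : d ∣ ((u / v : Rˣ) : R) - 1 := by
  rw [div_eq_mul_inv]
  exact prl7_mul hu (prl7_inv hv)

theorem prl7_sq {R : Type} [CommRing R] {d : R} {u : Rˣ} (hu : d ∣ (u : R) - 1) :
    d ∣ ((u ^ 2 : Rˣ) : R) - 1 := by
  rw [sq]
  exact prl7_mul hu hu

theorem prl7_alt {R : Type} [CommRing R] {a : ℕ} (h0 : 0 < a) :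
    (-1 : R) ^ a + 2 * ∑ j ∈ Ioo 0 a, (-1 : R) ^ j = -1 := by
  induction a, h0 using Nat.le_induction with
  | base =>
    have e : Ioo 0 (Nat.succ 0) = (∅ : Finset ℕ) := by decide
    rw [e]
    simp
  | succ a ha ih =>
    have e : Ioo 0 (a + 1) = insert a (Ioo 0 a) := by
      ext j
      simp only [mem_Ioo, mem_insert]
      omega
    rw [e, sum_insert (by simp), pow_succ]
    linear_combination ih

theorem prl7_fam {R : Type} [CommRing R] [IsDomain R] [ValuationRing R] (f : ℕ → R) (r : R)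
    (s : Finset ℕ) : ∃ l : R, l ∣ r ∧ (∀ j ∈ s, l ∣ f j) ∧ (l = r ∨ ∃ j ∈ s, l = f j) := by
  induction s using Finset.induction_on with
  | empty => exact ⟨r, dvd_rfl, by simp, Or.inl rfl⟩
  | insert a s ha ih =>
    obtain ⟨l, h1, h2, h3⟩ := ih
    rcases ValuationRing.dvd_total l (f a) with h | h
    · refine ⟨l, h1, fun j hj => ?_, h3.imp_right fun ⟨j, hj, e⟩ => ⟨j, mem_insert_of_mem hj, e⟩⟩
      rcases mem_insert.1 hj with rfl | hj
      · exact h
      · exact h2 j hj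
    · refine ⟨f a, h.trans h1, fun j hj => ?_, Or.inr ⟨a, mem_insert_self _ _, rfl⟩⟩
      rcases mem_insert.1 hj with rfl | hj
      · exact dvd_rfl
      · exact h.trans (h2 j hj)

theorem prl7_term {R : Type} [CommRing R] {l : R} (h2 : l ∣ 2) {x y s D D' : Rˣ} (j : ℕ)
    (hx : l ∣ (x : R) - 1) (hy : l ∣ (y : R) - 1) (hx2 : (2 : R) ∣ (x : R) ^ 2 - 1)
    (hy2 : (2 : R) ∣ (y : R) ^ 2 - 1) (hs : (2 : R) ∣ (s : R) - 1) (hD : 2 * l ∣ (D : R) - 1)
    (hD' : 2 * l ∣ (D' : R) - 1) :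
    2 * l ∣ (-1) ^ j * (((x * y / s : Rˣ) : R) - ((x * y / s * D * D')⁻¹ : Rˣ)) -
      (((x : R) - 1) ^ 2 + ((y : R) - 1) ^ 2) := by
  set Z : Rˣ := x * y / s with hZ
  have e0 : (((Z * D * D')⁻¹ : Rˣ) : R) = ((Z⁻¹ : Rˣ) : R) * (((D * D')⁻¹ : Rˣ) : R) := by
    rw [← Units.val_mul, mul_assoc, mul_inv]
  have a1 : 2 * l ∣ (((D * D')⁻¹ : Rˣ) : R) - 1 := prl7_inv (prl7_mul hD hD')
  have a2 : l ∣ ((Z⁻¹ : Rˣ) : R) - 1 := prl7_inv (prl7_div (prl7_mul hx hy) (h2.trans hs))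
  have e1 : (Z : R) ^ 2 = (x : R) ^ 2 * (y : R) ^ 2 * (((s ^ 2)⁻¹ : Rˣ) : R) := by
    rw [← Units.val_pow_eq_pow_val, ← Units.val_pow_eq_pow_val, ← Units.val_pow_eq_pow_val,
      ← Units.val_mul, ← Units.val_mul, hZ, div_pow, mul_pow, div_eq_mul_inv]
  have a3 : 2 * l ∣ (((s ^ 2)⁻¹ : Rˣ) : R) - 1 := by
    refine prl7_inv ?_
    have e : ((s ^ 2 : Rˣ) : R) - 1 = ((s : R) - 1) * ((s : R) - 1) + 2 * ((s : R) - 1) := by
      rw [Units.val_pow_eq_pow_val]; ring
    rw [e]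
    exact dvd_add (mul_dvd_mul hs (h2.trans hs)) (mul_dvd_mul_left _ (h2.trans hs))
  have a4 : 2 * l ∣ (Z : R) ^ 2 - (x : R) ^ 2 * (y : R) ^ 2 := by
    rw [e1, ← mul_sub_one]
    exact a3.mul_left _
  have a5 : 2 * l ∣ (x : R) ^ 2 * (y : R) ^ 2 - 1 - (((x : R) - 1) ^ 2 + ((y : R) - 1) ^ 2) := by
    have e : (x : R) ^ 2 * (y : R) ^ 2 - 1 - (((x : R) - 1) ^ 2 + ((y : R) - 1) ^ 2) =
        ((x : R) ^ 2 - 1) * ((y : R) ^ 2 - 1) + (2 * ((x : R) - 1) + 2 * ((y : R) - 1)) := by ring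
    rw [e]
    exact dvd_add (mul_dvd_mul hx2 (h2.trans hy2))
      (dvd_add (mul_dvd_mul_left _ hx) (mul_dvd_mul_left _ hy))
  have a6 : (2 : R) ∣ ((x : R) - 1) ^ 2 + ((y : R) - 1) ^ 2 := by
    have e : ((x : R) - 1) ^ 2 + ((y : R) - 1) ^ 2 =
        ((x : R) ^ 2 - 1) + ((y : R) ^ 2 - 1) - 2 * ((x : R) + y - 2) := by ring
    rw [e]
    exact dvd_sub (dvd_add hx2 hy2) (dvd_mul_right _ _)
  have a7 : (2 : R) ∣ (Z : R) ^ 2 - 1 := by
    have e : (Z : R) ^ 2 - 1 = ((Z : R) ^ 2 - (x : R) ^ 2 * (y : R) ^ 2) +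
        ((x : R) ^ 2 * (y : R) ^ 2 - 1 - (((x : R) - 1) ^ 2 + ((y : R) - 1) ^ 2)) +
        (((x : R) - 1) ^ 2 + ((y : R) - 1) ^ 2) := by ring
    rw [e]
    exact dvd_add (dvd_add ((dvd_mul_right _ _).trans a4) ((dvd_mul_right _ _).trans a5)) a6
  have a8 : l ∣ (-1 : R) ^ j - 1 := by
    refine h2.trans ?_
    rcases neg_one_pow_eq_or R j with h | h <;> rw [h]
    · simp
    · exact ⟨-1, by ring⟩
  have e : (-1) ^ j * ((Z : R) - ((Z⁻¹ : Rˣ) : R) * (((D * D')⁻¹ : Rˣ) : R)) -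
      (((x : R) - 1) ^ 2 + ((y : R) - 1) ^ 2) =
      (-1) ^ j * (((Z : R) ^ 2 - 1) * (((Z⁻¹ : Rˣ) : R) - 1) +
        ((Z : R) ^ 2 - (x : R) ^ 2 * (y : R) ^ 2) +
        ((x : R) ^ 2 * (y : R) ^ 2 - 1 - (((x : R) - 1) ^ 2 + ((y : R) - 1) ^ 2)) -
        ((Z⁻¹ : Rˣ) : R) * ((((D * D')⁻¹ : Rˣ) : R) - 1)) +
      (((x : R) - 1) ^ 2 + ((y : R) - 1) ^ 2) * ((-1) ^ j - 1) := by
    linear_combination (-(-1) ^ j * (Z : R)) * Z.mul_inv
  rw [e0, e]
  exact dvd_add (Dvd.dvd.mul_left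
    (dvd_sub (dvd_add (dvd_add (mul_dvd_mul a7 a2) a4) a5) (a1.mul_left _)) _) (mul_dvd_mul a6 a8)

theorem Loc.exists_lam {R : Type} [CommRing R] [IsDomain R] [ValuationRing R] {m : ℕ} (L : Loc R m) :
    ∃ l : R, l ∣ 2 ∧ (∀ j, 0 < j → j < 2 * m → l ∣ (L.z j : R) - 1) ∧
      (l = 2 ∨ ∃ j, 0 < j ∧ j < 2 * m ∧ l = (L.z j : R) - 1) := by
  obtain ⟨l, h1, h2, h3⟩ := prl7_fam (fun j => (L.z j : R) - 1) 2 (Ioo 0 (2 * m))
  exact ⟨l, h1, fun j a b => h2 j (mem_Ioo.2 ⟨a, b⟩),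
    h3.imp_right fun ⟨j, hj, e⟩ => ⟨j, (mem_Ioo.1 hj).1, (mem_Ioo.1 hj).2, e⟩⟩

theorem Loc.D_cong2 {R : Type} [CommRing R] {m : ℕ} (L : Loc R m) {l : R} (h2 : l ∣ 2)
    (hl : ∀ j, 0 < j → j < 2 * m → l ∣ (L.z j : R) - 1) {a : ℕ} (h0 : 0 < a) (ha : a < m) :
    2 * l ∣ (L.D a : R) - 1 := by
  have h := L.star0 h0 ha
  have e : (L.D a : R) - 1 = -(2 * ∑ j ∈ Ioo 0 a,
      (-1) ^ j * (((L.z j * L.z (2 * a - j) / L.z a ^ 2 : Rˣ) : R) - 1)) := by
    simp only [mul_sub, sum_sub_distrib, mul_one]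
    linear_combination h - prl7_alt (R := R) h0
  rw [e, dvd_neg]
  refine mul_dvd_mul_left _ (dvd_sum fun j hj => Dvd.dvd.mul_left ?_ _)
  obtain ⟨b1, b2⟩ := mem_Ioo.1 hj
  exact prl7_div (prl7_mul (hl j b1 (by omega)) (hl _ (by omega) (by omega)))
    (prl7_sq (hl a h0 (by omega)))

theorem Loc.key2 {R : Type} [CommRing R] [IsDomain R] {M : ℕ} (L : Loc R (2 * M)) (hM : 2 ≤ M)
    (hw : L.w ^ 2 = 1) {l : R} (h2 : l ∣ 2)
    (hl : ∀ j, 0 < j → j < 2 * (2 * M) → l ∣ (L.z j : R) - 1) {c : ℕ} (h0 : 0 < c) (hc : c < M) :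
    2 * l ∣ ∑ j ∈ Ioo 0 c, (((L.z j : R) - 1) ^ 2 + ((L.z (2 * c - j) : R) - 1) ^ 2) -
      (1 + (-(L.w : R)) ^ c + 2 * ((M - c - 1 : ℕ) : R)) := by
  have hk := L.key hw h0 hc
  unfold Loc.Key at hk
  have a1 : 2 * l ∣ ∑ j ∈ Ioo 0 c,
      ((-1) ^ j * ((L.Z c j : R) - ((L.Z c j * L.D j * L.D (2 * c - j))⁻¹ : Rˣ)) -
        (((L.z j : R) - 1) ^ 2 + ((L.z (2 * c - j) : R) - 1) ^ 2)) := by
    refine dvd_sum fun j hj => ?_
    obtain ⟨b1, b2⟩ := mem_Ioo.1 hj
    exact prl7_term h2 j (hl j b1 (by omega)) (hl _ (by omega) (by omega))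
      (L.sq_cong hM hw b1 (by omega)) (L.sq_cong hM hw (by omega) (by omega))
      (L.even_cong hM hw h0 (by omega)) (L.D_cong2 h2 hl b1 (by omega))
      (L.D_cong2 h2 hl (by omega) (by omega))
  have a2 : 2 * l ∣ (((L.D (2 * c))⁻¹ : Rˣ) : R) - 1 :=
    prl7_inv (L.D_cong2 h2 hl (by omega) (by omega))
  have a3 : 2 * l ∣ ∑ i ∈ Ioo 0 (M - c),
      ((L.U c i : R) * (1 + (L.D i / L.D (i + 2 * c) : Rˣ)) - 2) := by
    refine dvd_sum fun i hi => ?_
    obtain ⟨b1, b2⟩ := mem_Ioo.1 hi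
    have e : (L.U c i : R) * (1 + (L.D i / L.D (i + 2 * c) : Rˣ)) - 2 =
        (L.U c i : R) * (((L.D i / L.D (i + 2 * c) : Rˣ) : R) - 1) + 2 * ((L.U c i : R) - 1) := by
      ring
    rw [e]
    refine dvd_add (Dvd.dvd.mul_left (prl7_div (L.D_cong2 h2 hl b1 (by omega))
      (L.D_cong2 h2 hl (by omega) (by omega))) _) (mul_dvd_mul_left _ ?_)
    exact prl7_div (prl7_mul (hl i b1 (by omega)) (hl _ (by omega) (by omega)))
      (hl _ (by omega) (by omega))
  rw [sum_sub_distrib, hk] at a1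
  rw [sum_sub_distrib, sum_const, Nat.card_Ioo, Nat.sub_zero, nsmul_eq_mul] at a3
  have key := dvd_sub (dvd_add (a2.mul_left (1 + (-(L.w : R)) ^ c)) a3) a1
  refine (dvd_iff_dvd_of_dvd_sub ?_).1 key
  refine ⟨0, ?_⟩
  ring

end Pool.Agent.P.MP_111ca2_co.PR
end

-- part Pool.Agent.P.MP_111ca2_co.PrL8a
section

/-! Local system: `m` twice an odd number. -/

namespace Pool.Agent.P.MP_111ca2_co.PR

open Finset

variable {R : Type} [CommRing R] [IsDomain R] [ValuationRing R]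

theorem Loc.odd_half_false {M : ℕ} (L : Loc R (2 * M)) (hM : Odd M) (h3 : 3 ≤ M)
    (hw : L.w ^ 2 = 1) : False := by
  obtain ⟨t, ht⟩ := hM
  have hw1 : L.w = -1 := by
    have h : (-L.w) ^ (2 * t + 1) = 1 :=
      (congrArg (fun n => (-L.w) ^ n) ht).symm.trans (L.neg_w_pow (by omega))
    rw [pow_succ, pow_mul, neg_sq, hw, one_pow, one_mul] at h
    exact neg_eq_iff_eq_neg.1 h
  obtain ⟨l, h2, hl, hlam⟩ := L.exists_lam
  have hnu : ¬ IsUnit l := by
    intro hu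
    rcases hlam with h | ⟨j, hj0, hj, h⟩
    · exact L.two_nu (h ▸ hu)
    · obtain ⟨y, hy⟩ := L.sq_cong (by omega) hw hj0 hj
      have h3 : (2 : R) ∣ l ^ 2 := ⟨y - l, by rw [h]; linear_combination hy⟩
      exact L.two_nu (isUnit_of_dvd_unit h3 (hu.pow 2))
  obtain ⟨e, he⟩ := id h2
  have hk := L.key2 (by omega) hw h2 hl (c := 2) (by omega) (by omega)
  have hI : Ioo 0 2 = {1} := by decide
  have hc : ((M - 2 - 1 : ℕ) : R) = 2 * ((t - 1 : ℕ) : R) := by
    have : M - 2 - 1 = 2 * (t - 1) := by omega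
    rw [this]
    push_cast
    ring
  rw [hI, sum_singleton, L.z1, hw1, hc] at hk
  have hk3 : 2 * l ∣ ((L.z 3 : R) - 1) ^ 2 - 2 := by
    obtain ⟨y, hy⟩ := hk
    refine ⟨y + e * ((t - 1 : ℕ) : R), ?_⟩
    simp only [Units.val_one, Units.val_neg] at hy
    linear_combination hy + 2 * ((t - 1 : ℕ) : R) * he
  let π := Ideal.Quotient.mk (Ideal.span {2 * l})
  have hπ : ∀ x : R, π x = 0 ↔ 2 * l ∣ x := fun x => by
    rw [Ideal.Quotient.eq_zero_iff_mem, Ideal.mem_span_singleton]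
  have hD : ∀ a, 0 < a → a < 2 * M → π (L.D a) = 1 := fun a h0 ha => by
    have h := (hπ _).2 (L.D_cong2 h2 hl h0 ha)
    rwa [map_sub, map_one, sub_eq_zero] at h
  have hz : ∀ b, 0 < b → b < 2 * M → π (L.z (2 * b)) = 1 + π (((L.z b : R) - 1) ^ 2) := by
    intro b h0 hb
    obtain ⟨y, hy⟩ := hl b h0 (by omega)
    have h1 : π (2 * ((L.z b : R) - 1)) = 0 := (hπ _).2 ⟨y, by rw [hy]; ring⟩
    rw [L.z_dbl b, Units.val_mul, map_mul, hD b h0 hb, one_mul, Units.val_pow_eq_pow_val]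
    have h4 : (L.z b : R) ^ 2 = 1 + ((L.z b : R) - 1) ^ 2 + 2 * ((L.z b : R) - 1) := by ring
    rw [h4, map_add, h1, add_zero, map_add, map_one]
  have hz4 : ∀ a, 0 < a → a < M → π (L.z (2 * (2 * a))) = 1 := by
    intro a h0 ha
    obtain ⟨y, hy⟩ := L.even_cong (by omega) hw h0 (show a < 2 * M by omega)
    have h1 : π (((L.z (2 * a) : R) - 1) ^ 2) = 0 :=
      (hπ _).2 ⟨e * y ^ 2, by rw [hy]; linear_combination 2 * y ^ 2 * he⟩
    rw [hz (2 * a) (by omega) (by omega), h1, add_zero]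
  have hdown : ∀ a, 0 < a → a < M →
      π (L.z (2 * a)) * π (L.z (2 * M - 2 * a)) = π (L.z (2 * M)) := by
    intro a h0 ha
    have h := L.down (a := 2 * a) (by omega) (by omega)
    rw [pow_mul, hw, one_pow, mul_one, pow_mul, neg_sq, one_pow, one_pow, one_mul] at h
    rw [← h, Units.val_mul, Units.val_mul, map_mul, map_mul, hD (2 * a) (by omega) (by omega),
      mul_one]
  have hm : π (L.z (2 * M)) = 1 := by
    have h := hdown 1 (by omega) (by omega)
    have h1 : 2 * M - 2 * 1 = 2 * (2 * t) := by omega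
    rw [h1, hz4 t (by omega) (by omega), mul_one, mul_one, L.z_two (by omega)] at h
    rw [← h, Units.val_one, map_one]
  have h6 : π (L.z (2 * 3)) = 1 := by
    rcases eq_or_lt_of_le h3 with h | h
    · exact (congrArg (fun n => π (L.z (2 * n))) h).trans hm
    · have h' := hdown 3 (by omega) h
      have h1 : 2 * M - 2 * 3 = 2 * (2 * (t - 1)) := by omega
      rwa [h1, hz4 (t - 1) (by omega) (by omega), mul_one, hm] at h'
  rw [hz 3 (by omega) (by omega), add_eq_left, hπ] at h6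
  have h7 : 2 * l ∣ 2 * 1 := by
    have h := dvd_sub h6 hk3
    rwa [sub_sub_cancel, ← mul_one (2 : R), mul_assoc, one_mul] at h
  exact hnu (isUnit_of_dvd_one ((mul_dvd_mul_iff_left L.two_ne).1 h7))

end Pool.Agent.P.MP_111ca2_co.PR
end

-- part Pool.Agent.P.MP_111ca2_co.PrL8b
section

/-! Local system: `m` divisible by four, all units are `1` modulo `2`. -/

namespace Pool.Agent.P.MP_111ca2_co.PR

open Finset

variable {R : Type} [CommRing R] [IsDomain R] [ValuationRing R]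

theorem Loc.even_half {M : ℕ} (L : Loc R (2 * M)) (hM : Even M) (h2 : 2 ≤ M) (hw : L.w ^ 2 = 1) :
    L.w = 1 ∧ ∀ j, 0 < j → j < 2 * (2 * M) → (2 : R) ∣ (L.z j : R) - 1 := by
  obtain ⟨l, hl2, hl, hlor⟩ := L.exists_lam
  have h4 : 2 * l ∣ 4 := by
    obtain ⟨y, hy⟩ := hl2
    exact ⟨y, by linear_combination 2 * hy⟩
  have hnu : ¬ IsUnit l := by
    intro hu
    rcases hlor with h | ⟨j, j0, j1, h⟩
    · exact L.two_nu (h ▸ hu)
    · obtain ⟨y, hy⟩ := L.sq_cong h2 hw j0 j1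
      have h1 : (2 : R) ∣ l ^ 2 := ⟨y - l, by rw [h]; linear_combination hy⟩
      exact L.two_nu (isUnit_of_dvd_unit h1 (hu.pow 2))
  have hw' : (L.w : R) * L.w = 1 := by
    rw [← sq, ← Units.val_pow_eq_pow_val, hw, Units.val_one]
  obtain ⟨t, ht⟩ := hM
  have hw1 : (L.w : R) = 1 := by
    rcases mul_self_eq_one_iff.1 hw' with h | h
    · exact h
    · exfalso
      have h1 := L.key2 h2 hw hl2 hl (c := 1) one_pos (by omega)
      have e1 : Ioo 0 1 = (∅ : Finset ℕ) := by decide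
      have e2 : M - 1 - 1 = 2 * (t - 1) := by omega
      rw [e1, sum_empty, h, e2] at h1
      obtain ⟨y, hy⟩ := h1
      obtain ⟨u, hu⟩ := h4
      push_cast at hy
      have h3 : (2 : R) * (l * (-y - u * ((t - 1 : ℕ) : R))) = 2 * 1 := by
        linear_combination hy + ((t - 1 : ℕ) : R) * hu
      exact hnu (IsUnit.of_mul_eq_one _ (mul_left_cancel₀ L.two_ne h3))
  have hwu : L.w = 1 := Units.ext hw1
  refine ⟨hwu, ?_⟩
  have hsq : ∀ x : R, (2 : R) ∣ x → 2 * l ∣ x ^ 2 := by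
    rintro x ⟨y, rfl⟩
    exact h4.trans ⟨y ^ 2, by ring⟩
  have hev : ∀ a, 0 < a → a < 2 * M → 2 * l ∣ ((L.z (2 * a) : R) - 1) ^ 2 :=
    fun a a0 a1 => hsq _ (L.even_cong h2 hw a0 a1)
  have low : ∀ j, 0 < j → j < 2 * M - 1 → 2 * l ∣ ((L.z j : R) - 1) ^ 2 := by
    intro j
    induction j using Nat.strong_induction_on with
    | _ j ih =>
      intro j0 j1
      rcases Nat.even_or_odd' j with ⟨a, rfl | rfl⟩
      · exact hev a (by omega) (by omega)
      · rcases Nat.eq_zero_or_pos a with rfl | a0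
        · simp [L.z1]
        · have h1 := L.key2 h2 hw hl2 hl (c := a + 1) (by omega) (by omega)
          have hK : 2 * l ∣
              (1 + (-(L.w : R)) ^ (a + 1) + 2 * ((M - (a + 1) - 1 : ℕ) : R)) := by
            refine h4.trans ?_
            rw [hw1]
            rcases Nat.even_or_odd' a with ⟨b, rfl | rfl⟩
            · have e2 : M - (2 * b + 1) - 1 = 2 * (t - b - 1) := by omega
              rw [e2, Odd.neg_one_pow ⟨b, rfl⟩]
              exact ⟨((t - b - 1 : ℕ) : R), by push_cast; ring⟩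
            · have e2 : M - (2 * b + 1 + 1) - 1 = 2 * (t - b - 2) + 1 := by omega
              rw [e2, Even.neg_one_pow ⟨b + 1, by ring⟩]
              exact ⟨((t - b - 2 : ℕ) : R) + 1, by push_cast; ring⟩
          have h3 := (dvd_sub_left hK).1 h1
          have hm : 1 ∈ Ioo 0 (a + 1) := by simp [a0]
          rw [← add_sum_erase _ _ hm] at h3
          have h5 : 2 * l ∣ ∑ j ∈ (Ioo 0 (a + 1)).erase 1,
              (((L.z j : R) - 1) ^ 2 + ((L.z (2 * (a + 1) - j) : R) - 1) ^ 2) := by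
            refine dvd_sum fun i hi => ?_
            rw [mem_erase, mem_Ioo] at hi
            exact dvd_add (ih i (by omega) (by omega) (by omega))
              (ih _ (by omega) (by omega) (by omega))
          have h6 := (dvd_add_left h5).1 h3
          have e3 : 2 * (a + 1) - 1 = 2 * a + 1 := by omega
          simpa [L.z1, e3] using h6
  have hM2 : (2 : R) ∣ (L.z (2 * M) : R) - 1 := L.even_cong h2 hw (by omega) (by omega)
  have mid : ∀ j, 0 < j → j < 2 * M → 2 * l ∣ ((L.z j : R) - 1) ^ 2 := by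
    intro j j0 j1
    rcases lt_or_ge j (2 * M - 1) with h | h
    · exact low j j0 h
    · have e : j = 2 * M - 1 := by omega
      have h1 := L.down (a := 1) one_pos (by omega)
      rw [L.z1, hwu, L.D_one (by omega), ← e] at h1
      have h3 := congrArg Units.val h1
      simp only [one_mul, mul_one, pow_one, Units.val_mul, Units.val_neg,
        Units.val_one] at h3
      obtain ⟨y, hy⟩ := hM2
      exact hsq _ ⟨-y - 1, by rw [h3]; linear_combination -hy⟩
  have all : ∀ j, 0 < j → j < 2 * (2 * M) → 2 * l ∣ ((L.z j : R) - 1) ^ 2 := by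
    intro j j0 j1
    rcases lt_trichotomy j (2 * M) with h | h | h
    · exact mid j j0 h
    · rw [h]
      exact hsq _ hM2
    · obtain ⟨a, rfl⟩ : ∃ a, j = a + 2 * M := ⟨j - 2 * M, by omega⟩
      have a0 : 0 < a := by omega
      have a1 : a < 2 * M := by omega
      have h1 := L.up a0 a1
      rw [hwu, one_pow, one_mul] at h1
      have h3 := congrArg Units.val h1
      simp only [Units.val_mul] at h3
      obtain ⟨y, hy⟩ := hM2
      obtain ⟨u, hu⟩ := L.D_cong a0 a1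
      have h5 := mid a a0 a1
      have e : ((L.z (a + 2 * M) : R) - 1) ^ 2 = ((L.z a : R) - 1) ^ 2 +
          4 * ((L.z a * (y + u + 2 * y * u)) * ((L.z a : R) - 1) +
            (L.z a * (y + u + 2 * y * u)) ^ 2) := by
        have e1 : (L.z (2 * M) : R) = 1 + 2 * y := by linear_combination hy
        have e2 : (L.D a : R) = 1 + 2 * u := by linear_combination hu
        rw [h3, e1, e2]
        ring
      rw [e]
      exact dvd_add h5 (h4.mul_right _)
  rcases hlor with h | ⟨j, j0, j1, h⟩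
  · exact h ▸ hl
  · have h0 : l ≠ 0 := by
      rintro rfl
      exact L.two_ne (zero_dvd_iff.1 hl2)
    have h1 := all j j0 j1
    rw [← h, sq] at h1
    have h3 : (2 : R) ∣ l := (mul_dvd_mul_iff_right h0).1 h1
    exact fun i i0 i1 => h3.trans (hl i i0 i1)

end Pool.Agent.P.MP_111ca2_co.PR
end

-- part Pool.Agent.P.MP_111ca2_co.PrL9a
section

/-! Local system: congruences modulo `4` and `8`. -/

namespace Pool.Agent.P.MP_111ca2_co.PR

open Finset

theorem prl9a_Ioo_succ {a : ℕ} (ha : 0 < a) : Ioo 0 (a + 1) = insert a (Ioo 0 a) := by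
  ext j
  simp only [mem_Ioo, mem_insert]
  omega

theorem prl9a_alt {R : Type} [CommRing R] {a : ℕ} (ha : 0 < a) :
    (-1 : R) ^ a + 2 * ∑ j ∈ Ioo 0 a, (-1 : R) ^ j = -1 := by
  induction a with
  | zero => omega
  | succ a ih =>
    rcases Nat.eq_zero_or_pos a with h | h
    · subst h
      have : Ioo 0 (0 + 1) = (∅ : Finset ℕ) := by
        ext j
        simp only [mem_Ioo, notMem_empty, iff_false]
        omega
      rw [this]
      simp
    · rw [prl9a_Ioo_succ h, sum_insert (by simp), pow_succ]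
      linear_combination ih h

theorem prl9a_range {R : Type} [CommRing R] (f : ℕ → R) {a : ℕ} (ha : 0 < a) :
    ∑ j ∈ range a, f j = f 0 + ∑ j ∈ Ioo 0 a, f j := by
  have : range a = insert 0 (Ioo 0 a) := by
    ext j
    simp only [mem_Ioo, mem_insert, mem_range]
    omega
  rw [this, sum_insert (by simp)]

theorem prl9a_QQ {R : Type} [CommRing R] (ν : ℕ → R) {a : ℕ} (ha : 0 < a) :
    QQ ν a = ν 0 + ν a + ∑ j ∈ Ioo 0 a, (ν j + ν (2 * a - j)) := by
  have h1 : ∑ j ∈ Ioo 0 a, ν (2 * a - j) = ∑ j ∈ Ioo 0 a, ν (a + j) := by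
    refine sum_nbij' (fun j => a - j) (fun j => a - j) ?_ ?_ ?_ ?_ ?_
    · intro j hj
      simp only [mem_Ioo] at hj ⊢
      omega
    · intro j hj
      simp only [mem_Ioo] at hj ⊢
      omega
    · intro j hj
      simp only [mem_Ioo] at hj ⊢
      omega
    · intro j hj
      simp only [mem_Ioo] at hj ⊢
      omega
    · intro j hj
      simp only [mem_Ioo] at hj
      congr 1
      omega
  unfold QQ
  rw [two_mul a, sum_range_add, prl9a_range ν ha, prl9a_range (fun j => ν (a + j)) ha,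
    sum_add_distrib, ← two_mul a, h1]
  simp only [add_zero]
  ring

theorem prl9a_sign {R : Type} [CommRing R] (a : ℕ) :
    ∃ g : R, (-1 : R) ^ a = 1 + 2 * a + 4 * g := by
  induction a with
  | zero => exact ⟨0, by simp⟩
  | succ a ih =>
    obtain ⟨g, hg⟩ := ih
    refine ⟨-1 - a - g, ?_⟩
    rw [pow_succ, hg]
    push_cast
    ring

variable {R : Type} [CommRing R] [IsDomain R] {M : ℕ} (L : Loc R (2 * M)) (hw : L.w = 1)
  (ν : ℕ → R) (h0 : ν 0 = 0) (hν : ∀ j, 0 < j → j < 2 * (2 * M) → (L.z j : R) = 1 + 2 * ν j)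

include hw h0 hν

omit hw in
theorem Loc.nu_D {a : ℕ} (ha0 : 0 < a) (ha : a < 2 * M) :
    ∃ e : R, (L.D a : R) = 1 + 4 * e ∧ (2 : R) ∣ e - (QQ ν a + ν a) := by
  have hs := L.star0 ha0 ha
  set u : R := (((L.z a ^ 2)⁻¹ : Rˣ) : R) with hu
  have hza := hν a ha0 (by omega)
  have hu1 : u * (1 + 2 * ν a) ^ 2 = 1 := by
    rw [← hza, hu, ← Units.val_pow_eq_pow_val, ← Units.val_mul, inv_mul_cancel, Units.val_one]
  set t : ℕ → R := fun j => ν j * ν (2 * a - j) -
    (ν a + ν a ^ 2) * u * ((1 + 2 * ν j) * (1 + 2 * ν (2 * a - j))) with ht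
  have hT : ∀ j ∈ Ioo 0 a, (-1 : R) ^ j * ((L.z j * L.z (2 * a - j) / L.z a ^ 2 : Rˣ) : R) =
      (-1) ^ j + 2 * ((-1) ^ j * (ν j + ν (2 * a - j))) + 4 * ((-1) ^ j * t j) := by
    intro j hj
    simp only [mem_Ioo] at hj
    rw [div_eq_mul_inv, Units.val_mul, Units.val_mul, ← hu, hν j hj.1 (by omega),
      hν (2 * a - j) (by omega) (by omega)]
    simp only [ht]
    linear_combination ((-1 : R) ^ j * ((1 + 2 * ν j) * (1 + 2 * ν (2 * a - j)))) * hu1
  rw [sum_congr rfl hT, sum_add_distrib, sum_add_distrib, ← mul_sum, ← mul_sum] at hs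
  have halt := prl9a_alt (R := R) ha0
  refine ⟨-(∑ j ∈ Ioo 0 a, (-1) ^ j * (ν j + ν (2 * a - j))) - 2 * ∑ j ∈ Ioo 0 a, (-1) ^ j * t j,
    by linear_combination hs - halt, ?_⟩
  have hd : (2 : R) ∣ ∑ j ∈ Ioo 0 a, ((-1) ^ j * (ν j + ν (2 * a - j)) + (ν j + ν (2 * a - j))) := by
    refine dvd_sum fun j _ => ?_
    obtain ⟨g, hg⟩ := prl9a_sign (R := R) j
    exact ⟨(1 + j + 2 * g) * (ν j + ν (2 * a - j)), by rw [hg]; ring⟩
  obtain ⟨k, hk⟩ := hd
  rw [sum_add_distrib] at hk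
  rw [prl9a_QQ ν ha0, h0]
  exact ⟨-k - (∑ j ∈ Ioo 0 a, (-1) ^ j * t j) - ν a, by linear_combination -hk⟩

omit hw in
theorem Loc.nu_even {a : ℕ} (ha : a < 2 * M) : (2 : R) ∣ ν (2 * a) := by
  rcases Nat.eq_zero_or_pos a with h | h
  · subst h
    simp [h0]
  obtain ⟨e, he, -⟩ := L.nu_D ν h0 hν h ha
  have h1 := congrArg (fun x : Rˣ => (x : R)) (L.z_dbl a)
  simp only [Units.val_mul, Units.val_pow_eq_pow_val] at h1
  rw [he, hν a h (by omega), hν (2 * a) (by omega) (by omega)] at h1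
  refine ⟨e + (ν a + ν a ^ 2) * (1 + 4 * e), ?_⟩
  apply mul_left_cancel₀ L.two_ne
  linear_combination h1

theorem Loc.nu_rfx {a : ℕ} (ha0 : 0 < a) (ha : a < 2 * M) :
    (2 : R) ∣ ν a + ν (2 * M - a) - a := by
  obtain ⟨e, he, -⟩ := L.nu_D ν h0 hν ha0 ha
  obtain ⟨f, hf⟩ := L.nu_even ν h0 hν (a := M) (by omega)
  obtain ⟨g, hg⟩ := prl9a_sign (R := R) a
  have h1 := congrArg (fun x : Rˣ => (x : R)) (L.down ha0 ha)
  simp only [hw, one_pow, mul_one, Units.val_mul, Units.val_pow_eq_pow_val, Units.val_neg,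
    Units.val_one] at h1
  rw [he, hν a ha0 (by omega), hν (2 * M - a) (by omega) (by omega),
    hν (2 * M) (by omega) (by omega), hf, hg] at h1
  refine ⟨g + f * (1 + 2 * a + 4 * g) - ν a * ν (2 * M - a) -
    e * ((1 + 2 * ν a) * (1 + 2 * ν (2 * M - a))), ?_⟩
  apply mul_left_cancel₀ L.two_ne
  linear_combination h1

theorem Loc.nu_per {a : ℕ} (ha : a < 2 * M) : (2 : R) ∣ ν (a + 2 * M) - ν a := by
  obtain ⟨f, hf⟩ := L.nu_even ν h0 hν (a := M) (by omega)
  rcases Nat.eq_zero_or_pos a with h | h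
  · subst h
    rw [zero_add, h0, sub_zero]
    exact ⟨f, hf⟩
  obtain ⟨e, he, -⟩ := L.nu_D ν h0 hν h ha
  have h1 := congrArg (fun x : Rˣ => (x : R)) (L.up h ha)
  simp only [hw, one_pow, one_mul, Units.val_mul] at h1
  rw [he, hν a h (by omega), hν (a + 2 * M) (by omega) (by omega),
    hν (2 * M) (by omega) (by omega), hf] at h1
  refine ⟨(e + f + 4 * e * f) * (1 + 2 * ν a), ?_⟩
  apply mul_left_cancel₀ L.two_ne
  linear_combination h1

end Pool.Agent.P.MP_111ca2_co.PR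
end

-- part Pool.Agent.P.MP_111ca2_co.PrL9b
section

/-! Local system: the key identity modulo `8`. -/

namespace Pool.Agent.P.MP_111ca2_co.PR

open Finset

theorem prl9b_inv {R : Type} [CommRing R] (u : Rˣ) (k t : R) (h : (u : R) = 1 + k * t) :
    ((u⁻¹ : Rˣ) : R) = 1 + k * (-(t * (u⁻¹ : Rˣ))) := by
  have h1 : (u : R) * (u⁻¹ : Rˣ) = 1 := Units.mul_inv u
  linear_combination h1 - ((u⁻¹ : Rˣ) : R) * h

theorem prl9b_sign {R : Type} [CommRing R] (j : ℕ) : ∃ s : R, (-1 : R) ^ j = 1 + 2 * s := by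
  rcases neg_one_pow_eq_or R j with h | h
  · exact ⟨0, by rw [h]; ring⟩
  · exact ⟨-1, by rw [h]; ring⟩

variable {R : Type} [CommRing R] [IsDomain R] {M : ℕ} (L : Loc R (2 * M)) (hw : L.w = 1)
  (ν : ℕ → R) (h0 : ν 0 = 0) (hν : ∀ j, 0 < j → j < 2 * (2 * M) → (L.z j : R) = 1 + 2 * ν j)

include hw h0 hν

omit hw in
theorem prl9b_dbl {a : ℕ} (ha0 : 0 < a) (ha : a < 2 * M) :
    ∃ x y : R, (L.z (2 * a) : R) = 1 + 4 * x ∧ x = QQ ν a + ν a ^ 2 + 2 * y := by
  obtain ⟨e, he, f, hf⟩ := L.nu_D ν h0 hν ha0 ha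
  have hz := hν a ha0 (by omega)
  have h1 : L.z (2 * a) = L.D a * L.z a ^ 2 := by
    unfold Loc.D
    rw [div_mul_cancel]
  have h2 : (L.z (2 * a) : R) = (L.D a : R) * (L.z a : R) ^ 2 := by
    rw [h1, Units.val_mul, Units.val_pow_eq_pow_val]
  refine ⟨e + ν a + ν a ^ 2 + 4 * e * (ν a + ν a ^ 2), f + ν a + 2 * e * (ν a + ν a ^ 2), ?_, ?_⟩
  · rw [h2, he, hz]; ring
  · linear_combination hf

omit hw in
theorem prl9b_left {c j : ℕ} (hc : c < M) (hj0 : 0 < j) (hj : j < c) :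
    (8 : R) ∣ (-1) ^ j * ((L.Z c j : R) - ((L.Z c j * L.D j * L.D (2 * c - j))⁻¹ : Rˣ)) -
      4 * (QQ ν j + ν j ^ 2 + (QQ ν (2 * c - j) + ν (2 * c - j) ^ 2)) := by
  obtain ⟨x1, y1, hx1, hy1⟩ := prl9b_dbl L ν h0 hν hj0 (by omega : j < 2 * M)
  obtain ⟨x2, y2, hx2, hy2⟩ :=
    prl9b_dbl L ν h0 hν (by omega : 0 < 2 * c - j) (by omega : 2 * c - j < 2 * M)
  obtain ⟨x3, y3, hx3, -⟩ := prl9b_dbl L ν h0 hν (by omega : 0 < c) (by omega : c < 2 * M)
  obtain ⟨e1, he1, -⟩ := L.nu_D ν h0 hν hj0 (by omega : j < 2 * M)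
  obtain ⟨e2, he2, -⟩ :=
    L.nu_D ν h0 hν (by omega : 0 < 2 * c - j) (by omega : 2 * c - j < 2 * M)
  have hz1 := hν j hj0 (by omega)
  have hz2 := hν (2 * c - j) (by omega) (by omega)
  have hi3 := prl9b_inv (L.z (2 * c)) 4 x3 hx3
  obtain ⟨s, hs⟩ := prl9b_sign (R := R) j
  obtain ⟨x4, hx4⟩ : ∃ x4 : R, (((L.z (2 * c))⁻¹ : Rˣ) : R) = 1 + 4 * x4 := ⟨_, hi3⟩
  have hZ : (L.Z c j : R) = (1 + 2 * ν j) * (1 + 2 * ν (2 * c - j)) * (1 + 4 * x4) := by
    unfold Loc.Z
    rw [div_eq_mul_inv, Units.val_mul, Units.val_mul, hz1, hz2, hx4]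
  obtain ⟨t, ht⟩ : ∃ t : R, ((L.Z c j * L.D j * L.D (2 * c - j) : Rˣ) : R) = 1 + 2 * t := by
    refine ⟨(ν j + ν (2 * c - j) + 2 * ν j * ν (2 * c - j)) * ((1 + 4 * x4) * (1 + 4 * e1) *
      (1 + 4 * e2)) + 2 * (x4 + e1 + e2 + 4 * (x4 * e1 + x4 * e2 + e1 * e2) + 16 * x4 * e1 * e2),
      ?_⟩
    rw [Units.val_mul, Units.val_mul, hZ, he1, he2]; ring
  obtain ⟨t', ht'⟩ : ∃ t' : R,
      (((L.Z c j * L.D j * L.D (2 * c - j))⁻¹ : Rˣ) : R) = 1 + 2 * t' :=
    ⟨_, prl9b_inv _ 2 t ht⟩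
  have hu : L.Z c j = L.z (2 * j) * L.z (2 * (2 * c - j)) * (L.z (2 * c))⁻¹ * (L.z (2 * c))⁻¹ *
      (L.Z c j * L.D j * L.D (2 * c - j))⁻¹ := by
    rw [eq_mul_inv_iff_mul_eq]
    unfold Loc.Z Loc.D
    apply Additive.ofMul.injective
    simp only [ofMul_mul, ofMul_inv, ofMul_div, ofMul_pow]
    abel
  have hu' : (L.Z c j : R) =
      (1 + 4 * x1) * (1 + 4 * x2) * (1 + 4 * x4) * (1 + 4 * x4) * (1 + 2 * t') := by
    rw [← hx1, ← hx2, ← hx4, ← ht']
    exact (congrArg (fun u : Rˣ => (u : R)) hu).trans (by simp only [Units.val_mul])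
  have hq : QQ ν j + ν j ^ 2 + (QQ ν (2 * c - j) + ν (2 * c - j) ^ 2) =
      x1 + x2 - 2 * (y1 + y2) := by
    rw [hy1, hy2]; ring
  rw [hu', ht', hs, hq]
  refine ⟨(1 + 2 * s) * (1 + 2 * t') * (2 * x1 * x2 + (1 + 4 * x1) * (1 + 4 * x2) *
    (x4 + 2 * x4 ^ 2)) + (x1 + x2) * (s + t' + 2 * s * t') + (y1 + y2), ?_⟩
  ring

omit hw in
theorem prl9b_right {c i : ℕ} (hc0 : 0 < c) (hi0 : 0 < i) (hi : i < M - c) :
    (8 : R) ∣ (L.U c i : R) * (1 + (L.D i / L.D (i + 2 * c) : Rˣ)) -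
      (2 + 4 * (QQ ν i + QQ ν (i + 2 * c))) := by
  obtain ⟨x3, y3, hx3, -⟩ := prl9b_dbl L ν h0 hν hc0 (by omega : c < 2 * M)
  obtain ⟨e1, he1, f1, hf1⟩ := L.nu_D ν h0 hν hi0 (by omega : i < 2 * M)
  obtain ⟨e2, he2, f2, hf2⟩ :=
    L.nu_D ν h0 hν (by omega : 0 < i + 2 * c) (by omega : i + 2 * c < 2 * M)
  have hz1 := hν i hi0 (by omega)
  have hz2 := hν (i + 2 * c) (by omega) (by omega)
  have hi2 := prl9b_inv (L.z (i + 2 * c)) 2 _ hz2
  obtain ⟨a, ha⟩ : ∃ a : R, (((L.z (i + 2 * c))⁻¹ : Rˣ) : R) = 1 + 2 * a := ⟨_, hi2⟩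
  have hi2' : (((L.z (i + 2 * c))⁻¹ : Rˣ) : R) = 1 + 2 * (-(ν (i + 2 * c) * (1 + 2 * a))) := by
    rw [← ha]; exact hi2
  have hd2 := prl9b_inv (L.D (i + 2 * c)) 4 _ he2
  obtain ⟨b, hb⟩ : ∃ b : R, (((L.D (i + 2 * c))⁻¹ : Rˣ) : R) = 1 + 4 * b := ⟨_, hd2⟩
  have hd2' : (((L.D (i + 2 * c))⁻¹ : Rˣ) : R) = 1 + 4 * (-(e2 * (1 + 4 * b))) := by
    rw [← hb]; exact hd2
  have hU : (L.U c i : R) =
      (1 + 2 * ν i) * (1 + 4 * x3) * (1 + 2 * (-(ν (i + 2 * c) * (1 + 2 * a)))) := by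
    unfold Loc.U
    rw [div_eq_mul_inv, Units.val_mul, Units.val_mul, hz1, hx3, add_comm (2 * c) i, hi2']
  have hD : ((L.D i / L.D (i + 2 * c) : Rˣ) : R) =
      (1 + 4 * e1) * (1 + 4 * (-(e2 * (1 + 4 * b)))) := by
    rw [div_eq_mul_inv, Units.val_mul, he1, hd2']
  obtain ⟨k, hk⟩ : ∃ k : R, (L.U c i : R) = 1 + 2 * (ν i + ν (i + 2 * c)) + 4 * k :=
    ⟨x3 * ((1 + 2 * ν i) * (1 - 2 * (ν (i + 2 * c) * (1 + 2 * a)))) - ν (i + 2 * c) -
      ν (i + 2 * c) * a - ν i * (ν (i + 2 * c) * (1 + 2 * a)), by rw [hU]; ring⟩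
  obtain ⟨l, hl⟩ : ∃ l : R, ((L.D i / L.D (i + 2 * c) : Rˣ) : R) = 1 + 4 * (e1 + e2) + 8 * l :=
    ⟨-e2 - 2 * e2 * b - 2 * e1 * (e2 * (1 + 4 * b)), by rw [hD]; ring⟩
  have hq : QQ ν i + QQ ν (i + 2 * c) =
      e1 + e2 - (ν i + ν (i + 2 * c)) - 2 * (f1 + f2) := by
    linear_combination -hf1 - hf2
  rw [hk, hl, hq]
  refine ⟨l + (ν i + ν (i + 2 * c)) + (ν i + ν (i + 2 * c)) * (e1 + e2 + 2 * l) +
    k * (1 + 2 * (e1 + e2) + 4 * l) + (f1 + f2), ?_⟩
  ring

theorem Loc.key3 (hM : Even M) {c : ℕ} (hc0 : 0 < c) (hc : c < M) :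
    (2 : R) ∣ EL ν c - ER ν M c := by
  have hK : L.Key M c := L.key (by rw [hw, one_pow]) hc0 hc
  unfold Loc.Key at hK
  have hL : (8 : R) ∣ ∑ j ∈ Ioo 0 c, (-1) ^ j * ((L.Z c j : R) -
      ((L.Z c j * L.D j * L.D (2 * c - j))⁻¹ : Rˣ)) - 4 * EL ν c := by
    unfold EL
    rw [mul_sum, ← sum_sub_distrib]
    refine dvd_sum fun j hj => ?_
    rw [mem_Ioo] at hj
    exact prl9b_left L ν h0 hν hc hj.1 hj.2
  have hR : (8 : R) ∣ ∑ i ∈ Ioo 0 (M - c), (L.U c i : R) * (1 + (L.D i / L.D (i + 2 * c) : Rˣ)) -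
      (2 * ((M - c - 1 : ℕ) : R) + 4 * ∑ i ∈ Ioo 0 (M - c), (QQ ν i + QQ ν (i + 2 * c))) := by
    have h1 : 2 * ((M - c - 1 : ℕ) : R) = ∑ i ∈ Ioo 0 (M - c), (2 : R) := by
      rw [sum_const, Nat.card_Ioo, nsmul_eq_mul, Nat.sub_zero, mul_comm]
    rw [h1, mul_sum, ← sum_add_distrib, ← sum_sub_distrib]
    refine dvd_sum fun i hi => ?_
    rw [mem_Ioo] at hi
    exact prl9b_right L ν h0 hν hc0 hi.1 hi.2
  obtain ⟨e, he, -⟩ := L.nu_D ν h0 hν (by omega : 0 < 2 * c) (by omega : 2 * c < 2 * M)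
  obtain ⟨b, hb⟩ : ∃ b : R, (((L.D (2 * c))⁻¹ : Rˣ) : R) = 1 + 4 * b :=
    ⟨_, prl9b_inv _ 4 e he⟩
  have hC : (8 : R) ∣ (1 + (-(L.w : R)) ^ c) * ((L.D (2 * c))⁻¹ : Rˣ) +
      2 * ((M - c - 1 : ℕ) : R) - 4 * (((M - c) / 2 : ℕ) : R) := by
    rw [hb, hw, Units.val_one]
    obtain ⟨m, hm⟩ := hM
    rcases Nat.even_or_odd c with ⟨d, hd⟩ | ⟨d, hd⟩
    · have h1 : (-1 : R) ^ c = 1 := Even.neg_one_pow ⟨d, hd⟩
      have h2 : ((M - c - 1 : ℕ) : R) + 1 = 2 * (((M - c) / 2 : ℕ) : R) := by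
        have : M - c - 1 + 1 = 2 * ((M - c) / 2) := by omega
        exact_mod_cast congrArg (Nat.cast : ℕ → R) this
      exact ⟨b, by rw [h1]; linear_combination 2 * h2⟩
    · have h1 : (-1 : R) ^ c = -1 := Odd.neg_one_pow ⟨d, hd⟩
      have h2 : ((M - c - 1 : ℕ) : R) = 2 * (((M - c) / 2 : ℕ) : R) := by
        have : M - c - 1 = 2 * ((M - c) / 2) := by omega
        exact_mod_cast congrArg (Nat.cast : ℕ → R) this
      exact ⟨0, by rw [h1]; linear_combination 2 * h2⟩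
  obtain ⟨a1, h1⟩ := hL
  obtain ⟨a2, h2⟩ := hR
  obtain ⟨a3, h3⟩ := hC
  refine ⟨a2 + a3 - a1, ?_⟩
  have h4 : (4 : R) ≠ 0 := by
    have : (4 : R) = 2 * 2 := by ring
    rw [this]
    exact mul_ne_zero L.two_ne L.two_ne
  apply mul_left_cancel₀ h4
  unfold ER
  linear_combination hK - h1 + h2 + h3

end Pool.Agent.P.MP_111ca2_co.PR
end

-- part Pool.Agent.P.MP_111ca2_co.PrL9c
section

/-! Local system: passage to the residue field. -/

namespace Pool.Agent.P.MP_111ca2_co.PR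

open Finset

variable {R : Type} [CommRing R] [IsDomain R] [ValuationRing R]

theorem prl9c_QQ {S T : Type} [CommRing S] [CommRing T] (f : S →+* T) (ν : ℕ → S) (μ : ℕ → T)
    (N : ℕ) (h : ∀ j, j < N → μ j = f (ν j)) {a : ℕ} (ha : 2 * a ≤ N) :
    QQ μ a = f (QQ ν a) := by
  unfold QQ
  rw [map_sum]
  refine Finset.sum_congr rfl fun j hj => h j ?_
  have := Finset.mem_range.1 hj
  omega

theorem prl9c_EL {S T : Type} [CommRing S] [CommRing T] (f : S →+* T) (ν : ℕ → S) (μ : ℕ → T)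
    (M : ℕ) (h : ∀ j, j < 4 * M → μ j = f (ν j)) {c : ℕ} (hc : c < M) :
    EL μ c = f (EL ν c) := by
  unfold EL
  rw [map_sum]
  refine Finset.sum_congr rfl fun j hj => ?_
  have hj' := Finset.mem_Ioo.1 hj
  rw [prl9c_QQ f ν μ (4 * M) h (a := j) (by omega),
    prl9c_QQ f ν μ (4 * M) h (a := 2 * c - j) (by omega), h j (by omega),
    h (2 * c - j) (by omega)]
  simp only [map_add, map_pow]

theorem prl9c_ER {S T : Type} [CommRing S] [CommRing T] (f : S →+* T) (ν : ℕ → S) (μ : ℕ → T)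
    (M : ℕ) (h : ∀ j, j < 4 * M → μ j = f (ν j)) {c : ℕ} (hc : c < M) :
    ER μ M c = f (ER ν M c) := by
  unfold ER
  rw [map_add, map_natCast, map_sum]
  congr 1
  refine Finset.sum_congr rfl fun i hi => ?_
  have hi' := Finset.mem_Ioo.1 hi
  rw [prl9c_QQ f ν μ (4 * M) h (a := i) (by omega),
    prl9c_QQ f ν μ (4 * M) h (a := i + 2 * c) (by omega), map_add]

theorem Loc.exists_res {M : ℕ} (L : Loc R (2 * M)) (hM : Even M) (h0 : 0 < M) (hw : L.w = 1)
    (hz : ∀ j, 0 < j → j < 2 * (2 * M) → (2 : R) ∣ (L.z j : R) - 1) :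
    Nonempty (Res (IsLocalRing.ResidueField R) M) := by
  classical
  have hex : ∀ j : ℕ, ∃ x : R, (j = 0 → x = 0) ∧
      (0 < j → j < 2 * (2 * M) → (L.z j : R) = 1 + 2 * x) := by
    intro j
    by_cases hj : 0 < j ∧ j < 2 * (2 * M)
    · obtain ⟨x, hx⟩ := hz j hj.1 hj.2
      exact ⟨x, fun h => absurd hj.1 (by omega), fun _ _ => by linear_combination hx⟩
    · exact ⟨0, fun _ => rfl, fun h1 h2 => absurd ⟨h1, h2⟩ hj⟩
  choose ν hν using hex
  have hν0 : ν 0 = 0 := (hν 0).1 rfl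
  have hν1 : ∀ j, 0 < j → j < 2 * (2 * M) → (L.z j : R) = 1 + 2 * ν j := fun j => (hν j).2
  set f : R →+* IsLocalRing.ResidueField R := IsLocalRing.residue R with hf
  have h2 : f 2 = 0 := by
    rw [hf, IsLocalRing.residue_eq_zero_iff, IsLocalRing.mem_maximalIdeal]
    exact L.two_nu
  have h2' : (2 : IsLocalRing.ResidueField R) = 0 := by
    rw [← map_ofNat f 2]; exact h2
  have hd : ∀ x : R, (2 : R) ∣ x → f x = 0 := by
    rintro x ⟨y, rfl⟩
    rw [map_mul, h2, zero_mul]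
  have hμ : ∀ j, j < 4 * M → f (ν (j % (2 * M))) = f (ν j) := by
    intro j hj
    by_cases h1 : j < 2 * M
    · rw [Nat.mod_eq_of_lt h1]
    · obtain ⟨a, rfl⟩ : ∃ a, j = a + 2 * M := ⟨j - 2 * M, by omega⟩
      have ha : a < 2 * M := by omega
      rw [Nat.add_mod_right, Nat.mod_eq_of_lt ha]
      have := hd _ (L.nu_per hw ν hν0 hν1 ha)
      rw [map_sub, sub_eq_zero] at this
      exact this.symm
  refine ⟨⟨fun a => f (ν (a % (2 * M))), h2', ?_, ?_, ?_, ?_⟩⟩
  · intro a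
    have ha : a % M < 2 * M := by
      have := Nat.mod_lt a h0
      omega
    show f (ν (2 * a % (2 * M))) = 0
    rw [Nat.mul_mod_mul_left]
    exact hd _ (L.nu_even ν hν0 hν1 ha)
  · intro a
    show f (ν ((a + 2 * M) % (2 * M))) = f (ν (a % (2 * M)))
    rw [Nat.add_mod_right]
  · intro a ha
    show f (ν (a % (2 * M))) + f (ν ((2 * M - a) % (2 * M))) = a
    rcases Nat.eq_zero_or_pos a with rfl | ha0
    · simp [hν0]
    rcases ha.eq_or_lt with rfl | ha1
    · simp [hν0, h2']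
    · rw [hμ a (by omega), hμ (2 * M - a) (by omega)]
      have := hd _ (L.nu_rfx hw ν hν0 hν1 ha0 ha1)
      rw [map_sub, map_add, map_natCast, sub_eq_zero] at this
      exact this
  · intro c hc0 hc
    rw [prl9c_EL f ν _ M hμ hc, prl9c_ER f ν _ M hμ hc]
    have := hd _ (L.key3 hw ν hν0 hν1 hM hc0 hc)
    rw [map_sub, sub_eq_zero] at this
    exact this

end Pool.Agent.P.MP_111ca2_co.PR
end

-- part Pool.Agent.P.MP_111ca2_co.PrLa
section

/-! Residual system: the doubling formula. -/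

namespace Pool.Agent.P.MP_111ca2_co.PR

open Finset

namespace Res

variable {k : Type} [Field k] {M : ℕ} (T : Res k M)

theorem prla_zero : QQ T.ν 0 = 0 := by simp [QQ]

theorem prla_step (a : ℕ) : QQ T.ν (a + 1) = QQ T.ν a + T.ν (2 * a + 1) := by
  unfold QQ
  rw [show 2 * (a + 1) = 2 * a + 1 + 1 by ring, sum_range_succ, sum_range_succ, T.even, add_zero]

theorem prla_half : ∀ a ≤ M, QQ T.ν (M - a) = QQ T.ν M + QQ T.ν a + a := by
  intro a
  induction a with
  | zero => intro _; simp [T.prla_zero]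
  | succ a ih =>
    intro ha
    have h1 := ih (by omega)
    have h2 := T.prla_step (M - (a + 1))
    rw [show M - (a + 1) + 1 = M - a by omega,
      show 2 * (M - (a + 1)) + 1 = 2 * M - (2 * a + 1) by omega] at h2
    have h3 := T.rfx (2 * a + 1) (by omega)
    have h4 := T.prla_step a
    push_cast at h3 ⊢
    linear_combination h1 - h2 - h4 - h3 - (2 * (a : k) + 1 - a) * T.two + (a : k) * T.two
      - (a : k) * T.two

theorem prla_top (hM : Even M) : QQ T.ν M = ((M / 2 : ℕ) : k) := by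
  obtain ⟨N, rfl⟩ := hM
  have h1 := T.prla_half N (by omega)
  rw [Nat.add_sub_cancel] at h1
  rw [show (N + N) / 2 = N by omega]
  linear_combination -h1 - (N : k) * T.two

theorem Q_add (hM : Even M) (a : ℕ) : QQ T.ν (a + M) = QQ T.ν a + ((M / 2 : ℕ) : k) := by
  induction a with
  | zero => rw [zero_add, T.prla_zero, zero_add, T.prla_top hM]
  | succ a ih =>
    rw [show a + 1 + M = a + M + 1 by ring, T.prla_step, T.prla_step, ih,
      show 2 * (a + M) + 1 = 2 * a + 1 + 2 * M by ring, T.per]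
    ring

theorem Q_rfx (hM : Even M) {a : ℕ} (ha : a ≤ 2 * M) : QQ T.ν (2 * M - a) = QQ T.ν a + a := by
  rcases le_total a M with h | h
  · rw [show 2 * M - a = M - a + M by omega, T.Q_add hM, T.prla_half a h, T.prla_top hM]
    linear_combination ((M / 2 : ℕ) : k) * T.two
  · obtain ⟨b, rfl⟩ := Nat.exists_eq_add_of_le' h
    rw [show 2 * M - (b + M) = M - b by omega, T.Q_add hM, T.prla_half b (by omega),
      T.prla_top hM]
    obtain ⟨N, rfl⟩ := hM
    push_cast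
    linear_combination -(N : k) * T.two

theorem prla_ioo (f : ℕ → k) {c : ℕ} (h0 : 0 < c) :
    ∑ j ∈ Ioo 0 c, f j = ∑ j ∈ range c, f j - f 0 := by
  rw [show Ioo 0 c = Ico 1 c by ext j; simp only [mem_Ioo, mem_Ico]; omega,
    sum_Ico_eq_sub _ (show 1 ≤ c from h0), sum_range_one]

theorem prla_fold (f : ℕ → k) {c : ℕ} (h0 : 0 < c) :
    ∑ j ∈ Ioo 0 c, f (2 * c - j) = ∑ j ∈ range (2 * c), f j - ∑ j ∈ range c, f j - f c := by
  rw [show Ioo 0 c = Ico 1 c by ext j; simp only [mem_Ioo, mem_Ico]; omega,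
    sum_Ico_reflect f 1 (show c ≤ 2 * c + 1 by omega), show 2 * c + 1 - c = c + 1 by omega,
    Nat.add_sub_cancel, sum_Ico_eq_sub _ (show c + 1 ≤ 2 * c by omega), sum_range_succ]
  ring

theorem prla_shift (f : ℕ → k) {d : ℕ} (h0 : 0 < d) (e : ℕ) :
    ∑ j ∈ Ioo 0 d, f (j + e) = ∑ j ∈ range (d + e), f j - ∑ j ∈ range e, f j - f e := by
  rw [show Ioo 0 d = Ico 1 d by ext j; simp only [mem_Ioo, mem_Ico]; omega,
    sum_Ico_add' f 1 d e, sum_Ico_eq_sub _ (show 1 + e ≤ d + e by omega), add_comm 1 e,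
    sum_range_succ]
  ring

theorem prla_sq (n : ℕ) : ∑ j ∈ range n, T.ν j ^ 2 = (∑ j ∈ range n, T.ν j) ^ 2 := by
  induction n with
  | zero => simp
  | succ n ih =>
    rw [sum_range_succ, sum_range_succ, ih]
    linear_combination -((∑ j ∈ range n, T.ν j) * T.ν n) * T.two

theorem prla_mid (hM : Even M) : ∀ c ≤ M,
    ∑ j ∈ range (M + c), QQ T.ν j + ∑ j ∈ range (M - c), QQ T.ν j =
      QQ T.ν c + (((M - c) / 2 : ℕ) : k) + ((M / 2 : ℕ) : k) := by
  intro c
  induction c with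
  | zero =>
    intro _
    rw [add_zero, Nat.sub_zero, T.prla_zero]
    linear_combination (∑ j ∈ range M, QQ T.ν j - ((M / 2 : ℕ) : k)) * T.two
  | succ c ih =>
    intro hc
    have h1 := ih (by omega)
    have h2 := sum_range_succ (fun j => QQ T.ν j) (M - (c + 1))
    rw [show M - (c + 1) + 1 = M - c by omega, T.prla_half (c + 1) hc, T.prla_top hM] at h2
    have h3 := T.Q_add hM c
    have h4 : (M - (c + 1)) / 2 + (M - c) / 2 + (c + 1) = 2 * (M / 2) := by
      obtain ⟨N, rfl⟩ := hM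
      omega
    have h5 := congrArg (Nat.cast : ℕ → k) h4
    rw [← add_assoc, sum_range_succ, add_comm M c] at *
    generalize (M - (c + 1)) / 2 = u at *
    generalize (M - c) / 2 = v at *
    generalize M / 2 = N at *
    push_cast at h2 h5 ⊢
    linear_combination h1 - h2 + h3 - h5 +
      (QQ T.ν c - QQ T.ν (c + 1) + (v : k) - (N : k)) * T.two

theorem Q_dbl (hM : Even M) {c : ℕ} (h0 : 0 < c) (hc : c < M) :
    QQ T.ν (2 * c) = ((M / 2 : ℕ) : k) + (QQ T.ν c + T.ν c) ^ 2 := by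
  have h1 := T.E c h0 hc
  unfold EL ER at h1
  simp only [sum_add_distrib] at h1
  rw [prla_ioo (QQ T.ν) h0, prla_ioo (fun j => T.ν j ^ 2) h0, prla_fold (QQ T.ν) h0,
    prla_fold (fun j => T.ν j ^ 2) h0, prla_ioo (QQ T.ν) (show 0 < M - c by omega),
    prla_shift (QQ T.ν) (show 0 < M - c by omega), T.prla_sq (2 * c),
    show M - c + 2 * c = M + c by omega, T.prla_zero] at h1
  have h2 := T.prla_mid hM c hc.le
  have h3 : T.ν 0 = 0 := T.even 0
  have h4 : ∑ j ∈ range (2 * c), T.ν j = QQ T.ν c := rfl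
  rw [h3, h4] at h1
  generalize ∑ j ∈ range (2 * c), QQ T.ν j = F at *
  linear_combination h1 + h2 + (-F + QQ T.ν c + (((M - c) / 2 : ℕ) : k)
    - (QQ T.ν c + T.ν c) * QQ T.ν c - 0) * T.two

end Res

end Pool.Agent.P.MP_111ca2_co.PR
end

-- part Pool.Agent.P.MP_111ca2_co.PrLb
section

/-! Residual system: halving the period once. -/

namespace Pool.Agent.P.MP_111ca2_co.PR

open Finset

namespace Res

variable {k : Type} [Field k] {M : ℕ} (T : Res k M)

include T in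
theorem prlb_sq {x y : k} (h : x ^ 2 = y ^ 2) : x = y := by
  have : (x - y) ^ 2 = 0 := by linear_combination h + (y ^ 2 - x * y) * T.two
  exact sub_eq_zero.1 (pow_eq_zero_iff (two_ne_zero) |>.1 this)

theorem prlb_refl (hM : Even M) {c : ℕ} (h0 : 0 < c) (hc : c < M) :
    T.ν (M - c) = T.ν c + c + ((M / 2 : ℕ) : k) := by
  have a := T.Q_dbl hM h0 hc
  have b := T.Q_dbl hM (c := M - c) (by omega) (by omega)
  have d := T.Q_rfx hM (a := 2 * c) (by omega)
  have e := T.Q_rfx hM (a := c) (by omega)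
  have f := T.Q_add hM (M - c)
  rw [show M - c + M = 2 * M - c by omega, e] at f
  rw [show 2 * (M - c) = 2 * M - 2 * c by omega, d, a] at b
  push_cast at b
  have g : QQ T.ν c + T.ν c = QQ T.ν (M - c) + T.ν (M - c) :=
    T.prlb_sq (by linear_combination b - (c : k) * T.two)
  linear_combination -g + f - (c : k) * T.two

theorem four_dvd (hM : Even M) (h4 : 4 ≤ M) : 4 ∣ M ∧ (∀ a, T.ν (a + M) = T.ν a) ∧
    ∀ c, QQ T.ν (2 * c) = (QQ T.ν c + T.ν c) ^ 2 := by
  obtain ⟨r, rfl⟩ : ∃ r, M = 2 * r := by obtain ⟨r, h⟩ := hM; exact ⟨r, by omega⟩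
  have h0 : ((2 * r / 2 : ℕ) : k) = 0 := by
    have a := T.prlb_refl hM (c := 2) (by omega) (by omega)
    have b := T.even 1
    rw [show 2 * r - 2 = 2 * (r - 1) by omega, T.even] at a
    rw [mul_one] at b
    rw [b] at a
    push_cast at a
    linear_combination -a - T.two
  have hr : 2 ∣ r := by
    by_contra h
    obtain ⟨t, rfl⟩ : ∃ t, r = 2 * t + 1 := ⟨r / 2, by omega⟩
    rw [Nat.mul_div_cancel_left _ (by norm_num)] at h0
    push_cast at h0
    exact one_ne_zero (α := k) (by linear_combination h0 - (t : k) * T.two)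
  have p1 : ∀ a, a < 2 * r → T.ν (a + 2 * r) = T.ν a := by
    intro a ha
    rcases Nat.eq_zero_or_pos a with rfl | h
    · rw [zero_add, T.even]
      exact (T.even 0).symm
    · have x := T.prlb_refl hM (c := 2 * r - a) (by omega) (by omega)
      have y := T.rfx (2 * r - a) (by omega)
      rw [show 2 * r - (2 * r - a) = a by omega, h0] at x
      rw [show 2 * (2 * r) - (2 * r - a) = a + 2 * r by omega] at y
      linear_combination y - x - T.ν (2 * r - a) * T.two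
  have p2 : ∀ a, T.ν (a + 2 * r) = T.ν a := by
    intro a
    induction a using Nat.strong_induction_on with
    | _ a ih =>
      by_cases ha : a < 2 * r
      · exact p1 a ha
      · obtain ⟨b, rfl⟩ : ∃ b, a = b + 2 * r := ⟨a - 2 * r, by omega⟩
        rw [ih b (by omega), show b + 2 * r + 2 * r = b + 2 * (2 * r) by ring, T.per]
  refine ⟨by omega, p2, fun c => ?_⟩
  induction c using Nat.strong_induction_on with
  | _ c ih =>
    rcases Nat.eq_zero_or_pos c with rfl | h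
    · have := T.even 0
      simp only [mul_zero] at this
      simp [QQ, this]
    by_cases hc : c < 2 * r
    · rw [T.Q_dbl hM h hc, h0, zero_add]
    · obtain ⟨b, rfl⟩ : ∃ b, c = b + 2 * r := ⟨c - 2 * r, by omega⟩
      rw [show 2 * (b + 2 * r) = 2 * b + 2 * r + 2 * r by ring, T.Q_add hM, T.Q_add hM, T.Q_add hM,
        h0, p2, ih b (by omega)]
      ring

end Res

end Pool.Agent.P.MP_111ca2_co.PR
end
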