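import Pool.Agent.K.MP_111ca2_co.C0
import Pool.Agent.K.MP_111ca2_co.C1
import Mathlib

-- part Pool.Agent.P.MP_111ca2_co.PrLc
section

/-! Residual system: descent on the period. -/

namespace Pool.Agent.P.MP_111ca2_co.PR

open Finset

namespace Res

variable {k : Type} [Field k] {M : ℕ} (T : Res k M)

theorem prlc_sum (two : (2 : k) = 0) (b : ℕ) :
    ∑ j ∈ range (2 * b), ((j + 1 : ℕ) : k) = (b : k) := by
  induction b with
  | zero => simp
  | succ b ih =>
    rw [show 2 * (b + 1) = 2 * b + 1 + 1 by ring, sum_range_succ, sum_range_succ, ih]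
    push_cast
    linear_combination (2 * (b : k) + 1) * two

theorem prlc_sq (two : (2 : k) = 0) {x y : k} (h : x ^ 2 = y ^ 2) : x = y := by
  have h1 : (x - y) ^ 2 = 0 := by linear_combination h + (y ^ 2 - x * y) * two
  exact sub_eq_zero.1 (pow_eq_zero_iff (two_ne_zero) |>.1 h1)

theorem descent (hQ : ∀ c, QQ T.ν (2 * c) = (QQ T.ν c + T.ν c) ^ 2) (B : ℕ) (h0 : 0 < B)
    (h4 : 4 ∣ B) (hB : B ∣ 2 * M) (hM : 0 < M) (hp : ∀ a, T.ν (a + B) = T.ν a) : False := by
  induction B using Nat.strong_induction_on with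
  | _ B ih =>
  obtain ⟨b, rfl⟩ := h4
  have hb : 0 < b := by omega
  have two := T.two
  have hpt : ∀ t a, T.ν (a + 4 * b * t) = T.ν a := by
    intro t
    induction t with
    | zero => intro a; simp
    | succ t iht =>
      intro a
      rw [show a + 4 * b * (t + 1) = a + 4 * b * t + 4 * b by ring, hp, iht]
  have hr : ∀ j, j ≤ 4 * b → T.ν j + T.ν (4 * b - j) = j := by
    intro j hj
    obtain ⟨r, hr⟩ := hB
    obtain ⟨r, rfl⟩ : ∃ r', r = r' + 1 := by
      refine ⟨r - 1, ?_⟩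
      rcases Nat.eq_zero_or_pos r with h | h
      · subst h; omega
      · omega
    have e1 : 2 * M = 4 * b * r + 4 * b := by rw [hr]; ring
    have h1 := T.rfx j (by omega)
    rw [show 2 * M - j = (4 * b - j) + 4 * b * r by omega, hpt] at h1
    exact h1
  have z0 : T.ν 0 = 0 := by simpa using T.even 0
  have hS : ∑ j ∈ range (4 * b), T.ν j = (b : k) := by
    rw [show 4 * b = 2 * b + 2 * b by ring, sum_range_add]
    have a1 : ∑ j ∈ range (2 * b), T.ν j = ∑ j ∈ range (2 * b), T.ν (j + 1) := by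
      have h1 := sum_range_succ T.ν (2 * b)
      have h2 := sum_range_succ' T.ν (2 * b)
      rw [T.even, add_zero] at h1
      rw [z0, add_zero] at h2
      rw [← h1, h2]
    have a2 : ∑ j ∈ range (2 * b), T.ν (2 * b + j) =
        ∑ j ∈ range (2 * b), T.ν (4 * b - (j + 1)) := by
      rw [← sum_range_reflect]
      refine sum_congr rfl fun j hj => ?_
      have := mem_range.1 hj
      congr 1
      omega
    rw [a1, a2, ← sum_add_distrib, ← prlc_sum two b]
    refine sum_congr rfl fun j hj => ?_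
    have := mem_range.1 hj
    exact hr (j + 1) (by omega)
  have hQQ : ∀ c, QQ T.ν (c + 2 * b) = QQ T.ν c + (b : k) := by
    intro c
    unfold QQ
    rw [show 2 * (c + 2 * b) = 4 * b + 2 * c by ring, sum_range_add, hS, add_comm]
    congr 1
    refine sum_congr rfl fun j _ => ?_
    rw [add_comm, hp]
  have key : ∀ c, T.ν (c + 2 * b) = T.ν c - (b : k) := by
    intro c
    have h1 := hQ c
    have h2 := hQ (c + 2 * b)
    rw [show 2 * (c + 2 * b) = (2 * c + 2 * b) + 2 * b by ring, hQQ, hQQ, hQQ, h1] at h2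
    have h3 : (QQ T.ν c + T.ν c) ^ 2 = (QQ T.ν c + (b : k) + T.ν (c + 2 * b)) ^ 2 := by
      linear_combination h2 - (b : k) * two
    have h4 := prlc_sq two h3
    linear_combination -h4
  have hb0 : (b : k) = 0 := by
    have h1 := key 0
    rw [zero_add, T.even, z0] at h1
    linear_combination h1
  obtain ⟨m, hm | hm⟩ := Nat.even_or_odd' b
  · refine ih (2 * b) (by omega) (by omega) ⟨m, by omega⟩ (Dvd.dvd.trans ⟨2, by ring⟩ hB) ?_
    intro a
    rw [key, hb0, sub_zero]
  · rw [hm] at hb0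
    push_cast at hb0
    have : (1 : k) = 0 := by linear_combination hb0 - (m : k) * two
    exact one_ne_zero this

end Res

end Pool.Agent.P.MP_111ca2_co.PR
end

-- part Pool.Agent.P.MP_111ca2_co.PrLoc
section

/-! The local system has no solution for `m` other than `1, 2, 4`. -/

namespace Pool.Agent.P.MP_111ca2_co.PR

open Finset

variable {R : Type} [CommRing R] [IsDomain R] [ValuationRing R]

theorem Loc.false_of {m : ℕ} (L : Loc R m) (h0 : 0 < m) (h1 : m ≠ 1) (h2 : m ≠ 2) (h4 : m ≠ 4) :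
    False := by
  rcases Nat.even_or_odd m with ⟨M, hM⟩ | hm
  · obtain rfl : m = 2 * M := by omega
    have hw := L.w_sq (by omega)
    rcases Nat.even_or_odd M with he | ho
    · have hM4 : 4 ≤ M := by obtain ⟨r, hr⟩ := he; omega
      obtain ⟨hw1, hz⟩ := L.even_half he (by omega) hw
      obtain ⟨T⟩ := L.exists_res he (by omega) hw1 hz
      obtain ⟨a, b, c⟩ := T.four_dvd he hM4
      exact T.descent c M (by omega) a (dvd_mul_left _ _) (by omega) b
    · exact L.odd_half_false ho (by obtain ⟨r, hr⟩ := ho; omega) hw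
  · exact L.odd_false hm (by obtain ⟨r, hr⟩ := hm; omega)

end Pool.Agent.P.MP_111ca2_co.PR
end

-- part Pool.Agent.P.MP_111ca2_co.PrGlob
section

/-! The system in an ultrapower has no solution for `m` other than `1, 2, 4`. -/

namespace Pool.Agent.P.MP_111ca2_co.PR

open Polynomial

theorem Ult.false_of {Ω : Type} [Field Ω] [CharZero Ω] {m : ℕ} [NeZero m] (S : Ult Ω m)
    (h1 : m ≠ 1) (h2 : m ≠ 2) (h4 : m ≠ 4) : False := by
  have hm := NeZero.pos m
  have htr : Transcendental ℚ S.τ := trans_of_sep S.O S.B S.τ0 S.inv_mem S.sep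
  have hloc : ∀ a b, a ≠ 0 → b ≠ 0 → a + b ≠ 0 → ∃ f : ℤ[X], ¬ (2 : ℤ[X]) ∣ f ∧
      IsIntegral (Algebra.adjoin ℤ {S.τ}) (aeval S.τ f * S.toGS.jj a b) := by
    intro a b ha hb hab
    refine int_loc _ _ fun V hV hτ => (V.valuation_le_one_iff _).1 (le_of_eq ?_)
    rw [GS.jj, map_div₀, map_mul, S.toGS.all_unit _ hV hτ ha, S.toGS.all_unit _ hV hτ hb,
      S.toGS.all_unit _ hV hτ hab, one_mul, div_one]
  have halg := alg_jac S.toGS fun a b ha hb hab => by
    obtain ⟨f, hf, h⟩ := hloc a b ha hb hab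
    exact alg_of_int htr hf h
  have hint : ∀ a b, IsIntegral (Algebra.adjoin ℚ {S.τ}) (S.toGS.Jac a b) := by
    intro a b
    obtain ⟨N, hN, hJ⟩ := S.int a b
    have := dft_int (Algebra.adjoin ℚ {S.τ}) S.ε (fun t => S.toGS.Jac (t * a) (t * b)) N S.ε_add
      S.ε_zero S.ε_sum hJ (fun t => halg _ _)
      (fun k hk => runge S.O S.B S.τ0 S.inv_mem S.τ_mem S.sep (hN k).1 (hN k).2 hk)
    simpa using this
  obtain ⟨V, hV, hτ⟩ := exists_V htr
  have hτ1 : V.valuation S.τ < 1 := lt_of_le_of_lt (by simpa using hτ 1) hV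
  have hj : ∀ a b, a ≠ 0 → b ≠ 0 → a + b ≠ 0 → V.valuation (S.toGS.jj a b) ≤ 1 := by
    intro a b ha hb hab
    obtain ⟨f, hf, h⟩ := hloc a b ha hb hab
    obtain ⟨N, hN, h'⟩ := odd_int htr hf h (int_jj S.toGS hab (hint a b))
    exact le_one_of_odd_int V hV hτ1.le hN h'
  have hd := triple (S.toGS.psi V.valuation) (m : ZMod (2 * m)) (V.valuation (S.g m)) m_add_m
    (S.toGS.psi_ne _) (S.toGS.v_g_ne _ _) (S.toGS.psi_shift _ hV hj) (S.toGS.psi_le _ hτ1.le hj)
    (by rw [S.toGS.v_g_m]; exact S.toGS.le_psi _ hτ1.le hj)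
  rw [S.toGS.v_g_m] at hd
  obtain ⟨t, ht, hD, hi⟩ := exists_t (by omega) (S.toGS.psi V.valuation) _
    ((_root_.map_ne_zero _).2 S.τ0) hτ1 (S.toGS.psi_zero _) (fun a ha => S.toGS.psi_neg _ ha) hd
  obtain ⟨P⟩ := S.toGS.exists_pre _ ht hD hi
  obtain ⟨R, _, _, _, π, a, b, c⟩ := exists_quot V hV
  obtain ⟨L⟩ := loc_of_pre V π a b (fun x hx => c x fun k => hx.trans (hτ k)) hm P
  exact L.false_of hm h1 h2 h4

end Pool.Agent.P.MP_111ca2_co.PR
end

-- part Pool.Agent.P.MP_111ca2_co.PrU2a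
section

/-! Bounded germs and germs with bounded denominator. -/

namespace Pool.Agent.P.MP_111ca2_co.PR

open Finset

theorem pru2a_alg (r : ℚ) : algebraMap ℚ Om r = ((fun _ => (r : ℂ) : ℕ → ℂ) : Om) := by
  have h1 : algebraMap ℚ Om r = (r : Om) := eq_ratCast _ r
  have h2 : cst (r : ℂ) = (r : Om) := map_ratCast cst r
  rw [h1, ← h2]
  rfl

/-- bounded germs -/
noncomputable def pru2aO : Subalgebra ℚ Om where
  carrier := {x | ∃ C : ℝ, x.LiftPred (fun z => ‖z‖ ≤ C)}
  mul_mem' := by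
    intro x y
    induction x using Filter.Germ.inductionOn with | _ f =>
    induction y using Filter.Germ.inductionOn with | _ g =>
    rintro ⟨C, hC⟩ ⟨D, hD⟩
    refine ⟨C * D, ?_⟩
    rw [← Filter.Germ.coe_mul]
    rw [Filter.Germ.liftPred_coe] at hC hD ⊢
    filter_upwards [hC, hD] with i h1 h2
    rw [Pi.mul_apply, norm_mul]
    exact mul_le_mul h1 h2 (norm_nonneg _) ((norm_nonneg _).trans h1)
  add_mem' := by
    intro x y
    induction x using Filter.Germ.inductionOn with | _ f =>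
    induction y using Filter.Germ.inductionOn with | _ g =>
    rintro ⟨C, hC⟩ ⟨D, hD⟩
    refine ⟨C + D, ?_⟩
    rw [← Filter.Germ.coe_add]
    rw [Filter.Germ.liftPred_coe] at hC hD ⊢
    filter_upwards [hC, hD] with i h1 h2
    rw [Pi.add_apply]
    exact (norm_add_le _ _).trans (add_le_add h1 h2)
  algebraMap_mem' := by
    intro r
    refine ⟨‖(r : ℂ)‖, ?_⟩
    rw [pru2a_alg, Filter.Germ.liftPred_coe]
    exact Filter.Eventually.of_forall fun _ => le_rfl

/-- germs with bounded denominator -/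
noncomputable def pru2aB : Subalgebra ℚ Om where
  carrier := {x | ∃ N : ℕ, N ≠ 0 ∧ x.LiftPred (fun z => ∃ k : ℤ, (N : ℂ) * z = k)}
  mul_mem' := by
    intro x y
    induction x using Filter.Germ.inductionOn with | _ f =>
    induction y using Filter.Germ.inductionOn with | _ g =>
    rintro ⟨C, hC0, hC⟩ ⟨D, hD0, hD⟩
    refine ⟨C * D, mul_ne_zero hC0 hD0, ?_⟩
    rw [← Filter.Germ.coe_mul]
    rw [Filter.Germ.liftPred_coe] at hC hD ⊢
    filter_upwards [hC, hD] with i h1 h2
    obtain ⟨k, hk⟩ := h1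
    obtain ⟨l, hl⟩ := h2
    refine ⟨k * l, ?_⟩
    rw [Pi.mul_apply]
    push_cast
    rw [← hk, ← hl]
    ring
  add_mem' := by
    intro x y
    induction x using Filter.Germ.inductionOn with | _ f =>
    induction y using Filter.Germ.inductionOn with | _ g =>
    rintro ⟨C, hC0, hC⟩ ⟨D, hD0, hD⟩
    refine ⟨C * D, mul_ne_zero hC0 hD0, ?_⟩
    rw [← Filter.Germ.coe_add]
    rw [Filter.Germ.liftPred_coe] at hC hD ⊢
    filter_upwards [hC, hD] with i h1 h2
    obtain ⟨k, hk⟩ := h1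
    obtain ⟨l, hl⟩ := h2
    refine ⟨D * k + C * l, ?_⟩
    rw [Pi.add_apply]
    push_cast
    rw [← hk, ← hl]
    ring
  algebraMap_mem' := by
    intro r
    refine ⟨r.den, r.den_nz, ?_⟩
    rw [pru2a_alg, Filter.Germ.liftPred_coe]
    refine Filter.Eventually.of_forall fun _ => ⟨r.num, ?_⟩
    have h : (r.den : ℚ) * r = r.num := by
      rw [mul_comm]; exact Rat.mul_den_eq_num r
    exact_mod_cast congrArg (fun t : ℚ => (t : ℂ)) h

theorem pru2a_memO (f : ℕ → ℂ) :
    (f : Om) ∈ pru2aO ↔ ∃ C : ℝ, ∀ᶠ i in (Filter.hyperfilter ℕ : Filter ℕ), ‖f i‖ ≤ C := Iff.rfl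

theorem pru2a_memB (f : ℕ → ℂ) :
    (f : Om) ∈ pru2aB ↔ ∃ N : ℕ, N ≠ 0 ∧
      ∀ᶠ i in (Filter.hyperfilter ℕ : Filter ℕ), ∃ k : ℤ, (N : ℂ) * f i = k := Iff.rfl

theorem om_sub (q : ℕ → ℕ) (hq : ∀ i, i < q i) : ∃ O B : Subalgebra ℚ Om,
    ((fun i => (q i : ℂ) / 4 : ℕ → ℂ) : Om)⁻¹ ∈ O ∧ ((fun i => (q i : ℂ) / 4 : ℕ → ℂ) : Om) ∈ B ∧
    (∀ x ∈ B, x * ((fun i => (q i : ℂ) / 4 : ℕ → ℂ) : Om) ∈ O → x = 0) ∧
    ∀ N : ℕ → ℤ, (∀ i, |N i| ≤ q i) → ((fun i => (N i : ℂ) : ℕ → ℂ) : Om) ∈ B ∧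
      ((fun i => (N i : ℂ) : ℕ → ℂ) : Om) * ((fun i => (q i : ℂ) / 4 : ℕ → ℂ) : Om)⁻¹ ∈ O := by
  have hq1 : ∀ i, (1 : ℝ) ≤ q i := fun i => by
    have := hq i
    exact_mod_cast (by omega : 1 ≤ q i)
  have hn : ∀ i, ‖(q i : ℂ) / 4‖ = (q i : ℝ) / 4 := fun i => by
    rw [norm_div, Complex.norm_natCast]
    norm_num
  refine ⟨pru2aO, pru2aB, ?_, ?_, ?_, ?_⟩
  · rw [← Filter.Germ.coe_inv, pru2a_memO]
    refine ⟨4, Filter.Eventually.of_forall fun i => ?_⟩
    rw [Pi.inv_apply, norm_inv, hn, inv_div, div_le_iff₀ (by linarith [hq1 i])]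
    linarith [hq1 i]
  · rw [pru2a_memB]
    refine ⟨4, by norm_num, Filter.Eventually.of_forall fun i => ⟨q i, ?_⟩⟩
    push_cast
    ring
  · intro x
    induction x using Filter.Germ.inductionOn with | _ f =>
    intro hB hO
    rw [pru2a_memB] at hB
    rw [← Filter.Germ.coe_mul, pru2a_memO] at hO
    obtain ⟨N, hN0, hN⟩ := hB
    obtain ⟨C, hC⟩ := hO
    obtain ⟨M, hM⟩ := exists_nat_gt (4 * N * C)
    have hev : ∀ᶠ i in (Filter.hyperfilter ℕ : Filter ℕ), M ≤ i :=
      Nat.hyperfilter_le_atTop (Filter.eventually_ge_atTop M)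
    rw [← Filter.Germ.coe_zero, Filter.Germ.coe_eq]
    filter_upwards [hN, hC, hev] with i h1 h2 h3
    obtain ⟨k, hk⟩ := h1
    rw [Pi.mul_apply, norm_mul, hn] at h2
    have hqi : (M : ℝ) < q i := by
      have := hq i
      exact_mod_cast (by omega : M < q i)
    have hk1 : ‖(k : ℂ)‖ < 1 := by
      rw [← hk, norm_mul, Complex.norm_natCast]
      have hN' : (0 : ℝ) ≤ N := Nat.cast_nonneg N
      have h4 : (N : ℝ) * (‖f i‖ * ((q i : ℝ) / 4)) ≤ N * C := mul_le_mul_of_nonneg_left h2 hN'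
      by_contra hcon
      have h5 : (1 : ℝ) ≤ N * ‖f i‖ := not_lt.mp hcon
      have h6 : (q i : ℝ) / 4 ≤ N * ‖f i‖ * ((q i : ℝ) / 4) :=
        le_mul_of_one_le_left (by linarith [hq1 i]) h5
      nlinarith
    rw [Complex.norm_intCast] at hk1
    have hk0 : k = 0 := by
      have : |k| < 1 := by exact_mod_cast hk1
      exact Int.abs_lt_one_iff.mp this
    rw [hk0, Int.cast_zero] at hk
    have hN' : (N : ℂ) ≠ 0 := Nat.cast_ne_zero.mpr hN0
    exact (mul_eq_zero.mp hk).resolve_left hN'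
  · intro N hN
    refine ⟨?_, ?_⟩
    · rw [pru2a_memB]
      refine ⟨1, one_ne_zero, Filter.Eventually.of_forall fun i => ⟨N i, ?_⟩⟩
      simp
    · rw [← Filter.Germ.coe_inv, ← Filter.Germ.coe_mul, pru2a_memO]
      refine ⟨4, Filter.Eventually.of_forall fun i => ?_⟩
      rw [Pi.mul_apply, Pi.inv_apply, norm_mul, norm_inv, hn, Complex.norm_intCast, inv_div]
      have h1 : |(N i : ℝ)| ≤ q i := by exact_mod_cast hN i
      have h2 : (0 : ℝ) < q i := by linarith [hq1 i]
      rw [← mul_div_assoc, div_le_iff₀ h2]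
      linarith

end Pool.Agent.P.MP_111ca2_co.PR
end

-- part Pool.Agent.P.MP_111ca2_co.PrU2b
section

/-! The system in the ultrapower. -/

namespace Pool.Agent.P.MP_111ca2_co.PR

open Finset

noncomputable def pru2b_phi : (ℕ → ℂ) →+* Om := Filter.Germ.coeRingHom _

theorem pru2b_phi_apply (f : ℕ → ℂ) : pru2b_phi f = (f : Om) := rfl

theorem pru2b_phi_div (f g : ℕ → ℂ) : pru2b_phi (f / g) = pru2b_phi f / pru2b_phi g := by
  simp only [pru2b_phi_apply]
  exact Filter.Germ.coe_div f g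

theorem pru2b_cst (z : ℂ) : cst z = pru2b_phi (fun _ => z) := rfl

noncomputable def pru2b_gs {m : ℕ} [NeZero m] (q : ℕ → ℕ) (hq : ∀ i, i < q i)
    (A : ∀ i, Act m (q i)) : GS Om m where
  g a := pru2b_phi (fun i => (A i).g a)
  s a := pru2b_phi (fun i => (A i).s a)
  W a := pru2b_phi (fun i => (A i).W a)
  τ := pru2b_phi (fun i => (A i).τ)
  τ0 := by
    have h : pru2b_phi (fun i => (A i).τ) * pru2b_phi (fun i => ((A i).τ)⁻¹) = 1 := by
      rw [← map_mul, ← map_one pru2b_phi]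
      congr 1
      funext i
      exact mul_inv_cancel₀ (A i).τ0
    exact left_ne_zero_of_mul_eq_one h
  g0 := by
    have h : (2 : ℕ → ℂ) * (fun i => (A i).g 0) = -1 := by
      funext i
      exact (A i).g0
    have := congrArg pru2b_phi h
    rwa [map_mul, map_neg, map_one, map_ofNat] at this
  s_add a b := by
    rw [← map_mul]
    congr 1
    funext i
    exact (A i).s_add a b
  s_one := by
    have h : (fun i => (A i).s 1) = -1 := by
      funext i
      exact (A i).s_one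
    rw [h, map_neg, map_one]
  W_add a b := by
    rw [← map_mul]
    congr 1
    funext i
    exact (A i).W_add a b
  W_m := by
    have h : (fun i => (A i).W (m : ZMod (2 * m))) = 1 := by
      funext i
      exact (A i).W_m
    rw [h, map_one]
  rfx a ha := by
    rw [← map_mul, ← map_mul]
    congr 1
    funext i
    exact (A i).rfx a ha
  dup a := by
    rw [← map_mul, ← map_mul, ← map_mul]
    congr 1
    funext i
    exact (A i).dup a
  eqn u hu := by
    simp only [← map_mul]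
    rw [← map_sum, ← map_zero pru2b_phi]
    congr 1
    funext i
    rw [Finset.sum_apply]
    exact (A i).eqn u hu

theorem pru2b_jac {m : ℕ} [NeZero m] (q : ℕ → ℕ) (hq : ∀ i, i < q i)
    (A : ∀ i, Act m (q i)) (a b : ZMod (2 * m)) :
    (pru2b_gs q hq A).Jac a b = pru2b_phi (fun i => (A i).toGS.Jac a b) := by
  unfold GS.Jac
  split_ifs with h1 h2
  · have h : (fun i => 2 * (A i).toGS.jj a b) =
        (2 : ℕ → ℂ) * ((fun i => (A i).g a) * (fun i => (A i).g b) / (fun i => (A i).g (a + b))) := by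
      funext i
      rfl
    rw [h, map_mul, pru2b_phi_div, map_mul, map_ofNat]
    rfl
  · have h : (fun i => -(A i).s a) = -(fun i => (A i).s a) := rfl
    rw [h, map_neg]
    rfl
  · have h : (fun i => 4 * (A i).τ - 2) = (4 : ℕ → ℂ) * (fun i => (A i).τ) - 2 := by
      funext i
      rfl
    rw [h, map_sub, map_mul, map_ofNat, map_ofNat]
    rfl

theorem exists_ult {m : ℕ} [NeZero m] (q : ℕ → ℕ) (hq : ∀ i, i < q i) (A : ∀ i, Act m (q i)) :
    Nonempty (Ult Om m) := by
  obtain ⟨O, B, h1, h2, h3, h4⟩ := om_sub q hq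
  have hτ : (pru2b_gs q hq A).τ = ((fun i => (q i : ℂ) / 4 : ℕ → ℂ) : Om) := by
    have h : (fun i => (A i).τ) = (fun i => (q i : ℂ) / 4 : ℕ → ℂ) := by
      funext i
      exact (A i).hτ
    show pru2b_phi (fun i => (A i).τ) = _
    rw [h]
    rfl
  refine ⟨{ toGS := pru2b_gs q hq A
            O := O
            B := B
            inv_mem := by rw [hτ]; exact h1
            τ_mem := by rw [hτ]; exact h2
            sep := by rw [hτ]; exact h3
            ε := fun k => cst (ZMod.stdAddChar k)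
            ε_add := fun a b => by rw [← map_mul, AddChar.map_add_eq_mul]
            ε_zero := by rw [AddChar.map_zero_eq_one, map_one]
            ε_sum := fun b hb => ?_
            int := fun a b => ?_ }⟩
  · rw [← map_sum]
    have h := AddChar.sum_mulShift (ψ := (ZMod.stdAddChar : AddChar (ZMod (2 * m)) ℂ)) b
      (ZMod.isPrimitive_stdAddChar (2 * m))
    rw [if_neg hb] at h
    rw [h, Nat.cast_zero, map_zero]
  · choose N hN1 hN2 using fun i => (A i).int a b
    refine ⟨fun k => ((fun i => (N i k : ℂ) : ℕ → ℂ) : Om), fun k => ?_, fun t => ?_⟩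
    · rw [hτ]
      exact h4 (fun i => N i k) (fun i => hN1 i k)
    · rw [pru2b_jac]
      simp only [pru2b_cst, ← pru2b_phi_apply, ← map_mul]
      rw [← map_sum]
      congr 1
      funext i
      rw [Finset.sum_apply]
      exact hN2 i t

end Pool.Agent.P.MP_111ca2_co.PR
end

-- part Pool.Agent.P.MP_111ca2_co.PrA1
section

/-! Discrete logarithm and the characters of order dividing `n`. -/

namespace Pool.Agent.P.MP_111ca2_co.PR

open Finset

theorem pra1_ind (K : Type) [Field K] [Fintype K] {n k : ℕ} [NeZero n] (hk : 0 < k)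
    (hq : Fintype.card K = n * k + 1) :
    ∃ ind : K → ZMod n, (∀ x y, x ≠ 0 → y ≠ 0 → ind (x * y) = ind x + ind y) ∧
      (∀ x, x ≠ 0 → (ind x = 0 ↔ x ^ k = 1)) ∧ ∃ x, x ≠ 0 ∧ ind x = 1 := by
  classical
  obtain ⟨g, hg⟩ := IsCyclic.exists_generator (α := Kˣ)
  have ho : orderOf g = n * k := by
    rw [orderOf_eq_card_of_forall_mem_zpowers hg, Nat.card_eq_fintype_card, Fintype.card_units, hq,
      Nat.add_sub_cancel]
  have hex : ∀ x : K, ∃ i : ℕ, x ≠ 0 → ((g ^ i : Kˣ) : K) = x := by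
    intro x
    by_cases hx : x = 0
    · exact ⟨0, fun h => absurd hx h⟩
    · obtain ⟨i, hi⟩ := (mem_powers_iff_mem_zpowers.2 (hg (Units.mk0 x hx)) :
        Units.mk0 x hx ∈ Submonoid.powers g)
      exact ⟨i, fun _ => by
        have : g ^ i = Units.mk0 x hx := hi
        rw [this, Units.val_mk0]⟩
  choose l hl using hex
  have key : ∀ i j : ℕ, ((g ^ i : Kˣ) : K) = ((g ^ j : Kˣ) : K) → (i : ZMod n) = (j : ZMod n) := by
    intro i j h
    have h1 : g ^ i = g ^ j := Units.ext h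
    rw [pow_eq_pow_iff_modEq, ho] at h1
    exact (ZMod.natCast_eq_natCast_iff i j n).2 (h1.of_mul_right k)
  refine ⟨fun x => (l x : ZMod n), ?_, ?_, ?_⟩
  · intro x y hx hy
    have h := key (l (x * y)) (l x + l y)
      (by rw [hl _ (mul_ne_zero hx hy), pow_add, Units.val_mul, hl x hx, hl y hy])
    simpa using h
  · intro x hx
    have e : x ^ k = ((g ^ (l x * k) : Kˣ) : K) := by
      rw [pow_mul, Units.val_pow_eq_pow_val (g ^ l x), hl x hx]
    rw [e, Units.val_eq_one, ← orderOf_dvd_iff_pow_eq_one, ho, Nat.mul_dvd_mul_iff_right hk]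
    exact ZMod.natCast_eq_zero_iff _ _
  · refine ⟨g, g.ne_zero, ?_⟩
    have h := key (l g) 1 (by rw [hl _ g.ne_zero, pow_one])
    simpa using h

theorem exists_CS (K : Type) [Field K] [Fintype K] {n k : ℕ} [NeZero n] (hk : 0 < k)
    (hq : Fintype.card K = n * k + 1) : Nonempty (CS K n k) := by
  classical
  obtain ⟨ind, h1, h2, h3⟩ := pra1_ind K hk hq
  have h0 : ind 1 = 0 := (h2 1 one_ne_zero).2 (one_pow k)
  let X : ZMod n → MulChar K ℂ := fun a =>
    { toFun := fun x => if x = 0 then 0 else ZMod.stdAddChar (a * ind x)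
      map_one' := by simp [h0]
      map_mul' := by
        intro x y
        by_cases hx : x = 0
        · simp [hx]
        by_cases hy : y = 0
        · simp [hy]
        rw [if_neg (mul_ne_zero hx hy), if_neg hx, if_neg hy, h1 x y hx hy, mul_add,
          AddChar.map_add_eq_mul]
      map_nonunit' := by
        intro x hx
        have : x = 0 := by simpa using hx
        simp [this] }
  exact ⟨⟨ind, X, h1, h2, h3, fun a x hx => if_neg hx⟩⟩

namespace CS

variable {K : Type} [Field K] {n k : ℕ} [NeZero n] (C : CS K n k)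

theorem X_add (a b : ZMod n) : C.X (a + b) = C.X a * C.X b := by
  refine MulChar.ext fun x => ?_
  rw [MulChar.mul_apply, C.X_apply _ _ x.ne_zero, C.X_apply _ _ x.ne_zero,
    C.X_apply _ _ x.ne_zero, add_mul, AddChar.map_add_eq_mul]

theorem X_zero : C.X 0 = 1 := by
  refine MulChar.ext fun x => ?_
  rw [C.X_apply _ _ x.ne_zero, zero_mul, AddChar.map_zero_eq_one, MulChar.one_apply_coe]

theorem X_neg (a : ZMod n) : C.X (-a) = (C.X a)⁻¹ := by
  refine eq_inv_of_mul_eq_one_left ?_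
  rw [← C.X_add, neg_add_cancel, C.X_zero]

theorem X_ne_one {a : ZMod n} (ha : a ≠ 0) : C.X a ≠ 1 := by
  intro h
  obtain ⟨x, hx, h1⟩ := C.ind_one
  have e := C.X_apply a x hx
  rw [h, h1, mul_one, MulChar.one_apply (Ne.isUnit hx)] at e
  exact ha (ZMod.injective_stdAddChar (by rw [← e, AddChar.map_zero_eq_one]))

theorem X_of_pow (a : ZMod n) {d : K} (hd : d ≠ 0) (h : d ^ k = 1) : C.X a d = 1 := by
  rw [C.X_apply a d hd, (C.ind_zero d hd).2 h, mul_zero, AddChar.map_zero_eq_one]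

theorem sum_X [DecidableEq K] {x : K} (hx : x ≠ 0) :
    ∑ a, C.X a x = if x ^ k = 1 then (n : ℂ) else 0 := by
  rw [sum_congr rfl (fun a _ => C.X_apply a x hx),
    AddChar.sum_mulShift (C.ind x) (ZMod.isPrimitive_stdAddChar n), ZMod.card]
  by_cases h : x ^ k = 1
  · rw [if_pos h, if_pos ((C.ind_zero x hx).2 h)]
  · rw [if_neg h, if_neg (fun h' => h ((C.ind_zero x hx).1 h')), Nat.cast_zero]

theorem X_one_neg (h2 : (2 : K) ≠ 0) (hk : Odd k) : C.X 1 (-1) = -1 := by
  have hm : (-1 : K) ≠ 0 := neg_ne_zero.2 one_ne_zero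
  have hsq : C.X 1 (-1) * C.X 1 (-1) = 1 := by
    rw [← map_mul, neg_mul_neg, one_mul, map_one]
  rcases mul_self_eq_one_iff.1 hsq with h | h
  · exfalso
    rw [C.X_apply 1 _ hm, one_mul] at h
    have h0 : C.ind (-1) = 0 := ZMod.injective_stdAddChar (by rw [h, AddChar.map_zero_eq_one])
    have h1 := (C.ind_zero _ hm).1 h0
    rw [hk.neg_one_pow] at h1
    exact h2 (by linear_combination -h1)
  · exact h

end CS

end Pool.Agent.P.MP_111ca2_co.PR
end

-- part Pool.Agent.P.MP_111ca2_co.PrA2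
section

/-! The duplication formula for Gauss sums. -/

namespace Pool.Agent.P.MP_111ca2_co.PR

open Finset

variable {K : Type} [Field K] [Fintype K] [DecidableEq K]

omit [Fintype K] [DecidableEq K] in
theorem pra2_sq {ρ : MulChar K ℂ} (h : ρ * ρ = 1) {v : K} (hv : v ≠ 0) (hs : IsSquare v) :
    ρ v = 1 := by
  obtain ⟨w, rfl⟩ := hs
  have hw : w ≠ 0 := by
    rintro rfl
    exact hv (mul_zero _)
  have h1 : (ρ * ρ) w = 1 := by
    rw [h]
    exact MulChar.one_apply (Ne.isUnit hw)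
  rw [map_mul, ← MulChar.mul_apply]
  exact h1

theorem pra2_rho {ρ : MulChar K ℂ} (h : ρ * ρ = 1) (h1 : ρ ≠ 1) (v : K) :
    ρ v = ((quadraticChar K v : ℤ) : ℂ) := by
  by_cases hv : v = 0
  · subst hv
    rw [MulChar.map_zero, MulChar.map_zero, Int.cast_zero]
  by_cases hs : IsSquare v
  · rw [pra2_sq h hv hs, (quadraticChar_one_iff_isSquare hv).2 hs]
    simp
  · obtain ⟨y, hy⟩ := MulChar.ne_one_iff.1 h1
    have hy0 : (y : K) ≠ 0 := y.ne_zero
    have hys : ¬ IsSquare (y : K) := fun hh => hy (pra2_sq h hy0 hh)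
    have hyy : ρ y * ρ y = 1 := by
      rw [← map_mul]
      exact pra2_sq h (mul_ne_zero hy0 hy0) ⟨y, rfl⟩
    have hym : ρ y = -1 := by
      rcases mul_self_eq_one_iff.1 hyy with h' | h'
      · exact absurd h' hy
      · exact h'
    have hq1 := quadraticChar_neg_one_iff_not_isSquare.2 hs
    have hq2 := quadraticChar_neg_one_iff_not_isSquare.2 hys
    have hvy : IsSquare (v * y) := by
      rw [← quadraticChar_one_iff_isSquare (mul_ne_zero hv hy0), map_mul, hq1, hq2]
      norm_num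
    have h3 := pra2_sq h (mul_ne_zero hv hy0) hvy
    rw [map_mul, hym] at h3
    rw [hq1]
    push_cast
    linear_combination -h3

theorem pra2_sum (h2 : (2 : K) ≠ 0) (f : K → ℂ) :
    ∑ y, f (y ^ 2) = ∑ v, (((quadraticChar K v : ℤ) : ℂ) + 1) * f v := by
  have hF : ringChar K ≠ 2 := by
    intro hc
    apply h2
    have := ringChar.Nat.cast_ringChar (R := K)
    rw [hc] at this
    exact_mod_cast this
  rw [← sum_fiberwise (s := univ) (g := fun y : K => y ^ 2)]
  refine sum_congr rfl fun v _ => ?_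
  have hc := quadraticChar_card_sqrts hF v
  have h1 : ∑ i ∈ univ.filter (fun y : K => y ^ 2 = v), f (i ^ 2) =
      ∑ i ∈ univ.filter (fun y : K => y ^ 2 = v), f v :=
    sum_congr rfl fun i hi => by rw [(mem_filter.1 hi).2]
  rw [h1, sum_const, nsmul_eq_mul]
  congr 1
  have h3 : (univ.filter (fun y : K => y ^ 2 = v)) = {x : K | x ^ 2 = v}.toFinset := by
    ext x
    simp
  rw [h3]
  exact_mod_cast congrArg (fun z : ℤ => (z : ℂ)) hc

theorem pra2_jac (h2 : (2 : K) ≠ 0) {χ ρ : MulChar K ℂ} (hχ : χ ≠ 1) (h : ρ * ρ = 1)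
    (h1 : ρ ≠ 1) : jacobiSum χ χ = χ⁻¹ 4 * jacobiSum ρ χ := by
  have h4 : (4 : K) ≠ 0 := by
    have : (4 : K) = 2 * 2 := by norm_num
    rw [this]
    exact mul_ne_zero h2 h2
  let e : K ≃ K :=
    { toFun := fun y => (1 + y) / 2
      invFun := fun x => 2 * x - 1
      left_inv := fun y => by field_simp; ring
      right_inv := fun x => by field_simp; ring }
  have e1 : jacobiSum χ χ = ∑ y : K, χ⁻¹ 4 * χ (1 - y ^ 2) := by
    unfold jacobiSum
    rw [← Equiv.sum_comp e]
    refine sum_congr rfl fun y _ => ?_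
    rw [MulChar.inv_apply', ← map_mul, ← map_mul]
    congr 1
    show (1 + y) / 2 * (1 - (1 + y) / 2) = 4⁻¹ * (1 - y ^ 2)
    have : (4 : K) = 2 * 2 := by norm_num
    rw [this]
    field_simp
    ring
  rw [e1, ← mul_sum, pra2_sum h2 (fun v => χ (1 - v))]
  congr 1
  have e2 : ∑ v : K, χ (1 - v) = 0 := by
    rw [← MulChar.sum_eq_zero_of_ne_one hχ]
    exact Equiv.sum_comp (Equiv.subLeft (1 : K)) (fun v => χ v)
  unfold jacobiSum
  simp only [add_mul, one_mul, sum_add_distrib, e2, add_zero]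
  exact sum_congr rfl fun v _ => by rw [pra2_rho h h1 v]

theorem gauss_dup {m k : ℕ} [NeZero m] (C : CS K (2 * m) k) (h2 : (2 : K) ≠ 0)
    {ψ : AddChar K ℂ} (hψ : ψ.IsPrimitive) (a : ZMod (2 * m)) :
    gaussSum (C.X a) ψ * gaussSum (C.X (a + (m : ZMod (2 * m)))) ψ =
      C.X (-a) 4 * gaussSum (C.X (a + a)) ψ * gaussSum (C.X (m : ZMod (2 * m))) ψ := by
  have h4e : (4 : K) = 2 * 2 := by norm_num
  have h4 : (4 : K) ≠ 0 := by
    rw [h4e]
    exact mul_ne_zero h2 h2
  have hρ : C.X (m : ZMod (2 * m)) * C.X (m : ZMod (2 * m)) = 1 := by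
    rw [← C.X_add, m_add_m, C.X_zero]
  have hρ1 : C.X (m : ZMod (2 * m)) ≠ 1 := C.X_ne_one m_ne
  by_cases ha0 : a = 0
  · subst ha0
    rw [neg_zero, add_zero, zero_add, C.X_zero, MulChar.one_apply (Ne.isUnit h4), one_mul]
  by_cases ham : a = m
  · subst ham
    rw [neg_m, m_add_m, pra2_sq hρ h4 ⟨2, h4e⟩, one_mul, mul_comm]
  have haa : a + a ≠ 0 := fun hh => by
    rcases (add_self_eq_zero a).1 hh with h' | h'
    · exact ha0 h'
    · exact ham h'
  have ham' : (m : ZMod (2 * m)) + a ≠ 0 := fun hh => by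
    apply ham
    have := neg_eq_of_add_eq_zero_right hh
    rw [neg_m] at this
    exact this.symm
  have hχ : C.X a ≠ 1 := C.X_ne_one ha0
  have j1 := jacobiSum_mul_nontrivial (χ := C.X a) (φ := C.X a)
    (by rw [← C.X_add]; exact C.X_ne_one haa) ψ
  have j2 := jacobiSum_mul_nontrivial (χ := C.X (m : ZMod (2 * m))) (φ := C.X a)
    (by rw [← C.X_add]; exact C.X_ne_one ham') ψ
  have j3 := pra2_jac h2 hχ hρ hρ1
  have hg : gaussSum (C.X a) ψ ≠ 0 :=
    gaussSum_ne_zero_of_nontrivial (Nat.cast_ne_zero.2 Fintype.card_ne_zero) hχ hψ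
  rw [← C.X_add] at j1 j2
  rw [add_comm (m : ZMod (2 * m)) a] at j2
  rw [C.X_neg]
  apply mul_left_cancel₀ hg
  rw [j3] at j1
  linear_combination (-gaussSum (C.X (a + (m : ZMod (2 * m)))) ψ) * j1 +
    ((C.X a)⁻¹ 4 * gaussSum (C.X (a + a)) ψ) * j2

end Pool.Agent.P.MP_111ca2_co.PR
end

-- part Pool.Agent.P.MP_111ca2_co.PrDS
section

/-! Counting, parity and congruences for multiplicative subgroups that are difference sets
(the files DS1 and DS2 of this folder, repeated in a namespace of their own). -/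

namespace Pool.Agent.P.MP_111ca2_co.PR

open Finset

noncomputable section

variable {K : Type} [Field K] [Fintype K] [DecidableEq K]

def DD (K : Type) [Field K] [Fintype K] [DecidableEq K] (k : ℕ) : Finset K :=
  univ.filter fun x => x ^ k = 1

def rr (k : ℕ) (g : K) : ℕ := ((DD K k ×ˢ DD K k).filter fun x => x.1 - x.2 = g).card

theorem mem_DD {k : ℕ} {x : K} : x ∈ DD K k ↔ x ^ k = 1 := by simp [DD]

theorem ne_zero_of_mem_DD {k : ℕ} (hk : 0 < k) {x : K} (h : x ∈ DD K k) : x ≠ 0 := by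
  rintro rfl
  rw [mem_DD, zero_pow hk.ne'] at h
  exact zero_ne_one h

omit [DecidableEq K] in
theorem exists_gen (K : Type) [Field K] [Fintype K] :
    ∃ g : K, IsPrimitiveRoot g (Fintype.card K - 1) := by
  classical
  obtain ⟨g, hg⟩ := IsCyclic.exists_ofOrder_eq_natCard (α := Kˣ)
  refine ⟨g, IsPrimitiveRoot.coe_units_iff.2 ?_⟩
  rw [← Fintype.card_units, ← Nat.card_eq_fintype_card, ← hg]
  exact IsPrimitiveRoot.orderOf g

theorem card_DD {n k : ℕ} (hk : 0 < k) (hn : 0 < n) {g : K} (hg : IsPrimitiveRoot g (n * k)) :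
    (DD K k).card = k := by
  have h := (hg.pow (Nat.mul_pos hn hk) rfl).card_nthRootsFinset
  rw [← h]
  congr 1
  ext x
  rw [mem_DD, h, Polynomial.mem_nthRootsFinset hk]

theorem sum_mul_DD {R : Type} [AddCommMonoid R] {k : ℕ} (hk : 0 < k) {d : K} (hd : d ∈ DD K k)
    (F : K → R) : ∑ x ∈ DD K k, F (d * x) = ∑ x ∈ DD K k, F x := by
  have h0 := ne_zero_of_mem_DD hk hd
  refine sum_nbij' (fun x => d * x) (fun x => d⁻¹ * x) ?_ ?_ ?_ ?_ ?_
  · intro x hx
    rw [mem_DD] at *
    rw [mul_pow, hd, hx, one_mul]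
  · intro x hx
    rw [mem_DD] at *
    rw [mul_pow, inv_pow, hd, hx, inv_one, one_mul]
  · intro x _; field_simp
  · intro x _; field_simp
  · intro x _; rfl

theorem main_sum {R : Type} [AddCommMonoid R] {k lam : ℕ} (hk : 0 < k)
    (hl : ∀ g : K, g ≠ 0 → rr k g = lam) (φ : K → R) (h0 : φ 0 = 0)
    (hi : ∀ d ∈ DD K k, ∀ y, φ (d * y) = φ y) :
    (DD K k).card • ∑ x ∈ DD K k, φ (x - 1) = lam • ∑ g, φ g := by
  have h1 : ∑ x ∈ DD K k ×ˢ DD K k, φ (x.1 - x.2) = lam • ∑ g, φ g := by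
    rw [← sum_fiberwise (DD K k ×ˢ DD K k) (fun x => x.1 - x.2), smul_sum]
    refine sum_congr rfl fun g _ => ?_
    rw [sum_congr rfl (g := fun _ => φ g) (fun x hx => by rw [(mem_filter.1 hx).2]), sum_const]
    by_cases hg : g = 0
    · simp [hg, h0]
    · rw [← hl g hg, rr]
  rw [← h1, sum_product_right, ← sum_const]
  refine sum_congr rfl fun d hd => ?_
  rw [← sum_mul_DD hk hd (fun x => φ (x - d))]
  refine sum_congr rfl fun x _ => ?_
  rw [← hi d hd (x - 1), mul_sub, mul_one]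

theorem count_eq {n k lam : ℕ} (hk : 0 < k) (hn : 0 < n) (hq : Fintype.card K = n * k + 1) {g : K}
    (hg : IsPrimitiveRoot g (n * k)) (hl : ∀ g : K, g ≠ 0 → rr k g = lam) : k = lam * n + 1 := by
  have h := main_sum hk hl (fun y : K => if y = 0 then (0 : ℕ) else 1) (by simp)
    (fun d hd y => by simp [ne_zero_of_mem_DD hk hd])
  have h1 : (1 : K) ∈ DD K k := mem_DD.2 (one_pow k)
  have e1 : ∑ x ∈ DD K k, (if x - 1 = 0 then (0 : ℕ) else 1) = k - 1 := by
    rw [← add_sum_erase _ _ h1, sum_congr rfl (g := fun _ => 1)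
      (fun x hx => if_neg (sub_ne_zero.2 (mem_erase.1 hx).1))]
    simp [card_erase_of_mem h1, card_DD hk hn hg]
  have e2 : ∑ x : K, (if x = 0 then (0 : ℕ) else 1) = n * k := by
    rw [← add_sum_erase _ _ (mem_univ (0 : K)), sum_congr rfl (g := fun _ => 1)
      (fun x hx => if_neg (mem_erase.1 hx).1)]
    simp [hq]
  rw [e1, e2, card_DD hk hn hg, smul_eq_mul, smul_eq_mul] at h
  have : k - 1 = lam * n := Nat.eq_of_mul_eq_mul_left hk (by rw [h]; ring)
  omega

theorem odd_k {n k lam : ℕ} (hk : 0 < k) (hn : 2 ≤ n) (hq : Fintype.card K = n * k + 1) {g : K}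
    (hg : IsPrimitiveRoot g (n * k)) (h2 : (2 : K) ≠ 0) (hl : ∀ g : K, g ≠ 0 → rr k g = lam) :
    Odd k := by
  by_contra hc
  rw [Nat.not_odd_iff_even] at hc
  have hc1 := count_eq hk (by omega) hq hg hl
  have hg0 : g ≠ 0 := hg.ne_zero (by positivity)
  have hgD : g ∉ DD K k := by
    rw [mem_DD]
    intro h
    have := Nat.le_of_dvd hk (hg.dvd_of_pow_eq_one k h)
    nlinarith
  have hs : ∑ _x ∈ (DD K k ×ˢ DD K k).filter (fun x => x.1 - x.2 = 2 * g), (1 : ZMod 2) = 0 := by
    refine sum_involution (fun x _ => (-x.2, -x.1)) (fun _ _ => rfl) ?_ ?_ (fun x _ => by simp)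
    · intro x hx _ he
      simp only [mem_filter, mem_product] at hx
      have a : -x.2 = x.1 := congrArg Prod.fst he
      have : x.1 = g := mul_left_cancel₀ h2 (by rw [← hx.2]; linear_combination (-1 : K) * a)
      exact hgD (this ▸ hx.1.1)
    · intro x hx
      simp only [mem_filter, mem_product, mem_DD] at hx ⊢
      rw [hc.neg_pow, hc.neg_pow]
      exact ⟨⟨hx.1.2, hx.1.1⟩, by rw [← hx.2]; ring⟩
  rw [sum_const, nsmul_eq_mul, mul_one, ← rr, hl _ (mul_ne_zero h2 hg0),
    ZMod.natCast_eq_zero_iff_even] at hs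
  have : Even (lam * n) := hs.mul_right n
  rw [hc1] at hc
  exact (Nat.even_add_one.1 hc) this

/-! ### the congruences -/

theorem sum_multiples {R : Type} [AddCommMonoid R] (S k : ℕ) (hk : 0 < k) (F : ℕ → R) :
    ∑ j ∈ range (S * k + 1), (if k ∣ j then F j else 0) = ∑ t ∈ range (S + 1), F (t * k) := by
  rw [← sum_filter]
  symm
  refine sum_nbij (fun t => t * k) ?_ ?_ ?_ (fun _ _ => rfl)
  · intro t ht
    simp only [mem_filter, mem_range] at ht ⊢
    exact ⟨Nat.lt_succ_of_le (Nat.mul_le_mul_right k (Nat.le_of_lt_succ ht)), dvd_mul_left _ _⟩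
  · intro a _ b _ h
    exact Nat.eq_of_mul_eq_mul_right hk h
  · intro j hj
    simp only [coe_filter, mem_range, Set.mem_ofPred_eq] at hj
    obtain ⟨h, t, rfl⟩ := hj
    refine ⟨t, ?_, mul_comm _ _⟩
    simp only [coe_range, Set.mem_Iio]
    by_contra hc
    have : (S + 1) * k ≤ t * k := Nat.mul_le_mul_right k (not_lt.1 hc)
    nlinarith

variable (p : ℕ) [Fact p.Prime] [CharP K p]

omit [Fintype K] [DecidableEq K] [CharP K p] in
theorem teich_eq_one {x : K} (h : WittVector.teichmuller p x = 1) : x = 1 := by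
  have := congrArg (fun z => WittVector.coeff z 0) h
  simpa using this

omit [Fintype K] [DecidableEq K] in
theorem int_dvd_of_witt (j : ℕ) : ∀ m : ℤ, (p : WittVector p K) ^ j ∣ (m : WittVector p K) →
    (p : ℤ) ^ j ∣ m := by
  induction j with
  | zero => intro m _; simp
  | succ j ih =>
    intro m hm
    have h1 : (p : ℤ) ∣ m := by
      have := map_dvd (WittVector.constantCoeff : WittVector p K →+* K)
        ((dvd_pow_self _ j.succ_ne_zero).trans hm)
      rw [map_natCast, map_intCast, CharP.cast_eq_zero, zero_dvd_iff] at this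
      exact (CharP.intCast_eq_zero_iff K p m).1 this
    obtain ⟨m, rfl⟩ := h1
    rw [pow_succ'] at hm ⊢
    push_cast at hm
    exact mul_dvd_mul_left _ (ih m ((mul_dvd_mul_iff_left (WittVector.p_nonzero p K)).1 hm))

theorem pow_sum_DD {n k : ℕ} (hk : 0 < k) (hn : 0 < n) {g : K} (hg : IsPrimitiveRoot g (n * k)) (j : ℕ) :
    ∑ x ∈ DD K k, WittVector.teichmuller p x ^ j = if k ∣ j then (k : WittVector p K) else 0 := by
  split_ifs with h
  · obtain ⟨t, rfl⟩ := h
    rw [sum_congr rfl (g := fun _ => 1) (fun x hx => by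
      rw [pow_mul, ← map_pow, mem_DD.1 hx, map_one, one_pow])]
    simp [card_DD hk hn hg]
  · have hd : g ^ n ∈ DD K k := mem_DD.2 (by rw [← pow_mul, hg.pow_eq_one])
    have := sum_mul_DD hk hd (fun x => WittVector.teichmuller p x ^ j)
    simp only [map_mul, mul_pow, ← mul_sum] at this
    by_contra hc
    have h1 := teich_eq_one p (x := (g ^ n) ^ j) (by
      rw [map_pow]; exact mul_right_cancel₀ hc (this.trans (one_mul _).symm))
    exact h ((hg.pow (Nat.mul_pos hn hk) rfl).dvd_of_pow_eq_one j h1)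

/-- the alternating sum of binomial coefficients -/
def altS (k S : ℕ) : ℤ := ∑ t ∈ range (S + 1), (-1) ^ t * ((S * k).choose (t * k) : ℤ)

theorem expand_sum {n k : ℕ} (hk : Odd k) (hn : 0 < n) {g : K} (hg : IsPrimitiveRoot g (n * k)) (S : ℕ)
    (he : Even S) : ∑ x ∈ DD K k, (WittVector.teichmuller p x - 1) ^ (S * k) =
      (k : WittVector p K) * ((altS k S : ℤ) : WittVector p K) := by
  have hk0 := hk.pos
  have h1 : ∀ x : K, (WittVector.teichmuller p x - 1) ^ (S * k) = ∑ m ∈ range (S * k + 1),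
      WittVector.teichmuller p x ^ m * ((-1) ^ m * ((S * k).choose m : WittVector p K)) := by
    intro x
    rw [sub_pow]
    refine sum_congr rfl fun m _ => ?_
    rw [pow_add, (he.mul_right k).neg_one_pow, one_pow]
    ring
  rw [sum_congr rfl fun x _ => h1 x, sum_comm]
  have h2 : ∀ m ∈ range (S * k + 1), ∑ x ∈ DD K k,
      WittVector.teichmuller p x ^ m * ((-1) ^ m * ((S * k).choose m : WittVector p K)) =
      if k ∣ m then (k : WittVector p K) * ((-1) ^ m * ((S * k).choose m : WittVector p K)) else 0 := by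
    intro m _
    rw [← sum_mul, pow_sum_DD p hk0 hn hg, ite_mul, zero_mul]
  rw [sum_congr rfl h2, sum_multiples _ _ hk0, altS, Int.cast_sum, mul_sum]
  refine sum_congr rfl fun t _ => ?_
  rw [mul_comm t k, pow_mul, hk.neg_one_pow, Int.cast_mul, Int.cast_pow, Int.cast_neg, Int.cast_one,
    Int.cast_natCast]

theorem cong_alt {n k lam : ℕ} (hk : Odd k) (hn : 0 < n) (hq : Fintype.card K = n * k + 1) {g : K}
    (hg : IsPrimitiveRoot g (n * k)) (hl : ∀ g : K, g ≠ 0 → rr k g = lam) (j s : ℕ)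
    (he : Even (p ^ j * s)) (hs : ¬ n ∣ s) : (p : ℤ) ^ (j + 1) ∣ altS k (p ^ j * s) := by
  have hk0 := hk.pos
  have hp : p.Prime := Fact.out
  have hs0 : 0 < s := Nat.pos_of_ne_zero (by rintro rfl; exact hs (dvd_zero n))
  have hpq : p ∣ n * k + 1 := by rw [← hq]; exact (CharP.cast_eq_zero_iff K p _).1 (by simp)
  have hpk : ¬ p ∣ k := fun h =>
    hp.one_lt.ne' (Nat.dvd_one.1 ((Nat.dvd_add_right (h.mul_left n)).1 hpq))
  set w : K →* WittVector p K := WittVector.teichmuller p with hw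
  have hg0 : g ≠ 0 := hg.ne_zero (by positivity)
  have z1 : ∑ y : K, w y ^ (k * s) = 0 := by
    have := Equiv.sum_comp (Equiv.mulLeft₀ g hg0) (fun y => w y ^ (k * s))
    simp only [Equiv.mulLeft₀_apply, map_mul, mul_pow, ← mul_sum] at this
    by_contra hc
    have h1 := teich_eq_one p (x := g ^ (k * s)) (by
      rw [map_pow]; exact mul_right_cancel₀ hc (this.trans (one_mul _).symm))
    have := hg.dvd_of_pow_eq_one _ h1
    rw [mul_comm n k] at this
    exact hs (Nat.dvd_of_mul_dvd_mul_left hk0 this)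
  have z1' : ∑ y : K, w y ^ (p ^ j * s * k) = 0 := by
    rw [← z1, ← Equiv.sum_comp (iterateFrobeniusEquiv K p j).toEquiv (fun y => w y ^ (k * s))]
    refine sum_congr rfl fun y _ => ?_
    show _ = w (y ^ p ^ j) ^ (k * s)
    rw [map_pow, ← pow_mul]; congr 1; ring
  have z2 := main_sum hk0 hl (fun y => w y ^ (p ^ j * s * k))
    (by rw [hw, WittVector.teichmuller_zero, zero_pow (by have := hp.pos; positivity)])
    (fun d hd y => by rw [map_mul, mul_pow, mul_comm _ k, pow_mul, ← map_pow, mem_DD.1 hd]; simp)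
  rw [z1', smul_zero, card_DD hk0 hn hg, nsmul_eq_mul] at z2
  have z3 : (p : WittVector p K) ^ (j + 1) ∣ ∑ x ∈ DD K k, (w x - 1) ^ (p ^ j * s * k) -
      ∑ x ∈ DD K k, w (x - 1) ^ (p ^ j * s * k) := by
    rw [← sum_sub_distrib]
    refine dvd_sum fun x _ => ?_
    have a : (p : WittVector p K) ∣ (w x - 1) - w (x - 1) := by
      rw [← Ideal.mem_span_singleton, WittVector.mem_span_p_iff_coeff_zero_eq_zero]
      rw [← WittVector.constantCoeff_apply, map_sub, map_sub, map_one]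
      simp only [WittVector.constantCoeff_apply, hw, WittVector.teichmuller_coeff_zero, sub_self]
    rw [mul_assoc, pow_mul (w x - 1), pow_mul (w (x - 1))]
    exact (dvd_sub_pow_of_dvd_sub a j).trans (sub_dvd_pow_sub_pow _ _ _)
  have z4 := expand_sum p hk hn hg _ he
  have z5 : (p : WittVector p K) ^ (j + 1) ∣ (((k : ℤ) * (k * altS k (p ^ j * s)) : ℤ) : WittVector p K) := by
    have := z3.mul_left (k : WittVector p K)
    rw [mul_sub, z2, sub_zero, z4] at this
    push_cast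
    exact this
  have hc : IsCoprime ((p : ℤ) ^ (j + 1)) (k : ℤ) :=
    (Nat.isCoprime_iff_coprime.2 ((Nat.Prime.coprime_iff_not_dvd hp).2 hpk)).pow_left
  exact hc.dvd_of_dvd_mul_left (hc.dvd_of_dvd_mul_left (int_dvd_of_witt p _ _ z5))

theorem altS_fold (k h : ℕ) : altS k (2 * (h + 1)) = 2 + ∑ t ∈ range (h + 1),
    (if 2 * (1 + t) = 2 * (h + 1) then 1 else 2) * (-1) ^ (1 + t) *
      ((2 * (h + 1) * k).choose ((1 + t) * k) : ℤ) := by
  set F : ℕ → ℤ := fun t => (-1) ^ t * ((2 * (h + 1) * k).choose (t * k) : ℤ) with hF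
  have hsym : ∀ t, t ≤ h → F (h + 1 + 1 + (h + 1 - 1 - t)) = F t := by
    intro t ht
    obtain ⟨u, rfl⟩ := Nat.exists_eq_add_of_le ht
    simp only [hF]
    rw [show t + u + 1 + 1 + (t + u + 1 - 1 - t) = t + 2 * (u + 1) by omega, pow_add, pow_mul,
      Nat.choose_symm_of_eq_add (show 2 * (t + u + 1) * k = (t + 2 * (u + 1)) * k + t * k by ring)]
    ring
  have e1 : altS k (2 * (h + 1)) = ∑ t ∈ range (h + 1), F t + F (h + 1) + ∑ t ∈ range (h + 1), F t := by
    rw [altS, show 2 * (h + 1) + 1 = h + 1 + 1 + (h + 1) by ring, sum_range_add, sum_range_succ,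
      ← sum_range_reflect (fun x => F (h + 1 + 1 + x))]
    congr 1
    exact sum_congr rfl fun t ht => hsym t (by have := mem_range.1 ht; omega)
  have e2 : ∑ t ∈ range h, (if 2 * (1 + t) = 2 * (h + 1) then 1 else 2) * (-1) ^ (1 + t) *
      ((2 * (h + 1) * k).choose ((1 + t) * k) : ℤ) = 2 * ∑ t ∈ range h, F (t + 1) := by
    rw [mul_sum]
    refine sum_congr rfl fun t ht => ?_
    rw [if_neg (by have := mem_range.1 ht; omega), add_comm 1 t, mul_assoc]
  have e3 : F 0 = 1 := by simp [hF]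
  rw [e1, sum_range_succ', sum_range_succ _ h, e2, if_pos (by ring), e3, add_comm 1 h]
  simp only [hF]
  ring

theorem two_case (k : ℕ) (hk : Odd k) (h1 : 1 < k) : ¬ ((2 : ℕ) : ℤ) ^ (1 + 1) ∣ altS k (2 ^ 1 * 1) := by
  intro h
  rw [show 2 ^ 1 * 1 = 2 * (0 + 1) by norm_num, altS_fold] at h
  obtain ⟨j, rfl⟩ := hk
  have := Fact.mk Nat.prime_two
  have a := Choose.choose_modEq_choose_mod_mul_choose_div_nat (n := 4 * j + 1) (k := 2 * j) (p := 2)
  rw [show (4 * j + 1) % 2 = 1 by omega, show 2 * j % 2 = 0 by omega,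
    show (4 * j + 1) / 2 = 2 * j by omega, show 2 * j / 2 = j by omega] at a
  have b : 2 ∣ (2 * j).choose j := Nat.two_dvd_centralBinom_of_one_le (by omega)
  obtain ⟨c, hc⟩ := (a.dvd_iff dvd_rfl).2 (b.mul_left _)
  have d : (2 * (2 * j + 1)).choose (2 * j + 1) = 2 * (2 * c) := by
    rw [show 2 * (2 * j + 1) = 4 * j + 1 + 1 by ring, Nat.choose_succ_succ',
      Nat.choose_symm_of_eq_add (show 4 * j + 1 = 2 * j + 1 + 2 * j by ring), hc]
    ring
  simp only [zero_add, range_one, sum_singleton, add_zero, mul_one, one_mul, if_true, d] at h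
  push_cast at h
  omega

/-- `-1` is not in a multiplicative subgroup that is a nontrivial difference set. -/
theorem neg_one_pow_ne {n k lam : ℕ} (hn : 2 ≤ n) (hk : 1 < k) (hq : Fintype.card K = n * k + 1)
    (hl : ∀ g : K, g ≠ 0 → rr k g = lam) : (2 : K) ≠ 0 ∧ Odd k := by
  obtain ⟨γ, hγ⟩ := exists_gen K
  rw [hq, Nat.add_sub_cancel] at hγ
  have h2 : (2 : K) ≠ 0 := by
    intro h2
    have := Fact.mk Nat.prime_two
    have : CharP K 2 := (CharP.charP_iff_prime_eq_zero Nat.prime_two).2 (by exact_mod_cast h2)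
    have hpq : 2 ∣ n * k + 1 := by rw [← hq]; exact (CharP.cast_eq_zero_iff K 2 _).1 (by simp)
    have hko : Odd k := by
      rcases Nat.even_or_odd k with h | h
      · have := (h.mul_left n).two_dvd
        omega
      · exact h
    exact two_case k hko hk (cong_alt 2 hko (by omega) hq hγ hl 1 1 (by norm_num)
      (fun h => by have := Nat.le_of_dvd one_pos h; omega))
  exact ⟨h2, odd_k (by omega) hn hq hγ h2 hl⟩

omit [DecidableEq K] in
theorem pow_iff {n k : ℕ} (hn : 0 < n) (hk : 0 < k) (hq : Fintype.card K = n * k + 1) (x : K) :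
    (∃ y : K, y ≠ 0 ∧ x = y ^ n) ↔ x ^ k = 1 := by
  obtain ⟨γ, hγ⟩ := exists_gen K
  have hk' : Fintype.card K - 1 = n * k := by omega
  rw [hk'] at hγ
  have : NeZero (n * k) := ⟨by positivity⟩
  constructor
  · rintro ⟨y, hy, rfl⟩
    rw [← pow_mul, ← hk', FiniteField.pow_card_sub_one_eq_one y hy]
  · intro hx
    obtain ⟨m, _, rfl⟩ := hγ.eq_pow_of_pow_eq_one (ξ := x) (by rw [mul_comm, pow_mul, hx, one_pow])
    rw [← pow_mul, hγ.pow_eq_one_iff_dvd, Nat.mul_dvd_mul_iff_right (by omega)] at hx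
    obtain ⟨t, rfl⟩ := hx
    exact ⟨γ ^ t, pow_ne_zero _ (hγ.ne_zero (NeZero.ne _)), by rw [← pow_mul, mul_comm]⟩

theorem ncard_eq_rr {n k : ℕ} (hn : 0 < n) (hk : 0 < k) (hq : Fintype.card K = n * k + 1) (g : K) :
    {x : K × K | (∃ y : K, y ≠ 0 ∧ x.1 = y ^ n) ∧ (∃ y : K, y ≠ 0 ∧ x.2 = y ^ n) ∧
      x.1 - x.2 = g}.ncard = rr k g := by
  rw [rr, ← Set.ncard_coe_finset]
  congr 1
  ext x
  simp [pow_iff hn hk hq, mem_DD, and_assoc]

end

end Pool.Agent.P.MP_111ca2_co.PR
end

-- part Pool.Agent.P.MP_111ca2_co.PrA3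
section

/-! The quadratic equations for the Gauss sums of a difference set. -/

namespace Pool.Agent.P.MP_111ca2_co.PR

open Finset

variable {K : Type} [Field K] [Fintype K] [DecidableEq K]

omit [DecidableEq K] in
theorem pra3_term {n k : ℕ} [NeZero n] (C : CS K n k) (ψ : AddChar K ℂ) (u a : ZMod n) :
    C.X a (-1) * (gaussSum (C.X a) ψ * gaussSum (C.X (u - a)) ψ) =
      ∑ h : K, C.X a h * ∑ y : K, C.X u y * ψ (y * (1 - h)) := by
  simp only [mul_sum]
  rw [sum_comm]
  simp only [gaussSum]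
  rw [mul_sum, mul_sum]
  refine sum_congr rfl fun y _ => ?_
  by_cases hy : y = 0
  · subst hy
    simp [MulChar.map_zero]
  · have hy' : -y ≠ 0 := neg_ne_zero.2 hy
    rw [← Equiv.sum_comp (Equiv.mulLeft₀ (-y) hy') (fun x => C.X a x * ψ x), sum_mul, mul_sum]
    refine sum_congr rfl fun h _ => ?_
    have e1 : C.X u y = C.X a y * C.X (u - a) y := by
      rw [← MulChar.mul_apply, ← C.X_add, add_sub_cancel]
    have e2 : C.X a (-1) * C.X a (-y * h) = C.X a h * C.X a y := by
      rw [← map_mul, ← map_mul]; congr 1; ring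
    have e3 : ψ (y * (1 - h)) = ψ (-y * h) * ψ y := by
      rw [← AddChar.map_add_eq_mul]; congr 1; ring
    rw [Equiv.mulLeft₀_apply, e1, e3]
    linear_combination (ψ (-y * h) * C.X (u - a) y * ψ y) * e2

omit [DecidableEq K] in
theorem pra3_inner {n k : ℕ} [NeZero n] (C : CS K n k) (ψ : AddChar K ℂ) {u : ZMod n}
    (hu : u ≠ 0) (c : K) :
    ∑ y : K, C.X u y * ψ (y * c) = C.X (-u) c * gaussSum (C.X u) ψ := by
  by_cases hc : c = 0
  · subst hc
    simp only [mul_zero, AddChar.map_zero_eq_one, mul_one, MulChar.map_zero, zero_mul]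
    exact MulChar.sum_eq_zero_of_ne_one (C.X_ne_one hu)
  · have h := gaussSum_mulShift_eq (C.X u) ψ (Units.mk0 c hc)
    rw [C.X_neg]
    simp only [Units.val_mk0] at h
    rw [← h, gaussSum]
    refine sum_congr rfl fun y _ => ?_
    rw [AddChar.mulShift_apply, mul_comm c y]

theorem pra3_sum {n k lam : ℕ} [NeZero n] (C : CS K n k) (hk : 0 < k)
    (hl : ∀ g : K, g ≠ 0 → rr k g = lam) {u : ZMod n} (hu : u ≠ 0) :
    ∑ h ∈ DD K k, C.X u (1 - h) = 0 := by
  have h := main_sum hk hl (fun y => C.X u y) (MulChar.map_zero _) (fun d hd y => by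
    rw [map_mul, C.X_of_pow u (ne_zero_of_mem_DD hk hd) (mem_DD.1 hd), one_mul])
  rw [MulChar.sum_eq_zero_of_ne_one (C.X_ne_one hu), smul_zero, nsmul_eq_mul] at h
  have h1 : ((DD K k).card : ℂ) ≠ 0 := by
    exact_mod_cast (card_pos.2 ⟨1, mem_DD.2 (one_pow k)⟩).ne'
  have h2 := (mul_eq_zero.1 h).resolve_left h1
  calc ∑ h ∈ DD K k, C.X u (1 - h) = C.X u (-1) * ∑ h ∈ DD K k, C.X u (h - 1) := by
        rw [mul_sum]
        refine sum_congr rfl fun h _ => ?_
        rw [← map_mul]; congr 1; ring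
    _ = 0 := by rw [h2, mul_zero]

theorem gauss_eqn {n k lam : ℕ} [NeZero n] (C : CS K n k) (hk : 0 < k)
    (hq : Fintype.card K = n * k + 1) (hl : ∀ g : K, g ≠ 0 → rr k g = lam)
    (ψ : AddChar K ℂ) (u : ZMod n) (hu : u ≠ 0) :
    ∑ a, C.X a (-1) * (gaussSum (C.X a) ψ * gaussSum (C.X (u - a)) ψ) = 0 := by
  have _ := hq
  rw [sum_congr rfl fun a _ => pra3_term C ψ u a, sum_comm]
  have e : ∀ h : K, ∑ a, C.X a h * ∑ y : K, C.X u y * ψ (y * (1 - h)) =
      if h ^ k = 1 then (n : ℂ) * gaussSum (C.X u) ψ * C.X (-u) (1 - h) else 0 := by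
    intro h
    rw [← sum_mul, pra3_inner C ψ hu]
    by_cases h0 : h = 0
    · subst h0
      rw [if_neg (by rw [zero_pow hk.ne']; exact zero_ne_one)]
      simp [MulChar.map_zero]
    · rw [C.sum_X h0]
      split_ifs
      · ring
      · rw [zero_mul]
  rw [sum_congr rfl fun h _ => e h, ← sum_filter, ← mul_sum]
  exact mul_eq_zero_of_right _ (pra3_sum C hk hl (neg_ne_zero.2 hu))

end Pool.Agent.P.MP_111ca2_co.PR
end

-- part Pool.Agent.P.MP_111ca2_co.PrA4
section

/-! The complex system attached to a difference set. -/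

namespace Pool.Agent.P.MP_111ca2_co.PR

open Finset

variable {K : Type} [Field K] [Fintype K] [DecidableEq K]

omit [DecidableEq K] in
theorem jac_int {n k : ℕ} [NeZero n] (C : CS K n k) (a b : ZMod n) :
    ∃ N : ZMod n → ℤ, (∀ j, |N j| ≤ Fintype.card K) ∧
      ∀ t, jacobiSum (C.X (t * a)) (C.X (t * b)) = ∑ j, (N j : ℂ) * ZMod.stdAddChar (t * j) := by
  classical
  let S : Finset K := univ.filter fun x => x ≠ 0 ∧ (1 - x) ≠ 0
  let f : K → ZMod n := fun x => a * C.ind x + b * C.ind (1 - x)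
  refine ⟨fun j => ((S.filter fun x => f x = j).card : ℤ), fun j => ?_, fun t => ?_⟩
  · rw [abs_of_nonneg (Int.natCast_nonneg _)]
    exact_mod_cast Finset.card_le_univ _
  · have h1 : jacobiSum (C.X (t * a)) (C.X (t * b)) = ∑ x ∈ S, ZMod.stdAddChar (t * f x) := by
      rw [jacobiSum, sum_filter]
      refine sum_congr rfl fun x _ => ?_
      split_ifs with hx
      · rw [C.X_apply _ _ hx.1, C.X_apply _ _ hx.2, ← AddChar.map_add_eq_mul]
        congr 1
        simp only [f]
        ring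
      · rcases not_and_or.1 hx with h | h
        · rw [not_not.1 h, MulChar.map_zero, zero_mul]
        · rw [not_not.1 h, MulChar.map_zero, mul_zero]
    rw [h1, ← sum_fiberwise S f]
    refine sum_congr rfl fun j _ => ?_
    rw [sum_congr rfl (g := fun _ => ZMod.stdAddChar (t * j))
      (fun x hx => by rw [(mem_filter.1 hx).2]), sum_const, nsmul_eq_mul]
    simp

theorem exists_act {m k lam : ℕ} [NeZero m] (h2 : (2 : K) ≠ 0) (hk : Odd k)
    (hq : Fintype.card K = 2 * m * k + 1) (hl : ∀ g : K, g ≠ 0 → rr k g = lam) :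
    Nonempty (Act m (Fintype.card K)) := by
  have hk0 : 0 < k := hk.pos
  obtain ⟨C⟩ := exists_CS K (n := 2 * m) hk0 hq
  set ψ : AddChar K ℂ := AddChar.FiniteField.primitiveChar_to_Complex K with hψdef
  have hψ : ψ.IsPrimitive := AddChar.FiniteField.primitiveChar_to_Complex_isPrimitive K
  have hψ1 : ψ ≠ 1 := by
    have := hψ (a := 1) one_ne_zero
    rwa [AddChar.mulShift_one] at this
  have hq0 : (Fintype.card K : ℂ) ≠ 0 := Nat.cast_ne_zero.2 Fintype.card_ne_zero
  have hg0 : gaussSum (C.X 0) ψ = -1 := by rw [C.X_zero, gaussSum_one_left hψ1]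
  have hgne : ∀ c, gaussSum (C.X c) ψ ≠ 0 := by
    intro c
    by_cases hc : c = 0
    · rw [hc, hg0]; norm_num
    · exact gaussSum_ne_zero_of_nontrivial hq0 (C.X_ne_one hc) hψ
  have hsq : ∀ a : ZMod (2 * m), C.X a (-1) * C.X a (-1) = 1 := by
    intro a
    rw [← map_mul]
    simp
  have hneg : ∀ a : ZMod (2 * m), C.X (-a) (-1) = C.X a (-1) := by
    intro a
    rw [C.X_neg, MulChar.inv_apply', inv_neg_one]
  let S : GS ℂ m :=
    { g := fun a => gaussSum (C.X a) ψ / 2
      s := fun a => C.X a (-1)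
      W := fun a => C.X (-a) 4
      τ := (Fintype.card K : ℂ) / 4
      τ0 := div_ne_zero hq0 (by norm_num)
      g0 := by rw [hg0]; ring
      s_add := fun a b => by rw [C.X_add, MulChar.mul_apply]
      s_one := C.X_one_neg h2 hk
      W_add := fun a b => by rw [neg_add, C.X_add, MulChar.mul_apply]
      W_m := by
        have h4 : (4 : K) = 2 * 2 := by norm_num
        rw [neg_m, h4, map_mul, ← MulChar.mul_apply, ← C.X_add, m_add_m, C.X_zero,
          MulChar.one_apply (Ne.isUnit h2)]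
      rfx := fun a ha => by
        have e1 := gaussSum_mul_gaussSum_eq_card (C.X_ne_one ha) hψ
        have e2 := mul_gaussSum_inv_eq_gaussSum (C.X (-a)) ψ
        rw [hneg] at e2
        rw [← C.X_neg] at e1
        rw [← e2, ← e1]
        ring
      dup := fun a => by
        have := gauss_dup C h2 hψ a
        linear_combination this / 4
      eqn := fun u hu => by
        have := gauss_eqn C hk0 hq hl ψ u hu
        have e : ∑ a, C.X a (-1) * (gaussSum (C.X a) ψ / 2 * (gaussSum (C.X (u - a)) ψ / 2)) =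
            (∑ a, C.X a (-1) * (gaussSum (C.X a) ψ * gaussSum (C.X (u - a)) ψ)) / 4 := by
          rw [sum_div]
          exact sum_congr rfl fun a _ => by ring
        rw [e, this, zero_div] }
  have hJ : ∀ a b, S.Jac a b = jacobiSum (C.X a) (C.X b) := by
    intro a b
    unfold GS.Jac GS.jj
    split_ifs with h1 h3
    · have e := jacobiSum_mul_nontrivial (χ := C.X a) (φ := C.X b)
        (by rw [← C.X_add]; exact C.X_ne_one h1) ψ
      rw [← C.X_add] at e
      have hne := hgne (a + b)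
      show 2 * (gaussSum (C.X a) ψ / 2 * (gaussSum (C.X b) ψ / 2) /
        (gaussSum (C.X (a + b)) ψ / 2)) = _
      field_simp
      linear_combination -e
    · have hb : b = -a := eq_neg_of_add_eq_zero_right (not_not.1 h1)
      rw [hb, C.X_neg, jacobiSum_nontrivial_inv (C.X_ne_one h3)]
    · have ha : a = 0 := not_not.1 h3
      have hb : b = 0 := by simpa [ha] using not_not.1 h1
      rw [ha, hb, C.X_zero, jacobiSum_one_one]
      show 4 * ((Fintype.card K : ℂ) / 4) - 2 = _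
      ring
  refine ⟨{ toGS := S, hτ := rfl, int := fun a b => ?_ }⟩
  obtain ⟨N, hN1, hN2⟩ := jac_int C a b
  exact ⟨N, hN1, fun t => by rw [hJ, hN2]⟩

end Pool.Agent.P.MP_111ca2_co.PR
end

-- part Pool.Agent.P.MP_111ca2_co.PrMain
section

/-! Finiteness for each index other than `2, 4, 8`. -/

namespace Pool.Agent.P.MP_111ca2_co.PR

open Finset

theorem bound_act (m : ℕ) [NeZero m] (h1 : m ≠ 1) (h2 : m ≠ 2) (h4 : m ≠ 4) :
    ∃ Q : ℕ, ∀ q, Nonempty (Act m q) → q ≤ Q := by
  by_contra h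
  push Not at h
  choose q hq hlt using h
  obtain ⟨S⟩ := exists_ult q hlt fun i => (hq i).some
  exact S.false_of h1 h2 h4

theorem finite_exc (n : ℕ) (h2 : n ≠ 2) (h4 : n ≠ 4) (h8 : n ≠ 8) :
    ∃ Q : ℕ, ∀ (K : Type) [Field K] [Finite K], n ∣ Nat.card K - 1 → 2 ≤ n → n < Nat.card K - 1 →
      (∃ lam : ℕ, ∀ g : K, g ≠ 0 →
        {x : K × K | (∃ y : K, y ≠ 0 ∧ x.1 = y ^ n) ∧ (∃ y : K, y ≠ 0 ∧ x.2 = y ^ n) ∧
          x.1 - x.2 = g}.ncard = lam) → Nat.card K ≤ Q := by
  classical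
  have key : ∀ (K : Type) [Field K] [Finite K], n ∣ Nat.card K - 1 → 2 ≤ n → n < Nat.card K - 1 →
      (∃ lam : ℕ, ∀ g : K, g ≠ 0 →
        {x : K × K | (∃ y : K, y ≠ 0 ∧ x.1 = y ^ n) ∧ (∃ y : K, y ≠ 0 ∧ x.2 = y ^ n) ∧
          x.1 - x.2 = g}.ncard = lam) →
      ∃ m : ℕ, n = 2 * m ∧ ∀ [NeZero m], Nonempty (Act m (Nat.card K)) := by
    intro K _ _ hn hn2 hlt ⟨lam, hl⟩
    have := Fintype.ofFinite K
    rw [Nat.card_eq_fintype_card] at *
    obtain ⟨k, hk⟩ := hn
    have hk1 : 1 < k := by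
      by_contra h
      interval_cases k <;> omega
    have hq : Fintype.card K = n * k + 1 := by omega
    simp only [ncard_eq_rr (by omega) (by omega) hq] at hl
    obtain ⟨h2K, hko⟩ := neg_one_pow_ne hn2 hk1 hq hl
    have hodd : Odd (Fintype.card K) := by
      rw [Nat.odd_iff]
      refine FiniteField.odd_card_of_char_ne_two fun h => h2K ?_
      exact_mod_cast (ringChar.spec K 2).2 (h ▸ dvd_rfl)
    have hev : Even n := by
      rw [hq, Nat.odd_add_one, Nat.not_odd_iff_even, Nat.even_mul] at hodd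
      exact hodd.resolve_right (Nat.not_even_iff_odd.2 hko)
    obtain ⟨m, hm⟩ := hev
    obtain rfl : n = 2 * m := by omega
    exact ⟨m, rfl, exists_act h2K hko hq hl⟩
  by_cases h : ∃ m : ℕ, 0 < m ∧ n = 2 * m
  · obtain ⟨m, hm, rfl⟩ := h
    have : NeZero m := ⟨hm.ne'⟩
    obtain ⟨Q, hQ⟩ := bound_act m (by omega) (by omega) (by omega)
    refine ⟨Q, fun K _ _ a b c d => ?_⟩
    obtain ⟨m', hm', h'⟩ := key K a b c d
    obtain rfl : m = m' := by omega
    exact hQ _ h'
  · refine ⟨0, fun K _ _ a b c d => ?_⟩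
    obtain ⟨m, hm, -⟩ := key K a b c d
    exact absurd ⟨m, by omega, hm⟩ h

end Pool.Agent.P.MP_111ca2_co.PR
end
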