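import Mathlib

-- part Pool.Agent.P.MP_111ca2_co.DS1
section

/-! Multiplicative subgroups as difference sets: counting, parity, congruences. -/

namespace Pool.Agent.P.MP_111ca2_co

open Finset

noncomputable section

variable {K : Type} [Field K] [Fintype K] [DecidableEq K]

def DD (K : Type) [Field K] [Fintype K] [DecidableEq K] (k : ℕ) : Finset K :=
  univ.filter fun x => x ^ k = 1

def rr (k : ℕ) (g : K) : ℕ := ((DD K k ×ˢ DD K k).filter fun x => x.1 - x.2 = g).card

theorem mem_DD {k : ℕ} {x : K} : x ∈ DD K k ↔ x ^ k = 1 := by simp [DD]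

theorem ne_zero_of_mem_DD {k : ℕ} (hk : 0 < k) {x : K} (h : x ∈ DD K k) : x ≠ 0 := by
  rintro rfl
  rw [mem_DD, zero_pow hk.ne'] at h
  exact zero_ne_one h

omit [DecidableEq K] in
theorem exists_gen (K : Type) [Field K] [Fintype K] :
    ∃ g : K, IsPrimitiveRoot g (Fintype.card K - 1) := by
  classical
  obtain ⟨g, hg⟩ := IsCyclic.exists_ofOrder_eq_natCard (α := Kˣ)
  refine ⟨g, IsPrimitiveRoot.coe_units_iff.2 ?_⟩
  rw [← Fintype.card_units, ← Nat.card_eq_fintype_card, ← hg]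
  exact IsPrimitiveRoot.orderOf g

theorem card_DD {n k : ℕ} (hk : 0 < k) (hn : 0 < n) {g : K} (hg : IsPrimitiveRoot g (n * k)) :
    (DD K k).card = k := by
  have h := (hg.pow (Nat.mul_pos hn hk) rfl).card_nthRootsFinset
  rw [← h]
  congr 1
  ext x
  rw [mem_DD, h, Polynomial.mem_nthRootsFinset hk]

theorem sum_mul_DD {R : Type} [AddCommMonoid R] {k : ℕ} (hk : 0 < k) {d : K} (hd : d ∈ DD K k)
    (F : K → R) : ∑ x ∈ DD K k, F (d * x) = ∑ x ∈ DD K k, F x := by
  have h0 := ne_zero_of_mem_DD hk hd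
  refine sum_nbij' (fun x => d * x) (fun x => d⁻¹ * x) ?_ ?_ ?_ ?_ ?_
  · intro x hx
    rw [mem_DD] at *
    rw [mul_pow, hd, hx, one_mul]
  · intro x hx
    rw [mem_DD] at *
    rw [mul_pow, inv_pow, hd, hx, inv_one, one_mul]
  · intro x _; field_simp
  · intro x _; field_simp
  · intro x _; rfl

theorem main_sum {R : Type} [AddCommMonoid R] {k lam : ℕ} (hk : 0 < k)
    (hl : ∀ g : K, g ≠ 0 → rr k g = lam) (φ : K → R) (h0 : φ 0 = 0)
    (hi : ∀ d ∈ DD K k, ∀ y, φ (d * y) = φ y) :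
    (DD K k).card • ∑ x ∈ DD K k, φ (x - 1) = lam • ∑ g, φ g := by
  have h1 : ∑ x ∈ DD K k ×ˢ DD K k, φ (x.1 - x.2) = lam • ∑ g, φ g := by
    rw [← sum_fiberwise (DD K k ×ˢ DD K k) (fun x => x.1 - x.2), smul_sum]
    refine sum_congr rfl fun g _ => ?_
    rw [sum_congr rfl (g := fun _ => φ g) (fun x hx => by rw [(mem_filter.1 hx).2]), sum_const]
    by_cases hg : g = 0
    · simp [hg, h0]
    · rw [← hl g hg, rr]
  rw [← h1, sum_product_right, ← sum_const]
  refine sum_congr rfl fun d hd => ?_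
  rw [← sum_mul_DD hk hd (fun x => φ (x - d))]
  refine sum_congr rfl fun x _ => ?_
  rw [← hi d hd (x - 1), mul_sub, mul_one]

theorem count_eq {n k lam : ℕ} (hk : 0 < k) (hn : 0 < n) (hq : Fintype.card K = n * k + 1) {g : K}
    (hg : IsPrimitiveRoot g (n * k)) (hl : ∀ g : K, g ≠ 0 → rr k g = lam) : k = lam * n + 1 := by
  have h := main_sum hk hl (fun y : K => if y = 0 then (0 : ℕ) else 1) (by simp)
    (fun d hd y => by simp [ne_zero_of_mem_DD hk hd])
  have h1 : (1 : K) ∈ DD K k := mem_DD.2 (one_pow k)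
  have e1 : ∑ x ∈ DD K k, (if x - 1 = 0 then (0 : ℕ) else 1) = k - 1 := by
    rw [← add_sum_erase _ _ h1, sum_congr rfl (g := fun _ => 1)
      (fun x hx => if_neg (sub_ne_zero.2 (mem_erase.1 hx).1))]
    simp [card_erase_of_mem h1, card_DD hk hn hg]
  have e2 : ∑ x : K, (if x = 0 then (0 : ℕ) else 1) = n * k := by
    rw [← add_sum_erase _ _ (mem_univ (0 : K)), sum_congr rfl (g := fun _ => 1)
      (fun x hx => if_neg (mem_erase.1 hx).1)]
    simp [hq]
  rw [e1, e2, card_DD hk hn hg, smul_eq_mul, smul_eq_mul] at h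
  have : k - 1 = lam * n := Nat.eq_of_mul_eq_mul_left hk (by rw [h]; ring)
  omega

theorem odd_k {n k lam : ℕ} (hk : 0 < k) (hn : 2 ≤ n) (hq : Fintype.card K = n * k + 1) {g : K}
    (hg : IsPrimitiveRoot g (n * k)) (h2 : (2 : K) ≠ 0) (hl : ∀ g : K, g ≠ 0 → rr k g = lam) :
    Odd k := by
  by_contra hc
  rw [Nat.not_odd_iff_even] at hc
  have hc1 := count_eq hk (by omega) hq hg hl
  have hg0 : g ≠ 0 := hg.ne_zero (by positivity)
  have hgD : g ∉ DD K k := by
    rw [mem_DD]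
    intro h
    have := Nat.le_of_dvd hk (hg.dvd_of_pow_eq_one k h)
    nlinarith
  have hs : ∑ _x ∈ (DD K k ×ˢ DD K k).filter (fun x => x.1 - x.2 = 2 * g), (1 : ZMod 2) = 0 := by
    refine sum_involution (fun x _ => (-x.2, -x.1)) (fun _ _ => rfl) ?_ ?_ (fun x _ => by simp)
    · intro x hx _ he
      simp only [mem_filter, mem_product] at hx
      have a : -x.2 = x.1 := congrArg Prod.fst he
      have : x.1 = g := mul_left_cancel₀ h2 (by rw [← hx.2]; linear_combination (-1 : K) * a)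
      exact hgD (this ▸ hx.1.1)
    · intro x hx
      simp only [mem_filter, mem_product, mem_DD] at hx ⊢
      rw [hc.neg_pow, hc.neg_pow]
      exact ⟨⟨hx.1.2, hx.1.1⟩, by rw [← hx.2]; ring⟩
  rw [sum_const, nsmul_eq_mul, mul_one, ← rr, hl _ (mul_ne_zero h2 hg0),
    ZMod.natCast_eq_zero_iff_even] at hs
  have : Even (lam * n) := hs.mul_right n
  rw [hc1] at hc
  exact (Nat.even_add_one.1 hc) this

theorem rr_mul {k : ℕ} (hk : 0 < k) {d : K} (hd : d ∈ DD K k) (g : K) : rr k (d * g) = rr k g := by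
  have h0 := ne_zero_of_mem_DD hk hd
  symm
  refine card_nbij' (fun x => (d * x.1, d * x.2)) (fun x => (d⁻¹ * x.1, d⁻¹ * x.2)) ?_ ?_ ?_ ?_
  · intro x hx
    simp only [coe_filter, mem_product, mem_DD, Set.mem_ofPred_eq] at hx hd ⊢
    rw [mul_pow, mul_pow, hd, hx.1.1, hx.1.2, ← hx.2]
    exact ⟨by simp, by ring⟩
  · intro x hx
    simp only [coe_filter, mem_product, mem_DD, Set.mem_ofPred_eq] at hx hd ⊢
    rw [mul_pow, mul_pow, inv_pow, hd, hx.1.1, hx.1.2, ← mul_sub, hx.2]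
    exact ⟨by simp, by field_simp⟩
  · intro x _; ext <;> field_simp
  · intro x _; ext <;> field_simp

theorem rr_neg (k : ℕ) (g : K) : rr k (-g) = rr k g := by
  refine card_nbij' Prod.swap Prod.swap ?_ ?_ (fun x _ => rfl) (fun x _ => rfl)
  · intro x hx
    simp only [coe_filter, mem_product, Set.mem_ofPred_eq, Prod.fst_swap, Prod.snd_swap] at hx ⊢
    exact ⟨⟨hx.1.2, hx.1.1⟩, by linear_combination (-1 : K) * hx.2⟩
  · intro x hx
    simp only [coe_filter, mem_product, Set.mem_ofPred_eq, Prod.fst_swap, Prod.snd_swap] at hx ⊢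
    exact ⟨⟨hx.1.2, hx.1.1⟩, by linear_combination (-1 : K) * hx.2⟩

theorem paley {k : ℕ} (hk : Odd k) (hq : Fintype.card K = 2 * k + 1) (g : K) (hg : g ≠ 0) :
    rr k g = rr k (1 : K) := by
  have h1 : g ^ k * g ^ k = 1 := by
    rw [← pow_add, ← FiniteField.pow_card_sub_one_eq_one g hg, hq]
    congr 1; omega
  rcases mul_self_eq_one_iff.1 h1 with h | h
  · rw [← rr_mul hk.pos (mem_DD.2 h) 1, mul_one]
  · have : (-g) ^ k = 1 := by rw [hk.neg_pow, h, neg_neg]
    rw [← rr_mul hk.pos (mem_DD.2 this) 1, mul_one, rr_neg]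

/-! ### the congruences -/

theorem sum_multiples {R : Type} [AddCommMonoid R] (S k : ℕ) (hk : 0 < k) (F : ℕ → R) :
    ∑ j ∈ range (S * k + 1), (if k ∣ j then F j else 0) = ∑ t ∈ range (S + 1), F (t * k) := by
  rw [← sum_filter]
  symm
  refine sum_nbij (fun t => t * k) ?_ ?_ ?_ (fun _ _ => rfl)
  · intro t ht
    simp only [mem_filter, mem_range] at ht ⊢
    exact ⟨Nat.lt_succ_of_le (Nat.mul_le_mul_right k (Nat.le_of_lt_succ ht)), dvd_mul_left _ _⟩
  · intro a _ b _ h
    exact Nat.eq_of_mul_eq_mul_right hk h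
  · intro j hj
    simp only [coe_filter, mem_range, Set.mem_ofPred_eq] at hj
    obtain ⟨h, t, rfl⟩ := hj
    refine ⟨t, ?_, mul_comm _ _⟩
    simp only [coe_range, Set.mem_Iio]
    by_contra hc
    have : (S + 1) * k ≤ t * k := Nat.mul_le_mul_right k (not_lt.1 hc)
    nlinarith

variable (p : ℕ) [Fact p.Prime] [CharP K p]

omit [Fintype K] [DecidableEq K] [CharP K p] in
theorem teich_eq_one {x : K} (h : WittVector.teichmuller p x = 1) : x = 1 := by
  have := congrArg (fun z => WittVector.coeff z 0) h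
  simpa using this

omit [Fintype K] [DecidableEq K] in
theorem int_dvd_of_witt (j : ℕ) : ∀ m : ℤ, (p : WittVector p K) ^ j ∣ (m : WittVector p K) →
    (p : ℤ) ^ j ∣ m := by
  induction j with
  | zero => intro m _; simp
  | succ j ih =>
    intro m hm
    have h1 : (p : ℤ) ∣ m := by
      have := map_dvd (WittVector.constantCoeff : WittVector p K →+* K)
        ((dvd_pow_self _ j.succ_ne_zero).trans hm)
      rw [map_natCast, map_intCast, CharP.cast_eq_zero, zero_dvd_iff] at this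
      exact (CharP.intCast_eq_zero_iff K p m).1 this
    obtain ⟨m, rfl⟩ := h1
    rw [pow_succ'] at hm ⊢
    push_cast at hm
    exact mul_dvd_mul_left _ (ih m ((mul_dvd_mul_iff_left (WittVector.p_nonzero p K)).1 hm))

theorem pow_sum_DD {n k : ℕ} (hk : 0 < k) (hn : 0 < n) {g : K} (hg : IsPrimitiveRoot g (n * k)) (j : ℕ) :
    ∑ x ∈ DD K k, WittVector.teichmuller p x ^ j = if k ∣ j then (k : WittVector p K) else 0 := by
  split_ifs with h
  · obtain ⟨t, rfl⟩ := h
    rw [sum_congr rfl (g := fun _ => 1) (fun x hx => by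
      rw [pow_mul, ← map_pow, mem_DD.1 hx, map_one, one_pow])]
    simp [card_DD hk hn hg]
  · have hd : g ^ n ∈ DD K k := mem_DD.2 (by rw [← pow_mul, hg.pow_eq_one])
    have := sum_mul_DD hk hd (fun x => WittVector.teichmuller p x ^ j)
    simp only [map_mul, mul_pow, ← mul_sum] at this
    by_contra hc
    have h1 := teich_eq_one p (x := (g ^ n) ^ j) (by
      rw [map_pow]; exact mul_right_cancel₀ hc (this.trans (one_mul _).symm))
    exact h ((hg.pow (Nat.mul_pos hn hk) rfl).dvd_of_pow_eq_one j h1)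

/-- the alternating sum of binomial coefficients -/
def altS (k S : ℕ) : ℤ := ∑ t ∈ range (S + 1), (-1) ^ t * ((S * k).choose (t * k) : ℤ)

theorem expand_sum {n k : ℕ} (hk : Odd k) (hn : 0 < n) {g : K} (hg : IsPrimitiveRoot g (n * k)) (S : ℕ)
    (he : Even S) : ∑ x ∈ DD K k, (WittVector.teichmuller p x - 1) ^ (S * k) =
      (k : WittVector p K) * ((altS k S : ℤ) : WittVector p K) := by
  have hk0 := hk.pos
  have h1 : ∀ x : K, (WittVector.teichmuller p x - 1) ^ (S * k) = ∑ m ∈ range (S * k + 1),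
      WittVector.teichmuller p x ^ m * ((-1) ^ m * ((S * k).choose m : WittVector p K)) := by
    intro x
    rw [sub_pow]
    refine sum_congr rfl fun m _ => ?_
    rw [pow_add, (he.mul_right k).neg_one_pow, one_pow]
    ring
  rw [sum_congr rfl fun x _ => h1 x, sum_comm]
  have h2 : ∀ m ∈ range (S * k + 1), ∑ x ∈ DD K k,
      WittVector.teichmuller p x ^ m * ((-1) ^ m * ((S * k).choose m : WittVector p K)) =
      if k ∣ m then (k : WittVector p K) * ((-1) ^ m * ((S * k).choose m : WittVector p K)) else 0 := by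
    intro m _
    rw [← sum_mul, pow_sum_DD p hk0 hn hg, ite_mul, zero_mul]
  rw [sum_congr rfl h2, sum_multiples _ _ hk0, altS, Int.cast_sum, mul_sum]
  refine sum_congr rfl fun t _ => ?_
  rw [mul_comm t k, pow_mul, hk.neg_one_pow, Int.cast_mul, Int.cast_pow, Int.cast_neg, Int.cast_one,
    Int.cast_natCast]

theorem cong_alt {n k lam : ℕ} (hk : Odd k) (hn : 0 < n) (hq : Fintype.card K = n * k + 1) {g : K}
    (hg : IsPrimitiveRoot g (n * k)) (hl : ∀ g : K, g ≠ 0 → rr k g = lam) (j s : ℕ)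
    (he : Even (p ^ j * s)) (hs : ¬ n ∣ s) : (p : ℤ) ^ (j + 1) ∣ altS k (p ^ j * s) := by
  have hk0 := hk.pos
  have hp : p.Prime := Fact.out
  have hs0 : 0 < s := Nat.pos_of_ne_zero (by rintro rfl; exact hs (dvd_zero n))
  have hpq : p ∣ n * k + 1 := by rw [← hq]; exact (CharP.cast_eq_zero_iff K p _).1 (by simp)
  have hpk : ¬ p ∣ k := fun h =>
    hp.one_lt.ne' (Nat.dvd_one.1 ((Nat.dvd_add_right (h.mul_left n)).1 hpq))
  set w : K →* WittVector p K := WittVector.teichmuller p with hw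
  have hg0 : g ≠ 0 := hg.ne_zero (by positivity)
  have z1 : ∑ y : K, w y ^ (k * s) = 0 := by
    have := Equiv.sum_comp (Equiv.mulLeft₀ g hg0) (fun y => w y ^ (k * s))
    simp only [Equiv.mulLeft₀_apply, map_mul, mul_pow, ← mul_sum] at this
    by_contra hc
    have h1 := teich_eq_one p (x := g ^ (k * s)) (by
      rw [map_pow]; exact mul_right_cancel₀ hc (this.trans (one_mul _).symm))
    have := hg.dvd_of_pow_eq_one _ h1
    rw [mul_comm n k] at this
    exact hs (Nat.dvd_of_mul_dvd_mul_left hk0 this)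
  have z1' : ∑ y : K, w y ^ (p ^ j * s * k) = 0 := by
    rw [← z1, ← Equiv.sum_comp (iterateFrobeniusEquiv K p j).toEquiv (fun y => w y ^ (k * s))]
    refine sum_congr rfl fun y _ => ?_
    show _ = w (y ^ p ^ j) ^ (k * s)
    rw [map_pow, ← pow_mul]; congr 1; ring
  have z2 := main_sum hk0 hl (fun y => w y ^ (p ^ j * s * k))
    (by rw [hw, WittVector.teichmuller_zero, zero_pow (by have := hp.pos; positivity)])
    (fun d hd y => by rw [map_mul, mul_pow, mul_comm _ k, pow_mul, ← map_pow, mem_DD.1 hd]; simp)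
  rw [z1', smul_zero, card_DD hk0 hn hg, nsmul_eq_mul] at z2
  have z3 : (p : WittVector p K) ^ (j + 1) ∣ ∑ x ∈ DD K k, (w x - 1) ^ (p ^ j * s * k) -
      ∑ x ∈ DD K k, w (x - 1) ^ (p ^ j * s * k) := by
    rw [← sum_sub_distrib]
    refine dvd_sum fun x _ => ?_
    have a : (p : WittVector p K) ∣ (w x - 1) - w (x - 1) := by
      rw [← Ideal.mem_span_singleton, WittVector.mem_span_p_iff_coeff_zero_eq_zero]
      rw [← WittVector.constantCoeff_apply, map_sub, map_sub, map_one]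
      simp only [WittVector.constantCoeff_apply, hw, WittVector.teichmuller_coeff_zero, sub_self]
    rw [mul_assoc, pow_mul (w x - 1), pow_mul (w (x - 1))]
    exact (dvd_sub_pow_of_dvd_sub a j).trans (sub_dvd_pow_sub_pow _ _ _)
  have z4 := expand_sum p hk hn hg _ he
  have z5 : (p : WittVector p K) ^ (j + 1) ∣ (((k : ℤ) * (k * altS k (p ^ j * s)) : ℤ) : WittVector p K) := by
    have := z3.mul_left (k : WittVector p K)
    rw [mul_sub, z2, sub_zero, z4] at this
    push_cast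
    exact this
  have hc : IsCoprime ((p : ℤ) ^ (j + 1)) (k : ℤ) :=
    (Nat.isCoprime_iff_coprime.2 ((Nat.Prime.coprime_iff_not_dvd hp).2 hpk)).pow_left
  exact hc.dvd_of_dvd_mul_left (hc.dvd_of_dvd_mul_left (int_dvd_of_witt p _ _ z5))

end

end Pool.Agent.P.MP_111ca2_co
end

-- part Pool.Agent.P.MP_111ca2_co.Chk
section

/-! Digit automaton checker: definitions. -/

namespace Pool.Agent.P.MP_111ca2_co

noncomputable section

abbrev N2 := ℕ × ℕ
abbrev N3 := ℕ × ℕ × ℕ
abbrev E1 := ℕ × ℕ × List N2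
abbrev E2 := ℕ × ℕ × List N3 × List N3
abbrev TW := List N3 × ℕ

structure Par where
  p : ℕ
  g : ℕ
  tb : ℕ
  lt : ℕ

structure St where
  e : ℕ
  lo : ℕ
  rn : ℕ
  rc : ℕ
  fl : List N2
  d1 : List E1
  d2 : List E2
  w : List TW

def frc {α : Type} (n : ℕ) (f : ℕ → α) : α := Nat.casesOn n (f 0) (fun m => f (Nat.succ m))

def frcL {α β : Type} (h : β → (β → α) → α) (l : List β) : (List β → α) → α :=
  List.rec (fun k => k []) (fun x _ ih k => h x fun y => ih fun r => k (y :: r)) l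

def frc2 {α : Type} (x : N2) (k : N2 → α) : α := frc x.1 fun a => frc x.2 fun b => k (a, b)
def frc3 {α : Type} (x : N3) (k : N3 → α) : α :=
  frc x.1 fun a => frc x.2.1 fun b => frc x.2.2 fun c => k (a, b, c)
def frcE1 {α : Type} (x : E1) (k : E1 → α) : α :=
  frc x.1 fun a => frc x.2.1 fun b => frcL frc2 x.2.2 fun c => k (a, b, c)
def frcE2 {α : Type} (x : E2) (k : E2 → α) : α :=
  frc x.1 fun a => frc x.2.1 fun b => frcL frc3 x.2.2.1 fun c => frcL frc3 x.2.2.2 fun d =>
    k (a, b, c, d)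
def frcTW {α : Type} (x : TW) (k : TW → α) : α :=
  frcL frc3 x.1 fun a => frc x.2 fun b => k (a, b)

def Par.od (P : Par) : ℕ := P.p * (P.p - 1)

def Par.row (P : Par) (n0 N : ℕ) : ℕ :=
  (P.tb >>> (16 * (P.p * P.p) * (n0 * P.p + N))) % 2 ^ (16 * (P.p * P.p))

def cel (p row m0 M : ℕ) : ℕ := (row >>> (16 * (m0 * p + M))) % 65536

def Par.cd (P : Par) (n0 m0 N M : ℕ) : ℕ := cel P.p (P.row n0 N) m0 M

def st1l (p n0 e : ℕ) (l : List N2) : List N2 :=
  List.rec [] (fun x _ ih => frc (x.1 * e + x.2) fun y =>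
    bif Nat.ble (y % p) n0 then (x.1, y / p) :: ih else ih) l

def st1 (p e : ℕ) (x : E1) : E1 :=
  (x.1, (x.1 * e + x.2.1) / p, frc ((x.1 * e + x.2.1) % p) fun n0 => st1l p n0 e x.2.2)

def tcd (p row e d : ℕ) (x : N3) : ℕ :=
  frc (x.1 * e + x.2.1) fun y => cel p row (y % p) ((x.1 * d + y / p) % p)

def st2l (p row e d : ℕ) (l : List N3) : List N3 :=
  List.rec [] (fun x _ ih => frc (tcd p row e d x) fun c =>
    bif Nat.beq c 0 then ih else
    bif Nat.ble (x.2.2 + (c - 1) % 2) 1 then (x.1, (x.1 * e + x.2.1) / p, x.2.2 + (c - 1) % 2) :: ih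
    else ih) l

def erow (P : Par) (e d : ℕ) (x : E2) : ℕ :=
  P.row ((x.1 * e + x.2.1) % P.p) ((x.1 * d + (x.1 * e + x.2.1) / P.p) % P.p)

def st2 (P : Par) (e d : ℕ) (x : E2) : E2 :=
  frc (erow P e d x) fun row =>
    (x.1, (x.1 * e + x.2.1) / P.p, st2l P.p row e d x.2.2.1, st2l P.p row e d x.2.2.2)

def incs (P : Par) (e d : ℕ) (l : List E2) : List N3 :=
  List.rec [] (fun x _ ih => frc (erow P e d x) fun row =>
    x.2.2.1.map (fun y => (x.1, y.1, (tcd P.p row e d y - 1) / 2)) ++ ih) l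

def look (S t : ℕ) (l : List N3) : Option ℕ :=
  List.rec none (fun x _ ih => bif Nat.beq x.2.1 t && Nat.beq x.1 S then some x.2.2 else ih) l

def evT (env : List N3) (tm : List N3) : Option ℕ :=
  List.rec (some 0) (fun x _ ih => (look x.1 x.2.1 env).bind fun a => ih.map fun b => x.2.2 * a + b) tm

def stw (od : ℕ) (ic : List N3) (w : List TW) : List TW :=
  w.filterMap fun x => (evT ic x.1).map fun v => (x.1, (x.2 + v) % od)

def stB {α : Type} (P : Par) (e d : ℕ) (d2 : List E2) (w : List TW) (k : List E2 → List TW → α) : α :=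
  frcL frcE2 (d2.map (st2 P e d)) fun d2' => frcL frc3 (incs P e d d2) fun ic =>
    frcL frcTW (stw P.od ic w) fun w' => k d2' w'

def child (P : Par) (fs : Bool) (B : St) (d : ℕ) (k : St → Bool) : Bool :=
  bif fs then k ⟨d, B.lo, B.rn, B.rc, B.fl, B.d1, B.d2, B.w⟩
  else stB P B.e d B.d2 B.w fun d2 w => k ⟨d, B.lo, B.rn, B.rc, B.fl, B.d1, d2, w⟩

def stfl (p e : ℕ) (l : List N2) : List N2 :=
  l.filterMap fun x => bif Nat.beq ((x.1 * e + x.2) % p) 0 then some (x.1, (x.1 * e + x.2) / p) else none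

def step1 (P : Par) (s : St) (k : St → Bool) : Bool :=
  frc ((s.lo - s.e + (P.p - 1)) / P.p) fun lo => frc ((s.rn * s.e + s.rc) / P.p) fun rc =>
    frcL frc2 (stfl P.p s.e s.fl) fun fl => frcL frcE1 (s.d1.map (st1 P.p s.e)) fun d1 =>
      k ⟨s.e, lo, s.rn, rc, fl, d1, s.d2, s.w⟩

def sel {β : Type} (l : List β) : ℕ → List β :=
  List.rec (fun _ => []) (fun x r ih m =>
    bif Nat.beq m 0 then x :: r else bif Nat.beq (m % 2) 0 then x :: ih (m / 2) else ih (m / 2)) l

def mask (m : ℕ) (B : St) : St :=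
  bif Nat.beq m 0 then B else
    ⟨B.e, B.lo, B.rn, B.rc, sel B.fl ((m >>> 24) % 2 ^ 40), sel B.d1 ((m >>> 64) % 2 ^ 128),
      sel B.d2 (m % 2 ^ 24), sel B.w (m >>> 192)⟩

def dead1 (p : ℕ) (B : St) (j d : ℕ) : Bool :=
  match B.d1[j]? with
  | none => false
  | some x => (st1 p d x).2.2.isEmpty

def rqDead (p : ℕ) (B : St) (d : ℕ) : Bool :=
  !(Nat.beq B.rn 0) && !(Nat.beq ((B.rn * d + B.rc) % p) 0)

def weak (s t : St) : Bool :=
  Nat.beq s.e t.e && Nat.ble t.lo s.lo && Nat.beq s.rn t.rn && Nat.beq s.rc t.rc &&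
    s.fl == t.fl && s.d1 == t.d1 && s.d2 == t.d2 && s.w == t.w

def notPow (p : ℕ) (fu : ℕ) : ℕ → Bool :=
  Nat.rec (fun _ => false) (fun _ ih c => !(Nat.beq c 1) && (!(Nat.beq (c % p) 0) || ih (c / p))) fu

def cf (q S t : ℕ) : ℕ :=
  bif Nat.beq (t % 2) 0 then (bif Nat.beq (2 * t) S then 1 else 2)
  else (bif Nat.beq (2 * t) S then q - 1 else q - 2)

def badT (od : ℕ) (env : List N3) (ws : List TW) : Bool :=
  ws.any fun x => match evT env x.1 with
    | none => false
    | some v => !(Nat.beq (v % od) (x.2 % od))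

def Par.lg (P : Par) (r : ℕ) : ℕ := (P.lt >>> (16 * r)) % 65536

def cands (P : Par) (q S t acc : ℕ) (la : Bool) (ws : List TW) : List ℕ :=
  match ws.find? (fun x => x.1 == [(S, t, 1)]) with
  | some x => [x.2 % P.od]
  | none => frc (cf (P.p * P.p) S t ^ (P.od - 1) % (P.p * P.p)) fun ic =>
    bif la && Nat.beq (cf (P.p * P.p) S t * ic % (P.p * P.p)) 1 then
      frc ((P.p * P.p - acc) * ic % q) fun r => (List.range (P.p * P.p / q)).map fun j => P.lg (r + q * j)
    else List.range P.od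

def goV (P : Par) (q : ℕ) (ws : List TW) (S : ℕ) (k : List N3 → Bool) (ts : List N3) :
    ℕ → List N3 → Bool :=
  List.rec (fun acc env => !(Nat.beq (acc % q) 0) || badT P.od env ws || k env)
    (fun x r ih acc env => Nat.beq x.2.1 0 &&
      (cands P q S x.1 acc (r.isEmpty && Nat.beq x.2.2 0) ws).all fun L => frc L fun L =>
      (!r.isEmpty && badT P.od ((S, x.1, L) :: env) ws) ||
        frc ((acc + cf (P.p * P.p) S x.1 * P.p ^ x.2.2 * P.g ^ L) % (P.p * P.p)) fun a =>
          ih a ((S, x.1, L) :: env)) ts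

def goE (P : Par) (ws : List TW) (l : List E2) : ℕ → List N3 → Bool :=
  List.rec (fun _ _ => false) (fun x _ ih m env =>
    Nat.beq x.2.1 0 &&
      bif Nat.beq (m % 2) 0 then
        x.2.2.2.isEmpty && goV P (P.p * P.p) ws x.1 (ih (m / 2)) x.2.2.1 2 env
      else x.2.2.2.all (fun y => Nat.ble 1 y.2.2) &&
        goV P P.p ws x.1 (ih (m / 2)) (x.2.2.1.filter fun y => Nat.beq y.2.2 0) 2 env) l

def zr2 (P : Par) (m r : ℕ) : List E2 → List TW → Bool :=
  Nat.rec (fun d2 w => goE P w d2 m []) (fun _ ih d2 w => stB P 0 0 d2 w ih) r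

def zr1 (p r : ℕ) : E1 → Bool :=
  Nat.rec (fun _ => false) (fun _ ih x => frcE1 (st1 p 0 x) fun y => y.2.2.isEmpty || ih y) r

def flOk (p e : ℕ) (x : N2) : Bool :=
  (List.range (e + 1)).all fun j =>
    Nat.beq j 0 || !(Nat.beq ((j + x.1) % 2) 0) || !(Nat.beq ((x.1 * (x.1 * e + x.2)) % p) (j % p))

def fin (P : Par) (s B : St) (f : ℕ) : Bool :=
  match f % 8 with
  | 0 => Nat.beq s.e 0 || Nat.blt s.e s.lo
  | 1 => !(Nat.beq B.rn 0) && notPow P.p 12 B.rc
  | 2 => match s.fl[f / 8]? with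
    | none => false
    | some x => flOk P.p s.e x
  | 3 => match B.d1[f / 8]? with
    | none => false
    | some x => zr1 P.p 6 x
  | _ => stB P s.e 0 (sel s.d2 ((f / 8) % 2 ^ 32)) (sel s.w (f >>> 67)) (zr2 P ((f >>> 35) % 2 ^ 32) 5)

inductive T where
  | nil : T
  | dd (d j : ℕ) (r : T) : T
  | cl (d m j : ℕ) (r : T) : T
  | nd (d m f : ℕ) (k r : T) : T

def T.has (t : T) (x : ℕ) : Bool :=
  T.rec false (fun d _ _ ih => Nat.beq d x || ih) (fun d _ _ _ ih => Nat.beq d x || ih)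
    (fun d _ _ _ _ _ ih => Nat.beq d x || ih) t

def cover (p : ℕ) (fs : Bool) (B : St) (t : T) : Bool :=
  (List.range p).all fun d => (fs && Nat.beq d 0) || rqDead p B d || t.has d || dead1 p B 0 d

def chk (P : Par) (N : ℕ) (tab : ℕ → St) (t : T) : Bool → St → Bool :=
  T.rec (fun _ _ => true)
    (fun d j _ ih fs B => dead1 P.p B j d && ih fs B)
    (fun d m j _ ih fs B => Nat.blt j N && child P fs (mask m B) d (fun s => weak s (tab j)) && ih fs B)
    (fun d m f k _ ihk ih fs B => child P fs (mask m B) d (fun s => step1 P s fun B' =>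
      fin P s B' f && cover P.p false B' k && ihk false B') && ih fs B) t

def nodeOk (P : Par) (N : ℕ) (tab : ℕ → St) (s : St) (f : ℕ) (k : T) : Bool :=
  step1 P s fun B' => fin P s B' f && cover P.p false B' k && chk P N tab k false B'

def tabOk (P : Par) (N : ℕ) (tab : ℕ → St) (l : List (ℕ × T)) : ℕ → Bool :=
  List.rec (fun _ => true) (fun x _ ih j => nodeOk P N tab (tab j) x.1 x.2 && ih (j + 1)) l

/-! decoding of table states from numerals (no property of it is needed) -/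

def decL {α β : Type} (h : ℕ → (β → ℕ → α) → α) (n : ℕ) : ℕ → (List β → ℕ → α) → α :=
  Nat.rec (fun c k => k [] c) (fun _ ih c k => h c fun x c => ih c fun r c => k (x :: r) c) n

def dec1 {α : Type} (c : ℕ) (k : ℕ → ℕ → α) : α := frc (c % 16384) fun x => frc (c >>> 14) fun c => k x c
def dec2 {α : Type} (c : ℕ) (k : N2 → ℕ → α) : α := dec1 c fun a c => dec1 c fun b c => k (a, b) c
def dec3 {α : Type} (c : ℕ) (k : N3 → ℕ → α) : α :=
  dec1 c fun a c => dec1 c fun b c => dec1 c fun d c => k (a, b, d) c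
def decN {α β : Type} (h : ℕ → (β → ℕ → α) → α) (c : ℕ) (k : List β → ℕ → α) : α :=
  dec1 c fun n c => decL h n c k
def decE1 {α : Type} (c : ℕ) (k : E1 → ℕ → α) : α :=
  dec1 c fun a c => dec1 c fun b c => decN dec2 c fun l c => k (a, b, l) c
def decE2 {α : Type} (c : ℕ) (k : E2 → ℕ → α) : α :=
  dec1 c fun a c => dec1 c fun b c => decN dec3 c fun l c => decN dec3 c fun l' c => k (a, b, l, l') c
def decTW {α : Type} (c : ℕ) (k : TW → ℕ → α) : α :=
  decN dec3 c fun l c => dec1 c fun a c => k (l, a) c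
def decSt (c : ℕ) : St :=
  dec1 c fun e c => dec1 c fun lo c => dec1 c fun rn c => dec1 c fun rc c =>
    decN dec2 c fun fl c => decN decE1 c fun d1 c => decN decE2 c fun d2 c =>
      decN decTW c fun w _ => ⟨e, lo, rn, rc, fl, d1, d2, w⟩

inductive BT where
  | lf (c : ℕ) : BT
  | br (l r : BT) : BT

def BT.get (t : BT) : ℕ → ℕ :=
  BT.rec (fun c _ => c) (fun _ _ il ir j => bif Nat.beq (j % 2) 0 then il (j / 2) else ir (j / 2)) t

def mkTab (t : BT) (j : ℕ) : St := decSt (t.get j)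

/-! roots -/

def init1 (s : ℕ) : E1 := (s, 0, (List.range' 1 (s / 2)).map fun t => (t, 0))

def init2 (p : ℕ) (x : ℕ × List ℕ) : E2 :=
  (p * x.1, 0, ((List.range' 1 (p * x.1 / 2)).filter fun t => x.2.contains t).map (fun t => (t, 0, 0)),
    ((List.range' 1 (p * x.1 / 2)).filter fun t => !(x.2.contains t)).map (fun t => (t, 0, 0)))

structure Root where
  s1 : List ℕ
  s2 : List (ℕ × List ℕ)
  n0 : List ℕ
  tm : List (List N3)
  t : T

def Root.st (R : Root) (p lo rn rc : ℕ) : St :=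
  ⟨0, lo, rn, rc, R.n0.map fun n => (n, 1), R.s1.map init1, R.s2.map (init2 p), R.tm.map fun t => (t, 0)⟩

def Root.run (P : Par) (N : ℕ) (tab : ℕ → St) (R : Root) (lo rn rc : ℕ) : Bool :=
  frcL frcE1 (R.st P.p lo rn rc).d1 fun d1 => frcL frcE2 (R.st P.p lo rn rc).d2 fun d2 =>
    cover P.p true ⟨0, lo, rn, rc, (R.st P.p lo rn rc).fl, d1, d2, (R.st P.p lo rn rc).w⟩ R.t &&
    chk P N tab R.t true ⟨0, lo, rn, rc, (R.st P.p lo rn rc).fl, d1, d2, (R.st P.p lo rn rc).w⟩

/-- root for `n > b` -/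
def Root.big (P : Par) (N : ℕ) (tab : ℕ → St) (R : Root) (b : ℕ) : Bool :=
  Nat.ble P.p b && (R.s1 ++ R.s2.map Prod.fst).all (fun s => Nat.beq (s % 2) 0 && Nat.blt 0 s && Nat.ble s b) &&
    R.n0.all (fun n => Nat.ble n b) && R.run P N tab (b + 2) 0 0

/-- root for a fixed `n` -/
def Root.fix (P : Par) (N : ℕ) (tab : ℕ → St) (R : Root) (n : ℕ) : Bool :=
  (R.s1 ++ R.s2.map Prod.fst).all (fun s => Nat.beq (s % 2) 0 && !(Nat.beq (s % n) 0)) &&
    R.n0.isEmpty && R.run P N tab (n + 1) n 1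

/-- roots for `n, n + 2, n + 4, ...`; multiples of `p` and members of `ex` are passed over -/
def fixOk (P : Par) (N : ℕ) (tab : ℕ → St) (ex : List ℕ) (l : List Root) : ℕ → Bool :=
  List.rec (fun _ => true) (fun R _ ih n =>
    (Nat.beq (n % P.p) 0 || ex.contains n || R.fix P N tab n) && ih (n + 2)) l

def ch (n k : ℕ) : ℕ := n.descFactorial k / k.factorial

def cval (P : Par) (c : ℕ) : ℕ := bif Nat.beq c 0 then 0 else P.p ^ ((c - 1) % 2) * P.g ^ ((c - 1) / 2)

def Par.ok (P : Par) : Bool :=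
  Nat.beq (P.g ^ P.od % (P.p * P.p)) 1 &&
  (List.range P.od).all (fun L => Nat.beq (P.lg (P.g ^ L % (P.p * P.p))) L) &&
  (List.range P.p).all fun n0 => (List.range P.p).all fun m0 =>
    frc (ch n0 m0) fun c => frc (ch (n0 + P.p) m0) fun A => frc (ch (n0 + P.p) (m0 + P.p)) fun B =>
      (List.range P.p).all fun N => frc (P.row n0 N) fun row => (List.range P.p).all fun M =>
        Nat.beq ((cval P (cel P.p row m0 M) + N * c + M * A) % (P.p * P.p))
          ((c + N * A + M * B) % (P.p * P.p))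

end

end Pool.Agent.P.MP_111ca2_co
end

-- part Pool.Agent.P.MP_111ca2_co.Luc
section

/-! One step of the Lucas recursion modulo the square of a prime. -/

namespace Pool.Agent.P.MP_111ca2_co

open Polynomial

section
variable {R : Type} [CommRing R]

theorem coeff_low (p m N : ℕ) (hm : m < p) (u : R[X]) :
    ((1 + X ^ p) ^ N * u).coeff m = u.coeff m := by
  induction N with
  | zero => simp
  | succ N ih =>
    have : (1 + X ^ p : R[X]) ^ (N + 1) * u = (1 + X ^ p) ^ N * u + X ^ p * ((1 + X ^ p) ^ N * u) := by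
      ring
    rw [this, coeff_add, ih, coeff_X_pow_mul', if_neg (by omega), add_zero]

theorem coeff_high (p m : ℕ) (hm : m < p) (u : R[X]) (hu : ∀ j, 2 * p ≤ j → u.coeff j = 0) (N : ℕ) :
    ∀ M : ℕ, ((1 + X ^ p) ^ N * u).coeff (p * (M + 1) + m) =
      (N.choose (M + 1) : R) * u.coeff m + (N.choose M : R) * u.coeff (m + p) := by
  induction N with
  | zero =>
    intro M
    cases M with
    | zero => simp [add_comm]
    | succ M =>
      rw [pow_zero, one_mul, hu _ (by nlinarith)]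
      simp
  | succ N ih =>
    intro M
    have : (1 + X ^ p : R[X]) ^ (N + 1) * u = (1 + X ^ p) ^ N * u + X ^ p * ((1 + X ^ p) ^ N * u) := by
      ring
    rw [this, coeff_add, ih, coeff_X_pow_mul', if_pos (by nlinarith)]
    have e : p * (M + 1) + m - p = p * M + m := by rw [Nat.mul_succ]; omega
    rw [e]
    cases M with
    | zero =>
      rw [show p * 0 + m = m by simp, coeff_low p m N hm]
      simp only [Nat.zero_add, Nat.choose_one_right, Nat.choose_zero_right]
      push_cast; ring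
    | succ M =>
      rw [ih, Nat.choose_succ_succ' N (M + 1), Nat.choose_succ_succ' N M]
      push_cast; ring

theorem pow_expand (p : ℕ) (hp : p.Prime) (h2 : (p : R) * p = 0) (N n0 : ℕ) :
    ((1 + X : R[X])) ^ (p * (N + 1) + n0) =
      (1 + X ^ p) ^ (N + 1) * (1 + X) ^ n0 * (-(N : R[X])) +
        ((N : R[X]) + 1) * ((1 + X ^ p) ^ N * (1 + X) ^ (n0 + p)) := by
  obtain ⟨r, hr⟩ := exists_add_pow_prime_eq hp (1 : R[X]) X
  have hz : ((p : R[X]) * (p : R[X])) = 0 := by
    have := congrArg (C : R → R[X]) h2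
    simpa using this
  set a : R[X] := 1 + X ^ p with ha
  set b : R[X] := (p : R[X]) * 1 * X * r with hb
  have hab : (1 + X : R[X]) ^ p = a + b := by rw [hr, ha, hb]; simp
  have hbb : b ^ 2 = 0 := by
    have : b ^ 2 = ((p : R[X]) * (p : R[X])) * (X * r) ^ 2 := by rw [hb]; ring
    rw [this, hz, zero_mul]
  have key : ∀ n : ℕ, (a + b) ^ (n + 1) = a ^ (n + 1) + ((n : R[X]) + 1) * a ^ n * b := by
    intro n
    induction n with
    | zero => simp
    | succ n ih =>
      rw [pow_succ (a + b), ih]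
      push_cast
      linear_combination (((n : R[X]) + 1) * a ^ n) * hbb
  rw [pow_add _ (p * (N + 1)), pow_mul, pow_add _ n0 p, hab, key]
  ring

theorem lucas_sq (p : ℕ) (hp : p.Prime) (h2 : (p : R) * p = 0) (n0 m0 : ℕ) (hn : n0 < p) (hm : m0 < p)
    (N M : ℕ) :
    ((p * N + n0).choose (p * M + m0) : R) = (N.choose M : R) *
      ((n0.choose m0 : R) + N * ((n0 + p).choose m0 : R) + M * ((n0 + p).choose (m0 + p) : R)
        - N * (n0.choose m0 : R) - M * ((n0 + p).choose m0 : R)) := by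
  have hc : ∀ a b : ℕ, ((1 + X : R[X]) ^ a).coeff b = (a.choose b : R) := fun a b =>
    coeff_one_add_X_pow R a b
  cases N with
  | zero =>
    cases M with
    | zero => simp
    | succ M =>
      rw [Nat.choose_eq_zero_of_lt (by nlinarith)]
      simp
  | succ N =>
    rw [← hc, pow_expand p hp h2, coeff_add]
    have e1 : (-(N : R[X])) = C (-(N : R)) := by simp
    have e2 : ((N : R[X]) + 1) = C ((N : R) + 1) := by simp
    rw [e1, e2, coeff_mul_C, coeff_C_mul]
    have hu1 : ∀ j, 2 * p ≤ j → ((1 + X : R[X]) ^ n0).coeff j = 0 := fun j hj => by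
      rw [hc, Nat.choose_eq_zero_of_lt (by omega)]; simp
    have hu2 : ∀ j, 2 * p ≤ j → ((1 + X : R[X]) ^ (n0 + p)).coeff j = 0 := fun j hj => by
      rw [hc, Nat.choose_eq_zero_of_lt (by omega)]; simp
    cases M with
    | zero =>
      rw [show p * 0 + m0 = m0 by simp, coeff_low p m0 _ hm, coeff_low p m0 _ hm, hc, hc]
      simp only [Nat.choose_zero_right]
      push_cast; ring
    | succ M =>
      rw [coeff_high p m0 hm _ hu1, coeff_high p m0 hm _ hu2, hc, hc, hc, hc,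
        Nat.choose_eq_zero_of_lt (show n0 < m0 + p by omega)]
      have a1 : ((N : R) + 1) * (N.choose M : R) = ((N + 1).choose (M + 1) : R) * ((M : R) + 1) := by
        exact_mod_cast congrArg (Nat.cast : ℕ → R) (Nat.add_one_mul_choose_eq N M)
      have a2 : ((N + 1).choose (M + 1) : R) = (N.choose M : R) + (N.choose (M + 1) : R) := by
        exact_mod_cast congrArg (Nat.cast : ℕ → R) (Nat.choose_succ_succ' N M)
      push_cast
      linear_combination (((n0 + p).choose (m0 + p) : R) - ((n0 + p).choose m0 : R)) * a1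
        - (((N : R) + 1) * ((n0 + p).choose m0 : R)) * a2

end

theorem dvd_choose_sub1 (p : ℕ) (hp : p.Prime) (n0 m0 : ℕ) (hn : n0 < p) (hm : m0 < p) :
    (n0 + p).choose m0 ≡ n0.choose m0 [MOD p] := by
  have := Fact.mk hp
  have h := Choose.choose_modEq_choose_mod_mul_choose_div_nat (n := n0 + p) (k := m0) (p := p)
  rwa [Nat.add_mod_right, Nat.mod_eq_of_lt hn, Nat.mod_eq_of_lt hm, Nat.div_eq_of_lt hm,
    Nat.choose_zero_right, mul_one] at h

theorem dvd_choose_sub2 (p : ℕ) (hp : p.Prime) (n0 m0 : ℕ) (hn : n0 < p) (hm : m0 < p) :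
    (n0 + p).choose (m0 + p) ≡ n0.choose m0 [MOD p] := by
  have := Fact.mk hp
  have h := Choose.choose_modEq_choose_mod_mul_choose_div_nat (n := n0 + p) (k := m0 + p) (p := p)
  rwa [Nat.add_mod_right, Nat.add_mod_right, Nat.mod_eq_of_lt hn, Nat.mod_eq_of_lt hm,
    Nat.add_div_right _ hp.pos, Nat.add_div_right _ hp.pos, Nat.div_eq_of_lt hm, Nat.div_eq_of_lt hn,
    Nat.choose_self, mul_one] at h

/-- the factor depends on the higher parts only through their last digits -/
theorem lucas_dig {R : Type} [CommRing R] (p : ℕ) (hp : p.Prime) (h2 : (p : R) * p = 0) (x y : ℕ) :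
    (x.choose y : R) = ((x / p).choose (y / p) : R) *
      (((x % p).choose (y % p) : R) + ((x / p % p : ℕ) : R) * ((x % p + p).choose (y % p) : R)
        + ((y / p % p : ℕ) : R) * ((x % p + p).choose (y % p + p) : R)
        - ((x / p % p : ℕ) : R) * ((x % p).choose (y % p) : R)
        - ((y / p % p : ℕ) : R) * ((x % p + p).choose (y % p) : R)) := by
  have hn := Nat.mod_lt x hp.pos
  have hm := Nat.mod_lt y hp.pos
  have h := lucas_sq p hp h2 _ _ hn hm (x / p) (y / p)
  rw [Nat.div_add_mod, Nat.div_add_mod] at h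
  obtain ⟨u, hu⟩ := (dvd_choose_sub1 p hp _ _ hn hm).dvd
  obtain ⟨v, hv⟩ := (dvd_choose_sub2 p hp _ _ hn hm).dvd
  have hu' := congrArg (Int.cast : ℤ → R) hu
  have hv' := congrArg (Int.cast : ℤ → R) hv
  push_cast at hu' hv'
  have hx : ((x / p : ℕ) : R) = p * ((x / p / p : ℕ) : R) + ((x / p % p : ℕ) : R) := by
    exact_mod_cast congrArg (Nat.cast : ℕ → R) (Nat.div_add_mod (x / p) p).symm
  have hy : ((y / p : ℕ) : R) = p * ((y / p / p : ℕ) : R) + ((y / p % p : ℕ) : R) := by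
    exact_mod_cast congrArg (Nat.cast : ℕ → R) (Nat.div_add_mod (y / p) p).symm
  rw [h, hx, hy]
  congr 1
  linear_combination (-(p : R) * ((x / p / p : ℕ) : R) + p * ((y / p / p : ℕ) : R)) * hu'
    - ((p : R) * ((y / p / p : ℕ) : R)) * hv'
    + (-(u : R) * ((x / p / p : ℕ) : R) + u * ((y / p / p : ℕ) : R) - v * ((y / p / p : ℕ) : R)) * h2

end Pool.Agent.P.MP_111ca2_co
end

-- part Pool.Agent.P.MP_111ca2_co.Snd1
section

/-! Digit automaton checker: meaning of states and the one-digit steps. -/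

namespace Pool.Agent.P.MP_111ca2_co

noncomputable section

@[simp] theorem frc_eq {α : Type} (n : ℕ) (f : ℕ → α) : frc n f = f n := by cases n <;> rfl

theorem frcL_eq {α β : Type} (h : β → (β → α) → α) (hh : ∀ x k, h x k = k x) (l : List β)
    (k : List β → α) : frcL h l k = k l := by
  induction l generalizing k with
  | nil => rfl
  | cons x r ih =>
    show h x (fun y => frcL h r fun r => k (y :: r)) = _
    rw [hh, ih]

theorem frc2_eq {α : Type} (x : N2) (k : N2 → α) : frc2 x k = k x := by simp [frc2]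
theorem frc3_eq {α : Type} (x : N3) (k : N3 → α) : frc3 x k = k x := by simp [frc3]
@[simp] theorem frcL2 {α : Type} (l : List N2) (k : List N2 → α) : frcL frc2 l k = k l :=
  frcL_eq _ frc2_eq _ _
@[simp] theorem frcL3 {α : Type} (l : List N3) (k : List N3 → α) : frcL frc3 l k = k l :=
  frcL_eq _ frc3_eq _ _
@[simp] theorem frcE1_eq {α : Type} (x : E1) (k : E1 → α) : frcE1 x k = k x := by simp [frcE1]
theorem frcE2_eq {α : Type} (x : E2) (k : E2 → α) : frcE2 x k = k x := by simp [frcE2]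
theorem frcTW_eq {α : Type} (x : TW) (k : TW → α) : frcTW x k = k x := by simp [frcTW]
@[simp] theorem frcLE1 {α : Type} (l : List E1) (k : List E1 → α) : frcL frcE1 l k = k l :=
  frcL_eq _ frcE1_eq _ _
@[simp] theorem frcLE2 {α : Type} (l : List E2) (k : List E2 → α) : frcL frcE2 l k = k l :=
  frcL_eq _ frcE2_eq _ _
@[simp] theorem frcLTW {α : Type} (l : List TW) (k : List TW → α) : frcL frcTW l k = k l :=
  frcL_eq _ frcTW_eq _ _

theorem stB_eq {α : Type} (P : Par) (e d : ℕ) (d2 : List E2) (w : List TW)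
    (k : List E2 → List TW → α) :
    stB P e d d2 w k = k (d2.map (st2 P e d)) (stw P.od (incs P e d d2) w) := by simp [stB]

theorem carry_div (p s K a : ℕ) (hp : 0 < p) :
    (s * K + a) / p = s * (K / p) + (s * (K % p) + a) / p := by
  have : s * K + a = p * (s * (K / p)) + (s * (K % p) + a) := by
    conv_lhs => rw [← Nat.div_add_mod K p]
    ring
  rw [this, Nat.mul_add_div hp]

theorem carry_mod (p s K a : ℕ) : (s * K + a) % p = (s * (K % p) + a) % p := by
  have : s * K + a = p * (s * (K / p)) + (s * (K % p) + a) := by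
    conv_lhs => rw [← Nat.div_add_mod K p]
    ring
  rw [this, Nat.mul_add_mod]

theorem div_pow_succ (x p i : ℕ) : x / p ^ (i + 1) = x / p ^ i / p := by
  rw [Nat.div_div_eq_div_mul, pow_succ]

/-! ### entries modulo `p` -/

def Sem1 (p K : ℕ) (x : E1) : Prop := ∃ y ∈ x.2.2, ¬ p ∣ (x.1 * K + x.2.1).choose (y.1 * K + y.2)

theorem mem_st1l (p n0 e : ℕ) (l : List N2) (y : N2) (hy : y ∈ l) (h : (y.1 * e + y.2) % p ≤ n0) :
    (y.1, (y.1 * e + y.2) / p) ∈ st1l p n0 e l := by
  induction l with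
  | nil => simp at hy
  | cons x r ih =>
    show _ ∈ frc (x.1 * e + x.2) fun y =>
      bif Nat.ble (y % p) n0 then (x.1, y / p) :: st1l p n0 e r else st1l p n0 e r
    rw [frc_eq]
    rcases List.mem_cons.1 hy with rfl | hy
    · rw [Nat.ble_eq_true_of_le h]; simp
    · cases Nat.ble ((x.1 * e + x.2) % p) n0
      · exact ih hy
      · exact List.mem_cons_of_mem _ (ih hy)

theorem sem1_step (p K : ℕ) (hp : p.Prime) (x : E1) (h : Sem1 p K x) :
    Sem1 p (K / p) (st1 p (K % p) x) := by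
  obtain ⟨y, hy, hd⟩ := h
  have := Fact.mk hp
  have hl := Choose.choose_modEq_choose_mod_mul_choose_div_nat (n := x.1 * K + x.2.1)
    (k := y.1 * K + y.2) (p := p)
  rw [hl.dvd_iff dvd_rfl, carry_mod p x.1, carry_mod p y.1, carry_div p x.1 _ _ hp.pos,
    carry_div p y.1 _ _ hp.pos] at hd
  refine ⟨(y.1, (y.1 * (K % p) + y.2) / p), ?_, fun h => hd (h.mul_left _)⟩
  simp only [st1, frc_eq]
  refine mem_st1l _ _ _ _ _ hy ?_
  by_contra hc
  exact hd (by rw [Nat.choose_eq_zero_of_lt (not_le.1 hc)]; simp)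

theorem sem1_ne (p K : ℕ) (x : E1) (h : Sem1 p K x) : x.2.2.isEmpty = false := by
  obtain ⟨y, hy, _⟩ := h
  cases hx : x.2.2 with
  | nil => rw [hx] at hy; simp at hy
  | cons _ _ => rfl

theorem zr1_sound (p : ℕ) (hp : p.Prime) (r : ℕ) (x : E1) (h : Sem1 p 0 x) : zr1 p r x = false := by
  induction r generalizing x with
  | zero => rfl
  | succ r ih =>
    show frcE1 (st1 p 0 x) (fun y => y.2.2.isEmpty || zr1 p r y) = false
    have := sem1_step p 0 hp x h
    rw [Nat.zero_div, Nat.zero_mod] at this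
    rw [frcE1_eq, sem1_ne _ _ _ this, ih _ this]; rfl

/-! ### entries modulo the square of `p` -/

abbrev RR (P : Par) := ZMod (P.p * P.p)

theorem pp_zero (P : Par) : ((P.p : RR P) * (P.p : RR P)) = 0 := by
  exact_mod_cast ZMod.natCast_self (P.p * P.p)

theorem ch_eq (n k : ℕ) : ch n k = n.choose k := (Nat.choose_eq_descFactorial_div_factorial n k).symm

theorem ok_g (P : Par) (h : P.ok = true) : (P.g : RR P) ^ P.od = 1 := by
  simp only [Par.ok, Bool.and_eq_true, Nat.beq_eq] at h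
  have := (ZMod.natCast_mod (P.g ^ P.od) (P.p * P.p)).symm
  rw [h.1.1] at this
  exact_mod_cast this

theorem ok_lg (P : Par) (h : P.ok = true) (L : ℕ) (hL : L < P.od) :
    P.lg (P.g ^ L % (P.p * P.p)) = L := by
  simp only [Par.ok, Bool.and_eq_true, Nat.beq_eq, List.all_eq_true, List.mem_range] at h
  exact h.1.2 L hL

theorem ok_cd (P : Par) (h : P.ok = true) (n0 m0 N M : ℕ) (h1 : n0 < P.p) (h2 : m0 < P.p)
    (h3 : N < P.p) (h4 : M < P.p) :
    (cval P (cel P.p (P.row n0 N) m0 M) : RR P) = (n0.choose m0 : RR P) + N * ((n0 + P.p).choose m0 : RR P)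
      + M * ((n0 + P.p).choose (m0 + P.p) : RR P) - N * (n0.choose m0 : RR P)
      - M * ((n0 + P.p).choose m0 : RR P) := by
  simp only [Par.ok, Bool.and_eq_true, Nat.beq_eq, List.all_eq_true, List.mem_range, frc_eq, ch_eq] at h
  have := (ZMod.natCast_eq_natCast_iff' _ _ _).2 (h.2 n0 h1 m0 h2 N h3 M h4)
  push_cast at this
  linear_combination this

theorem choose_step (P : Par) (hp : P.p.Prime) (h : P.ok = true) (K : ℕ) (x : E2) (y : N3) :
    ((x.1 * K + x.2.1).choose (y.1 * K + y.2.1) : RR P) =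
      (cval P (tcd P.p (erow P (K % P.p) (K / P.p % P.p) x) (K % P.p) (K / P.p % P.p) y) : RR P) *
      ((x.1 * (K / P.p) + (x.1 * (K % P.p) + x.2.1) / P.p).choose
        (y.1 * (K / P.p) + (y.1 * (K % P.p) + y.2.1) / P.p) : RR P) := by
  have hm := fun z => Nat.mod_lt z hp.pos
  rw [lucas_dig P.p hp (pp_zero P), tcd, frc_eq, erow, ok_cd P h _ _ _ _ (hm _) (hm _) (hm _) (hm _),
    carry_mod P.p x.1 K, carry_mod P.p y.1 K, carry_div P.p x.1 K _ hp.pos,
    carry_div P.p y.1 K _ hp.pos, carry_mod P.p x.1 (K / P.p), carry_mod P.p y.1 (K / P.p), mul_comm]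

def trm (P : Par) (S a K : ℕ) (y : N3) : RR P :=
  (P.p : RR P) ^ y.2.2 * ((S * K + a).choose (y.1 * K + y.2.1) : RR P)

/-- the successor of a term -/
def nxt (p e c : ℕ) (y : N3) : N3 := (y.1, (y.1 * e + y.2.1) / p, y.2.2 + (c - 1) % 2)

theorem st2l_cons (p row e d : ℕ) (x : N3) (r : List N3) :
    st2l p row e d (x :: r) =
      if tcd p row e d x ≠ 0 ∧ x.2.2 + (tcd p row e d x - 1) % 2 ≤ 1 then
        nxt p e (tcd p row e d x) x :: st2l p row e d r else st2l p row e d r := by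
  show frc (tcd p row e d x) (fun c => bif Nat.beq c 0 then st2l p row e d r else
    bif Nat.ble (x.2.2 + (c - 1) % 2) 1 then
      (x.1, (x.1 * e + x.2.1) / p, x.2.2 + (c - 1) % 2) :: st2l p row e d r else st2l p row e d r) = _
  rw [frc_eq]
  by_cases h0 : tcd p row e d x = 0
  · simp [h0]
  · have : Nat.beq (tcd p row e d x) 0 = false := by
      cases hb : Nat.beq (tcd p row e d x) 0
      · rfl
      · exact absurd (Nat.eq_of_beq_eq_true hb) h0
    rw [this]
    by_cases h1 : x.2.2 + (tcd p row e d x - 1) % 2 ≤ 1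
    · rw [Nat.ble_eq_true_of_le h1, if_pos ⟨h0, h1⟩]; rfl
    · have : Nat.ble (x.2.2 + (tcd p row e d x - 1) % 2) 1 = false := by
        cases hb : Nat.ble (x.2.2 + (tcd p row e d x - 1) % 2) 1
        · rfl
        · exact absurd (Nat.le_of_ble_eq_true hb) h1
      rw [this, if_neg (fun h => h1 h.2)]; rfl

theorem trm_step (P : Par) (hp : P.p.Prime) (h : P.ok = true) (K : ℕ) (x : E2) (y : N3) (c : ℕ)
    (hc : c = tcd P.p (erow P (K % P.p) (K / P.p % P.p) x) (K % P.p) (K / P.p % P.p) y) :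
    trm P x.1 x.2.1 K y = if c ≠ 0 ∧ y.2.2 + (c - 1) % 2 ≤ 1 then
      (P.g : RR P) ^ ((c - 1) / 2) *
        trm P x.1 ((x.1 * (K % P.p) + x.2.1) / P.p) (K / P.p) (nxt P.p (K % P.p) c y) else 0 := by
  rw [trm, choose_step P hp h, ← hc]
  by_cases h0 : c = 0
  · simp [h0, cval]
  · have hb : Nat.beq c 0 = false := by
      cases hb : Nat.beq c 0
      · rfl
      · exact absurd (Nat.eq_of_beq_eq_true hb) h0
    have hv : (cval P c : RR P) = (P.p : RR P) ^ ((c - 1) % 2) * (P.g : RR P) ^ ((c - 1) / 2) := by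
      simp [cval, hb]
    rw [hv]
    split_ifs with h1
    · simp only [trm, nxt, pow_add]; ring
    · obtain ⟨m, hm⟩ : ∃ m, y.2.2 + (c - 1) % 2 = m + 2 := ⟨y.2.2 + (c - 1) % 2 - 2, by omega⟩
      have : (P.p : RR P) ^ y.2.2 * (P.p : RR P) ^ ((c - 1) % 2) = 0 := by
        rw [← pow_add, hm, pow_add, pow_two, pp_zero, mul_zero]
      rw [← mul_assoc, ← mul_assoc, this, zero_mul, zero_mul]

def cdg (P : Par) (k S t j : ℕ) : ℕ :=
  cel P.p (P.row (S * k / P.p ^ j % P.p) (S * k / P.p ^ (j + 1) % P.p)) (t * k / P.p ^ j % P.p)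
    (t * k / P.p ^ (j + 1) % P.p)

def Lf (P : Par) (k : ℕ) : ℕ → ℕ → ℕ → ℕ
  | 0, _, _ => 0
  | j + 1, S, t => Lf P k j S t + (cdg P k S t j - 1) / 2

def msum (P : Par) (F : ℕ → ℕ → ℕ) (S a K : ℕ) (l : List N3) : RR P :=
  (l.map fun y => (cf (P.p * P.p) S y.1 : RR P) * (P.g : RR P) ^ F S y.1 * trm P S a K y).sum

def osp (P : Par) (S a K : ℕ) (l : List N3) : Ideal (RR P) :=
  Ideal.span {z | ∃ y ∈ l, z = trm P S a K y}

def Sem2 (P : Par) (k i : ℕ) (x : E2) : Prop :=
  x.1 * k / P.p ^ i = x.1 * (k / P.p ^ i) + x.2.1 ∧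
  (∀ y ∈ x.2.2.1, y.1 * k / P.p ^ i = y.1 * (k / P.p ^ i) + y.2.1) ∧
  2 + msum P (Lf P k i) x.1 x.2.1 (k / P.p ^ i) x.2.2.1 ∈ osp P x.1 x.2.1 (k / P.p ^ i) x.2.2.2

theorem tcd_true (P : Par) (hp : P.p.Prime) (k i : ℕ) (x : E2) (y : N3)
    (hx : x.1 * k / P.p ^ i = x.1 * (k / P.p ^ i) + x.2.1)
    (hy : y.1 * k / P.p ^ i = y.1 * (k / P.p ^ i) + y.2.1) :
    tcd P.p (erow P (k / P.p ^ i % P.p) (k / P.p ^ i / P.p % P.p) x) (k / P.p ^ i % P.p)
      (k / P.p ^ i / P.p % P.p) y = cdg P k x.1 y.1 i := by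
  rw [tcd, frc_eq, erow, cdg, div_pow_succ, div_pow_succ, hx, hy, carry_mod P.p x.1 (k / P.p ^ i),
    carry_mod P.p y.1 (k / P.p ^ i), carry_div P.p x.1 (k / P.p ^ i) _ hp.pos,
    carry_div P.p y.1 (k / P.p ^ i) _ hp.pos,
    carry_mod P.p x.1 (k / P.p ^ i / P.p), carry_mod P.p y.1 (k / P.p ^ i / P.p)]

theorem osp_step (P : Par) (hp : P.p.Prime) (h : P.ok = true) (K : ℕ) (x : E2) (l : List N3) :
    osp P x.1 x.2.1 K l ≤ osp P x.1 ((x.1 * (K % P.p) + x.2.1) / P.p) (K / P.p)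
      (st2l P.p (erow P (K % P.p) (K / P.p % P.p) x) (K % P.p) (K / P.p % P.p) l) := by
  rw [osp, Ideal.span_le]
  rintro z ⟨y, hy, rfl⟩
  rw [trm_step P hp h K x y _ rfl]
  split_ifs with h1
  · refine Ideal.mul_mem_left _ _ (Ideal.subset_span ⟨_, ?_, rfl⟩)
    induction l with
    | nil => simp at hy
    | cons a r ih =>
      rw [st2l_cons]
      rcases List.mem_cons.1 hy with rfl | hy
      · rw [if_pos h1]; exact List.mem_cons_self
      · split_ifs
        · exact List.mem_cons_of_mem _ (ih hy)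
        · exact ih hy
  · exact Ideal.zero_mem _

theorem main_step (P : Par) (hp : P.p.Prime) (h : P.ok = true) (k i : ℕ) (x : E2)
    (hx : x.1 * k / P.p ^ i = x.1 * (k / P.p ^ i) + x.2.1) (l : List N3)
    (hl : ∀ y ∈ l, y.1 * k / P.p ^ i = y.1 * (k / P.p ^ i) + y.2.1) :
    (∀ y ∈ st2l P.p (erow P (k / P.p ^ i % P.p) (k / P.p ^ i / P.p % P.p) x) (k / P.p ^ i % P.p)
      (k / P.p ^ i / P.p % P.p) l, y.1 * k / P.p ^ (i + 1) = y.1 * (k / P.p ^ i / P.p) + y.2.1) ∧
    msum P (Lf P k i) x.1 x.2.1 (k / P.p ^ i) l =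
      msum P (Lf P k (i + 1)) x.1 ((x.1 * (k / P.p ^ i % P.p) + x.2.1) / P.p) (k / P.p ^ i / P.p)
        (st2l P.p (erow P (k / P.p ^ i % P.p) (k / P.p ^ i / P.p % P.p) x) (k / P.p ^ i % P.p)
          (k / P.p ^ i / P.p % P.p) l) := by
  induction l with
  | nil => exact ⟨fun y hy => absurd hy List.not_mem_nil, rfl⟩
  | cons a r ih =>
    obtain ⟨i1, i2⟩ := ih fun y hy => hl y (List.mem_cons_of_mem _ hy)
    have ha := hl a List.mem_cons_self
    have ht := trm_step P hp h (k / P.p ^ i) x a _ rfl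
    rw [st2l_cons]
    simp only [msum, List.map_cons, List.sum_cons] at i2 ⊢
    rw [ht, i2]
    split_ifs with h1
    · refine ⟨fun y hy => ?_, ?_⟩
      · rcases List.mem_cons.1 hy with rfl | hy
        · simp only [nxt]
          rw [div_pow_succ, ha, carry_div _ _ _ _ hp.pos]
        · exact i1 y hy
      · simp only [List.map_cons, List.sum_cons, Lf, pow_add]
        rw [tcd_true P hp k i x a hx ha]
        simp only [nxt]
        ring
    · exact ⟨i1, by simp⟩

theorem sem2_step (P : Par) (hp : P.p.Prime) (h : P.ok = true) (k i : ℕ) (x : E2)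
    (hx : Sem2 P k i x) :
    Sem2 P k (i + 1) (st2 P (k / P.p ^ i % P.p) (k / P.p ^ (i + 1) % P.p) x) := by
  obtain ⟨h1, h2, h3⟩ := hx
  obtain ⟨m1, m2⟩ := main_step P hp h k i x h1 _ h2
  simp only [Sem2, st2, frc_eq, div_pow_succ k]
  refine ⟨by rw [div_pow_succ, h1, carry_div _ _ _ _ hp.pos], m1, ?_⟩
  rw [← m2]
  exact osp_step P hp h _ x _ h3

/-! ### linear relations between the logarithms -/

def tsum (F : ℕ → ℕ → ℕ) (tm : List N3) : ℕ := (tm.map fun y => y.2.2 * F y.1 y.2.1).sum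

theorem look_mem (S t v : ℕ) (l : List N3) (h : look S t l = some v) : (S, t, v) ∈ l := by
  induction l with
  | nil => cases h
  | cons x r ih =>
    change (bif Nat.beq x.2.1 t && Nat.beq x.1 S then some x.2.2 else look S t r) = some v at h
    cases hb : (Nat.beq x.2.1 t && Nat.beq x.1 S)
    · rw [hb] at h; exact List.mem_cons_of_mem _ (ih h)
    · rw [hb] at h
      simp only [Bool.and_eq_true, Nat.beq_eq] at hb
      have : x = (S, t, v) := by
        obtain ⟨a, b, c⟩ := x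
        simp only [cond_true, Option.some.injEq] at h hb
        rw [hb.1, hb.2, h]
      rw [this]; exact List.mem_cons_self

theorem evT_spec (D : ℕ → ℕ → ℕ) (m : ℕ) (env : List N3)
    (he : ∀ z ∈ env, z.2.2 ≡ D z.1 z.2.1 [MOD m]) (tm : List N3) :
    ∀ v, evT env tm = some v → v ≡ tsum D tm [MOD m] := by
  induction tm with
  | nil => intro v h; cases h; rfl
  | cons x r ih =>
    intro v h
    change ((look x.1 x.2.1 env).bind fun a => (evT env r).map fun b => x.2.2 * a + b) = some v at h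
    simp only [Option.bind_eq_some_iff, Option.map_eq_some_iff] at h
    obtain ⟨a, ha, b, hb, rfl⟩ := h
    simp only [tsum, List.map_cons, List.sum_cons]
    exact ((he _ (look_mem _ _ _ _ ha)).mul_left _).add (ih b hb)

theorem tsum_succ (P : Par) (k i : ℕ) (tm : List N3) :
    tsum (Lf P k (i + 1)) tm = tsum (Lf P k i) tm + tsum (fun S t => (cdg P k S t i - 1) / 2) tm := by
  induction tm with
  | nil => rfl
  | cons x r ih =>
    simp only [tsum, List.map_cons, List.sum_cons, Lf] at ih ⊢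
    rw [ih]; ring

theorem incs_true (P : Par) (hp : P.p.Prime) (k i : ℕ) (l : List E2) (hl : ∀ x ∈ l, Sem2 P k i x) :
    ∀ z ∈ incs P (k / P.p ^ i % P.p) (k / P.p ^ (i + 1) % P.p) l,
      z.2.2 = (cdg P k z.1 z.2.1 i - 1) / 2 := by
  induction l with
  | nil => intro z hz; cases hz
  | cons x r ih =>
    intro z hz
    change z ∈ frc (erow P _ _ x) (fun row => x.2.2.1.map (fun y => (x.1, y.1, (tcd P.p row _ _ y - 1) / 2))
      ++ incs P _ _ r) at hz
    rw [frc_eq, List.mem_append, List.mem_map] at hz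
    rcases hz with ⟨y, hy, rfl⟩ | hz
    · obtain ⟨h1, h2, _⟩ := hl x List.mem_cons_self
      simp only
      rw [div_pow_succ k, tcd_true P hp k i x y h1 (h2 y hy)]
    · exact ih (fun x hx => hl x (List.mem_cons_of_mem _ hx)) z hz

def SemB (P : Par) (k i : ℕ) (d2 : List E2) (w : List TW) : Prop :=
  (∀ x ∈ d2, Sem2 P k i x) ∧ ∀ x ∈ w, tsum (Lf P k i) x.1 ≡ x.2 [MOD P.od]

theorem semB_step (P : Par) (hp : P.p.Prime) (h : P.ok = true) (k i : ℕ) (d2 : List E2) (w : List TW)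
    (hs : SemB P k i d2 w) (e d : ℕ) (he : k / P.p ^ i % P.p = e) (hd : k / P.p ^ (i + 1) % P.p = d) :
    SemB P k (i + 1) (d2.map (st2 P e d)) (stw P.od (incs P e d d2) w) := by
  subst he hd
  refine ⟨fun x hx => ?_, fun x hx => ?_⟩
  · obtain ⟨y, hy, rfl⟩ := List.mem_map.1 hx
    exact sem2_step P hp h k i y (hs.1 y hy)
  · simp only [stw, List.mem_filterMap, Option.map_eq_some_iff] at hx
    obtain ⟨y, hy, v, hv, rfl⟩ := hx
    have := evT_spec (fun S t => (cdg P k S t i - 1) / 2) P.od _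
      (fun z hz => by rw [incs_true P hp k i d2 hs.1 z hz]) _ v hv
    simp only
    rw [tsum_succ]
    exact ((hs.2 y hy).add this.symm).trans (Nat.mod_modEq _ _).symm

end

end Pool.Agent.P.MP_111ca2_co
end

-- part Pool.Agent.P.MP_111ca2_co.Snd2
section

/-! Digit automaton checker: soundness. -/

namespace Pool.Agent.P.MP_111ca2_co

noncomputable section

theorem beq_false_of_ne {a b : ℕ} (h : a ≠ b) : Nat.beq a b = false := by
  cases hb : Nat.beq a b
  · rfl
  · exact absurd (Nat.eq_of_beq_eq_true hb) h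

theorem nbeq_iff (a b : ℕ) : (!(Nat.beq a b)) = true ↔ a ≠ b := by
  cases hb : Nat.beq a b
  · simpa using Nat.ne_of_beq_eq_false hb
  · simpa using Nat.eq_of_beq_eq_true hb

theorem sel_mem {β : Type} (l : List β) : ∀ m, ∀ x ∈ sel l m, x ∈ l := by
  induction l with
  | nil => intro m x hx; exact hx
  | cons a r ih =>
    intro m x hx
    change x ∈ (bif Nat.beq m 0 then a :: r else
      bif Nat.beq (m % 2) 0 then a :: sel r (m / 2) else sel r (m / 2)) at hx
    cases h1 : Nat.beq m 0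
    · cases h2 : Nat.beq (m % 2) 0
      · rw [h1, h2] at hx; exact List.mem_cons_of_mem _ (ih _ x hx)
      · rw [h1, h2] at hx
        rcases List.mem_cons.1 hx with rfl | hx
        · exact List.mem_cons_self
        · exact List.mem_cons_of_mem _ (ih _ x hx)
    · rw [h1] at hx; exact hx

theorem badT_false (od : ℕ) (F : ℕ → ℕ → ℕ) (env : List N3) (ws : List TW)
    (he : ∀ z ∈ env, z.2.2 ≡ F z.1 z.2.1 [MOD od]) (hw : ∀ x ∈ ws, tsum F x.1 ≡ x.2 [MOD od]) :
    badT od env ws = false := by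
  rw [badT, List.any_eq_false]
  intro x hx
  cases hv : evT env x.1 with
  | none => simp
  | some v =>
    have : v % od = x.2 % od := (evT_spec F od env he _ v hv).trans (hw x hx)
    simp [this]

theorem dvd_of_cast_dvd (N q a : ℕ) [NeZero N] (hq : q ∣ N) (h : (q : ZMod N) ∣ (a : ZMod N)) :
    q ∣ a := by
  obtain ⟨c, hc⟩ := h
  rw [← ZMod.natCast_zmod_val c, ← Nat.cast_mul, ZMod.natCast_eq_natCast_iff] at hc
  exact ((hc.of_dvd hq).dvd_iff dvd_rfl).2 (dvd_mul_right _ _)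

theorem g_mod (P : Par) (h : P.ok = true) (a : ℕ) : (P.g : RR P) ^ (a % P.od) = (P.g : RR P) ^ a := by
  conv_rhs => rw [← Nat.div_add_mod a P.od, pow_add, pow_mul, ok_g P h, one_pow, one_mul]

theorem mem_cands (P : Par) (hp : P.p.Prime) (h : P.ok = true) (q : ℕ) (hq : q ∣ P.p * P.p)
    (F : ℕ → ℕ → ℕ) (ws : List TW) (hw : ∀ x ∈ ws, tsum F x.1 ≡ x.2 [MOD P.od]) (S t acc : ℕ)
    (ha : acc < P.p * P.p) (la : Bool) (hl : la = true →
      (q : RR P) ∣ (acc : RR P) + (cf (P.p * P.p) S t : RR P) * (P.g : RR P) ^ F S t) :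
    F S t % P.od ∈ cands P q S t acc la ws := by
  have ho : 0 < P.od := Nat.mul_pos hp.pos (by have := hp.two_le; omega)
  have hq2 : 0 < P.p * P.p := Nat.mul_pos hp.pos hp.pos
  have : NeZero (P.p * P.p) := ⟨hq2.ne'⟩
  unfold cands
  split
  · rename_i x hx
    have h1 := List.find?_some hx
    have h2 := hw x (List.mem_of_find?_eq_some hx)
    rw [eq_of_beq h1] at h2
    simp only [tsum, List.map_cons, List.map_nil, List.sum_cons, List.sum_nil, one_mul,
      add_zero] at h2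
    exact List.mem_singleton.2 h2
  · rw [frc_eq]
    generalize cf (P.p * P.p) S t ^ (P.od - 1) % (P.p * P.p) = ic
    cases hb : (la && Nat.beq (cf (P.p * P.p) S t * ic % (P.p * P.p)) 1)
    · exact List.mem_range.2 (Nat.mod_lt _ ho)
    · simp only [Bool.and_eq_true, Nat.beq_eq] at hb
      have h1 : (cf (P.p * P.p) S t : RR P) * ic = 1 := by
        have := (ZMod.natCast_mod (cf (P.p * P.p) S t * ic) (P.p * P.p)).symm
        rw [hb.2] at this
        exact_mod_cast this
      set y := P.g ^ (F S t % P.od) % (P.p * P.p) with hy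
      have h2 : (q : RR P) ∣ ((y + acc * ic : ℕ) : RR P) := by
        have := (hl hb.1).mul_right (ic : RR P)
        rw [hy]
        push_cast
        rw [ZMod.natCast_mod, Nat.cast_pow, g_mod P h]
        convert this using 1
        linear_combination (-(P.g : RR P) ^ F S t) * h1
      have h3 : y ≡ (P.p * P.p - acc) * ic [MOD q] := by
        refine Nat.ModEq.add_right_cancel' (acc * ic) ?_
        rw [← add_mul, Nat.sub_add_cancel ha.le]
        exact ((Nat.modEq_zero_iff_dvd.2 (dvd_of_cast_dvd _ _ _ hq h2))).trans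
          (Nat.modEq_zero_iff_dvd.2 (hq.mul_right _)).symm
      simp only [cond_true, frc_eq, List.mem_map, List.mem_range]
      refine ⟨y / q, Nat.div_lt_div_of_lt_of_dvd hq (Nat.mod_lt _ hq2), ?_⟩
      rw [← h3, Nat.mod_add_div, hy, ok_lg P h _ (Nat.mod_lt _ ho)]

theorem goV_false (P : Par) (hp : P.p.Prime) (h : P.ok = true) (q : ℕ) (hq' : q ∣ P.p * P.p)
    (F : ℕ → ℕ → ℕ) (ws : List TW)
    (hw : ∀ x ∈ ws, tsum F x.1 ≡ x.2 [MOD P.od]) (S : ℕ) (kk : List N3 → Bool)
    (hk : ∀ env, (∀ z ∈ env, z.2.2 ≡ F z.1 z.2.1 [MOD P.od]) → kk env = false) (ts : List N3) :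
    ∀ acc env, acc < P.p * P.p → (∀ z ∈ env, z.2.2 ≡ F z.1 z.2.1 [MOD P.od]) →
      (q : RR P) ∣ (acc : RR P) + msum P F S 0 0 ts → goV P q ws S kk ts acc env = false := by
  have hq : 0 < P.p * P.p := Nat.mul_pos hp.pos hp.pos
  have : NeZero (P.p * P.p) := ⟨hq.ne'⟩
  induction ts with
  | nil =>
    intro acc env ha he hs
    show (!(Nat.beq (acc % q) 0) || badT P.od env ws || kk env) = false
    have : acc % q = 0 := by
      simp only [msum, List.map_nil, List.sum_nil, add_zero] at hs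
      exact Nat.mod_eq_zero_of_dvd (dvd_of_cast_dvd _ _ _ hq' hs)
    rw [this, badT_false _ F env ws he hw, hk env he]; rfl
  | cons x r ih =>
    intro acc env ha he hs
    show (Nat.beq x.2.1 0 && (cands P q S x.1 acc (r.isEmpty && Nat.beq x.2.2 0) ws).all fun L =>
      frc L fun L => (!r.isEmpty && badT P.od ((S, x.1, L) :: env) ws) ||
        frc ((acc + cf (P.p * P.p) S x.1 * P.p ^ x.2.2 * P.g ^ L) % (P.p * P.p)) fun a =>
          goV P q ws S kk r a ((S, x.1, L) :: env)) = false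
    by_cases hb : x.2.1 = 0
    · rw [Bool.and_eq_false_iff]
      right
      rw [List.all_eq_false]
      refine ⟨_, mem_cands P hp h q hq' F ws hw S x.1 acc ha _ fun hl => ?_, ?_⟩
      · simp only [Bool.and_eq_true, List.isEmpty_iff, Nat.beq_eq] at hl
        simpa [msum, trm, hb, hl.1, hl.2] using hs
      have he' : ∀ z ∈ (S, x.1, F S x.1 % P.od) :: env, z.2.2 ≡ F z.1 z.2.1 [MOD P.od] := by
        intro z hz
        rcases List.mem_cons.1 hz with rfl | hz
        · exact Nat.mod_modEq _ _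
        · exact he z hz
      rw [frc_eq, badT_false _ F _ ws he' hw, frc_eq, ih _ _ (Nat.mod_lt _ hq) he']
      · simp
      · rw [ZMod.natCast_mod]
        simp only [msum, List.map_cons, List.sum_cons, trm, hb, mul_zero, add_zero,
          Nat.choose_self, Nat.cast_one, mul_one] at hs ⊢
        push_cast
        rw [g_mod P h]
        convert hs using 1
        ring
    · rw [beq_false_of_ne hb]; rfl

theorem msum_filter (P : Par) (F : ℕ → ℕ → ℕ) (S : ℕ) (l : List N3) :
    (P.p : RR P) ∣ msum P F S 0 0 l - msum P F S 0 0 (l.filter fun y => Nat.beq y.2.2 0) := by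
  induction l with
  | nil => simp [msum]
  | cons x r ih =>
    by_cases h0 : x.2.2 = 0
    · rw [List.filter_cons_of_pos (by simp [h0])]
      simpa [msum] using ih
    · rw [List.filter_cons_of_neg (by simp [h0])]
      simp only [msum, List.map_cons, List.sum_cons] at ih ⊢
      rw [add_sub_assoc]
      exact dvd_add (((dvd_pow_self _ h0).mul_right _).mul_left _) ih

theorem goE_false (P : Par) (hp : P.p.Prime) (h : P.ok = true) (k i : ℕ) (hK : k / P.p ^ i = 0)
    (ws : List TW) (hw : ∀ x ∈ ws, tsum (Lf P k i) x.1 ≡ x.2 [MOD P.od]) (l : List E2)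
    (hl : ∀ x ∈ l, Sem2 P k i x) :
    ∀ m env, (∀ z ∈ env, z.2.2 ≡ Lf P k i z.1 z.2.1 [MOD P.od]) → goE P ws l m env = false := by
  have h4 : 2 < P.p * P.p := by have := hp.two_le; nlinarith
  induction l with
  | nil => intro _ _ _; rfl
  | cons x r ih =>
    intro m env he
    show (Nat.beq x.2.1 0 && bif Nat.beq (m % 2) 0 then
        x.2.2.2.isEmpty && goV P (P.p * P.p) ws x.1 (goE P ws r (m / 2)) x.2.2.1 2 env
      else x.2.2.2.all (fun y => Nat.ble 1 y.2.2) &&
        goV P P.p ws x.1 (goE P ws r (m / 2)) (x.2.2.1.filter fun y => Nat.beq y.2.2 0) 2 env) = false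
    have ih' := ih (fun y hy => hl y (List.mem_cons_of_mem _ hy)) (m / 2)
    obtain ⟨_, _, h3⟩ := hl x List.mem_cons_self
    by_cases h1 : x.2.1 = 0
    · rw [hK, h1] at h3
      cases Nat.beq (m % 2) 0
      · by_cases h2 : (x.2.2.2.all fun y => Nat.ble 1 y.2.2) = true
        · have h5 : osp P x.1 0 0 x.2.2.2 ≤ Ideal.span {(P.p : RR P)} := by
            rw [osp, Ideal.span_le]
            rintro z ⟨y, hy, rfl⟩
            have := Nat.le_of_ble_eq_true (List.all_eq_true.1 h2 y hy)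
            exact Ideal.mem_span_singleton.2 ((dvd_pow_self _ (by omega)).mul_right _)
          have h6 := dvd_sub (Ideal.mem_span_singleton.1 (h5 h3)) (msum_filter P (Lf P k i) x.1 x.2.2.1)
          rw [goV_false P hp h _ (dvd_mul_right _ _) _ ws hw x.1 _ ih' _ 2 env h4 he
            (by convert h6 using 1; push_cast; ring)]
          simp
        · simp [h2]
      · cases h2 : x.2.2.2 with
        | cons _ _ => simp
        | nil =>
          rw [h2] at h3
          have h5 : ((2 : ℕ) : RR P) + msum P (Lf P k i) x.1 0 0 x.2.2.1 = 0 := by simpa [osp] using h3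
          rw [goV_false P hp h _ dvd_rfl _ ws hw x.1 _ ih' _ 2 env h4 he (h5 ▸ dvd_zero _)]
          simp
    · rw [beq_false_of_ne h1]; rfl

theorem zr2_false (P : Par) (hp : P.p.Prime) (h : P.ok = true) (k m r : ℕ) :
    ∀ i d2 w, k / P.p ^ i = 0 → SemB P k i d2 w → zr2 P m r d2 w = false := by
  induction r with
  | zero =>
    intro i d2 w hK hs
    exact goE_false P hp h k i hK w hs.2 d2 hs.1 m [] (fun z hz => absurd hz List.not_mem_nil)
  | succ r ih =>
    intro i d2 w hK hs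
    show stB P 0 0 d2 w (zr2 P m r) = false
    have hK' : k / P.p ^ (i + 1) = 0 := by rw [div_pow_succ, hK, Nat.zero_div]
    rw [stB_eq]
    exact ih (i + 1) _ _ hK' (semB_step P hp h k i d2 w hs 0 0 (by rw [hK]; simp) (by rw [hK']; simp))

theorem notPow_false (p : ℕ) (hp : 0 < p) (fu : ℕ) : ∀ r, notPow p fu (p ^ r) = false := by
  induction fu with
  | zero => intro _; rfl
  | succ fu ih =>
    intro r
    show (!(Nat.beq (p ^ r) 1) && (!(Nat.beq (p ^ r % p) 0) || notPow p fu (p ^ r / p))) = false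
    cases r with
    | zero => simp
    | succ r =>
      rw [pow_succ, Nat.mul_mod_left, Nat.mul_div_cancel _ hp, ih]
      simp

theorem flOk_false (p n k f i c n0 : ℕ) (hp : p.Prime) (hp2 : 2 < p) (hnk : n * k + 1 = p ^ f)
    (hn : Even n) (hlt : n < k) (hpk : p ≤ k) (h0 : n0 < n) (hK : 0 < k / p ^ i)
    (hK' : k / p ^ i < p) (hf : n0 * k + 1 = p ^ i * (n0 * (k / p ^ i) + c)) :
    flOk p (k / p ^ i) (n0, c) = false := by
  set e := k / p ^ i with he
  have hpi : 0 < p ^ i := pow_pos hp.pos i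
  have h1 : p ^ i ≤ k := by
    by_contra hc
    rw [he, Nat.div_eq_of_lt (not_le.1 hc)] at hK
    exact lt_irrefl _ hK
  have h2 : k < p ^ i * (e + 1) := Nat.lt_mul_div_succ k hpi
  have hif : i < f := by
    have : p ^ i < p ^ f := by nlinarith
    exact (Nat.pow_lt_pow_iff_right hp.one_lt).1 this
  have hi : 0 < i := by
    rcases Nat.eq_zero_or_pos i with rfl | hi
    · simp at he; omega
    · exact hi
  obtain ⟨g, rfl⟩ : ∃ g, f = i + g + 1 := ⟨f - i - 1, by omega⟩
  obtain ⟨u, rfl⟩ : ∃ u, n = n0 + u := ⟨n - n0, by omega⟩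
  have hcop : Nat.Coprime p k := by
    rw [Nat.Prime.coprime_iff_not_dvd hp]
    intro hd
    have : p ∣ (n0 + u) * k + 1 := by rw [hnk]; exact dvd_pow_self p (by omega)
    exact hp.one_lt.ne' (Nat.dvd_one.1 ((Nat.dvd_add_right (hd.mul_left _)).1 this))
  have h3 : p ^ i ∣ u * k := by
    have a : p ^ i ∣ (n0 * k + 1) + u * k := by
      rw [show n0 * k + 1 + u * k = (n0 + u) * k + 1 by ring, hnk]
      exact pow_dvd_pow p (by omega)
    exact (Nat.dvd_add_right (by rw [hf]; exact dvd_mul_right _ _)).1 a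
  obtain ⟨j, rfl⟩ : p ^ i ∣ u := (Nat.Coprime.pow_left i hcop).dvd_of_dvd_mul_right h3
  have hj0 : j ≠ 0 := by rintro rfl; simp at h0
  have hje : j < e + 1 := by
    by_contra hc
    have : p ^ i * (e + 1) ≤ p ^ i * j := Nat.mul_le_mul_left _ (not_lt.1 hc)
    omega
  have hpar : (j + n0) % 2 = 0 := by
    have o : Odd (p ^ i) := (hp.odd_of_ne_two (by omega)).pow
    rw [← Nat.even_iff, add_comm]
    rw [Nat.even_add, Nat.even_mul] at hn
    rw [Nat.even_add, hn]
    simp [Nat.not_even_iff_odd.2 o]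
  have h4 : n0 * e + c + j * k = p ^ g * p := by
    apply Nat.eq_of_mul_eq_mul_left hpi
    rw [← mul_assoc, ← pow_add, ← pow_succ, ← hnk, mul_add, ← hf]; ring
  have h5 : (n0 * (n0 * e + c)) % p = j % p := by
    obtain ⟨i', rfl⟩ : ∃ i', i = i' + 1 := ⟨i - 1, by omega⟩
    have : n0 * (n0 * e + c) + p * (j * (p ^ i' * (n0 * e + c))) = j + p * (n0 * p ^ g) := by
      have a : p * (j * (p ^ i' * (n0 * e + c))) = j * (n0 * k + 1) := by rw [hf]; ring
      have b : p * (n0 * p ^ g) = n0 * (n0 * e + c + j * k) := by rw [h4]; ring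
      rw [a, b]; ring
    have := congrArg (· % p) this
    simpa using this
  rw [flOk, List.all_eq_false]
  refine ⟨j, List.mem_range.2 hje, ?_⟩
  simp [beq_false_of_ne hj0, hpar, h5]

def SemA (P : Par) (n k i : ℕ) (s : St) : Prop :=
  s.lo ≤ k / P.p ^ i ∧ (s.rn ≠ 0 → 1 < s.rn ∧ ∃ r, s.rn * (k / P.p ^ i) + s.rc = P.p ^ r) ∧
  (∀ x ∈ s.fl, P.p ≤ k ∧ x.1 < n ∧ x.1 * k + 1 = P.p ^ i * (x.1 * (k / P.p ^ i) + x.2)) ∧
  ∀ x ∈ s.d1, Sem1 P.p (k / P.p ^ i) x

def Sem (P : Par) (n k i : ℕ) (s : St) : Prop :=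
  k / P.p ^ i % P.p = s.e ∧ SemA P n k i s ∧ SemB P k i s.d2 s.w

def Pre (P : Par) (n k : ℕ) (fs : Bool) (j : ℕ) (B : St) : Prop :=
  SemA P n k j B ∧ (fs = true → SemB P k j B.d2 B.w) ∧
    (fs = false → ∃ i, j = i + 1 ∧ k / P.p ^ i % P.p = B.e ∧ SemB P k i B.d2 B.w)

theorem semB_sel (P : Par) (k i : ℕ) (d2 : List E2) (w : List TW) (a b : ℕ) (h : SemB P k i d2 w) :
    SemB P k i (sel d2 a) (sel w b) :=
  ⟨fun x hx => h.1 x (sel_mem _ _ x hx), fun x hx => h.2 x (sel_mem _ _ x hx)⟩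

theorem pre_mask (P : Par) (n k : ℕ) (fs : Bool) (j : ℕ) (B : St) (m : ℕ) (h : Pre P n k fs j B) :
    Pre P n k fs j (mask m B) := by
  unfold mask
  cases Nat.beq m 0
  · obtain ⟨⟨a1, a2, a3, a4⟩, b, c⟩ := h
    refine ⟨⟨a1, a2, fun x hx => a3 x (sel_mem _ _ x hx), fun x hx => a4 x (sel_mem _ _ x hx)⟩,
      fun hf => semB_sel _ _ _ _ _ _ _ (b hf), fun hf => ?_⟩
    obtain ⟨i, c1, c2, c3⟩ := c hf
    exact ⟨i, c1, c2, semB_sel _ _ _ _ _ _ _ c3⟩
  · exact h

theorem child_sound (P : Par) (hp : P.p.Prime) (h : P.ok = true) (n k : ℕ) (fs : Bool) (j : ℕ)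
    (B : St) (hB : Pre P n k fs j B) (kk : St → Bool)
    (hc : child P fs B (k / P.p ^ j % P.p) kk = true) : ∃ s, Sem P n k j s ∧ kk s = true := by
  cases fs
  · obtain ⟨i, rfl, c2, c3⟩ := hB.2.2 rfl
    simp only [child, cond_false, stB_eq] at hc
    refine ⟨_, ?_, hc⟩
    exact ⟨rfl, hB.1, semB_step P hp h k i _ _ c3 _ _ c2 rfl⟩
  · simp only [child, cond_true] at hc
    refine ⟨_, ?_, hc⟩
    exact ⟨rfl, hB.1, hB.2.1 rfl⟩

theorem rq_step (p rn rc K r : ℕ) (hp : 0 < p) (h1 : 1 < rn) (hK : 0 < K) (h : rn * K + rc = p ^ r) :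
    (rn * (K % p) + rc) % p = 0 ∧ ∃ r, rn * (K / p) + (rn * (K % p) + rc) / p = p ^ r := by
  cases r with
  | zero => rw [pow_zero] at h; nlinarith
  | succ r =>
    rw [← carry_mod, ← carry_div _ _ _ _ hp, h, pow_succ]
    exact ⟨Nat.mul_mod_left _ _, r, Nat.mul_div_cancel _ hp⟩

def nextB (P : Par) (s : St) : St :=
  ⟨s.e, (s.lo - s.e + (P.p - 1)) / P.p, s.rn, (s.rn * s.e + s.rc) / P.p, stfl P.p s.e s.fl,
    s.d1.map (st1 P.p s.e), s.d2, s.w⟩

theorem step1_eq (P : Par) (s : St) (kk : St → Bool) : step1 P s kk = kk (nextB P s) := by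
  simp [step1, nextB]

theorem pre_next (P : Par) (hp : P.p.Prime) (n k i : ℕ) (s : St) (hs : Sem P n k i s)
    (hK : 0 < k / P.p ^ i) : Pre P n k false (i + 1) (nextB P s) := by
  obtain ⟨he, ⟨a1, a2, a3, a4⟩, hb⟩ := hs
  refine ⟨⟨?_, fun h => ?_, fun x hx => ?_, fun x hx => ?_⟩, fun h => (by cases h),
    fun _ => ⟨i, rfl, he, hb⟩⟩
  · show (s.lo - s.e + (P.p - 1)) / P.p ≤ _
    rw [div_pow_succ, ← Nat.lt_succ_iff, Nat.div_lt_iff_lt_mul hp.pos, Nat.succ_mul]
    have := Nat.div_add_mod' (k / P.p ^ i) P.p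
    have := hp.pos
    omega
  · obtain ⟨b1, r, b2⟩ := a2 h
    refine ⟨b1, ?_⟩
    show ∃ r, s.rn * _ + (s.rn * s.e + s.rc) / P.p = _
    rw [div_pow_succ, ← he]
    exact (rq_step _ _ _ _ _ hp.pos b1 hK b2).2
  · simp only [nextB, stfl, List.mem_filterMap] at hx
    obtain ⟨y, hy, hx⟩ := hx
    obtain ⟨b1, b2, b3⟩ := a3 y hy
    cases hz : Nat.beq ((y.1 * s.e + y.2) % P.p) 0
    · rw [hz] at hx; cases hx
    · rw [hz] at hx
      cases hx
      refine ⟨b1, b2, ?_⟩
      have hz := Nat.eq_of_beq_eq_true hz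
      simp only
      rw [div_pow_succ, ← he, ← carry_div _ _ _ _ hp.pos, b3, pow_succ, mul_assoc,
        Nat.mul_div_cancel' (Nat.dvd_of_mod_eq_zero (by rw [carry_mod, he, hz]))]
  · obtain ⟨y, hy, rfl⟩ := List.mem_map.1 hx
    rw [div_pow_succ, ← he]
    exact sem1_step _ _ hp y (a4 y hy)

theorem dead1_false (P : Par) (hp : P.p.Prime) (n k j : ℕ) (B : St) (hB : SemA P n k j B) (a : ℕ) :
    dead1 P.p B a (k / P.p ^ j % P.p) = false := by
  unfold dead1
  split
  · rfl
  · rename_i x hx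
    exact sem1_ne _ _ _ (sem1_step _ _ hp x (hB.2.2.2 x (List.mem_of_getElem? hx)))

theorem cover_has (P : Par) (hp : P.p.Prime) (n k j : ℕ) (fs : Bool) (B : St) (hB : SemA P n k j B)
    (hK : 0 < k / P.p ^ j) (hf : fs = true → k / P.p ^ j % P.p ≠ 0) (t : T)
    (hc : cover P.p fs B t = true) : t.has (k / P.p ^ j % P.p) = true := by
  rw [cover, List.all_eq_true] at hc
  have := hc _ (List.mem_range.2 (Nat.mod_lt (k / P.p ^ j) hp.pos))
  rw [dead1_false P hp n k j B hB] at this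
  have h1 : (fs && Nat.beq (k / P.p ^ j % P.p) 0) = false := by
    cases fs
    · rfl
    · exact beq_false_of_ne (hf rfl)
  have h2 : rqDead P.p B (k / P.p ^ j % P.p) = false := by
    by_cases h0 : B.rn = 0
    · simp [rqDead, h0]
    · obtain ⟨b1, r, b2⟩ := hB.2.1 h0
      simp [rqDead, (rq_step _ _ _ _ _ hp.pos b1 hK b2).1]
  simpa [h1, h2] using this

theorem fin_false (P : Par) (hp : P.p.Prime) (hp2 : 2 < P.p) (h : P.ok = true) (n k f : ℕ)
    (hnk : n * k + 1 = P.p ^ f) (hn : Even n) (hlt : n < k) (i : ℕ) (s : St) (hs : Sem P n k i s)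
    (hK : 0 < k / P.p ^ i) (hK' : k / P.p ^ (i + 1) = 0) (c : ℕ) :
    fin P s (nextB P s) c = false := by
  have hB := (pre_next P hp n k i s hs hK).1
  have hlt' : k / P.p ^ i < P.p := by
    rw [div_pow_succ] at hK'
    exact (Nat.div_eq_zero_iff_lt hp.pos).1 hK'
  obtain ⟨he, ⟨a1, a2, a3, a4⟩, hb⟩ := hs
  have he' : k / P.p ^ i = s.e := by rw [← he, Nat.mod_eq_of_lt hlt']
  unfold fin
  split
  · have : Nat.blt s.e s.lo = false := by
      cases hx : Nat.blt s.e s.lo
      · rfl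
      · rw [Nat.blt_eq] at hx; omega
    rw [this, beq_false_of_ne (by omega)]; rfl
  · by_cases h0 : (nextB P s).rn = 0
    · simp [h0]
    · obtain ⟨_, r, hr⟩ := hB.2.1 h0
      rw [hK', mul_zero, zero_add] at hr
      rw [hr, notPow_false _ hp.pos]; simp
  · split
    · rfl
    · rename_i x hx
      obtain ⟨b1, b2, b3⟩ := a3 x (List.mem_of_getElem? hx)
      rw [← he']
      exact flOk_false P.p n k f i x.2 x.1 hp hp2 hnk hn hlt b1 b2 hK hlt' b3
  · split
    · rfl
    · rename_i x hx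
      have := hB.2.2.2 x (List.mem_of_getElem? hx)
      rw [hK'] at this
      exact zr1_sound _ hp _ x this
  · rw [stB_eq]
    exact zr2_false P hp h k _ 5 (i + 1) _ _ hK'
      (semB_step P hp h k i _ _ (semB_sel _ _ _ _ _ _ _ hb) _ _ he (by rw [hK']; simp))

theorem weak_sem (P : Par) (n k i : ℕ) (s t : St) (hs : Sem P n k i s) (hw : weak s t = true) :
    Sem P n k i t := by
  simp only [weak, Bool.and_eq_true, Nat.beq_eq, Nat.ble_eq, beq_iff_eq] at hw
  obtain ⟨⟨⟨⟨⟨⟨⟨w1, w2⟩, w3⟩, w4⟩, w5⟩, w6⟩, w7⟩, w8⟩ := hw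
  obtain ⟨he, ⟨a1, a2, a3, a4⟩, hb⟩ := hs
  exact ⟨w1 ▸ he, ⟨w2.trans a1, w3 ▸ w4 ▸ a2, w5 ▸ a3, w6 ▸ a4⟩, w7 ▸ w8 ▸ hb⟩

theorem chk_false (P : Par) (hp : P.p.Prime) (hp2 : 2 < P.p) (h : P.ok = true) (n k f : ℕ)
    (hnk : n * k + 1 = P.p ^ f) (hn : Even n) (hlt : n < k) (N : ℕ) (tab : ℕ → St) (j0 : ℕ)
    (IH : ∀ j, j0 ≤ j → 0 < k / P.p ^ j → ∀ x < N, ¬ Sem P n k j (tab x)) (t : T) :
    ∀ fs B j, j0 ≤ j → 0 < k / P.p ^ j → Pre P n k fs j B → t.has (k / P.p ^ j % P.p) = true →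
      chk P N tab t fs B = false := by
  induction t with
  | nil => intro fs B j _ _ _ hh; cases hh
  | dd d a r ih =>
    intro fs B j hj hK hB hh
    show (dead1 P.p B a d && chk P N tab r fs B) = false
    change (Nat.beq d _ || r.has _) = true at hh
    rcases Bool.or_eq_true_iff.1 hh with hh | hh
    · rw [Nat.eq_of_beq_eq_true hh, dead1_false P hp n k j B hB.1]; rfl
    · rw [ih fs B j hj hK hB hh]; simp
  | cl d m a r ih =>
    intro fs B j hj hK hB hh
    show (Nat.blt a N && child P fs (mask m B) d (fun s => weak s (tab a)) && chk P N tab r fs B) = false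
    change (Nat.beq d _ || r.has _) = true at hh
    rcases Bool.or_eq_true_iff.1 hh with hh | hh
    · rw [Nat.eq_of_beq_eq_true hh, Bool.eq_false_iff]
      intro hc
      simp only [Bool.and_eq_true, Nat.blt_eq] at hc
      obtain ⟨s, h1, h2⟩ := child_sound P hp h n k fs j _ (pre_mask P n k fs j B m hB) _ hc.1.2
      exact IH j hj hK a hc.1.1 (weak_sem P n k j s _ h1 h2)
    · rw [ih fs B j hj hK hB hh]; simp
  | nd d m c kd r ihk ih =>
    intro fs B j hj hK hB hh
    show (child P fs (mask m B) d (fun s => step1 P s fun B' =>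
      fin P s B' c && cover P.p false B' kd && chk P N tab kd false B') && chk P N tab r fs B) = false
    change (Nat.beq d _ || r.has _) = true at hh
    rcases Bool.or_eq_true_iff.1 hh with hh | hh
    · rw [Nat.eq_of_beq_eq_true hh, Bool.eq_false_iff]
      intro hc
      rw [Bool.and_eq_true] at hc
      obtain ⟨s, h1, h2⟩ := child_sound P hp h n k fs j _ (pre_mask P n k fs j B m hB) _ hc.1
      simp only [step1_eq, Bool.and_eq_true] at h2
      have hn' := pre_next P hp n k j s h1 hK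
      rcases Nat.eq_zero_or_pos (k / P.p ^ (j + 1)) with h0 | h0
      · rw [fin_false P hp hp2 h n k f hnk hn hlt j s h1 hK h0] at h2
        exact absurd h2.1.1 (by simp)
      · rw [ihk false _ (j + 1) (by omega) h0 hn'
          (cover_has P hp n k _ false _ hn'.1 h0 (by simp) kd h2.1.2)] at h2
        exact absurd h2.2 (by simp)
    · rw [ih fs B j hj hK hB hh]; simp

theorem tab_false (P : Par) (hp : P.p.Prime) (hp2 : 2 < P.p) (h : P.ok = true) (n k f : ℕ)
    (hnk : n * k + 1 = P.p ^ f) (hn : Even n) (hlt : n < k) (N : ℕ) (tab : ℕ → St)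
    (ht : ∀ x < N, ∃ c t, nodeOk P N tab (tab x) c t = true) :
    ∀ j, 0 < k / P.p ^ j → ∀ x < N, ¬ Sem P n k j (tab x) := by
  have key : ∀ m j, k < j + m → 0 < k / P.p ^ j → ∀ x < N, ¬ Sem P n k j (tab x) := by
    intro m
    induction m with
    | zero =>
      intro j hj hK
      rw [Nat.div_eq_of_lt (lt_trans (show k < j from hj) (Nat.lt_pow_self hp.one_lt))] at hK
      exact absurd hK (lt_irrefl _)
    | succ m ih =>
      intro j hj hK x hx h1
      obtain ⟨c, t, h2⟩ := ht x hx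
      simp only [nodeOk, step1_eq, Bool.and_eq_true] at h2
      have hn' := pre_next P hp n k j _ h1 hK
      rcases Nat.eq_zero_or_pos (k / P.p ^ (j + 1)) with h0 | h0
      · rw [fin_false P hp hp2 h n k f hnk hn hlt j _ h1 hK h0] at h2
        exact absurd h2.1.1 (by simp)
      · rw [chk_false P hp hp2 h n k f hnk hn hlt N tab (j + 1) (fun j' hj' => ih j' (by omega)) t
          false _ (j + 1) le_rfl h0 hn' (cover_has P hp n k _ false _ hn'.1 h0 (by simp) t h2.1.2)] at h2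
        exact absurd h2.2 (by simp)
  intro j
  exact key (k + 1) j (by omega)

theorem tabOk_spec (P : Par) (N : ℕ) (tab : ℕ → St) (l : List (ℕ × T)) :
    ∀ j, tabOk P N tab l j = true → ∀ x, j ≤ x → x < j + l.length →
      ∃ c t, nodeOk P N tab (tab x) c t = true := by
  induction l with
  | nil => intro j _ x h1 h2; simp at h2; omega
  | cons a r ih =>
    intro j hj x h1 h2
    change (nodeOk P N tab (tab j) a.1 a.2 && tabOk P N tab r (j + 1)) = true at hj
    rw [Bool.and_eq_true] at hj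
    rcases h1.eq_or_lt with rfl | h1
    · exact ⟨_, _, hj.1⟩
    · exact ih _ hj.2 x h1 (by simp at h2; omega)

/-- the congruence modulo the square of `p` attached to `s` -/
def Eq2 (P : Par) (k s : ℕ) : Prop :=
  2 + ((List.range' 1 (P.p * s / 2)).map fun t =>
    (cf (P.p * P.p) (P.p * s) t : RR P) * ((P.p * s * k).choose (t * k) : RR P)).sum = 0

/-- the consequence of the congruence modulo `p` attached to `s` -/
def Eq1 (p k s : ℕ) : Prop := ∃ t, 1 ≤ t ∧ t ≤ s / 2 ∧ ¬ p ∣ (s * k).choose (t * k)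

theorem sem_init1 (p k s : ℕ) (h : Eq1 p k s) : Sem1 p k (init1 s) := by
  obtain ⟨t, h1, h2, h3⟩ := h
  exact ⟨(t, 0), List.mem_map.2 ⟨t, List.mem_range'_1.2 ⟨h1, by omega⟩, rfl⟩, h3⟩

theorem sem_init2 (P : Par) (k : ℕ) (x : ℕ × List ℕ) (h : Eq2 P k x.1) :
    Sem2 P k 0 (init2 P.p x) := by
  refine ⟨by simp [init2], fun y hy => ?_, ?_⟩
  · obtain ⟨t, _, rfl⟩ := List.mem_map.1 hy
    simp
  · have key : ∀ l : List ℕ,
        msum P (Lf P k 0) (P.p * x.1) 0 k ((l.filter fun t => x.2.contains t).map fun t => (t, 0, 0)) -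
        (l.map fun t => (cf (P.p * P.p) (P.p * x.1) t : RR P) *
          ((P.p * x.1 * k).choose (t * k) : RR P)).sum ∈
        osp P (P.p * x.1) 0 k ((l.filter fun t => !(x.2.contains t)).map fun t => (t, 0, 0)) := by
      intro l
      induction l with
      | nil => simp [msum]
      | cons a r ih =>
        cases ha : x.2.contains a
        · simp only [List.filter_cons, ha, Bool.not_false, Bool.false_eq_true, if_false, if_true,
            List.map_cons, List.sum_cons]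
          rw [sub_add_eq_sub_sub_swap]
          refine Ideal.sub_mem _ (Ideal.span_mono ?_ ih) (Ideal.mul_mem_left _ _
            (Ideal.subset_span ⟨_, List.mem_cons_self, by simp [trm]⟩))
          rintro z ⟨y, hy, rfl⟩
          exact ⟨y, List.mem_cons_of_mem _ hy, rfl⟩
        · simp only [List.filter_cons, ha, Bool.not_true, Bool.false_eq_true, if_false, if_true,
            List.map_cons, List.sum_cons]
          convert ih using 1
          simp [msum, trm, Lf]
    have := key (List.range' 1 (P.p * x.1 / 2))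
    rw [eq_neg_of_add_eq_zero_right h, sub_neg_eq_add, add_comm] at this
    simpa [init2] using this

theorem run_false (P : Par) (hp : P.p.Prime) (hp2 : 2 < P.p) (h : P.ok = true) (n k f : ℕ)
    (hnk : n * k + 1 = P.p ^ f) (hn : Even n) (hlt : n < k) (N : ℕ) (tab : ℕ → St)
    (ht : ∀ x < N, ∃ c t, nodeOk P N tab (tab x) c t = true) (h2 : 2 < n) (R : Root) (lo rn rc : ℕ)
    (hlo : lo ≤ k) (hr : rn ≠ 0 → rn = n ∧ rc = 1) (h0 : ∀ x ∈ R.n0, P.p ≤ k ∧ x < n)
    (hs : ∀ s ∈ R.s1 ++ R.s2.map Prod.fst, Eq1 P.p k s ∧ Eq2 P k s) :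
    R.run P N tab lo rn rc = false := by
  have hpre : Pre P n k true 0 (R.st P.p lo rn rc) := by
    refine ⟨⟨by simpa [Root.st] using hlo, fun hh => ?_, fun x hx => ?_, fun x hx => ?_⟩,
      fun _ => ⟨fun x hx => ?_, fun x hx => ?_⟩, fun hh => by cases hh⟩
    · obtain ⟨a, b⟩ := hr hh
      exact ⟨by show 1 < rn; omega, f, by simpa [Root.st, a, b] using hnk⟩
    · obtain ⟨y, hy, rfl⟩ := List.mem_map.1 hx
      exact ⟨(h0 y hy).1, (h0 y hy).2, by simp⟩
    · obtain ⟨y, hy, rfl⟩ := List.mem_map.1 hx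
      simpa using sem_init1 _ _ _ (hs y (List.mem_append_left _ hy)).1
    · obtain ⟨y, hy, rfl⟩ := List.mem_map.1 hx
      exact sem_init2 P k y (hs y.1 (List.mem_append_right _ (List.mem_map_of_mem hy))).2
    · obtain ⟨y, hy, rfl⟩ := List.mem_map.1 hx
      simp [tsum, Lf, Nat.ModEq]
  have hK : 0 < k / P.p ^ 0 := by simp; omega
  rw [Bool.eq_false_iff]
  intro hc
  simp only [Root.run, frcLE1, frcLE2, Bool.and_eq_true] at hc
  have hd : k / P.p ^ 0 % P.p ≠ 0 := by
    rw [pow_zero, Nat.div_one]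
    intro hd
    have hf : f ≠ 0 := by rintro rfl; rw [pow_zero] at hnk; nlinarith
    have : P.p ∣ n * k + 1 := by rw [hnk]; exact dvd_pow_self _ hf
    exact hp.one_lt.ne' (Nat.dvd_one.1 ((Nat.dvd_add_right
      ((Nat.dvd_of_mod_eq_zero hd).mul_left _)).1 this))
  have := chk_false P hp hp2 h n k f hnk hn hlt N tab 0
    (fun j _ => tab_false P hp hp2 h n k f hnk hn hlt N tab ht j) R.t true _ 0 le_rfl hK hpre
    (cover_has P hp n k 0 true _ hpre.1 hK (fun _ => hd) R.t hc.1)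
  exact absurd (hc.2.symm.trans this) (by simp)

theorem fixOk_spec (P : Par) (N : ℕ) (tab : ℕ → St) (ex : List ℕ) (l : List Root) :
    ∀ n0, fixOk P N tab ex l n0 = true → ∀ j < l.length, (n0 + 2 * j) % P.p ≠ 0 → n0 + 2 * j ∉ ex →
      ∃ R : Root, R.fix P N tab (n0 + 2 * j) = true := by
  induction l with
  | nil => intro _ _ j hj; simp at hj
  | cons a r ih =>
    intro n0 hh j hj h1 h2
    change ((Nat.beq (n0 % P.p) 0 || ex.contains n0 || a.fix P N tab n0) &&
      fixOk P N tab ex r (n0 + 2)) = true at hh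
    rw [Bool.and_eq_true] at hh
    cases j with
    | zero =>
      refine ⟨a, ?_⟩
      simpa [beq_false_of_ne (show n0 % P.p ≠ 0 from h1), (show n0 ∉ ex from h2)] using hh.1
    | succ j =>
      have e : n0 + 2 * (j + 1) = n0 + 2 + 2 * j := by ring
      rw [e] at h1 h2 ⊢
      exact ih _ hh.2 j (by simpa using hj) h1 h2

theorem cert_sound (P : Par) (hp : P.p.Prime) (hp2 : 2 < P.p) (h : P.ok = true) (N : ℕ) (tab : ℕ → St)
    (ht : ∀ x < N, ∃ c t, nodeOk P N tab (tab x) c t = true) (big : Root) (b : ℕ)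
    (hb : big.big P N tab b = true) (ex : List ℕ) (l : List Root) (hl : fixOk P N tab ex l 4 = true)
    (hlen : b < 4 + 2 * l.length) (n k f : ℕ) (hnk : n * k + 1 = P.p ^ f) (hn : Even n) (h2 : 2 < n)
    (hlt : n < k) (hs : ∀ s, Even s → ¬ n ∣ s → Eq1 P.p k s ∧ Eq2 P k s) : n ∈ ex := by
  by_contra hex
  by_cases hc : b < n
  · simp only [Root.big, Bool.and_eq_true, Nat.ble_eq, List.all_eq_true, Nat.beq_eq, Nat.blt_eq] at hb
    obtain ⟨⟨⟨b1, b2⟩, b3⟩, b4⟩ := hb
    rw [run_false P hp hp2 h n k f hnk hn hlt N tab ht h2 big _ _ _ (by omega) (fun h => absurd rfl h)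
      (fun x hx => ⟨by omega, by have := b3 x hx; omega⟩) fun s hx => hs s
        (Nat.even_iff.2 (b2 s hx).1.1) fun hd => by
          have := Nat.le_of_dvd (b2 s hx).1.2 hd
          have := (b2 s hx).2
          omega] at b4
    cases b4
  · obtain ⟨m, hm⟩ := hn
    have e : n = 4 + 2 * (m - 2) := by omega
    have hnp : n % P.p ≠ 0 := by
      intro hd
      have hf : f ≠ 0 := by rintro rfl; rw [pow_zero] at hnk; nlinarith
      have : P.p ∣ n * k + 1 := by rw [hnk]; exact dvd_pow_self _ hf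
      exact hp.one_lt.ne' (Nat.dvd_one.1 ((Nat.dvd_add_right
        ((Nat.dvd_of_mod_eq_zero hd).mul_right _)).1 this))
    obtain ⟨R, hR⟩ := fixOk_spec P N tab ex l 4 hl (m - 2) (by omega) (e ▸ hnp) (e ▸ hex)
    rw [← e] at hR
    simp only [Root.fix, Bool.and_eq_true, List.all_eq_true, Nat.beq_eq, nbeq_iff,
      List.isEmpty_iff] at hR
    obtain ⟨⟨b2, b3⟩, b4⟩ := hR
    rw [run_false P hp hp2 h n k f hnk ⟨m, hm⟩ hlt N tab ht h2 R _ _ _ (by omega) (fun _ => ⟨rfl, rfl⟩)
      (fun x hx => by rw [b3] at hx; cases hx) fun s hx => hs s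
        (Nat.even_iff.2 (b2 s hx).1) fun hd => (b2 s hx).2 (Nat.mod_eq_zero_of_dvd hd)] at b4
    cases b4

end

end Pool.Agent.P.MP_111ca2_co
end

-- part Pool.Agent.P.MP_111ca2_co.DS2
section

/-! Folding the congruences, characteristic two, index four, and the reduction to certificates. -/

namespace Pool.Agent.P.MP_111ca2_co

open Finset

noncomputable section

theorem altS_fold (k h : ℕ) : altS k (2 * (h + 1)) = 2 + ∑ t ∈ range (h + 1),
    (if 2 * (1 + t) = 2 * (h + 1) then 1 else 2) * (-1) ^ (1 + t) *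
      ((2 * (h + 1) * k).choose ((1 + t) * k) : ℤ) := by
  set F : ℕ → ℤ := fun t => (-1) ^ t * ((2 * (h + 1) * k).choose (t * k) : ℤ) with hF
  have hsym : ∀ t, t ≤ h → F (h + 1 + 1 + (h + 1 - 1 - t)) = F t := by
    intro t ht
    obtain ⟨u, rfl⟩ := Nat.exists_eq_add_of_le ht
    simp only [hF]
    rw [show t + u + 1 + 1 + (t + u + 1 - 1 - t) = t + 2 * (u + 1) by omega, pow_add, pow_mul,
      Nat.choose_symm_of_eq_add (show 2 * (t + u + 1) * k = (t + 2 * (u + 1)) * k + t * k by ring)]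
    ring
  have e1 : altS k (2 * (h + 1)) = ∑ t ∈ range (h + 1), F t + F (h + 1) + ∑ t ∈ range (h + 1), F t := by
    rw [altS, show 2 * (h + 1) + 1 = h + 1 + 1 + (h + 1) by ring, sum_range_add, sum_range_succ,
      ← sum_range_reflect (fun x => F (h + 1 + 1 + x))]
    congr 1
    exact sum_congr rfl fun t ht => hsym t (by have := mem_range.1 ht; omega)
  have e2 : ∑ t ∈ range h, (if 2 * (1 + t) = 2 * (h + 1) then 1 else 2) * (-1) ^ (1 + t) *
      ((2 * (h + 1) * k).choose ((1 + t) * k) : ℤ) = 2 * ∑ t ∈ range h, F (t + 1) := by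
    rw [mul_sum]
    refine sum_congr rfl fun t ht => ?_
    rw [if_neg (by have := mem_range.1 ht; omega), add_comm 1 t, mul_assoc]
  have e3 : F 0 = 1 := by simp [hF]
  rw [e1, sum_range_succ', sum_range_succ _ h, e2, if_pos (by ring), e3, add_comm 1 h]
  simp only [hF]
  ring

theorem eq1_of (p k s : ℕ) (hp2 : 2 < p) (he : Even s) (h0 : s ≠ 0) (h : (p : ℤ) ∣ altS k s) :
    Eq1 p k s := by
  obtain ⟨m, rfl⟩ : ∃ m, s = 2 * (m + 1) := by
    obtain ⟨m, hm⟩ := he
    exact ⟨m - 1, by omega⟩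
  by_contra hc
  rw [altS_fold] at h
  have : (p : ℤ) ∣ 2 := (dvd_add_left (dvd_sum fun t ht => Dvd.dvd.mul_left (by
    by_contra hd
    exact hc ⟨1 + t, by omega, by have := mem_range.1 ht; omega,
      fun h => hd (Int.natCast_dvd_natCast.2 h)⟩) _)).1 h
  have := Int.le_of_dvd (by norm_num) this
  omega

theorem sum_range'_map {R : Type} [AddCommMonoid R] (f : ℕ → R) (h : ℕ) :
    ((List.range' 1 h).map f).sum = ∑ t ∈ range h, f (1 + t) := by
  induction h with
  | zero => simp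
  | succ h ih => rw [List.range'_1_concat, List.map_append, List.sum_append, ih, sum_range_succ]; simp

theorem cf_cast (P : Par) (hp2 : 2 < P.p) (S t : ℕ) :
    (cf (P.p * P.p) S t : RR P) = (if 2 * t = S then 1 else 2) * (-1) ^ t := by
  have h1 : 2 ≤ P.p * P.p := by nlinarith
  unfold cf
  rcases Nat.even_or_odd t with ht | ht
  · rw [ht.neg_one_pow, Nat.even_iff.1 ht]
    by_cases h : 2 * t = S
    · simp [h]
    · simp [h, beq_false_of_ne h]
  · rw [ht.neg_one_pow, Nat.odd_iff.1 ht]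
    by_cases h : 2 * t = S
    · simp [h, Nat.cast_sub (show 1 ≤ P.p * P.p by omega), Nat.beq]
    · simp [h, beq_false_of_ne h, Nat.cast_sub h1, Nat.beq]

theorem eq2_of (P : Par) (k s : ℕ) (hp2 : 2 < P.p) (he : Even s) (h0 : s ≠ 0)
    (h : (P.p : ℤ) ^ 2 ∣ altS k (P.p * s)) : Eq2 P k s := by
  obtain ⟨m, hm⟩ : ∃ m, P.p * s = 2 * (m + 1) := by
    obtain ⟨m, hm⟩ := he.mul_left P.p
    have : 0 < P.p * s := Nat.mul_pos (by omega) (Nat.pos_of_ne_zero h0)
    exact ⟨m - 1, by omega⟩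
  have h1 : ((altS k (P.p * s) : ℤ) : RR P) = 0 := by
    rw [ZMod.intCast_zmod_eq_zero_iff_dvd]
    simpa [sq] using h
  rw [Eq2, sum_range'_map, hm, Nat.mul_div_cancel_left _ (by norm_num : 0 < 2), ← h1, hm, altS_fold]
  push_cast
  simp only [cf_cast P hp2]

theorem two_case (k : ℕ) (hk : Odd k) (h1 : 1 < k) : ¬ ((2 : ℕ) : ℤ) ^ (1 + 1) ∣ altS k (2 ^ 1 * 1) := by
  intro h
  rw [show 2 ^ 1 * 1 = 2 * (0 + 1) by norm_num, altS_fold] at h
  obtain ⟨j, rfl⟩ := hk
  have := Fact.mk Nat.prime_two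
  have a := Choose.choose_modEq_choose_mod_mul_choose_div_nat (n := 4 * j + 1) (k := 2 * j) (p := 2)
  rw [show (4 * j + 1) % 2 = 1 by omega, show 2 * j % 2 = 0 by omega,
    show (4 * j + 1) / 2 = 2 * j by omega, show 2 * j / 2 = j by omega] at a
  have b : 2 ∣ (2 * j).choose j := Nat.two_dvd_centralBinom_of_one_le (by omega)
  obtain ⟨c, hc⟩ := (a.dvd_iff dvd_rfl).2 (b.mul_left _)
  have d : (2 * (2 * j + 1)).choose (2 * j + 1) = 2 * (2 * c) := by
    rw [show 2 * (2 * j + 1) = 4 * j + 1 + 1 by ring, Nat.choose_succ_succ',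
      Nat.choose_symm_of_eq_add (show 4 * j + 1 = 2 * j + 1 + 2 * j by ring), hc]
    ring
  simp only [zero_add, range_one, sum_singleton, add_zero, mul_one, one_mul, if_true, d] at h
  push_cast at h
  omega

/-! ### the equation `1 + b ^ 2 = p ^ f` -/

theorem gauss_pow (e : ℤ) (m : ℕ) : 0 < m → ∃ (v : ℕ) (x y : ℤ), Odd x ∧
    (⟨1, 2 * e⟩ : GaussianInt) ^ (2 * m) = ⟨1 + (2 * e) ^ 2 * 2 ^ v * x, 2 * e * 2 ^ (v + 1) * y⟩ := by
  have odd_case : ∀ j : ℕ, ∃ x y : ℤ, Odd x ∧
      (⟨1, 2 * e⟩ : GaussianInt) ^ (2 * (2 * j + 1)) = ⟨1 + (2 * e) ^ 2 * x, 2 * e * 2 * y⟩ := by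
    intro j
    induction j with
    | zero => exact ⟨-1, 1, by norm_num, by ext <;> simp [sq]; ring⟩
    | succ j ih =>
      obtain ⟨x, y, hx, h⟩ := ih
      refine ⟨x + 2 * (-3 + 2 * e ^ 2 + 2 * e ^ 2 * x * (4 * e ^ 2 - 6) - 4 * y * (1 - 4 * e ^ 2)),
        y * (1 + 4 * e ^ 2 * (4 * e ^ 2 - 6)) + 2 * (1 - 4 * e ^ 2) * (1 + 4 * e ^ 2 * x),
        hx.add_even (even_two_mul _), ?_⟩
      rw [show 2 * (2 * (j + 1) + 1) = 2 * (2 * j + 1) + 4 by ring, pow_add, h]
      ext <;> simp [pow_succ] <;> ring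
  induction m using Nat.strong_induction_on with
  | _ m ih =>
    intro hm
    rcases Nat.even_or_odd' m with ⟨j, rfl | rfl⟩
    · obtain ⟨v, x, y, hx, h⟩ := ih j (by omega) (by omega)
      refine ⟨v + 1, x + 2 * (e ^ 2 * 2 ^ v * x ^ 2 - 2 ^ v * y ^ 2),
        y * (1 + (2 * e) ^ 2 * 2 ^ v * x), hx.add_even (even_two_mul _), ?_⟩
      rw [show 2 * (2 * j) = 2 * j + 2 * j by ring, pow_add, h]
      ext <;> simp [pow_succ] <;> ring
    · obtain ⟨x, y, hx, h⟩ := odd_case j
      exact ⟨0, x, y, hx, by rw [h]; simp⟩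

theorem lebesgue (p f : ℕ) (b : ℤ) (hp : Odd p) (hf : 2 ≤ f) (h : 1 + b ^ 2 = (p : ℤ) ^ f) : b = 0 := by
  rcases Nat.even_or_odd' f with ⟨m, rfl | rfl⟩
  · rw [mul_comm, pow_mul] at h
    have h1 : ((p : ℤ) ^ m - b) * ((p : ℤ) ^ m + b) = 1 := by linear_combination (-1 : ℤ) * h
    rcases Int.eq_one_or_neg_one_of_mul_eq_one' h1 with h2 | h2 <;> omega
  by_contra hb
  set f := 2 * m + 1 with hf'
  have hfo : Odd f := ⟨m, rfl⟩
  have hq : Odd ((p : ℤ) ^ f) := ((Int.odd_coe_nat p).2 hp).pow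
  have hm : (⟨1, b⟩ : GaussianInt) * ⟨1, -b⟩ = (p : GaussianInt) ^ f := by
    have : ((p : GaussianInt)) ^ f = (((p : ℤ) ^ f : ℤ) : GaussianInt) := by push_cast; rfl
    rw [this, ← h]
    ext <;> simp [sq]
  have hcop : IsCoprime (⟨1, b⟩ : GaussianInt) ⟨1, -b⟩ := by
    obtain ⟨r, hr⟩ := hq
    refine ⟨⟨1, -b⟩ - (r : GaussianInt), -(r : GaussianInt), ?_⟩
    rw [← h] at hr
    ext
    · simp; linear_combination hr
    · simp; ring
  obtain ⟨d, u, hu⟩ := exists_associated_pow_of_mul_eq_pow' hcop hm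
  have hu4 : (u : GaussianInt) ^ 4 = 1 := by
    have h1 : (u : GaussianInt).norm = 1 := (Zsqrtd.norm_eq_one_iff' (by norm_num) _).2 u.isUnit
    rw [Zsqrtd.norm_def] at h1
    have h2 : (u : GaussianInt).re * (u : GaussianInt).im = 0 := by
      have a1 : (u : GaussianInt).re ^ 2 ≤ 1 := by nlinarith [sq_nonneg (u : GaussianInt).im]
      have a2 : -1 ≤ (u : GaussianInt).re ∧ (u : GaussianInt).re ≤ 1 := by constructor <;> nlinarith
      obtain ⟨a3, a4⟩ := a2
      generalize (u : GaussianInt).re = x at *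
      generalize (u : GaussianInt).im = y at *
      interval_cases x <;> nlinarith
    ext
    · simp [pow_succ]
      linear_combination ((u : GaussianInt).re ^ 2 + (u : GaussianInt).im ^ 2 + 1) * h1
        - 8 * (u : GaussianInt).re * (u : GaussianInt).im * h2
    · simp [pow_succ]
      linear_combination 4 * ((u : GaussianInt).re ^ 2 - (u : GaussianInt).im ^ 2) * h2
  have hz : (d * (u : GaussianInt) ^ f) ^ f = ⟨1, b⟩ := by
    rw [mul_pow, ← pow_mul, show f * f = 4 * (m * m + m) + 1 by rw [hf']; ring, pow_succ (u : GaussianInt),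
      pow_mul (u : GaussianInt), hu4, one_pow, one_mul, hu]
  generalize d * (u : GaussianInt) ^ f = z at hz
  obtain ⟨a, c⟩ := z
  have ha : a = 1 ∨ a = -1 := by
    have h1 := Odd.add_dvd_pow_add_pow (⟨a, c⟩ : GaussianInt) (star ⟨a, c⟩) hfo
    rw [← star_pow, hz] at h1
    obtain ⟨w, hw⟩ := h1
    have h2 := congrArg Zsqrtd.re hw
    simp at h2
    exact Int.eq_one_or_neg_one_of_mul_eq_one (v := w.re) (by linarith)
  have hn : (a * a + c * c) ^ f = (p : ℤ) ^ f := by
    have := congrArg Zsqrtd.norm hz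
    rw [show ((⟨a, c⟩ : GaussianInt) ^ f).norm = (⟨a, c⟩ : GaussianInt).norm ^ f from
      map_pow Zsqrtd.normMonoidHom _ _, Zsqrtd.norm_def, Zsqrtd.norm_def] at this
    simp at this
    rw [← h]; linear_combination this
  have haa : a * a = 1 := by rcases ha with rfl | rfl <;> norm_num
  have hc : Even c := by
    by_contra hc
    rw [Int.not_even_iff_odd] at hc
    have : Even ((a * a + c * c) ^ f) :=
      (Int.even_pow' (by omega)).2 (by rw [haa]; exact odd_one.add_odd (hc.mul hc))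
    rw [hn] at this
    exact (Int.not_even_iff_odd.2 hq) this
  obtain ⟨e, rfl⟩ := hc
  have he : e ≠ 0 := by
    rintro rfl
    rw [haa, ← h] at hn
    simp at hn
    exact hb hn
  obtain ⟨v, x, y, hx, hg⟩ := gauss_pow (a * e) m (by omega)
  have h3 : (⟨a, e + e⟩ : GaussianInt) = (a : GaussianInt) * ⟨1, 2 * (a * e)⟩ := by
    ext
    · simp
    · simp; linear_combination (-2 * e) * haa
  have h4 : (a : GaussianInt) ^ f = a := by
    rcases ha with rfl | rfl
    · simp
    · simp [hfo.neg_one_pow]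
  rw [h3, mul_pow, h4, hf', pow_succ, hg] at hz
  have h5 := congrArg Zsqrtd.re hz
  simp at h5
  have h6 : a * (1 + 4 * e ^ 2 * 2 ^ v * (x - 2 * y)) = 1 := by
    linear_combination h5 - (4 * a * e ^ 2 * 2 ^ v * (x - 2 * y)) * haa
  rcases ha with rfl | rfl
  · have : 4 * e ^ 2 * 2 ^ v * (x - 2 * y) = 0 := by linarith
    obtain ⟨r, hr⟩ := hx
    rcases mul_eq_zero.1 this with h7 | h7
    · have : 0 < 4 * e ^ 2 * 2 ^ v := by positivity
      omega
    · omega
  · have : 2 * (e ^ 2 * 2 ^ v * (x - 2 * y)) = -1 := by linarith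
    omega

/-! ### index four -/

variable {K : Type} [Field K] [Fintype K] [DecidableEq K]

theorem four_case {k lam : ℕ} (hk : 0 < k) (hq : Fintype.card K = 4 * k + 1) {g : K}
    (hg : IsPrimitiveRoot g (4 * k)) (hl : ∀ g : K, g ≠ 0 → rr k g = lam) :
    ∃ b : ℤ, 1 + b ^ 2 = Fintype.card K := by
  have hg0 : g ≠ 0 := hg.ne_zero (by positivity)
  have : NeZero (4 * k) := ⟨by positivity⟩
  have hgen : ∀ x : K, x ≠ 0 → ∃ m, g ^ m = x := fun x hx => by
    obtain ⟨m, _, hm⟩ := hg.eq_pow_of_pow_eq_one (ξ := x) (by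
      rw [← FiniteField.pow_card_sub_one_eq_one x hx, hq]; rfl)
    exact ⟨m, hm⟩
  have hgen' : ∀ x : Kˣ, x ∈ Subgroup.zpowers (Units.mk0 g hg0) := fun x => by
    obtain ⟨m, hm⟩ := hgen x x.ne_zero
    exact ⟨m, by ext; simp [hm]⟩
  have hI : Units.mk0 Complex.I Complex.I_ne_zero ∈ rootsOfUnity (Fintype.card Kˣ) ℂ := by
    rw [mem_rootsOfUnity, Fintype.card_units, hq]
    ext; simp [pow_mul]
  set χ : MulChar K ℂ := MulChar.ofRootOfUnity hI hgen' with hχ
  have c1 : χ g = Complex.I := MulChar.ofRootOfUnity_spec hI hgen'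
  have cp : ∀ j m : ℕ, (χ ^ j) (g ^ m) = (Complex.I ^ m) ^ j := fun j m => by
    have := MulChar.pow_apply_coe χ j (Units.mk0 g hg0 ^ m)
    simp only [Units.val_pow_eq_pow_val, Units.val_mk0] at this
    rw [this, map_pow, c1]
  have hI4 : IsPrimitiveRoot Complex.I 4 := Complex.isPrimitiveRoot_I
  have ne1 : ∀ j, ¬ 4 ∣ j → χ ^ j ≠ 1 := fun j hj h => by
    have := cp j 1
    rw [h, MulChar.one_apply (by simpa using hg0), pow_one] at this
    exact hj (hI4.dvd_of_pow_eq_one j this.symm)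
  have c4 : χ ^ 4 = 1 := by
    ext x
    obtain ⟨m, hm⟩ := hgen x x.ne_zero
    rw [← hm, cp, ← pow_mul, mul_comm, pow_mul, MulChar.one_apply (by simp [hg0])]
    simp
  have memD : ∀ m, g ^ m ∈ DD K k ↔ 4 ∣ m := fun m => by
    rw [mem_DD, ← pow_mul, hg.pow_eq_one_iff_dvd]
    exact Nat.mul_dvd_mul_iff_right hk
  have cm1 : (χ ^ 2) (-1) = 1 := by
    rw [MulChar.pow_apply' _ (by norm_num), ← map_pow]; simp
  have z := main_sum hk hl (fun y => (χ ^ 2) y) (MulChar.map_zero _) (fun d hd y => by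
    obtain ⟨m, rfl⟩ := hgen d (ne_zero_of_mem_DD hk hd)
    obtain ⟨t, rfl⟩ := (memD m).1 hd
    rw [map_mul, cp, pow_mul]; simp)
  rw [MulChar.sum_eq_zero_of_ne_one (ne1 2 (by norm_num)), smul_zero, card_DD hk (by norm_num) hg,
    nsmul_eq_mul, mul_eq_zero] at z
  have z0 : ∑ x ∈ DD K k, (χ ^ 2) (1 - x) = 0 := by
    rw [← z.resolve_left (by exact_mod_cast hk.ne')]
    refine sum_congr rfl fun x _ => ?_
    rw [← neg_sub, ← neg_one_mul, map_mul, cm1, one_mul]
  have z1 : jacobiSum (χ ^ 0) (χ ^ 2) + jacobiSum (χ ^ 1) (χ ^ 2) + jacobiSum (χ ^ 2) (χ ^ 2) +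
      jacobiSum (χ ^ 3) (χ ^ 2) = 4 * ∑ x ∈ DD K k, (χ ^ 2) (1 - x) := by
    simp only [jacobiSum, ← sum_add_distrib, ← add_mul]
    rw [DD, sum_filter, mul_sum]
    refine sum_congr rfl fun x _ => ?_
    by_cases hx : x = 0
    · simp [hx, MulChar.map_zero, hk.ne']
    · obtain ⟨m, rfl⟩ := hgen x hx
      simp only [cp, ← mem_DD, memD]
      split_ifs with h
      · obtain ⟨t, rfl⟩ := h
        rw [pow_mul]; simp; norm_num
      · have a : Complex.I ^ m - 1 ≠ 0 := sub_ne_zero.2 fun h' => h (hI4.dvd_of_pow_eq_one m h')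
        have b : (Complex.I ^ m) ^ 4 = 1 := by rw [← pow_mul, mul_comm, pow_mul]; simp
        have : (Complex.I ^ m) ^ 0 + (Complex.I ^ m) ^ 1 + (Complex.I ^ m) ^ 2 + (Complex.I ^ m) ^ 3 = 0 :=
          mul_left_cancel₀ a (by linear_combination b)
        rw [this]; simp
  have i2 : (χ ^ 2)⁻¹ = χ ^ 2 := inv_eq_of_mul_eq_one_right (by rw [← pow_add, c4])
  have i1 : (χ ^ 1)⁻¹ = χ ^ 3 := inv_eq_of_mul_eq_one_right (by rw [← pow_add, c4])
  have j2 : jacobiSum (χ ^ 2) (χ ^ 2) = -1 := by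
    have := jacobiSum_nontrivial_inv (ne1 2 (by norm_num))
    rwa [i2, cm1] at this
  have jj := jacobiSum_mul_jacobiSum_inv (F := K) (F' := ℂ) (by
    rw [ringChar.eq_zero]; exact (CharP.ringChar_ne_zero_of_finite K).symm)
    (ne1 1 (by norm_num)) (ne1 2 (by norm_num)) (by rw [← pow_add]; exact ne1 3 (by norm_num))
  rw [pow_zero, jacobiSum_one_nontrivial (ne1 2 (by norm_num)), j2, z0] at z1
  rw [i1, i2] at jj
  have hmem : ∀ j y, (χ ^ j) y ∈ GaussianInt.toComplex.range := fun j y => by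
    by_cases hy : y = 0
    · rw [hy, MulChar.map_zero]; exact zero_mem _
    · obtain ⟨m, rfl⟩ := hgen y hy
      rw [cp]
      exact pow_mem (pow_mem (RingHom.mem_range.2 ⟨⟨0, 1⟩, by simp [GaussianInt.toComplex_def']⟩) _) _
  obtain ⟨w, hw⟩ : jacobiSum (χ ^ 1) (χ ^ 2) ∈ GaussianInt.toComplex.range :=
    sum_mem fun x _ => mul_mem (hmem _ _) (hmem _ _)
  have e : w * (2 - w) = (Fintype.card K : GaussianInt) := by
    apply GaussianInt.toComplex_injective
    rw [map_mul, map_sub, hw, map_natCast, ← jj, map_ofNat]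
    congr 1
    linear_combination (-1 : ℂ) * z1
  have e1 := congrArg Zsqrtd.re e
  have e2 := congrArg Zsqrtd.im e
  simp at e1 e2
  have e3 : w.im * (1 - w.re) = 0 := by linarith
  rcases mul_eq_zero.1 e3 with h | h
  · rw [h, hq] at e1
    push_cast at e1
    nlinarith [sq_nonneg (w.re - 1)]
  · exact ⟨w.im, by rw [← e1, show w.re = 1 by linarith]; ring⟩

/-- what a certificate gives for the prime `p` -/
def Cert (p : ℕ) : Prop := ∀ n k f : ℕ, n * k + 1 = p ^ f → Even n → 2 < n → n < k →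
  (∀ s, Even s → ¬ n ∣ s → (p : ℤ) ∣ altS k s ∧ (p : ℤ) ^ 2 ∣ altS k (p * s)) → n = 4

theorem cert_of (P : Par) (hp : P.p.Prime) (hp2 : 2 < P.p) (h : P.ok = true) (N : ℕ) (tab : ℕ → St)
    (ht : ∀ x < N, ∃ c t, nodeOk P N tab (tab x) c t = true) (big : Root) (b : ℕ)
    (hb : big.big P N tab b = true) (l : List Root) (hl : fixOk P N tab [4] l 4 = true)
    (hlen : b < 4 + 2 * l.length) : Cert P.p := by
  intro n k f hnk hn h2 hlt hs
  refine List.mem_singleton.1 (cert_sound P hp hp2 h N tab ht big b hb [4] l hl hlen n k f hnk hn h2 hlt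
    fun s he hd => ?_)
  have h0 : s ≠ 0 := by rintro rfl; exact hd (dvd_zero n)
  exact ⟨eq1_of _ _ _ hp2 he h0 (hs s he hd).1, eq2_of P _ _ hp2 he h0 (hs s he hd).2⟩

theorem index_two (p : ℕ) [Fact p.Prime] [CharP K p] (hc : p = 2 ∨ Cert p) (hp : ∀ b : ℤ, 21 ≤ p → 1 + b ^ 2 ≠ p)
    {n k lam : ℕ} (hk : 1 < k) (hn : 2 ≤ n) (hq : Fintype.card K = n * k + 1)
    (hl : ∀ g : K, g ≠ 0 → rr k g = lam) : n = 2 ∧ Odd k := by
  have hpp : p.Prime := Fact.out
  obtain ⟨g, hg⟩ := exists_gen K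
  rw [hq, Nat.add_sub_cancel] at hg
  obtain ⟨f, _, hf⟩ := FiniteField.card K p
  by_cases h2 : p = 2
  · subst h2
    have hko : Odd k := by
      have : Even (n * k + 1) := by rw [← hq, hf]; exact (Nat.even_pow' f.ne_zero).2 even_two
      exact (Nat.odd_mul.1 (Nat.not_even_iff_odd.1 (Nat.even_add_one.1 this))).2
    exact absurd (cong_alt 2 hko (by omega) hq hg hl 1 1 (by norm_num)
      (fun h => by have := Nat.dvd_one.1 h; omega)) (two_case k hko hk)
  have hpo : Odd p := hpp.odd_of_ne_two h2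
  have h2K : (2 : K) ≠ 0 := fun h => h2 ((Nat.prime_dvd_prime_iff_eq hpp Nat.prime_two).1
    ((CharP.cast_eq_zero_iff K p 2).1 (by exact_mod_cast h)))
  have hko := odd_k (by omega) hn hq hg h2K hl
  refine ⟨?_, hko⟩
  by_contra hn2
  have hne : Even n := by
    have : Odd (n * k + 1) := by rw [← hq, hf]; exact hpo.pow
    exact (Nat.even_mul.1 (Nat.odd_add_one.1 this |> Nat.not_odd_iff_even.1)).resolve_right
      (Nat.not_even_iff_odd.2 hko)
  have hlt : n < k := by
    have := count_eq (by omega) (by omega) hq hg hl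
    rcases Nat.eq_zero_or_pos lam with rfl | h
    · omega
    · nlinarith
  have h4 := hc.resolve_left h2 n k f (by rw [← hq, hf]) hne (by omega) hlt fun s he hs =>
    ⟨by simpa using cong_alt p hko (by omega) hq hg hl 0 s (by simpa using he) hs,
      by simpa using cong_alt p hko (by omega) hq hg hl 1 s (he.mul_left _) hs⟩
  subst h4
  obtain ⟨b, hb⟩ := four_case (by omega) hq hg hl
  by_cases h1 : (f : ℕ) = 1
  · rw [h1, pow_one] at hf
    exact hp b (by omega) (by rw [hb, hf])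
  · have := lebesgue p f b hpo (by have := f.pos; omega) (by rw [hb, hf]; push_cast; rfl)
    rw [this, hq] at hb
    push_cast at hb
    omega

end

end Pool.Agent.P.MP_111ca2_co
end
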