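import Pool.Agent.K.MP_111ca2_co.C4

/-! Generated certificate for the prime 11. -/

namespace Pool.Agent.P.MP_111ca2_co.C11

noncomputable section

set_option maxRecDepth 100000

def big : Root := ⟨[2, 4, 6, 8, 10, 14, 18, 20, 24, 26, 30, 32, 46, 50, 52, 54, 56, 62, 68, 70, 72, 74, 78, 80, 82, 90, 96, 98, 102, 112, 118, 120, 134, 136, 142, 178, 222, 1462], [(2, [11]), (4, [11, 22]), (6, [11, 22, 33]), (12, [11]), (122, [11])], [2, 8, 10, 24, 30, 120, 244, 266, 976, 998, 1220, 1330], [[(22, 11, 10)], [(44, 11, 22)], [(44, 11, 10)], [(44, 22, 10)], [(1342, 11, 10)], [(66, 33, 10)], [(22, 11, 55)], [(44, 11, 55)], [(66, 11, 22), (66, 33, 22)], [(22, 11, 10), (132, 11, 80)], [(22, 11, 10), (1342, 11, 100)], [(66, 33, 55)], [(22, 11, 10), (44, 11, 50)], [(22, 11, 10), (44, 11, 80)], [(44, 11, 22),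 (66, 11, 88), (66, 33, 44)], [(66, 11, 55)], [(22, 11, 10), (132, 11, 100)], [(22, 11, 10), (44, 11, 90)], [(66, 11, 22)], [(22, 11, 10), (132, 11, 50)], [(132, 11, 10), (44, 11, 100)], [(44, 11, 10), (44, 22, 90)], [(22, 11, 22), (44, 11, 44)], [(22, 11, 22), (44, 11, 88)], [(22, 11, 10), (44, 11, 60)], [(22, 11, 22)], [(132, 11, 10), (1342, 11, 90), (44, 11, 100)], [(22, 11, 10), (44, 11, 100), (132, 11, 30)], [(66, 11, 10), (66, 33, 30)], [(22, 11, 10), (44, 11, 40)], [(22, 11, 10), (44, 11, 20)], [(22, 11, 10), (44, 11, 20), (132, 11, 60)], [(22, 11, 10), (44, 11, 80), (132, 11, 80)], [(22, 11, 10), (66, 11, 10)], [(22, 11, 10), (44, 11, 60), (1342, 11, 90)], [(66, 11, 55), (66, 33, 55)], [(66, 11, 22), (66, 33, 88)], [(66, 11, 10), (66, 33, 60)], [(22, 11, 10), (44, 11, 20), (132, 11, 30)],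 [(22, 11, 10), (44, 11, 20), (132, 11, 70)]],
    .nd 1 0x2200000000000000000000000000000001eac001000000003db000000 0x0 (.nd 0 0x10080000000000000000000000000006260100000000005000000 0x0 (.nd 0 0xbde215300000000000000000000000000000400000000000001000000 0x0 (.nd 0 0x20020000000000000000000000000000000000000000001000000 0x0 (.cl 0 0x0 0 (.cl 1 0x8422000000000000000000000000000000000000000000000000 1 (.dd 2 2 (.dd 3 1 (.cl 4 0x7fb5e00000000000000000000000000021d620000000000000018 2 (.cl 5 0x73cb8000000000000000000000000001940e80000000000000018 3 .nil)))))) (.nd 1 0x1f68fe000000000000000000000000000507000000000000000010 0x0 (.nd 0 0x0 0x0 (.nd 0 0x0 0x0 (.nd 0 0x1000000 0x0 (.cl 0 0x0 4 (.cl 1 0x0 5 (.dd 2 2 (.dd 3 1 (.cl 4 0x3c00000000000000000000000000003362000000000000000a 6 (.cl 5 0x120000000000000000000000000000c8e80000000000000008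 7 .nil)))))) (.nd 1 0x1000000000000000000000000000000000000000000000000 0x2 (.cl 0 0x0 8 (.cl 1 0x1f000000000000000000000000000167f8000000000100000f 9 (.dd 2 2 (.dd 3 1 (.dd 4 11 (.cl 5 0x1f0000000000000000000000000000ff9d000000000100000f 10 .nil)))))) (.dd 2 2 (.dd 3 1 (.nd 4 0x3d00000000000000000000000000003362000000000000000b 0x2 (.cl 0 0x400000000000000000 11 (.cl 1 0x10000000000000000000000000000017e0000000000000001 12 (.dd 2 1 (.dd 3 1 (.dd 4 2 (.dd 5 6 .nil)))))) (.nd 5 0x120000000000000000000000000000c8e80000000001000008 0x700000000000000034 (.cl 0 0x1000000000000000000000000000000000000000000000000 13 (.dd 1 3 (.dd 2 3 (.dd 3 1 (.dd 4 3 (.cl 5 0xf000000000000000000000000000000f50000000000000007 14 .nil)))))) .nil)))))) (.dd 1 16 (.dd 2 2 (.dd 3 1 (.nd 4 0x3c00000000000000000000000000003362000000000100000a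 0x100000000000000014 (.cl 0 0x1000000000000000000000000000000400000000000000001 15 (.cl 1 0x30000000000000000000000000000017e0000000000000003 16 (.dd 2 1 (.dd 3 1 (.dd 4 2 (.dd 5 6 .nil)))))) (.nd 5 0x130000000000000000000000000000c8e80000000000000008 0x2 (.cl 0 0x0 17 (.dd 1 3 (.dd 2 3 (.dd 3 1 (.dd 4 3 (.cl 5 0x7000000000000000000000000000002f50000000000000007 18 .nil)))))) .nil)))))) (.nd 1 0x3f000000000000000000000000000167f8000000000100000f 0x2b (.dd 0 5 (.cl 1 0x0 19 (.dd 2 2 (.dd 3 1 (.dd 4 3 (.dd 5 4 .nil)))))) (.dd 2 2 (.dd 3 1 (.dd 4 11 (.nd 5 0x3f0000000000000000000000000000ff9d000000000100000f 0x13 (.dd 0 2 (.dd 1 2 (.dd 2 2 (.dd 4 1 (.dd 5 3 (.dd 7 2 .nil)))))) .nil)))))) (.dd 2 2 (.dd 3 1 (.nd 4 0x1ff69e00000000000000000000000000021d620000000000000018 0x2 (.nd 0 0x800000000000000000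 0x0 (.nd 0 0x0 0x0 (.nd 0 0x2000000000000000000000000000000000000000000000000 0x0 (.cl 0 0x0 20 (.cl 1 0xa000000000000000000000000000000000000000000000002 21 (.dd 2 1 (.dd 3 1 (.cl 4 0x0 22 (.dd 5 6 .nil)))))) (.nd 1 0x14000000000000000000000000000003800000000000000002 0x300000000000000014 (.nd 0 0x0 0x0 (.nd 0 0x0 0x0 (.nd 0 0x0 0x0 (.cl 0 0x0 23 (.cl 1 0x2000000000000000000000000000000000000000000000000 24 (.dd 2 1 (.dd 3 1 (.cl 4 0x1000000000000000000000000000000000000000000000001 25 (.dd 5 6 .nil)))))) (.nd 1 0x2000000000000000000000000000000200000000000000000 0x100000000000000014 (.cl 0 0x1000000000000000000000000000000000000000000000001 26 (.cl 1 0x30000000000000000000000000000014c0000000000000003 27 (.dd 2 1 (.dd 3 1 (.dd 4 5 (.dd 5 4 .nil)))))) (.dd 2 1 (.dd 3 1 (.nd 4 0x1000000000000000000000000000000000000000000000001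 0x100000000000000004 (.cl 0 0x1000000000000000000000000000000000000000000000000 28 (.cl 1 0x3000000000000000000000000000003350000000000000001 29 (.dd 2 1 (.dd 3 1 (.dd 4 2 (.dd 5 6 .nil)))))) (.dd 5 6 .nil)))))) (.dd 1 9 (.dd 2 1 (.dd 3 1 (.nd 4 0x1000000000000000000000000000000000000000000000001 0x100000000000000004 (.cl 0 0x1000000000000000000000000000000000000000000000000 30 (.cl 1 0x3000000000000000000000000000003350000000000000001 29 (.dd 2 1 (.dd 3 1 (.dd 4 2 (.dd 5 6 .nil)))))) (.dd 5 6 .nil)))))) (.cl 1 0x7000000000000000000000000000002ac0000000000000003 27 (.dd 2 1 (.dd 3 1 (.dd 4 6 (.dd 5 4 .nil)))))) (.dd 2 1 (.dd 3 1 (.nd 4 0x2000000000000000000000000000003a00000000000000000 0x700000000000000034 (.cl 0 0x1000000000000000000000000000000000000000000000000 31 (.cl 1 0xf000000000000000000000000000001950000000000000007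 29 (.dd 2 1 (.dd 3 1 (.dd 4 2 (.dd 5 5 .nil)))))) (.dd 5 6 .nil)))))) (.dd 1 5 (.dd 2 1 (.dd 3 1 (.nd 4 0x1200000000000000000000000000000c080000000000000002 0x300000000000000014 (.cl 0 0x1000000000000000000000000000000000000000000000000 32 (.dd 1 6 (.dd 2 1 (.dd 3 1 (.dd 4 2 (.dd 5 5 .nil)))))) (.dd 5 6 .nil)))))) (.cl 1 0x1f000000000000000000000000000037b40000000000000007 33 (.dd 2 1 (.dd 3 1 (.dd 4 2 (.dd 5 7 .nil)))))) (.nd 5 0x147978000000000000000000000000001940e80000000001000010 0x1fe8000000080000006c (.nd 0 0x2000000000000000000000000000000000000000000000000 0x0 (.nd 0 0x0 0x0 (.nd 0 0x80000000000000000000000000000000000000000000000000 0x0 (.cl 0 0x0 34 (.cl 1 0x42000000000000000000000000000000000000000000000000 35 (.dd 2 7 (.dd 3 4 (.cl 4 0xff00000000000000000000000000003e77000000000000000f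 36 (.cl 5 0xad000000000000000000000000000000000000000000000008 37 .nil)))))) (.nd 1 0x1c6000000000000000000000000000010400000000000000008 0x700000000000000034 (.cl 0 0x1000000000000000000000000000000000000000000000000 38 (.dd 1 9 (.dd 2 2 (.dd 3 3 (.dd 4 8 (.dd 5 6 .nil)))))) (.dd 2 7 (.dd 3 4 (.cl 4 0x1ff00000000000000000000000000003e77000000000000000f 36 (.nd 5 0x12d000000000000000000000000000010700000000000000008 0x70000000000000002c (.nd 0 0x1000000000000000000000000000000000000000000000000 0x0 (.cl 0 0x0 39 (.dd 1 9 (.dd 2 9 (.dd 3 1 (.dd 4 9 (.dd 5 9 .nil)))))) (.dd 1 3 (.dd 2 3 (.dd 3 1 (.dd 4 3 (.cl 5 0xf000000000000000000000000000002f40000000000000007 40 .nil)))))) .nil)))))) (.dd 1 5 (.dd 2 2 (.dd 3 1 (.dd 4 4 (.nd 5 0x1ed000000000000000000000000000010000000000000000009 0x100000000000000014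 (.cl 0 0x1000000000000000000000000000000000000000000000000 41 (.dd 1 3 (.dd 2 3 (.dd 3 1 (.dd 4 3 (.cl 5 0x300000000000000000000000000001fb40000000000000003 42 .nil)))))) .nil)))))) (.dd 1 3 (.dd 2 3 (.dd 3 1 (.dd 4 3 (.cl 5 0x3ff000000000000000000000000000037f5000000000000000f 43 .nil)))))) .nil)))))) (.nd 1 0x7bce7d07e000000000000000000000000000000000000000002000000 0x0 (.nd 0 0x0 0x0 (.nd 0 0x1c0c000000000000000000000000000400000000000001000000 0x0 (.nd 0 0x0 0x0 (.cl 0 0x0 44 (.cl 1 0x0 45 (.dd 2 2 (.dd 3 1 (.cl 4 0xfa00000000000000000000000000025d62000000000000001a 46 (.cl 5 0xec000000000000000000000000001940e80000000000000018 47 .nil)))))) (.dd 1 21 (.dd 2 2 (.dd 3 1 (.nd 4 0xfa00000000000000000000000000025d62000000000000001a 0x100000000000000014 (.cl 0 0x1000000000000000000000000000000000000000000000001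 48 (.cl 1 0x300000000000000000000000000001bb40000000000000003 33 (.dd 2 1 (.dd 3 1 (.dd 4 9 (.dd 5 9 .nil)))))) (.nd 5 0xec000000000000000000000000001940e80000000000000018 0x300000000000000034 (.cl 0 0x1000000000000000000000000000000000000000000000001 49 (.dd 1 3 (.dd 2 3 (.dd 3 1 (.dd 4 3 (.dd 5 12 .nil)))))) .nil)))))) (.nd 1 0x1000000000000000000000000000000000000000000000000 0x2 (.cl 0 0x0 50 (.cl 1 0xfff000000000000000000000000005f3ff8000000000100001f 9 (.dd 2 2 (.dd 3 1 (.dd 4 14 (.cl 5 0xfff000000000000000000000000007fff9c000000000100001f 51 .nil)))))) (.dd 2 2 (.dd 3 1 (.nd 4 0x1feb00000000000000000000000000065d620000000000000012 0x2 (.cl 0 0x0 52 (.cl 1 0x300000000000000000000000000001bb40000000000000007 33 (.dd 2 1 (.dd 3 1 (.dd 4 9 (.dd 5 9 .nil)))))) (.nd 5 0x29a000000000000000000000000003140e80000000001000000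 0x7f000000000000000f4 (.cl 0 0x1000000000000000000000000000000000000000000000000 53 (.dd 1 3 (.dd 2 3 (.dd 3 1 (.dd 4 3 (.dd 5 13 .nil)))))) .nil)))))) (.nd 1 0x1fff000000000000000000000000005f3ff8000000000100001f 0x0 (.dd 0 5 (.nd 1 0x0 0x2b (.dd 0 5 (.cl 1 0x0 19 (.dd 2 2 (.dd 3 1 (.dd 4 3 (.dd 5 4 .nil)))))) (.dd 2 2 (.dd 3 1 (.dd 4 3 (.dd 5 4 .nil)))))) (.dd 2 2 (.dd 3 1 (.dd 4 14 (.nd 5 0x1fff000000000000000000000000007fff9c000000000100001f 0x1b (.dd 0 3 (.dd 1 3 (.dd 2 3 (.dd 3 1 (.dd 4 2 (.cl 5 0x0 54 .nil)))))) .nil)))))) (.dd 2 2 (.dd 3 1 (.nd 4 0xfffff7a9e00000000000000000000000000061d620000000003000010 0x0 (.nd 0 0x800000000000000000 0x0 (.nd 0 0x0 0x0 (.nd 0 0x0 0x0 (.cl 0 0x0 55 (.cl 1 0x24000000000000000000000000000000000000000000000002 56 (.dd 2 1 (.dd 3 1 (.cl 4 0xa000000000000000000000000000000000000000000000008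 57 (.dd 5 6 .nil)))))) (.nd 1 0x2c00000000000000000000000000000380000000000000000a 0x300000000000000014 (.nd 0 0x1000000000000000000000000000000000000000000000001 0x0 (.nd 0 0x1000000000000000000000000000000000000000000000000 0x0 (.cl 0 0x0 58 (.cl 1 0x200000000000000000 59 (.dd 2 1 (.dd 3 1 (.cl 4 0x0 60 (.dd 5 6 .nil)))))) (.dd 1 9 (.dd 2 1 (.dd 3 1 (.nd 4 0x0 0x100000000000000004 (.nd 0 0x1000000000000000000000000000000000000000000000000 0x0 (.cl 0 0x0 61 (.dd 1 5 (.dd 2 1 (.dd 3 1 (.dd 4 9 (.dd 5 6 .nil)))))) (.cl 1 0x3000000000000000000000000000003350000000000000001 29 (.dd 2 1 (.dd 3 1 (.dd 4 2 (.dd 5 6 .nil)))))) (.dd 5 6 .nil)))))) (.cl 1 0x7000000000000000000000000000002ac0000000000000003 27 (.dd 2 1 (.dd 3 1 (.dd 4 6 (.dd 5 4 .nil)))))) (.dd 2 1 (.dd 3 1 (.nd 4 0xa000000000000000000000000000001200000000000000008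 0x700000000000000034 (.nd 0 0x1000000000000000000000000000000000000000000000000 0x0 (.cl 0 0x0 62 (.dd 1 10 (.dd 2 1 (.dd 3 1 (.cl 4 0x5000000000000000000000000000003080000000000000003 63 (.dd 5 5 .nil)))))) (.cl 1 0xf000000000000000000000000000006d50000000000000007 29 (.dd 2 1 (.dd 3 1 (.dd 4 2 (.dd 5 5 .nil)))))) (.dd 5 6 .nil)))))) (.dd 1 5 (.dd 2 1 (.dd 3 1 (.nd 4 0x2a00000000000000000000000000000c08000000000000000a 0x300000000000000014 (.nd 0 0x1000000000000000000000000000000000000000000000000 0x0 (.cl 0 0x0 64 (.dd 1 4 (.dd 2 1 (.dd 3 1 (.cl 4 0x0 65 (.dd 5 5 .nil)))))) (.dd 1 6 (.dd 2 1 (.dd 3 1 (.dd 4 2 (.dd 5 5 .nil)))))) (.dd 5 6 .nil)))))) (.nd 1 0x3f000000000000000000000000000037b4000000000000000f 0x23 (.dd 0 4 (.dd 1 4 (.dd 2 1 (.dd 3 1 (.cl 4 0x0 66 (.dd 5 2 .nil)))))) (.dd 2 1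 (.dd 3 1 (.dd 4 2 (.dd 5 7 .nil)))))) (.nd 5 0x230e86b8000000000000000000000000003140e80000000003000000 0x0 (.nd 0 0x0 0x0 (.nd 0 0x4340000000000000000000000000000000000000000000000000 0x0 (.nd 0 0x0 0x0 (.cl 0 0x0 67 (.cl 1 0x604000000000000000000000000000000000000000000000000 68 (.dd 2 7 (.dd 3 4 (.cl 4 0x7ffff00000000000000000000000000007e77000000000000001f 69 (.cl 5 0x7e9bb000000000000000000000000000030000000000000000010 70 .nil)))))) (.nd 1 0x6361c000000000000000000000000000030400000000000000018 0x1ff00000000000000034 (.nd 0 0x1000000000000000000000000000000000000000000000000 0x0 (.nd 0 0x1f1000000000000000000000000000000000000000000000000 0x0 (.cl 0 0x0 71 (.cl 1 0x300000000000000000 72 (.dd 2 6 (.dd 3 4 (.cl 4 0x700000000000000000000000000000f370000000000000007 36 (.cl 5 0x4000000000000000000000000000000000000000000000000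 73 .nil)))))) (.dd 1 11 (.dd 2 6 (.dd 3 1 (.cl 4 0x1ff00000000000000000000000000000f370000000000000007 36 (.nd 5 0xa000000000000000000000000000000000000000000000000 0x3f0000000000000002c (.nd 0 0x1000000000000000000000000000000000000000000000000 0x0 (.cl 0 0x0 74 (.dd 1 5 (.dd 2 2 (.dd 3 1 (.dd 4 4 (.dd 5 11 .nil)))))) (.dd 1 3 (.dd 2 3 (.dd 3 1 (.dd 4 3 (.cl 5 0x7f00000000000000000000000000000bf50000000000000007 18 .nil)))))) .nil)))))) (.dd 1 9 (.dd 2 2 (.dd 3 1 (.dd 4 8 (.dd 5 6 .nil)))))) (.dd 2 7 (.dd 3 4 (.cl 4 0x7ffff00000000000000000000000000007e77000000000000001f 69 (.nd 5 0x7e9bb000000000000000000000000000030600000000000000010 0xf0000000000000006c (.nd 0 0x1000000000000000000000000000000000000000000000000 0x0 (.cl 0 0x0 75 (.dd 1 10 (.dd 2 2 (.dd 3 1 (.dd 4 4 (.dd 5 10 .nil)))))) (.dd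 1 3 (.dd 2 3 (.dd 3 1 (.dd 4 3 (.dd 5 9 .nil)))))) .nil)))))) (.dd 1 5 (.dd 2 2 (.dd 3 1 (.dd 4 4 (.nd 5 0x7fbc3b000000000000000000000000000020000000000000000018 0x1f0000000000000002c (.nd 0 0x1000000000000000000000000000000000000000000000000 0x0 (.cl 0 0x0 76 (.dd 1 5 (.dd 2 2 (.dd 3 1 (.dd 4 4 (.cl 5 0x0 77 .nil)))))) (.dd 1 3 (.dd 2 3 (.dd 3 1 (.dd 4 3 (.cl 5 0x3f00000000000000000000000000003fb40000000000000007 42 .nil)))))) .nil)))))) (.dd 1 3 (.dd 2 3 (.dd 3 1 (.dd 4 3 (.nd 5 0x7fffff000000000000000000000000000077f5000000000000001f 0x13 (.dd 0 2 (.dd 1 1 (.dd 2 1 (.dd 4 1 (.cl 5 0x0 78 (.dd 7 1 .nil)))))) .nil)))))) .nil)))))) (.nd 1 0x3ffffebe3f00000000000000000000000007019160000000000a000010 0x0 (.nd 0 0x4000000000000000000000000000000000000000001000000 0x0 (.nd 0 0x0 0x0 (.nd 0 0x1000000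 0x0 (.cl 0 0x0 79 (.cl 1 0x0 80 (.dd 2 2 (.dd 3 1 (.cl 4 0xf000000000000000000000000000bfdf6000000000000000f 81 (.cl 5 0xa000000000000000000000000000496000000000000000008 82 .nil)))))) (.nd 1 0x1000000000000000000000000000000600000000000000000 0x2 (.dd 0 16 (.nd 1 0x0 0x2 (.cl 0 0x0 83 (.cl 1 0x0 84 (.dd 2 2 (.dd 3 1 (.dd 4 10 (.dd 5 11 .nil)))))) (.dd 2 2 (.dd 3 1 (.dd 4 8 (.dd 5 7 .nil)))))) (.dd 2 2 (.dd 3 1 (.cl 4 0xf000000000000000000000000000bfdf6000000000100000f 81 (.nd 5 0xa000000000000000000000000000496000000000001000008 0x53 (.dd 0 10 (.dd 1 3 (.dd 2 4 (.dd 3 1 (.dd 4 9 (.cl 5 0x0 85 .nil)))))) .nil)))))) (.dd 1 16 (.dd 2 2 (.dd 3 1 (.dd 4 15 (.dd 5 18 .nil)))))) (.nd 1 0x1000000000000000000000000000000600000000002000000 0x0 (.nd 0 0x1000000 0x0 (.nd 0 0x0 0x0 (.nd 0 0x0 0x0 (.cl 0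 0x0 86 (.cl 1 0x0 87 (.dd 2 2 (.dd 3 1 (.cl 4 0xf0000000000000000000000000002ff76000000000000000f 81 (.cl 5 0x8000000000000000000000000000125820000000000000009 88 .nil)))))) (.nd 1 0xf0000000000000000000000000001fffb000000000000000f 0xb (.dd 0 1 (.dd 1 1 (.dd 3 1 (.dd 4 1 (.dd 5 1 (.dd 6 1 (.dd 7 1 (.dd 8 1 (.dd 9 1 .nil))))))))) (.dd 2 2 (.dd 3 1 (.cl 4 0xf0000000000000000000000000002ff76000000000000000f 81 (.nd 5 0x8000000000000000000000000000125820000000000000009 0x3b (.dd 0 7 (.dd 1 2 (.dd 2 3 (.dd 3 3 (.dd 4 6 (.cl 5 0x0 89 .nil)))))) .nil)))))) (.dd 1 14 (.dd 2 2 (.dd 3 1 (.dd 4 13 (.dd 5 16 .nil)))))) (.nd 1 0x1000000000000000000 0x2 (.cl 0 0x1000000 90 (.cl 1 0x0 91 (.dd 2 2 (.dd 3 1 (.dd 4 9 (.dd 5 10 .nil)))))) (.dd 2 2 (.dd 3 1 (.dd 4 10 (.dd 5 11 .nil)))))) (.dd 2 2 (.dd 3 1 (.dd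 4 12 (.dd 5 13 .nil)))))) (.dd 2 2 (.dd 3 1 (.dd 4 18 (.nd 5 0x3fffffffff0000000000000000000000001fffff3d000000000f00001f 0x0 (.dd 0 2 (.dd 1 2 (.dd 2 2 (.dd 4 1 (.nd 5 0x0 0x0 (.dd 0 2 (.dd 1 2 (.dd 2 2 (.dd 4 1 (.nd 5 0x0 0x13 (.dd 0 2 (.dd 1 2 (.dd 2 2 (.dd 4 1 (.cl 5 0x0 92 (.dd 7 2 .nil)))))) (.dd 7 2 .nil)))))) (.dd 7 2 .nil)))))) .nil)))))) (.dd 2 2 (.dd 3 1 (.nd 4 0xffff7df79e000000000000000000000003d25551a00000000ced000018 0x0 (.nd 0 0x20000000000000000000000000000320800000000005000000 0x0 (.nd 0 0x1000000 0x0 (.nd 0 0x2000000000000000000000000000000000000000001000000 0x0 (.cl 0 0x0 93 (.cl 1 0x1b120000000000000000 94 (.dd 2 2 (.dd 3 2 (.cl 4 0x0 95 (.cl 5 0xf0000000000000000000000000005fee20000000000000007 96 .nil)))))) (.nd 1 0xfb120000000001000000 0x0 (.nd 0 0x0 0x0 (.nd 0 0x0 0x0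 (.nd 0 0x2000000000000000000000000000000000000000000000000 0x0 (.cl 0 0x0 97 (.cl 1 0xa000000000000000000000000000000000000000000000002 98 (.dd 2 1 (.dd 3 1 (.cl 4 0x0 99 (.dd 5 6 .nil)))))) (.nd 1 0x16000000000000000000000000000000200000000000000002 0x100000000000000014 (.cl 0 0x1000000000000000000000000000000000000000000000001 26 (.cl 1 0x30000000000000000000000000000014c0000000000000003 27 (.dd 2 1 (.dd 3 1 (.dd 4 5 (.dd 5 4 .nil)))))) (.dd 2 1 (.dd 3 1 (.nd 4 0x0 0xf00000000000000034 (.nd 0 0x0 0x0 (.nd 0 0x0 0x0 (.nd 0 0x0 0x0 (.cl 0 0x0 100 (.cl 1 0x15000000000000000000000000000000000000000000000003 101 (.dd 2 1 (.dd 3 1 (.cl 4 0x2000000000000000000000000000000000000000000000000 102 (.dd 5 6 .nil)))))) (.nd 1 0x15000000000000000000000000000000000000000000000003 0x100000000000000004 (.cl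 0 0x1000000000000000000000000000000000000000000000000 103 (.cl 1 0x3000000000000000000000000000002ac0000000000000001 27 (.dd 2 1 (.dd 3 1 (.dd 4 6 (.dd 5 4 .nil)))))) (.dd 2 1 (.dd 3 1 (.nd 4 0x2000000000000000000000000000000200000000000000000 0x700000000000000034 (.cl 0 0x1000000000000000000000000000000000000000000000000 104 (.cl 1 0xf000000000000000000000000000001950000000000000007 29 (.dd 2 1 (.dd 3 1 (.dd 4 2 (.dd 5 5 .nil)))))) (.dd 5 6 .nil)))))) (.dd 1 5 (.dd 2 1 (.dd 3 1 (.dd 4 9 (.dd 5 6 .nil)))))) (.cl 1 0x1f000000000000000000000000000003350000000000000007 29 (.dd 2 1 (.dd 3 1 (.dd 4 2 (.dd 5 6 .nil)))))) (.dd 5 6 .nil)))))) (.dd 1 9 (.dd 2 1 (.dd 3 1 (.nd 4 0x2000000000000000000000000000000000000000000000000 0x700000000000000034 (.nd 0 0x1000000000000000000000000000000000000000000000000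 0x0 (.cl 0 0x0 105 (.dd 1 5 (.dd 2 1 (.dd 3 1 (.dd 4 9 (.dd 5 6 .nil)))))) (.cl 1 0xf000000000000000000000000000003350000000000000007 29 (.dd 2 1 (.dd 3 1 (.dd 4 2 (.dd 5 6 .nil)))))) (.dd 5 6 .nil)))))) (.nd 1 0x1f000000000000000000000000000002ac0000000000000007 0x23 (.dd 0 4 (.cl 1 0x0 106 (.dd 2 1 (.dd 3 1 (.dd 4 3 (.dd 5 2 .nil)))))) (.dd 2 1 (.dd 3 1 (.dd 4 6 (.dd 5 4 .nil)))))) (.dd 2 2 (.dd 3 2 (.nd 4 0x30000000000000000000000000000e2000000000000000000 0x2 (.nd 0 0x0 0x0 (.cl 0 0x0 107 (.dd 1 7 (.dd 2 2 (.dd 3 2 (.dd 4 14 (.dd 5 10 .nil)))))) (.cl 1 0x700000000000000000000000000006dbd0000000000000007 108 (.dd 2 2 (.dd 3 2 (.dd 4 3 (.dd 5 11 .nil)))))) (.nd 5 0x1f0000000000000000000000000005fee20000000001000007 0x23 (.dd 0 4 (.dd 1 2 (.dd 2 1 (.dd 3 1 (.dd 4 3 (.cl 5 0x160000000000000000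 109 .nil)))))) .nil)))))) (.dd 1 7 (.dd 2 2 (.dd 3 2 (.nd 4 0x12000000000000000000000000000310220000000002000002 0x0 (.nd 0 0x0 0x0 (.nd 0 0x1000000 0x0 (.nd 0 0x0 0x0 (.cl 0 0x0 110 (.cl 1 0x2c80000000000000000 111 (.dd 2 1 (.dd 3 1 (.cl 4 0x0 112 (.cl 5 0x700000000000000000000000000002fb10000000000000003 113 .nil)))))) (.nd 1 0x700000000000000000000000000001f6c0000000000000003 0x23 (.dd 0 4 (.dd 1 4 (.dd 2 1 (.dd 3 1 (.dd 4 3 (.dd 5 2 .nil)))))) (.dd 2 1 (.dd 3 1 (.dd 4 13 (.cl 5 0x700000000000000000000000000002fb10000000000000003 113 .nil)))))) (.dd 1 5 (.dd 2 1 (.dd 3 1 (.nd 4 0x1000000000000000000000000000000000000000000000000 0x2 (.cl 0 0x0 114 (.dd 1 10 (.dd 2 1 (.dd 3 1 (.dd 4 2 (.dd 5 10 .nil)))))) (.dd 5 9 .nil)))))) (.dd 1 10 (.dd 2 1 (.dd 3 1 (.dd 4 2 (.dd 5 10 .nil)))))) (.dd 5 11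 .nil)))))) (.nd 1 0x1e000000000000000000000000004cd308000000000a000004 0x0 (.nd 0 0x1000000 0x0 (.nd 0 0x0 0x0 (.cl 0 0x1000000 115 (.cl 1 0x300000000000000000000000000002f6d0000000001000003 116 (.dd 2 2 (.dd 3 1 (.nd 4 0x0 0x2 (.dd 0 12 (.nd 1 0x0 0x2 (.cl 0 0x0 117 (.dd 1 3 (.dd 2 2 (.dd 3 1 (.cl 4 0x1000000000000000000000000000002000000000001000000 118 (.dd 5 5 .nil)))))) (.dd 2 2 (.dd 3 1 (.dd 4 4 (.dd 5 9 .nil)))))) (.cl 5 0x300000000000000000000000000000ff60000000001000003 119 .nil)))))) (.dd 1 11 (.dd 2 2 (.dd 3 1 (.dd 4 10 (.dd 5 12 .nil)))))) (.dd 1 3 (.dd 2 2 (.dd 3 1 (.nd 4 0x1000000000000000000000000000002000000000002000000 0x0 (.dd 0 6 (.nd 1 0x0 0x2 (.cl 0 0x1000000 120 (.dd 1 6 (.dd 2 2 (.dd 3 1 (.cl 4 0x0 121 (.dd 5 5 .nil)))))) (.dd 2 2 (.dd 3 1 (.dd 4 4 (.dd 5 8 .nil)))))) (.dd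 5 5 .nil)))))) (.dd 2 2 (.dd 3 1 (.dd 4 3 (.dd 5 14 .nil)))))) (.nd 5 0xfc5cb306380000000000000000000000004cc040800000000f36000010 0x0 (.nd 0 0x9005800000000000000000000000005c500b00000000005000000 0x0 (.nd 0 0x20000000000000000000000000000000000000000001000000 0x0 (.nd 0 0x2100000000000000000000000000000000000000000001000000 0x0 (.cl 0 0x0 122 (.cl 1 0xc0000000000000000000000000001964280000000000000000 123 (.dd 2 2 (.dd 3 1 (.cl 4 0xfff0000000000000000000000000037b9f0000000000000000f 124 (.cl 5 0x11d000000000000000000000000000000000000000000000000 125 .nil)))))) (.nd 1 0x30c8000000000000000000000000001d65280000000001000000 0x0 (.nd 0 0x0 0x0 (.nd 0 0x180000000000000000000000000000000000000000000000000 0x0 (.nd 0 0x22000000000000000000000000000000000000000000000008 0x0 (.cl 0 0x0 126 (.cl 1 0x2000000000000000000000000000000000000000000000000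 127 (.dd 2 6 (.dd 3 4 (.cl 4 0x1f00000000000000000000000000000f370000000000000007 69 (.cl 5 0x15000000000000000000000000000000000000000000000001 128 .nil)))))) (.nd 1 0x5000000000000000000000000000000300000000000000000 0xf0000000080000006c (.nd 0 0x1000000000000000000000000000000000000000000000000 0x0 (.cl 0 0x0 129 (.dd 1 9 (.dd 2 4 (.dd 3 1 (.cl 4 0xf000000000000000000000000000003c7000000000000000f 36 (.cl 5 0xc000000000000000000000000000000000000000000000008 130 .nil)))))) (.dd 1 7 (.dd 2 2 (.dd 3 3 (.dd 4 6 (.dd 5 4 .nil)))))) (.dd 2 6 (.dd 3 4 (.cl 4 0x7f00000000000000000000000000000f37000000000000000f 69 (.nd 5 0x6b000000000000000000000000000000000000000000000009 0x100000000000000014 (.cl 0 0x1000000000000000000000000000000000000000000000000 131 (.dd 1 3 (.dd 2 3 (.dd 3 1 (.dd 4 3 (.cl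 5 0x3000000000000000000000000000003f50000000000000003 132 .nil)))))) .nil)))))) (.dd 1 11 (.dd 2 6 (.dd 3 1 (.cl 4 0x1ff00000000000000000000000000000f37000000000000000f 69 (.nd 5 0x6b000000000000000000000000000000000000000000000008 0x70000000000000002c (.nd 0 0x1000000000000000000000000000000000000000000000000 0x0 (.cl 0 0x0 133 (.dd 1 5 (.dd 2 2 (.dd 3 1 (.dd 4 4 (.dd 5 11 .nil)))))) (.dd 1 3 (.dd 2 3 (.dd 3 1 (.dd 4 3 (.cl 5 0xf00000000000000000000000000000bf40000000000000007 134 .nil)))))) .nil)))))) (.dd 1 9 (.dd 2 2 (.dd 3 3 (.dd 4 8 (.dd 5 6 .nil)))))) (.dd 2 2 (.dd 3 1 (.nd 4 0x3fff0000000000000000000000000037b9f0000000000100000f 0x23 (.dd 0 4 (.cl 1 0x500000000000000000 135 (.dd 2 2 (.dd 3 1 (.dd 4 4 (.dd 5 6 .nil)))))) (.nd 5 0x131f000000000000000000000000000521200000000000000000 0x2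 (.nd 0 0x0 0x0 (.cl 0 0x0 136 (.dd 1 6 (.dd 2 2 (.dd 3 3 (.dd 4 5 (.dd 5 16 .nil)))))) (.dd 1 3 (.dd 2 7 (.dd 3 1 (.dd 4 4 (.cl 5 0x3f00000000000000000000000000017fec000000000100000f 137 .nil)))))) .nil)))))) (.dd 1 7 (.dd 2 2 (.dd 3 3 (.dd 4 6 (.nd 5 0x7e19000000000000000000000000001840000000000002000008 0x0 (.nd 0 0x0 0x0 (.nd 0 0x4000000000000000000000000000000000000000001000001 0x0 (.nd 0 0x0 0x0 (.cl 0 0x0 138 (.cl 1 0x190000000000000000000000000002a4280000000000000000 139 (.dd 2 2 (.dd 3 1 (.cl 4 0x1f000000000000000000000000000759f00000000000000003 140 (.cl 5 0x2000000000000000000000000000000000000000000000000 141 .nil)))))) (.nd 1 0x1f0000000000000000000000000003efd80000000000000003 0x2b (.dd 0 5 (.dd 1 5 (.dd 2 2 (.dd 3 1 (.dd 4 4 (.dd 5 3 .nil)))))) (.dd 2 2 (.dd 3 1 (.cl 4 0x1f000000000000000000000000000759f00000000000000003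 140 (.dd 5 18 .nil)))))) (.dd 1 7 (.dd 2 2 (.dd 3 1 (.dd 4 6 (.nd 5 0x3000000000000000000000000000000000000000000000000 0x2 (.cl 0 0x0 142 (.dd 1 8 (.dd 2 8 (.dd 3 1 (.dd 4 4 (.cl 5 0xf0000000000000000000000000007feec0000000001000007 143 .nil)))))) .nil)))))) (.dd 1 8 (.dd 2 8 (.dd 3 1 (.dd 4 4 (.nd 5 0x3f0000000000000000000000000007feec0000000001000007 0x1b (.dd 0 3 (.dd 1 3 (.dd 2 3 (.dd 3 1 (.dd 4 2 (.cl 5 0x0 144 .nil)))))) .nil)))))) .nil)))))) (.dd 1 3 (.nd 2 0xf7ffe0000000000000000000000007b3feb00000000000f00000e 0x0 (.dd 0 9 (.nd 1 0x400000000000000000 0x0 (.nd 0 0x0 0x0 (.nd 0 0x0 0x0 (.cl 0 0x0 145 (.dd 1 5 (.dd 2 2 (.dd 3 1 (.dd 4 2 (.cl 5 0x0 146 .nil)))))) (.dd 1 5 (.dd 2 2 (.dd 3 1 (.dd 4 2 (.nd 5 0x300000000000000000000000000000ae60000000000000001 0x1b (.dd 0 3 (.dd 1 1 (.dd 2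 4 (.dd 3 2 (.dd 4 4 (.cl 5 0xb0000000000000000 147 .nil)))))) .nil)))))) (.dd 1 4 (.dd 2 2 (.dd 3 1 (.dd 4 2 (.dd 5 6 .nil)))))) (.dd 2 6 (.dd 3 1 (.dd 4 2 (.dd 5 8 .nil)))))) (.dd 3 1 (.dd 4 6 (.nd 5 0x675a00000000000000000000000001c2ac110000000000a000008 0x0 (.nd 0 0x1000000 0x0 (.nd 0 0x0 0x0 (.nd 0 0x17000000000000000000000000000000000000000001000000 0x0 (.cl 0 0x0 148 (.cl 1 0x5a00000000000000000000000000089c200000000000000000 149 (.dd 2 2 (.dd 3 1 (.cl 4 0x7f0000000000000000000000000017eff60000000000000007 150 (.cl 5 0x0 151 .nil)))))) (.nd 1 0x7a000000000000000000000000000089ce00000000001000000 0x5b (.dd 0 11 (.nd 1 0x20000000000000000 0x1f00000000000000034 (.nd 0 0x17000000000000000000000000000000000000000000000000 0x0 (.nd 0 0x0 0x0 (.nd 0 0x0 0x0 (.cl 0 0x0 152 (.cl 1 0x800000000000000000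 153 (.dd 2 6 (.dd 3 2 (.dd 4 6 (.cl 5 0x0 154 .nil)))))) (.cl 1 0x1000000000000000000000000000000800000000000000001 155 (.dd 2 6 (.dd 3 2 (.dd 4 6 (.nd 5 0x0 0x3b (.dd 0 7 (.dd 1 2 (.dd 2 3 (.dd 3 3 (.dd 4 6 (.cl 5 0x800000000000000000 156 .nil)))))) .nil)))))) (.dd 1 9 (.dd 2 6 (.dd 3 2 (.dd 4 6 (.dd 5 8 .nil)))))) (.nd 1 0x9000000000000000000000000000000000000000000000001 0x680000000000000014 (.cl 0 0x7000000000000000000000000000000000000000000000000 157 (.nd 1 0x2000000000000000000000000000000000000000000000000 0x300000000000000014 (.cl 0 0x3000000000000000000000000000000000000000000000000 157 (.cl 1 0x1000000000000000000000000000000000000000000000000 158 (.dd 2 1 (.dd 3 4 (.dd 4 5 (.dd 5 5 .nil)))))) (.dd 2 1 (.dd 3 4 (.dd 4 5 (.dd 5 5 .nil)))))) (.dd 2 1 (.dd 3 4 (.dd 4 5 (.dd 5 5 .nil))))))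 (.dd 2 2 (.dd 3 1 (.dd 4 6 (.dd 5 6 .nil)))))) (.dd 2 2 (.dd 3 1 (.cl 4 0x7ff0000000000000000000000000017eff60000000001000007 150 (.nd 5 0x5170000000000000000000000000000cc800000000000000000 0x2 (.dd 0 14 (.dd 1 14 (.dd 2 14 (.dd 3 1 (.dd 4 5 (.nd 5 0x0 0x2 (.cl 0 0x0 159 (.dd 1 3 (.cl 2 0x1f00000000000000000000000000007f9e0000000001000007 160 (.dd 3 1 (.dd 4 5 (.cl 5 0x1f00000000000000000000000000007ffe0000000001000007 161 .nil)))))) .nil)))))) .nil)))))) (.dd 1 19 (.dd 2 19 (.dd 3 1 (.dd 4 12 (.dd 5 6 .nil)))))) (.dd 1 3 (.nd 2 0x2f6000000000000000000000000000363800000000003000002 0x0 (.nd 0 0x4440000000000000000 0x0 (.nd 0 0x0 0x0 (.nd 0 0x0 0x0 (.cl 0 0x0 162 (.dd 1 3 (.dd 2 3 (.dd 3 1 (.dd 4 3 (.cl 5 0x0 163 .nil)))))) (.dd 1 3 (.dd 2 3 (.dd 3 1 (.dd 4 3 (.nd 5 0x0 0x4b (.dd 0 9 (.dd 1 2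 (.dd 2 6 (.dd 3 1 (.dd 4 5 (.cl 5 0x0 164 .nil)))))) .nil)))))) (.dd 1 3 (.dd 2 3 (.dd 3 1 (.dd 4 3 (.dd 5 7 .nil)))))) (.nd 1 0xf00000000000000000000000000003bb80000000000000003 0x23 (.dd 0 4 (.dd 1 4 (.dd 2 2 (.dd 3 1 (.dd 4 2 (.dd 5 3 .nil)))))) (.dd 2 5 (.dd 3 1 (.dd 4 2 (.dd 5 12 .nil)))))) (.dd 3 1 (.dd 4 5 (.nd 5 0xbe000000000000000000000000000040800000000002000000 0x0 (.nd 0 0x1000000000000000000000000000000000000000001000000 0x0 (.nd 0 0x0 0x0 (.nd 0 0x0 0x0 (.cl 0 0x0 165 (.cl 1 0xa00000000000000000000000000022e600000000000000000 166 (.dd 2 2 (.dd 3 1 (.cl 4 0xf0000000000000000000000000005f7f60000000000000007 150 (.cl 5 0x0 167 .nil)))))) (.nd 1 0xf0000000000000000000000000002fef80000000000000007 0x23 (.dd 0 4 (.dd 1 5 (.dd 2 2 (.dd 3 1 (.dd 4 3 (.dd 5 3 .nil)))))) (.dd 2 2 (.dd 3 1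 (.cl 4 0xf0000000000000000000000000005f7f60000000000000007 150 (.dd 5 18 .nil)))))) (.dd 1 17 (.dd 2 17 (.dd 3 1 (.dd 4 11 (.dd 5 6 .nil)))))) (.dd 1 3 (.nd 2 0xa0000000000000000000000000000d1800000000000000002 0x2 (.cl 0 0x4440000000000000000 168 (.cl 1 0x700000000000000000000000000003bb80000000000000003 169 (.dd 2 5 (.dd 3 1 (.dd 4 2 (.dd 5 12 .nil)))))) (.dd 3 1 (.dd 4 5 (.nd 5 0x0 0x2 (.cl 0 0x1000000000000000000000000000000000000000001000000 170 (.dd 1 3 (.cl 2 0xa0000000000000000000000000000d1800000000000000002 171 (.dd 3 1 (.dd 4 5 (.cl 5 0x0 172 .nil)))))) .nil)))))) .nil)))))) .nil)))))) .nil))))⟩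

theorem big_ok : big.big par 1236 (mkTab bt) 1462 = true := by decide +kernel

def fix : List Root := [
  ⟨[], [], [], [],
    .nil⟩,
  ⟨[2], [], [], [],
    .nil⟩,
  ⟨[], [(2, [11]), (4, [11, 22])], [], [[(22, 11, 55)], [(22, 11, 22), (44, 11, 88)], [(22, 11, 22)]],
    .nd 4 0x0 0x0 (.nd 1 0x0 0x180000000800000014 (.nd 4 0x4000000000000000000000000000000000000000000000000 0x1 (.nd 1 0x0 0x100000000800000014 (.cl 4 0x1000000000000000000000000000000000000000000000000 1202 .nil) .nil) .nil) .nil) .nil⟩,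
  ⟨[], [(2, [1, 2, 3, 4, 5, 6, 7, 8, 9, 10, 11]), (4, [1, 2, 3, 4, 5, 6, 7, 8, 9, 10, 11, 12, 13, 14, 15, 16, 17, 18, 19, 20, 21, 22])], [], [[(22, 11, 1)], [(22, 1, 1)], [(44, 11, 1)], [(44, 1, 1)], [(44, 2, 1)], [(44, 3, 1)], [(44, 22, 1)], [(44, 12, 1)], [(44, 13, 1)], [(44, 21, 1)]],
    .nd 1 0x0 0x0 (.nd 1 0x0 0x1ff00000000800000014 (.cl 1 0x0 1203 .nil) .nil) .nil⟩,
  ⟨[2], [], [], [],
    .nil⟩,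
  ⟨[2], [], [], [],
    .nil⟩,
  ⟨[2], [], [], [],
    .nd 2 0x0 0x0 .nil .nil⟩,
  ⟨[2], [], [], [],
    .nd 3 0x0 0x0 (.nd 4 0x0 0x1 .nil .nil) .nil⟩,
  ⟨[2], [], [], [],
    .nil⟩,
  ⟨[], [], [], [],
    .nil⟩,
  ⟨[], [(2, [11])], [], [[(22, 11, 10)], [(22, 11, 22)]],
    .nd 5 0x0 0x0 (.nd 0 0x0 0x0 (.nd 5 0x0 0x100000000000000004 (.cl 0 0x1000000000000000000000000000000000000000000000000 1212 .nil) .nil) .nil) .nil⟩,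
  ⟨[2], [], [], [],
    .nil⟩,
  ⟨[2], [], [], [],
    .nil⟩,
  ⟨[], [(2, [11])], [], [[(22, 11, 10)], [(22, 11, 55)]],
    .nd 4 0x0 0x0 (.nd 0 0x0 0x0 (.nd 4 0x0 0x100000000000000004 (.cl 0 0x1000000000000000000000000000000000000000000000000 1213 .nil) .nil) .nil) .nil⟩,
  ⟨[2], [], [], [],
    .nd 1 0x0 0x0 (.nd 3 0x0 0x1 .nil .nil) .nil⟩,
  ⟨[2], [], [], [],
    .nil⟩,
  ⟨[2], [], [], [],
    .nil⟩,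
  ⟨[4], [], [], [],
    .nd 2 0x0 0x0 .nil .nil⟩,
  ⟨[4], [], [], [],
    .nil⟩,
  ⟨[2], [], [], [],
    .nil⟩,
  ⟨[], [], [], [],
    .nil⟩,
  ⟨[2], [], [], [],
    .nd 5 0x0 0x0 .nil .nil⟩,
  ⟨[2], [], [], [],
    .nil⟩,
  ⟨[2], [], [], [],
    .nil⟩,
  ⟨[2], [], [], [],
    .nd 4 0x0 0x0 .nil .nil⟩,
  ⟨[2], [], [], [],
    .nd 1 0x0 0x0 (.nd 5 0x0 0x1 (.nd 3 0x0 0x1 .nil .nil) .nil) .nil⟩,
  ⟨[2], [], [], [],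
    .nil⟩,
  ⟨[2], [], [], [],
    .nil⟩,
  ⟨[6], [], [], [],
    .nil⟩,
  ⟨[2], [], [], [],
    .nd 3 0x0 0x0 .nil .nil⟩,
  ⟨[2], [], [], [],
    .nil⟩,
  ⟨[], [], [], [],
    .nil⟩,
  ⟨[2], [], [], [],
    .nd 5 0x0 0x0 (.nd 1 0x0 0x0 (.nd 1 0x0 0x1 (.nd 2 0x0 0x1 .nil .nil) .nil) .nil) .nil⟩,
  ⟨[2], [], [], [],
    .nil⟩,
  ⟨[2], [], [], [],
    .nil⟩,
  ⟨[2], [], [], [],
    .nd 4 0x0 0x0 .nil .nil⟩,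
  ⟨[2], [], [], [],
    .nd 1 0x0 0x0 .nil .nil⟩,
  ⟨[2], [], [], [],
    .nil⟩,
  ⟨[2], [], [], [],
    .nil⟩,
  ⟨[2], [], [], [],
    .nd 2 0x0 0x0 .nil .nil⟩,
  ⟨[2], [], [], [],
    .nd 3 0x0 0x0 (.nd 3 0x0 0x0 .nil .nil) .nil⟩,
  ⟨[2], [], [], [],
    .nil⟩,
  ⟨[], [], [], [],
    .nil⟩,
  ⟨[2], [], [], [],
    .nd 5 0x0 0x0 .nil .nil⟩,
  ⟨[2], [], [], [],
    .nil⟩,
  ⟨[2], [], [], [],
    .nil⟩,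
  ⟨[2], [], [], [],
    .nd 4 0x0 0x0 .nil .nil⟩,
  ⟨[2], [], [], [],
    .nd 1 0x0 0x0 .nil .nil⟩,
  ⟨[2], [], [], [],
    .nil⟩,
  ⟨[2], [], [], [],
    .nil⟩,
  ⟨[2], [], [], [],
    .nd 2 0x0 0x0 (.nd 5 0x0 0x0 .nil .nil) .nil⟩,
  ⟨[2], [], [], [],
    .nd 3 0x0 0x0 .nil .nil⟩,
  ⟨[2], [], [], [],
    .nil⟩,
  ⟨[], [], [], [],
    .nil⟩,
  ⟨[2], [], [], [],
    .nd 5 0x0 0x0 (.nd 2 0x0 0x0 (.nd 4 0x0 0x1 .nil .nil) .nil) .nil⟩,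
  ⟨[2], [], [], [],
    .nil⟩,
  ⟨[2], [], [], [],
    .nil⟩,
  ⟨[2], [], [], [],
    .nd 4 0x0 0x0 .nil .nil⟩,
  ⟨[], [(2, [1, 2, 3, 4, 5, 6, 7, 8, 9, 10, 11]), (12, [1, 2, 3, 4, 5, 6, 7, 8, 9, 10, 11, 12, 13, 14, 15, 16, 17, 18, 19, 20, 21, 22, 23, 24, 25, 26, 27, 28, 29, 30, 31, 32, 33, 34, 35, 36, 37, 38, 39, 40, 41, 42, 43, 44, 45, 46, 47, 48, 49, 50, 51, 52, 53, 54, 55, 56, 57, 58, 59, 60, 61, 62, 63, 64, 65, 66])], [], [[(22, 11, 1)], [(132, 11, 1)], [(132, 1, 1)]],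
    .nd 1 0x0 0x0 (.nd 0 0x0 0x0 (.nd 1 0x0 0x300000000000000014 (.nd 0 0x0 0x0 (.cl 1 0x0 1214 .nil) .nil) .nil) .nil) .nil⟩,
  ⟨[2], [], [], [],
    .nil⟩,
  ⟨[2], [], [], [],
    .nil⟩,
  ⟨[2], [], [], [],
    .nd 2 0x0 0x0 (.nd 2 0x0 0x0 .nil .nil) .nil⟩,
  ⟨[2], [], [], [],
    .nd 3 0x0 0x0 .nil .nil⟩,
  ⟨[2], [], [], [],
    .nil⟩,
  ⟨[], [], [], [],
    .nil⟩,
  ⟨[2], [], [], [],
    .nd 5 0x0 0x0 .nil .nil⟩,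
  ⟨[2], [], [], [],
    .nil⟩,
  ⟨[2], [], [], [],
    .nil⟩,
  ⟨[2], [], [], [],
    .nd 4 0x0 0x0 .nil .nil⟩,
  ⟨[2], [], [], [],
    .nd 1 0x0 0x0 (.nd 2 0x0 0x0 (.nd 5 0x0 0x1 (.nd 1 0x0 0x1 .nil .nil) .nil) .nil) .nil⟩,
  ⟨[2], [], [], [],
    .nil⟩,
  ⟨[2], [], [], [],
    .nil⟩,
  ⟨[2], [], [], [],
    .nd 2 0x0 0x0 .nil .nil⟩,
  ⟨[2], [], [], [],
    .nd 3 0x0 0x0 (.nd 2 0x0 0x0 (.nd 5 0x0 0x1 (.nd 4 0x0 0x1 .nil .nil) .nil) .nil) .nil⟩,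
  ⟨[2], [], [], [],
    .nil⟩,
  ⟨[], [], [], [],
    .nil⟩,
  ⟨[2], [], [], [],
    .nd 5 0x0 0x0 (.nd 3 0x0 0x0 (.nd 3 0x0 0x1 (.nd 4 0x0 0x1 .nil .nil) .nil) .nil) .nil⟩,
  ⟨[2], [], [], [],
    .nil⟩,
  ⟨[2], [], [], [],
    .nil⟩,
  ⟨[2], [], [], [],
    .nd 4 0x0 0x0 (.nd 5 0x0 0x0 .nil .nil) .nil⟩,
  ⟨[2], [], [], [],
    .nd 1 0x0 0x0 (.nd 4 0x0 0x0 .nil .nil) .nil⟩,
  ⟨[2], [], [], [],
    .nil⟩,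
  ⟨[2], [], [], [],
    .nil⟩,
  ⟨[2], [], [], [],
    .nd 2 0x0 0x0 .nil .nil⟩,
  ⟨[2], [], [], [],
    .nd 3 0x0 0x0 .nil .nil⟩,
  ⟨[2], [], [], [],
    .nil⟩,
  ⟨[], [], [], [],
    .nil⟩,
  ⟨[2], [], [], [],
    .nd 5 0x0 0x0 .nil .nil⟩,
  ⟨[2], [], [], [],
    .nil⟩,
  ⟨[2], [], [], [],
    .nil⟩,
  ⟨[2], [], [], [],
    .nd 4 0x0 0x0 (.nd 4 0x0 0x0 .nil .nil) .nil⟩,
  ⟨[2], [], [], [],
    .nd 1 0x0 0x0 .nil .nil⟩,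
  ⟨[2], [], [], [],
    .nil⟩,
  ⟨[2], [], [], [],
    .nil⟩,
  ⟨[2], [], [], [],
    .nd 2 0x0 0x0 (.nd 4 0x0 0x0 (.nd 3 0x0 0x1 .nil .nil) .nil) .nil⟩,
  ⟨[2], [], [], [],
    .nd 3 0x0 0x0 (.nd 5 0x0 0x0 (.nd 4 0x0 0x1 .nil .nil) .nil) .nil⟩,
  ⟨[2], [], [], [],
    .nil⟩,
  ⟨[], [], [], [],
    .nil⟩,
  ⟨[2], [], [], [],
    .nd 5 0x0 0x0 (.nd 4 0x0 0x0 .nil .nil) .nil⟩,
  ⟨[2], [], [], [],
    .nil⟩,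
  ⟨[2], [], [], [],
    .nil⟩,
  ⟨[2], [], [], [],
    .nd 4 0x0 0x0 (.nd 3 0x0 0x0 .nil .nil) .nil⟩,
  ⟨[2], [], [], [],
    .nd 1 0x0 0x0 .nil .nil⟩,
  ⟨[2], [], [], [],
    .nil⟩,
  ⟨[2], [], [], [],
    .nil⟩,
  ⟨[2], [], [], [],
    .nd 2 0x0 0x0 (.nd 1 0x0 0x0 (.nd 2 0x0 0x1 (.nd 5 0x0 0x1 (.nd 4 0x0 0x1 .nil .nil) .nil) .nil) .nil) .nil⟩,
  ⟨[2], [], [], [],
    .nd 3 0x0 0x0 (.nd 1 0x0 0x0 .nil .nil) .nil⟩,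
  ⟨[2], [], [], [],
    .nil⟩,
  ⟨[], [], [], [],
    .nil⟩,
  ⟨[2], [], [], [],
    .nd 5 0x0 0x0 .nil .nil⟩,
  ⟨[2], [], [], [],
    .nil⟩,
  ⟨[2], [], [], [],
    .nil⟩,
  ⟨[2], [], [], [],
    .nd 4 0x0 0x0 (.nd 2 0x0 0x0 .nil .nil) .nil⟩,
  ⟨[2], [], [], [],
    .nd 1 0x0 0x0 .nil .nil⟩,
  ⟨[2], [], [], [],
    .nil⟩,
  ⟨[2], [], [], [],
    .nil⟩,
  ⟨[2], [], [], [],
    .nd 2 0x0 0x0 .nil .nil⟩,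
  ⟨[2], [], [], [],
    .nd 3 0x0 0x0 .nil .nil⟩,
  ⟨[2], [], [], [],
    .nil⟩,
  ⟨[], [], [], [],
    .nil⟩,
  ⟨[], [(2, [11])], [], [[(22, 11, 55)]],
    .nd 5 0x0 0x0 (.nd 5 0x0 0x0 (.nd 0 0x0 0x0 (.nd 0 0x0 0x0 (.nd 5 0x0 0x1 (.cl 5 0x0 1231 .nil) .nil) .nil) .nil) .nil) .nil⟩,
  ⟨[2], [], [], [],
    .nil⟩,
  ⟨[2], [], [], [],
    .nil⟩,
  ⟨[2], [], [], [],
    .nd 4 0x0 0x0 (.nd 1 0x0 0x0 (.nd 3 0x0 0x1 .nil .nil) .nil) .nil⟩,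
  ⟨[4], [], [], [],
    .nd 1 0x0 0x0 (.nd 1 0x0 0x0 .nil .nil) .nil⟩,
  ⟨[2], [], [], [],
    .nil⟩,
  ⟨[2], [], [], [],
    .nil⟩,
  ⟨[2], [], [], [],
    .nd 2 0x0 0x0 .nil .nil⟩,
  ⟨[2], [], [], [],
    .nd 3 0x0 0x0 (.nd 4 0x0 0x0 .nil .nil) .nil⟩,
  ⟨[2], [], [], [],
    .nil⟩,
  ⟨[], [], [], [],
    .nil⟩,
  ⟨[], [(2, [11])], [], [[(22, 11, 10)], [(22, 11, 22)]],
    .nd 5 0x0 0x0 (.nd 0 0x0 0x0 (.nd 0 0x0 0x0 (.nd 5 0x0 0x100000000000000004 (.cl 0 0x1000000000000000000000000000000000000000000000000 1232 .nil) .nil) .nil) .nil) .nil⟩,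
  ⟨[2], [], [], [],
    .nil⟩,
  ⟨[2], [], [], [],
    .nil⟩,
  ⟨[2], [], [], [],
    .nd 4 0x0 0x0 (.nd 0 0x0 0x0 (.nd 3 0x0 0x1 (.nd 3 0x0 0x1 (.nd 5 0x0 0x1 .nil .nil) .nil) .nil) .nil) .nil⟩,
  ⟨[2], [], [], [],
    .nd 1 0x0 0x0 (.nd 3 0x0 0x0 (.nd 0 0x0 0x0 .nil .nil) .nil) .nil⟩,
  ⟨[2], [], [], [],
    .nil⟩,
  ⟨[2], [], [], [],
    .nil⟩,
  ⟨[2], [], [], [],
    .nd 2 0x0 0x0 (.nd 3 0x0 0x0 .nil .nil) .nil⟩,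
  ⟨[2], [], [], [],
    .nd 3 0x0 0x0 (.nd 0 0x0 0x0 .nil .nil) .nil⟩,
  ⟨[2], [], [], [],
    .nil⟩,
  ⟨[], [], [], [],
    .nil⟩,
  ⟨[2], [], [], [],
    .nd 5 0x0 0x0 .nil .nil⟩,
  ⟨[2], [], [], [],
    .nil⟩,
  ⟨[2], [], [], [],
    .nil⟩,
  ⟨[2], [], [], [],
    .nd 4 0x0 0x0 .nil .nil⟩,
  ⟨[20], [], [], [],
    .nd 1 0x0 0x0 (.nd 5 0x0 0x0 (.nd 5 0x0 0x1 .nil .nil) .nil) .nil⟩,
  ⟨[2], [], [], [],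
    .nil⟩,
  ⟨[2], [], [], [],
    .nil⟩,
  ⟨[2], [], [], [],
    .nd 2 0x0 0x0 (.nd 0 0x0 0x0 .nil .nil) .nil⟩,
  ⟨[2], [], [], [],
    .nd 3 0x0 0x0 .nil .nil⟩,
  ⟨[2], [], [], [],
    .nil⟩,
  ⟨[], [], [], [],
    .nil⟩,
  ⟨[2], [], [], [],
    .nd 5 0x0 0x0 (.nd 1 0x0 0x0 .nil .nil) .nil⟩,
  ⟨[2], [], [], [],
    .nil⟩,
  ⟨[2], [], [], [],
    .nil⟩,
  ⟨[2], [], [], [],
    .nd 4 0x0 0x0 .nil .nil⟩,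
  ⟨[2], [], [], [],
    .nd 1 0x0 0x0 .nil .nil⟩,
  ⟨[2], [], [], [],
    .nil⟩,
  ⟨[2], [], [], [],
    .nil⟩,
  ⟨[2], [], [], [],
    .nd 2 0x0 0x0 .nil .nil⟩,
  ⟨[2], [], [], [],
    .nd 3 0x0 0x0 (.nd 3 0x0 0x0 (.nd 5 0x0 0x1 .nil .nil) .nil) .nil⟩,
  ⟨[2], [], [], [],
    .nil⟩,
  ⟨[], [], [], [],
    .nil⟩,
  ⟨[2], [], [], [],
    .nd 5 0x0 0x0 .nil .nil⟩,
  ⟨[2], [], [], [],
    .nil⟩,
  ⟨[2], [], [], [],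
    .nil⟩,
  ⟨[2], [], [], [],
    .nd 4 0x0 0x0 .nil .nil⟩,
  ⟨[2], [], [], [],
    .nd 1 0x0 0x0 .nil .nil⟩,
  ⟨[2], [], [], [],
    .nil⟩,
  ⟨[2], [], [], [],
    .nil⟩,
  ⟨[2], [], [], [],
    .nd 2 0x0 0x0 (.nd 5 0x0 0x0 .nil .nil) .nil⟩,
  ⟨[2], [], [], [],
    .nd 3 0x0 0x0 .nil .nil⟩,
  ⟨[2], [], [], [],
    .nil⟩,
  ⟨[], [], [], [],
    .nil⟩,
  ⟨[2], [], [], [],
    .nd 5 0x0 0x0 (.nd 2 0x0 0x0 .nil .nil) .nil⟩,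
  ⟨[2], [], [], [],
    .nil⟩,
  ⟨[2], [], [], [],
    .nil⟩,
  ⟨[2], [], [], [],
    .nd 4 0x0 0x0 .nil .nil⟩,
  ⟨[2], [], [], [],
    .nd 1 0x0 0x0 (.nd 0 0x0 0x0 (.nd 3 0x0 0x1 (.nd 0 0x0 0x0 .nil .nil) .nil) .nil) .nil⟩,
  ⟨[2], [], [], [],
    .nil⟩,
  ⟨[2], [], [], [],
    .nil⟩,
  ⟨[2], [], [], [],
    .nd 2 0x0 0x0 (.nd 2 0x0 0x0 (.nd 3 0x0 0x1 (.nd 5 0x0 0x1 (.nd 2 0x0 0x1 (.nd 1 0x0 0x1 (.nd 5 0x0 0x1 (.nd 1 0x0 0x1 .nil .nil) .nil) .nil) .nil) .nil) .nil) .nil) .nil⟩,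
  ⟨[2], [], [], [],
    .nd 3 0x0 0x0 .nil .nil⟩,
  ⟨[2], [], [], [],
    .nil⟩,
  ⟨[], [], [], [],
    .nil⟩,
  ⟨[2], [], [], [],
    .nd 5 0x0 0x0 .nil .nil⟩,
  ⟨[2], [], [], [],
    .nil⟩,
  ⟨[2], [], [], [],
    .nil⟩,
  ⟨[2], [], [], [],
    .nd 4 0x0 0x0 .nil .nil⟩,
  ⟨[2], [], [], [],
    .nd 1 0x0 0x0 (.nd 2 0x0 0x0 .nil .nil) .nil⟩,
  ⟨[2], [], [], [],
    .nil⟩,
  ⟨[2], [], [], [],
    .nil⟩,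
  ⟨[2], [], [], [],
    .nd 2 0x0 0x0 .nil .nil⟩,
  ⟨[2], [], [], [],
    .nd 3 0x0 0x0 (.nd 2 0x0 0x0 (.nd 1 0x0 0x0 .nil .nil) .nil) .nil⟩,
  ⟨[2], [], [], [],
    .nil⟩,
  ⟨[], [], [], [],
    .nil⟩,
  ⟨[2], [], [], [],
    .nd 5 0x0 0x0 (.nd 3 0x0 0x0 .nil .nil) .nil⟩,
  ⟨[2], [], [], [],
    .nil⟩,
  ⟨[2], [], [], [],
    .nil⟩,
  ⟨[2], [], [], [],
    .nd 4 0x0 0x0 (.nd 5 0x0 0x0 .nil .nil) .nil⟩,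
  ⟨[2], [], [], [],
    .nd 1 0x0 0x0 (.nd 4 0x0 0x0 .nil .nil) .nil⟩,
  ⟨[2], [], [], [],
    .nil⟩,
  ⟨[2], [], [], [],
    .nil⟩,
  ⟨[2], [], [], [],
    .nd 2 0x0 0x0 .nil .nil⟩,
  ⟨[2], [], [], [],
    .nd 3 0x0 0x0 .nil .nil⟩,
  ⟨[2], [], [], [],
    .nil⟩,
  ⟨[], [], [], [],
    .nil⟩,
  ⟨[2], [], [], [],
    .nd 5 0x0 0x0 .nil .nil⟩,
  ⟨[2], [], [], [],
    .nil⟩,
  ⟨[2], [], [], [],
    .nil⟩,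
  ⟨[2], [], [], [],
    .nd 4 0x0 0x0 (.nd 4 0x0 0x0 (.nd 5 0x0 0x1 (.nd 0 0x0 0x0 .nil .nil) .nil) .nil) .nil⟩,
  ⟨[2], [], [], [],
    .nd 1 0x0 0x0 .nil .nil⟩,
  ⟨[2], [], [], [],
    .nil⟩,
  ⟨[2], [], [], [],
    .nil⟩,
  ⟨[2], [], [], [],
    .nd 2 0x0 0x0 (.nd 4 0x0 0x0 (.nd 0 0x0 0x0 .nil .nil) .nil) .nil⟩,
  ⟨[2], [], [], [],
    .nd 3 0x0 0x0 (.nd 5 0x0 0x0 (.nd 0 0x0 0x0 (.nd 2 0x0 0x1 (.nd 1 0x0 0x1 .nil .nil) .nil) .nil) .nil) .nil⟩,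
  ⟨[2], [], [], [],
    .nil⟩,
  ⟨[], [], [], [],
    .nil⟩,
  ⟨[2], [], [], [],
    .nd 5 0x0 0x0 (.nd 4 0x0 0x0 (.nd 4 0x0 0x1 (.nd 5 0x0 0x1 .nil .nil) .nil) .nil) .nil⟩,
  ⟨[2], [], [], [],
    .nil⟩,
  ⟨[2], [], [], [],
    .nil⟩,
  ⟨[2], [], [], [],
    .nd 4 0x0 0x0 (.nd 3 0x0 0x0 .nil .nil) .nil⟩,
  ⟨[2], [], [], [],
    .nd 1 0x0 0x0 .nil .nil⟩,
  ⟨[2], [], [], [],
    .nil⟩,
  ⟨[2], [], [], [],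
    .nil⟩,
  ⟨[2], [], [], [],
    .nd 2 0x0 0x0 (.nd 1 0x0 0x0 .nil .nil) .nil⟩,
  ⟨[2], [], [], [],
    .nd 3 0x0 0x0 (.nd 1 0x0 0x0 (.nd 5 0x0 0x1 (.nd 1 0x0 0x1 .nil .nil) .nil) .nil) .nil⟩,
  ⟨[2], [], [], [],
    .nil⟩,
  ⟨[], [], [], [],
    .nil⟩,
  ⟨[2], [], [], [],
    .nd 5 0x0 0x0 .nil .nil⟩,
  ⟨[2], [], [], [],
    .nil⟩,
  ⟨[2], [], [], [],
    .nil⟩,
  ⟨[2], [], [], [],
    .nd 4 0x0 0x0 (.nd 2 0x0 0x0 .nil .nil) .nil⟩,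
  ⟨[2], [], [], [],
    .nd 1 0x0 0x0 .nil .nil⟩,
  ⟨[2], [], [], [],
    .nil⟩,
  ⟨[2], [], [], [],
    .nil⟩,
  ⟨[2], [], [], [],
    .nd 2 0x0 0x0 .nil .nil⟩,
  ⟨[2], [], [], [],
    .nd 3 0x0 0x0 .nil .nil⟩,
  ⟨[2], [], [], [],
    .nil⟩,
  ⟨[], [], [], [],
    .nil⟩,
  ⟨[2], [], [], [],
    .nd 5 0x0 0x0 (.nd 5 0x0 0x0 .nil .nil) .nil⟩,
  ⟨[2], [], [], [],
    .nil⟩,
  ⟨[2], [], [], [],
    .nil⟩,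
  ⟨[2], [], [], [],
    .nd 4 0x0 0x0 (.nd 1 0x0 0x0 (.nd 2 0x0 0x0 .nil .nil) .nil) .nil⟩,
  ⟨[2], [], [], [],
    .nd 1 0x0 0x0 (.nd 1 0x0 0x0 (.nd 5 0x0 0x1 .nil .nil) .nil) .nil⟩,
  ⟨[2], [], [], [],
    .nil⟩,
  ⟨[2], [], [], [],
    .nil⟩,
  ⟨[2], [], [], [],
    .nd 2 0x0 0x0 .nil .nil⟩,
  ⟨[2], [], [], [],
    .nd 3 0x0 0x0 (.nd 4 0x0 0x0 (.nd 2 0x0 0x0 .nil .nil) .nil) .nil⟩,
  ⟨[2], [], [], [],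
    .nil⟩,
  ⟨[], [], [], [],
    .nil⟩,
  ⟨[2], [], [], [],
    .nd 5 0x0 0x0 (.nd 0 0x0 0x0 .nil .nil) .nil⟩,
  ⟨[2], [], [], [],
    .nil⟩,
  ⟨[2], [], [], [],
    .nil⟩,
  ⟨[2], [], [], [],
    .nd 4 0x0 0x0 (.nd 0 0x0 0x0 (.nd 2 0x0 0x0 .nil .nil) .nil) .nil⟩,
  ⟨[2], [], [], [],
    .nd 1 0x0 0x0 (.nd 3 0x0 0x0 (.nd 2 0x0 0x0 .nil .nil) .nil) .nil⟩,
  ⟨[2], [], [], [],
    .nil⟩,
  ⟨[2], [], [], [],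
    .nil⟩,
  ⟨[2], [], [], [],
    .nd 2 0x0 0x0 (.nd 3 0x0 0x0 (.nd 5 0x0 0x1 .nil .nil) .nil) .nil⟩,
  ⟨[2], [], [], [],
    .nd 3 0x0 0x0 (.nd 0 0x0 0x0 .nil .nil) .nil⟩,
  ⟨[2], [], [], [],
    .nil⟩,
  ⟨[], [], [], [],
    .nil⟩,
  ⟨[2], [], [], [],
    .nd 5 0x0 0x0 .nil .nil⟩,
  ⟨[2], [], [], [],
    .nil⟩,
  ⟨[2], [], [], [],
    .nil⟩,
  ⟨[2], [], [], [],
    .nd 4 0x0 0x0 .nil .nil⟩,
  ⟨[2], [], [], [],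
    .nd 1 0x0 0x0 (.nd 5 0x0 0x0 .nil .nil) .nil⟩,
  ⟨[2], [], [], [],
    .nil⟩,
  ⟨[2], [], [], [],
    .nil⟩,
  ⟨[2], [], [], [],
    .nd 2 0x0 0x0 (.nd 0 0x0 0x0 .nil .nil) .nil⟩,
  ⟨[2], [], [], [],
    .nd 3 0x0 0x0 .nil .nil⟩,
  ⟨[2], [], [], [],
    .nil⟩,
  ⟨[], [], [], [],
    .nil⟩,
  ⟨[2], [], [], [],
    .nd 5 0x0 0x0 (.nd 1 0x0 0x0 (.nd 2 0x0 0x0 .nil .nil) .nil) .nil⟩,
  ⟨[2], [], [], [],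
    .nil⟩,
  ⟨[2], [], [], [],
    .nil⟩,
  ⟨[2], [], [], [],
    .nd 4 0x0 0x0 .nil .nil⟩,
  ⟨[2], [], [], [],
    .nd 1 0x0 0x0 .nil .nil⟩,
  ⟨[2], [], [], [],
    .nil⟩,
  ⟨[2], [], [], [],
    .nil⟩,
  ⟨[2], [], [], [],
    .nd 2 0x0 0x0 .nil .nil⟩,
  ⟨[2], [], [], [],
    .nd 3 0x0 0x0 (.nd 3 0x0 0x0 (.nd 1 0x0 0x0 (.nd 3 0x0 0x1 .nil .nil) .nil) .nil) .nil⟩,
  ⟨[2], [], [], [],
    .nil⟩,
  ⟨[], [], [], [],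
    .nil⟩,
  ⟨[2], [], [], [],
    .nd 5 0x0 0x0 .nil .nil⟩,
  ⟨[2], [], [], [],
    .nil⟩,
  ⟨[2], [], [], [],
    .nil⟩,
  ⟨[2], [], [], [],
    .nd 4 0x0 0x0 .nil .nil⟩,
  ⟨[2], [], [], [],
    .nd 1 0x0 0x0 .nil .nil⟩,
  ⟨[2], [], [], [],
    .nil⟩,
  ⟨[2], [], [], [],
    .nil⟩,
  ⟨[2], [], [], [],
    .nd 2 0x0 0x0 (.nd 5 0x0 0x0 (.nd 4 0x0 0x0 (.nd 5 0x0 0x1 .nil .nil) .nil) .nil) .nil⟩,
  ⟨[2], [], [], [],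
    .nd 3 0x0 0x0 .nil .nil⟩,
  ⟨[2], [], [], [],
    .nil⟩,
  ⟨[], [], [], [],
    .nil⟩,
  ⟨[2], [], [], [],
    .nd 5 0x0 0x0 (.nd 2 0x0 0x0 (.nd 5 0x0 0x1 .nil .nil) .nil) .nil⟩,
  ⟨[2], [], [], [],
    .nil⟩,
  ⟨[2], [], [], [],
    .nil⟩,
  ⟨[2], [], [], [],
    .nd 4 0x0 0x0 .nil .nil⟩,
  ⟨[2], [], [], [],
    .nd 1 0x0 0x0 (.nd 0 0x0 0x0 (.nd 5 0x0 0x1 (.nd 0 0x0 0x0 (.nd 3 0x0 0x1 (.nd 2 0x0 0x1 (.nd 4 0x0 0x1 (.nd 0 0x0 0x0 .nil .nil) .nil) .nil) .nil) .nil) .nil) .nil) .nil⟩,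
  ⟨[2], [], [], [],
    .nil⟩,
  ⟨[2], [], [], [],
    .nil⟩,
  ⟨[6], [], [], [],
    .nil⟩,
  ⟨[2], [], [], [],
    .nd 3 0x0 0x0 .nil .nil⟩,
  ⟨[2], [], [], [],
    .nil⟩,
  ⟨[], [], [], [],
    .nil⟩,
  ⟨[2], [], [], [],
    .nd 5 0x0 0x0 .nil .nil⟩,
  ⟨[2], [], [], [],
    .nil⟩,
  ⟨[2], [], [], [],
    .nil⟩,
  ⟨[2], [], [], [],
    .nd 4 0x0 0x0 .nil .nil⟩,
  ⟨[2], [], [], [],
    .nd 1 0x0 0x0 (.nd 2 0x0 0x0 .nil .nil) .nil⟩,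
  ⟨[2], [], [], [],
    .nil⟩,
  ⟨[2], [], [], [],
    .nil⟩,
  ⟨[2], [], [], [],
    .nd 2 0x0 0x0 .nil .nil⟩,
  ⟨[2], [], [], [],
    .nd 3 0x0 0x0 (.nd 2 0x0 0x0 .nil .nil) .nil⟩,
  ⟨[2], [], [], [],
    .nil⟩,
  ⟨[], [], [], [],
    .nil⟩,
  ⟨[2], [], [], [],
    .nd 5 0x0 0x0 (.nd 3 0x0 0x0 (.nd 4 0x0 0x0 (.nd 1 0x0 0x1 .nil .nil) .nil) .nil) .nil⟩,
  ⟨[2], [], [], [],
    .nil⟩,
  ⟨[2], [], [], [],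
    .nil⟩,
  ⟨[2], [], [], [],
    .nd 4 0x0 0x0 (.nd 5 0x0 0x0 .nil .nil) .nil⟩,
  ⟨[2], [], [], [],
    .nd 1 0x0 0x0 (.nd 4 0x0 0x0 .nil .nil) .nil⟩,
  ⟨[2], [], [], [],
    .nil⟩,
  ⟨[2], [], [], [],
    .nil⟩,
  ⟨[2], [], [], [],
    .nd 2 0x0 0x0 .nil .nil⟩,
  ⟨[2], [], [], [],
    .nd 3 0x0 0x0 .nil .nil⟩,
  ⟨[2], [], [], [],
    .nil⟩,
  ⟨[], [], [], [],
    .nil⟩,
  ⟨[2], [], [], [],
    .nd 5 0x0 0x0 .nil .nil⟩,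
  ⟨[2], [], [], [],
    .nil⟩,
  ⟨[2], [], [], [],
    .nil⟩,
  ⟨[2], [], [], [],
    .nd 4 0x0 0x0 (.nd 4 0x0 0x0 (.nd 4 0x0 0x0 (.nd 1 0x0 0x1 .nil .nil) .nil) .nil) .nil⟩,
  ⟨[2], [], [], [],
    .nd 1 0x0 0x0 .nil .nil⟩,
  ⟨[2], [], [], [],
    .nil⟩,
  ⟨[2], [], [], [],
    .nil⟩,
  ⟨[2], [], [], [],
    .nd 2 0x0 0x0 (.nd 4 0x0 0x0 .nil .nil) .nil⟩,
  ⟨[2], [], [], [],
    .nd 3 0x0 0x0 (.nd 5 0x0 0x0 .nil .nil) .nil⟩,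
  ⟨[2], [], [], [],
    .nil⟩,
  ⟨[], [], [], [],
    .nil⟩,
  ⟨[2], [], [], [],
    .nd 5 0x0 0x0 (.nd 4 0x0 0x0 .nil .nil) .nil⟩,
  ⟨[2], [], [], [],
    .nil⟩,
  ⟨[2], [], [], [],
    .nil⟩,
  ⟨[2], [], [], [],
    .nd 4 0x0 0x0 (.nd 3 0x0 0x0 .nil .nil) .nil⟩,
  ⟨[2], [], [], [],
    .nd 1 0x0 0x0 .nil .nil⟩,
  ⟨[2], [], [], [],
    .nil⟩,
  ⟨[2], [], [], [],
    .nil⟩,
  ⟨[2], [], [], [],
    .nd 2 0x0 0x0 (.nd 1 0x0 0x0 .nil .nil) .nil⟩,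
  ⟨[2], [], [], [],
    .nd 3 0x0 0x0 (.nd 1 0x0 0x0 (.nd 1 0x0 0x0 (.nd 4 0x0 0x1 (.nd 2 0x0 0x1 (.nd 2 0x0 0x1 (.nd 5 0x0 0x1 (.nd 3 0x0 0x1 (.nd 3 0x0 0x1 .nil .nil) .nil) .nil) .nil) .nil) .nil) .nil) .nil) .nil⟩,
  ⟨[2], [], [], [],
    .nil⟩,
  ⟨[], [], [], [],
    .nil⟩,
  ⟨[2], [], [], [],
    .nd 5 0x0 0x0 .nil .nil⟩,
  ⟨[2], [], [], [],
    .nil⟩,
  ⟨[2], [], [], [],
    .nil⟩,
  ⟨[2], [], [], [],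
    .nd 4 0x0 0x0 (.nd 2 0x0 0x0 .nil .nil) .nil⟩,
  ⟨[2], [], [], [],
    .nd 1 0x0 0x0 .nil .nil⟩,
  ⟨[2], [], [], [],
    .nil⟩,
  ⟨[2], [], [], [],
    .nil⟩,
  ⟨[2], [], [], [],
    .nd 2 0x0 0x0 .nil .nil⟩,
  ⟨[2], [], [], [],
    .nd 3 0x0 0x0 .nil .nil⟩,
  ⟨[2], [], [], [],
    .nil⟩,
  ⟨[], [], [], [],
    .nil⟩,
  ⟨[2], [], [], [],
    .nd 5 0x0 0x0 (.nd 5 0x0 0x0 (.nd 1 0x0 0x0 (.nd 0 0x0 0x0 (.nd 1 0x0 0x1 (.nd 5 0x0 0x1 (.nd 2 0x0 0x1 (.nd 1 0x0 0x1 .nil .nil) .nil) .nil) .nil) .nil) .nil) .nil) .nil⟩,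
  ⟨[2], [], [], [],
    .nil⟩,
  ⟨[2], [], [], [],
    .nil⟩,
  ⟨[2], [], [], [],
    .nd 4 0x0 0x0 (.nd 1 0x0 0x0 (.nd 1 0x0 0x0 (.nd 3 0x0 0x1 (.nd 3 0x0 0x1 .nil .nil) .nil) .nil) .nil) .nil⟩,
  ⟨[2], [], [], [],
    .nd 1 0x0 0x0 (.nd 1 0x0 0x0 .nil .nil) .nil⟩,
  ⟨[2], [], [], [],
    .nil⟩,
  ⟨[2], [], [], [],
    .nil⟩,
  ⟨[2], [], [], [],
    .nd 2 0x0 0x0 .nil .nil⟩,
  ⟨[2], [], [], [],
    .nd 3 0x0 0x0 (.nd 4 0x0 0x0 .nil .nil) .nil⟩,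
  ⟨[2], [], [], [],
    .nil⟩,
  ⟨[], [], [], [],
    .nil⟩,
  ⟨[2], [], [], [],
    .nd 5 0x0 0x0 (.nd 0 0x0 0x0 (.nd 1 0x0 0x0 (.nd 3 0x0 0x1 .nil .nil) .nil) .nil) .nil⟩,
  ⟨[2], [], [], [],
    .nil⟩,
  ⟨[2], [], [], [],
    .nil⟩,
  ⟨[2], [], [], [],
    .nd 4 0x0 0x0 (.nd 0 0x0 0x0 (.nd 1 0x0 0x0 .nil .nil) .nil) .nil⟩,
  ⟨[2], [], [], [],
    .nd 1 0x0 0x0 (.nd 3 0x0 0x0 (.nd 4 0x0 0x0 .nil .nil) .nil) .nil⟩,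
  ⟨[2], [], [], [],
    .nil⟩,
  ⟨[2], [], [], [],
    .nil⟩,
  ⟨[2], [], [], [],
    .nd 2 0x0 0x0 (.nd 3 0x0 0x0 (.nd 2 0x0 0x0 .nil .nil) .nil) .nil⟩,
  ⟨[2], [], [], [],
    .nd 3 0x0 0x0 (.nd 0 0x0 0x0 (.nd 2 0x0 0x0 (.nd 5 0x0 0x1 (.nd 5 0x0 0x1 .nil .nil) .nil) .nil) .nil) .nil⟩,
  ⟨[2], [], [], [],
    .nil⟩,
  ⟨[], [], [], [],
    .nil⟩,
  ⟨[2], [], [], [],
    .nd 5 0x0 0x0 .nil .nil⟩,
  ⟨[2], [], [], [],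
    .nil⟩,
  ⟨[2], [], [], [],
    .nil⟩,
  ⟨[2], [], [], [],
    .nd 4 0x0 0x0 .nil .nil⟩,
  ⟨[2], [], [], [],
    .nd 1 0x0 0x0 (.nd 5 0x0 0x0 .nil .nil) .nil⟩,
  ⟨[2], [], [], [],
    .nil⟩,
  ⟨[2], [], [], [],
    .nil⟩,
  ⟨[2], [], [], [],
    .nd 2 0x0 0x0 (.nd 0 0x0 0x0 (.nd 4 0x0 0x0 (.nd 2 0x0 0x1 .nil .nil) .nil) .nil) .nil⟩,
  ⟨[2], [], [], [],
    .nd 3 0x0 0x0 .nil .nil⟩,
  ⟨[2], [], [], [],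
    .nil⟩,
  ⟨[], [], [], [],
    .nil⟩,
  ⟨[2], [], [], [],
    .nd 5 0x0 0x0 (.nd 1 0x0 0x0 .nil .nil) .nil⟩,
  ⟨[2], [], [], [],
    .nil⟩,
  ⟨[2], [], [], [],
    .nil⟩,
  ⟨[2], [], [], [],
    .nd 4 0x0 0x0 .nil .nil⟩,
  ⟨[2], [], [], [],
    .nd 1 0x0 0x0 .nil .nil⟩,
  ⟨[2], [], [], [],
    .nil⟩,
  ⟨[2], [], [], [],
    .nil⟩,
  ⟨[2], [], [], [],
    .nd 2 0x0 0x0 .nil .nil⟩,
  ⟨[2], [], [], [],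
    .nd 3 0x0 0x0 (.nd 3 0x0 0x0 .nil .nil) .nil⟩,
  ⟨[2], [], [], [],
    .nil⟩,
  ⟨[], [], [], [],
    .nil⟩,
  ⟨[2], [], [], [],
    .nd 5 0x0 0x0 .nil .nil⟩,
  ⟨[2], [], [], [],
    .nil⟩,
  ⟨[2], [], [], [],
    .nil⟩,
  ⟨[2], [], [], [],
    .nd 4 0x0 0x0 .nil .nil⟩,
  ⟨[2], [], [], [],
    .nd 1 0x0 0x0 .nil .nil⟩,
  ⟨[2], [], [], [],
    .nil⟩,
  ⟨[2], [], [], [],
    .nil⟩,
  ⟨[2], [], [], [],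
    .nd 2 0x0 0x0 (.nd 5 0x0 0x0 (.nd 1 0x0 0x0 (.nd 2 0x0 0x1 (.nd 3 0x0 0x1 .nil .nil) .nil) .nil) .nil) .nil⟩,
  ⟨[2], [], [], [],
    .nd 3 0x0 0x0 .nil .nil⟩,
  ⟨[2], [], [], [],
    .nil⟩,
  ⟨[], [], [], [],
    .nil⟩,
  ⟨[2], [], [], [],
    .nd 5 0x0 0x0 (.nd 2 0x0 0x0 (.nd 0 0x0 0x0 .nil .nil) .nil) .nil⟩,
  ⟨[2], [], [], [],
    .nil⟩,
  ⟨[2], [], [], [],
    .nil⟩,
  ⟨[2], [], [], [],
    .nd 4 0x0 0x0 .nil .nil⟩,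
  ⟨[2], [], [], [],
    .nd 1 0x0 0x0 (.nd 0 0x0 0x0 .nil .nil) .nil⟩,
  ⟨[2], [], [], [],
    .nil⟩,
  ⟨[2], [], [], [],
    .nil⟩,
  ⟨[2], [], [], [],
    .nd 2 0x0 0x0 (.nd 2 0x0 0x0 .nil .nil) .nil⟩,
  ⟨[2], [], [], [],
    .nd 3 0x0 0x0 .nil .nil⟩,
  ⟨[2], [], [], [],
    .nil⟩,
  ⟨[], [], [], [],
    .nil⟩,
  ⟨[2], [], [], [],
    .nd 5 0x0 0x0 .nil .nil⟩,
  ⟨[2], [], [], [],
    .nil⟩,
  ⟨[2], [], [], [],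
    .nil⟩,
  ⟨[2], [], [], [],
    .nd 4 0x0 0x0 .nil .nil⟩,
  ⟨[2], [], [], [],
    .nd 1 0x0 0x0 (.nd 2 0x0 0x0 (.nd 0 0x0 0x0 (.nd 4 0x0 0x1 .nil .nil) .nil) .nil) .nil⟩,
  ⟨[2], [], [], [],
    .nil⟩,
  ⟨[2], [], [], [],
    .nil⟩,
  ⟨[2], [], [], [],
    .nd 2 0x0 0x0 .nil .nil⟩,
  ⟨[2], [], [], [],
    .nd 3 0x0 0x0 (.nd 2 0x0 0x0 (.nd 4 0x0 0x0 (.nd 4 0x0 0x1 (.nd 2 0x0 0x1 (.nd 1 0x0 0x1 (.nd 5 0x0 0x1 (.nd 0 0x0 0x0 (.nd 1 0x0 0x1 .nil .nil) .nil) .nil) .nil) .nil) .nil) .nil) .nil) .nil⟩,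
  ⟨[2], [], [], [],
    .nil⟩,
  ⟨[], [], [], [],
    .nil⟩,
  ⟨[2], [], [], [],
    .nd 5 0x0 0x0 (.nd 3 0x0 0x0 .nil .nil) .nil⟩,
  ⟨[2], [], [], [],
    .nil⟩,
  ⟨[2], [], [], [],
    .nil⟩,
  ⟨[8], [], [], [],
    .nd 4 0x0 0x0 (.nd 5 0x0 0x0 (.nd 5 0x0 0x0 .nil .nil) .nil) .nil⟩,
  ⟨[2], [], [], [],
    .nd 1 0x0 0x0 (.nd 4 0x0 0x0 (.nd 1 0x0 0x0 (.nd 1 0x0 0x1 (.nd 3 0x0 0x1 .nil .nil) .nil) .nil) .nil) .nil⟩,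
  ⟨[2], [], [], [],
    .nil⟩,
  ⟨[2], [], [], [],
    .nil⟩,
  ⟨[2], [], [], [],
    .nd 2 0x0 0x0 .nil .nil⟩,
  ⟨[2], [], [], [],
    .nd 3 0x0 0x0 .nil .nil⟩,
  ⟨[2], [], [], [],
    .nil⟩,
  ⟨[], [], [], [],
    .nil⟩,
  ⟨[2], [], [], [],
    .nd 5 0x0 0x0 .nil .nil⟩,
  ⟨[2], [], [], [],
    .nil⟩,
  ⟨[2], [], [], [],
    .nil⟩,
  ⟨[2], [], [], [],
    .nd 4 0x0 0x0 (.nd 4 0x0 0x0 (.nd 3 0x0 0x0 (.nd 2 0x0 0x1 (.nd 5 0x0 0x1 .nil .nil) .nil) .nil) .nil) .nil⟩,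
  ⟨[2], [], [], [],
    .nd 1 0x0 0x0 .nil .nil⟩,
  ⟨[2], [], [], [],
    .nil⟩,
  ⟨[2], [], [], [],
    .nil⟩,
  ⟨[2], [], [], [],
    .nd 2 0x0 0x0 (.nd 4 0x0 0x0 (.nd 5 0x0 0x0 .nil .nil) .nil) .nil⟩,
  ⟨[2], [], [], [],
    .nd 3 0x0 0x0 (.nd 5 0x0 0x0 (.nd 3 0x0 0x0 (.nd 4 0x0 0x1 (.nd 5 0x0 0x1 (.nd 0 0x0 0x0 (.nd 2 0x0 0x1 .nil .nil) .nil) .nil) .nil) .nil) .nil) .nil⟩,
  ⟨[2], [], [], [],
    .nil⟩,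
  ⟨[], [], [], [],
    .nil⟩,
  ⟨[2], [], [], [],
    .nd 5 0x0 0x0 (.nd 4 0x0 0x0 (.nd 5 0x0 0x0 .nil .nil) .nil) .nil⟩,
  ⟨[2], [], [], [],
    .nil⟩,
  ⟨[2], [], [], [],
    .nil⟩,
  ⟨[2], [], [], [],
    .nd 4 0x0 0x0 (.nd 3 0x0 0x0 .nil .nil) .nil⟩,
  ⟨[2], [], [], [],
    .nd 1 0x0 0x0 .nil .nil⟩,
  ⟨[2], [], [], [],
    .nil⟩,
  ⟨[2], [], [], [],
    .nil⟩,
  ⟨[2], [], [], [],
    .nd 2 0x0 0x0 (.nd 1 0x0 0x0 (.nd 4 0x0 0x0 .nil .nil) .nil) .nil⟩,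
  ⟨[2], [], [], [],
    .nd 3 0x0 0x0 (.nd 1 0x0 0x0 .nil .nil) .nil⟩,
  ⟨[2], [], [], [],
    .nil⟩,
  ⟨[], [], [], [],
    .nil⟩,
  ⟨[2], [], [], [],
    .nd 5 0x0 0x0 .nil .nil⟩,
  ⟨[2], [], [], [],
    .nil⟩,
  ⟨[2], [], [], [],
    .nil⟩,
  ⟨[2], [], [], [],
    .nd 4 0x0 0x0 (.nd 2 0x0 0x0 .nil .nil) .nil⟩,
  ⟨[2], [], [], [],
    .nd 1 0x0 0x0 .nil .nil⟩,
  ⟨[2], [], [], [],
    .nil⟩,
  ⟨[2], [], [], [],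
    .nil⟩,
  ⟨[2], [], [], [],
    .nd 2 0x0 0x0 .nil .nil⟩,
  ⟨[2], [], [], [],
    .nd 3 0x0 0x0 .nil .nil⟩,
  ⟨[2], [], [], [],
    .nil⟩,
  ⟨[], [], [], [],
    .nil⟩,
  ⟨[2], [], [], [],
    .nd 5 0x0 0x0 (.nd 5 0x0 0x0 .nil .nil) .nil⟩,
  ⟨[2], [], [], [],
    .nil⟩,
  ⟨[2], [], [], [],
    .nil⟩,
  ⟨[], [(2, [11])], [], [[(22, 11, 10)]],
    .nd 4 0x0 0x0 (.nd 1 0x0 0x0 (.nd 0 0x0 0x0 (.nd 0 0x0 0x0 (.nd 4 0x0 0x1 (.cl 1 0x0 1233 .nil) .nil) .nil) .nil) .nil) .nil⟩,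
  ⟨[2], [], [], [],
    .nd 1 0x0 0x0 (.nd 1 0x0 0x0 .nil .nil) .nil⟩,
  ⟨[2], [], [], [],
    .nil⟩,
  ⟨[2], [], [], [],
    .nil⟩,
  ⟨[2], [], [], [],
    .nd 2 0x0 0x0 .nil .nil⟩,
  ⟨[2], [], [], [],
    .nd 3 0x0 0x0 (.nd 4 0x0 0x0 (.nd 5 0x0 0x0 .nil .nil) .nil) .nil⟩,
  ⟨[2], [], [], [],
    .nil⟩,
  ⟨[], [], [], [],
    .nil⟩,
  ⟨[2], [], [], [],
    .nd 5 0x0 0x0 (.nd 0 0x0 0x0 .nil .nil) .nil⟩,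
  ⟨[2], [], [], [],
    .nil⟩,
  ⟨[2], [], [], [],
    .nil⟩,
  ⟨[2], [], [], [],
    .nd 4 0x0 0x0 (.nd 0 0x0 0x0 (.nd 0 0x0 0x0 (.nd 1 0x0 0x1 (.nd 1 0x0 0x1 (.nd 0 0x0 0x0 (.nd 3 0x0 0x1 (.nd 3 0x0 0x1 (.nd 0 0x0 0x0 .nil .nil) .nil) .nil) .nil) .nil) .nil) .nil) .nil) .nil⟩,
  ⟨[2], [], [], [],
    .nd 1 0x0 0x0 (.nd 3 0x0 0x0 .nil .nil) .nil⟩,
  ⟨[2], [], [], [],
    .nil⟩,
  ⟨[2], [], [], [],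
    .nil⟩,
  ⟨[2], [], [], [],
    .nd 2 0x0 0x0 (.nd 3 0x0 0x0 .nil .nil) .nil⟩,
  ⟨[2], [], [], [],
    .nd 3 0x0 0x0 (.nd 0 0x0 0x0 .nil .nil) .nil⟩,
  ⟨[2], [], [], [],
    .nil⟩,
  ⟨[], [], [], [],
    .nil⟩,
  ⟨[2], [], [], [],
    .nd 5 0x0 0x0 .nil .nil⟩,
  ⟨[2], [], [], [],
    .nil⟩,
  ⟨[2], [], [], [],
    .nil⟩,
  ⟨[2], [], [], [],
    .nd 4 0x0 0x0 .nil .nil⟩,
  ⟨[2], [], [], [],
    .nd 1 0x0 0x0 (.nd 5 0x0 0x0 (.nd 0 0x0 0x0 .nil .nil) .nil) .nil⟩,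
  ⟨[2], [], [], [],
    .nil⟩,
  ⟨[2], [], [], [],
    .nil⟩,
  ⟨[2], [], [], [],
    .nd 2 0x0 0x0 (.nd 0 0x0 0x0 (.nd 1 0x0 0x0 (.nd 3 0x0 0x1 .nil .nil) .nil) .nil) .nil⟩,
  ⟨[2], [], [], [],
    .nd 3 0x0 0x0 .nil .nil⟩,
  ⟨[2], [], [], [],
    .nil⟩,
  ⟨[], [], [], [],
    .nil⟩,
  ⟨[4], [], [], [],
    .nd 5 0x0 0x0 (.nd 1 0x0 0x0 .nil .nil) .nil⟩,
  ⟨[2], [], [], [],
    .nil⟩,
  ⟨[2], [], [], [],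
    .nil⟩,
  ⟨[2], [], [], [],
    .nd 4 0x0 0x0 .nil .nil⟩,
  ⟨[2], [], [], [],
    .nd 1 0x0 0x0 .nil .nil⟩,
  ⟨[2], [], [], [],
    .nil⟩,
  ⟨[2], [], [], [],
    .nil⟩,
  ⟨[2], [], [], [],
    .nd 2 0x0 0x0 .nil .nil⟩,
  ⟨[2], [], [], [],
    .nd 3 0x0 0x0 (.nd 3 0x0 0x0 (.nd 4 0x0 0x0 (.nd 1 0x0 0x1 (.nd 3 0x0 0x1 .nil .nil) .nil) .nil) .nil) .nil⟩,
  ⟨[2], [], [], [],
    .nil⟩,
  ⟨[], [], [], [],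
    .nil⟩,
  ⟨[2], [], [], [],
    .nd 5 0x0 0x0 .nil .nil⟩,
  ⟨[2], [], [], [],
    .nil⟩,
  ⟨[2], [], [], [],
    .nil⟩,
  ⟨[2], [], [], [],
    .nd 4 0x0 0x0 .nil .nil⟩,
  ⟨[2], [], [], [],
    .nd 1 0x0 0x0 .nil .nil⟩,
  ⟨[2], [], [], [],
    .nil⟩,
  ⟨[2], [], [], [],
    .nil⟩,
  ⟨[2], [], [], [],
    .nd 2 0x0 0x0 (.nd 5 0x0 0x0 .nil .nil) .nil⟩,
  ⟨[2], [], [], [],
    .nd 3 0x0 0x0 .nil .nil⟩,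
  ⟨[2], [], [], [],
    .nil⟩,
  ⟨[], [], [], [],
    .nil⟩,
  ⟨[2], [], [], [],
    .nd 5 0x0 0x0 (.nd 2 0x0 0x0 .nil .nil) .nil⟩,
  ⟨[2], [], [], [],
    .nil⟩,
  ⟨[2], [], [], [],
    .nil⟩,
  ⟨[2], [], [], [],
    .nd 4 0x0 0x0 .nil .nil⟩,
  ⟨[2], [], [], [],
    .nd 1 0x0 0x0 (.nd 0 0x0 0x0 .nil .nil) .nil⟩,
  ⟨[2], [], [], [],
    .nil⟩,
  ⟨[2], [], [], [],
    .nil⟩,
  ⟨[2], [], [], [],
    .nd 2 0x0 0x0 (.nd 2 0x0 0x0 (.nd 5 0x0 0x0 (.nd 0 0x0 0x0 .nil .nil) .nil) .nil) .nil⟩,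
  ⟨[2], [], [], [],
    .nd 3 0x0 0x0 .nil .nil⟩,
  ⟨[2], [], [], [],
    .nil⟩,
  ⟨[], [], [], [],
    .nil⟩,
  ⟨[2], [], [], [],
    .nd 5 0x0 0x0 .nil .nil⟩,
  ⟨[2], [], [], [],
    .nil⟩,
  ⟨[2], [], [], [],
    .nil⟩,
  ⟨[2], [], [], [],
    .nd 4 0x0 0x0 .nil .nil⟩,
  ⟨[6], [], [], [],
    .nd 1 0x0 0x0 .nil .nil⟩,
  ⟨[2], [], [], [],
    .nil⟩,
  ⟨[2], [], [], [],
    .nil⟩,
  ⟨[2], [], [], [],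
    .nd 2 0x0 0x0 .nil .nil⟩,
  ⟨[2], [], [], [],
    .nd 3 0x0 0x0 (.nd 2 0x0 0x0 (.nd 0 0x0 0x0 .nil .nil) .nil) .nil⟩,
  ⟨[2], [], [], [],
    .nil⟩,
  ⟨[], [], [], [],
    .nil⟩,
  ⟨[2], [], [], [],
    .nd 5 0x0 0x0 (.nd 3 0x0 0x0 (.nd 5 0x0 0x0 .nil .nil) .nil) .nil⟩,
  ⟨[2], [], [], [],
    .nil⟩,
  ⟨[2], [], [], [],
    .nil⟩,
  ⟨[2], [], [], [],
    .nd 4 0x0 0x0 (.nd 5 0x0 0x0 (.nd 4 0x0 0x0 .nil .nil) .nil) .nil⟩,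
  ⟨[2], [], [], [],
    .nd 1 0x0 0x0 (.nd 4 0x0 0x0 (.nd 3 0x0 0x0 .nil .nil) .nil) .nil⟩,
  ⟨[2], [], [], [],
    .nil⟩,
  ⟨[2], [], [], [],
    .nil⟩,
  ⟨[2], [], [], [],
    .nd 2 0x0 0x0 .nil .nil⟩,
  ⟨[2], [], [], [],
    .nd 3 0x0 0x0 .nil .nil⟩,
  ⟨[2], [], [], [],
    .nil⟩,
  ⟨[], [], [], [],
    .nil⟩,
  ⟨[2], [], [], [],
    .nd 5 0x0 0x0 .nil .nil⟩,
  ⟨[2], [], [], [],
    .nil⟩,
  ⟨[2], [], [], [],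
    .nil⟩,
  ⟨[2], [], [], [],
    .nd 4 0x0 0x0 (.nd 4 0x0 0x0 (.nd 2 0x0 0x0 (.nd 3 0x0 0x1 .nil .nil) .nil) .nil) .nil⟩,
  ⟨[2], [], [], [],
    .nd 1 0x0 0x0 .nil .nil⟩,
  ⟨[2], [], [], [],
    .nil⟩,
  ⟨[2], [], [], [],
    .nil⟩,
  ⟨[2], [], [], [],
    .nd 2 0x0 0x0 (.nd 4 0x0 0x0 (.nd 2 0x0 0x0 .nil .nil) .nil) .nil⟩,
  ⟨[2], [], [], [],
    .nd 3 0x0 0x0 (.nd 5 0x0 0x0 .nil .nil) .nil⟩,
  ⟨[2], [], [], [],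
    .nil⟩,
  ⟨[], [], [], [],
    .nil⟩,
  ⟨[2], [], [], [],
    .nd 5 0x0 0x0 (.nd 4 0x0 0x0 (.nd 0 0x0 0x0 .nil .nil) .nil) .nil⟩,
  ⟨[2], [], [], [],
    .nil⟩,
  ⟨[2], [], [], [],
    .nil⟩,
  ⟨[2], [], [], [],
    .nd 4 0x0 0x0 (.nd 3 0x0 0x0 .nil .nil) .nil⟩,
  ⟨[2], [], [], [],
    .nd 1 0x0 0x0 .nil .nil⟩,
  ⟨[2], [], [], [],
    .nil⟩,
  ⟨[2], [], [], [],
    .nil⟩,
  ⟨[2], [], [], [],
    .nd 2 0x0 0x0 (.nd 1 0x0 0x0 (.nd 1 0x0 0x0 .nil .nil) .nil) .nil⟩,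
  ⟨[2], [], [], [],
    .nd 3 0x0 0x0 (.nd 1 0x0 0x0 (.nd 4 0x0 0x0 .nil .nil) .nil) .nil⟩,
  ⟨[2], [], [], [],
    .nil⟩,
  ⟨[], [], [], [],
    .nil⟩,
  ⟨[2], [], [], [],
    .nd 5 0x0 0x0 .nil .nil⟩,
  ⟨[2], [], [], [],
    .nil⟩,
  ⟨[2], [], [], [],
    .nil⟩,
  ⟨[2], [], [], [],
    .nd 4 0x0 0x0 (.nd 2 0x0 0x0 (.nd 5 0x0 0x0 (.nd 2 0x0 0x1 .nil .nil) .nil) .nil) .nil⟩,
  ⟨[2], [], [], [],
    .nd 1 0x0 0x0 .nil .nil⟩,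
  ⟨[2], [], [], [],
    .nil⟩,
  ⟨[2], [], [], [],
    .nil⟩,
  ⟨[2], [], [], [],
    .nd 2 0x0 0x0 .nil .nil⟩,
  ⟨[2], [], [], [],
    .nd 3 0x0 0x0 .nil .nil⟩,
  ⟨[2], [], [], [],
    .nil⟩,
  ⟨[], [], [], [],
    .nil⟩,
  ⟨[2], [], [], [],
    .nd 5 0x0 0x0 (.nd 5 0x0 0x0 (.nd 2 0x0 0x0 (.nd 0 0x0 0x0 (.nd 4 0x0 0x1 (.nd 4 0x0 0x1 .nil .nil) .nil) .nil) .nil) .nil) .nil⟩,
  ⟨[2], [], [], [],
    .nil⟩,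
  ⟨[2], [], [], [],
    .nil⟩,
  ⟨[2], [], [], [],
    .nd 4 0x0 0x0 (.nd 1 0x0 0x0 .nil .nil) .nil⟩,
  ⟨[], [(2, [11])], [], [[(22, 11, 55)]],
    .nd 1 0x0 0x0 (.nd 1 0x0 0x0 (.nd 0 0x0 0x0 (.nd 0 0x0 0x0 (.nd 1 0x0 0x1 (.cl 1 0x0 1234 .nil) .nil) .nil) .nil) .nil) .nil⟩,
  ⟨[2], [], [], [],
    .nil⟩,
  ⟨[2], [], [], [],
    .nil⟩,
  ⟨[2], [], [], [],
    .nd 2 0x0 0x0 .nil .nil⟩,
  ⟨[2], [], [], [],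
    .nd 3 0x0 0x0 (.nd 4 0x0 0x0 (.nd 1 0x0 0x0 (.nd 3 0x0 0x1 (.nd 2 0x0 0x1 .nil .nil) .nil) .nil) .nil) .nil⟩,
  ⟨[2], [], [], [],
    .nil⟩,
  ⟨[], [], [], [],
    .nil⟩,
  ⟨[2], [], [], [],
    .nd 5 0x0 0x0 (.nd 0 0x0 0x0 (.nd 2 0x0 0x0 (.nd 1 0x0 0x1 (.nd 5 0x0 0x1 (.nd 5 0x0 0x1 .nil .nil) .nil) .nil) .nil) .nil) .nil⟩,
  ⟨[2], [], [], [],
    .nil⟩,
  ⟨[2], [], [], [],
    .nil⟩,
  ⟨[2], [], [], [],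
    .nd 4 0x0 0x0 (.nd 0 0x0 0x0 .nil .nil) .nil⟩,
  ⟨[2], [], [], [],
    .nd 1 0x0 0x0 (.nd 3 0x0 0x0 .nil .nil) .nil⟩,
  ⟨[2], [], [], [],
    .nil⟩,
  ⟨[2], [], [], [],
    .nil⟩,
  ⟨[2], [], [], [],
    .nd 2 0x0 0x0 (.nd 3 0x0 0x0 .nil .nil) .nil⟩,
  ⟨[2], [], [], [],
    .nd 3 0x0 0x0 (.nd 0 0x0 0x0 (.nd 5 0x0 0x0 .nil .nil) .nil) .nil⟩,
  ⟨[2], [], [], [],
    .nil⟩,
  ⟨[], [], [], [],
    .nil⟩,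
  ⟨[2], [], [], [],
    .nd 5 0x0 0x0 .nil .nil⟩,
  ⟨[2], [], [], [],
    .nil⟩,
  ⟨[2], [], [], [],
    .nil⟩,
  ⟨[2], [], [], [],
    .nd 4 0x0 0x0 .nil .nil⟩,
  ⟨[2], [], [], [],
    .nd 1 0x0 0x0 (.nd 5 0x0 0x0 (.nd 2 0x0 0x0 .nil .nil) .nil) .nil⟩,
  ⟨[2], [], [], [],
    .nil⟩,
  ⟨[2], [], [], [],
    .nil⟩,
  ⟨[2], [], [], [],
    .nd 2 0x0 0x0 (.nd 0 0x0 0x0 .nil .nil) .nil⟩,
  ⟨[2], [], [], [],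
    .nd 3 0x0 0x0 .nil .nil⟩,
  ⟨[2], [], [], [],
    .nil⟩,
  ⟨[], [], [], [],
    .nil⟩,
  ⟨[2], [], [], [],
    .nd 5 0x0 0x0 (.nd 1 0x0 0x0 .nil .nil) .nil⟩,
  ⟨[2], [], [], [],
    .nil⟩,
  ⟨[2], [], [], [],
    .nil⟩,
  ⟨[2], [], [], [],
    .nd 4 0x0 0x0 .nil .nil⟩,
  ⟨[2], [], [], [],
    .nd 1 0x0 0x0 .nil .nil⟩,
  ⟨[2], [], [], [],
    .nil⟩,
  ⟨[2], [], [], [],
    .nil⟩,
  ⟨[2], [], [], [],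
    .nd 2 0x0 0x0 .nil .nil⟩,
  ⟨[2], [], [], [],
    .nd 3 0x0 0x0 (.nd 3 0x0 0x0 (.nd 0 0x0 0x0 .nil .nil) .nil) .nil⟩,
  ⟨[2], [], [], [],
    .nil⟩,
  ⟨[], [], [], [],
    .nil⟩,
  ⟨[2], [], [], [],
    .nd 5 0x0 0x0 .nil .nil⟩,
  ⟨[2], [], [], [],
    .nil⟩,
  ⟨[2], [], [], [],
    .nil⟩,
  ⟨[2], [], [], [],
    .nd 4 0x0 0x0 .nil .nil⟩,
  ⟨[2], [], [], [],
    .nd 1 0x0 0x0 .nil .nil⟩,
  ⟨[2], [], [], [],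
    .nil⟩,
  ⟨[2], [], [], [],
    .nil⟩,
  ⟨[2], [], [], [],
    .nd 2 0x0 0x0 (.nd 5 0x0 0x0 .nil .nil) .nil⟩,
  ⟨[2], [], [], [],
    .nd 3 0x0 0x0 .nil .nil⟩,
  ⟨[2], [], [], [],
    .nil⟩,
  ⟨[], [], [], [],
    .nil⟩,
  ⟨[2], [], [], [],
    .nd 5 0x0 0x0 (.nd 2 0x0 0x0 (.nd 1 0x0 0x0 .nil .nil) .nil) .nil⟩,
  ⟨[2], [], [], [],
    .nil⟩,
  ⟨[2], [], [], [],
    .nil⟩,
  ⟨[2], [], [], [],
    .nd 4 0x0 0x0 .nil .nil⟩,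
  ⟨[], [(2, [11]), (12, [11, 22, 33])], [], [[(22, 11, 10)], [(22, 11, 10), (132, 11, 50)]],
    .nd 1 0x0 0x0 (.nd 0 0x0 0x0 (.nd 0 0x0 0x0 (.nd 1 0x0 0x100000000000000014 (.nd 0 0x1000000000000000000000000000000000000000000000000 0x0 (.cl 0 0x0 1235 .nil) .nil) .nil) .nil) .nil) .nil⟩,
  ⟨[2], [], [], [],
    .nil⟩,
  ⟨[2], [], [], [],
    .nil⟩,
  ⟨[2], [], [], [],
    .nd 2 0x0 0x0 (.nd 2 0x0 0x0 (.nd 2 0x0 0x0 .nil .nil) .nil) .nil⟩,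
  ⟨[2], [], [], [],
    .nd 3 0x0 0x0 .nil .nil⟩,
  ⟨[2], [], [], [],
    .nil⟩,
  ⟨[], [], [], [],
    .nil⟩,
  ⟨[2], [], [], [],
    .nd 5 0x0 0x0 .nil .nil⟩,
  ⟨[2], [], [], [],
    .nil⟩,
  ⟨[2], [], [], [],
    .nil⟩,
  ⟨[2], [], [], [],
    .nd 4 0x0 0x0 .nil .nil⟩,
  ⟨[2], [], [], [],
    .nd 1 0x0 0x0 (.nd 2 0x0 0x0 (.nd 4 0x0 0x0 .nil .nil) .nil) .nil⟩,
  ⟨[2], [], [], [],
    .nil⟩,
  ⟨[2], [], [], [],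
    .nil⟩,
  ⟨[2], [], [], [],
    .nd 2 0x0 0x0 .nil .nil⟩,
  ⟨[2], [], [], [],
    .nd 3 0x0 0x0 (.nd 2 0x0 0x0 .nil .nil) .nil⟩,
  ⟨[2], [], [], [],
    .nil⟩,
  ⟨[], [], [], [],
    .nil⟩,
  ⟨[2], [], [], [],
    .nd 5 0x0 0x0 (.nd 3 0x0 0x0 (.nd 0 0x0 0x0 .nil .nil) .nil) .nil⟩,
  ⟨[2], [], [], [],
    .nil⟩,
  ⟨[2], [], [], [],
    .nil⟩,
  ⟨[2], [], [], [],
    .nd 4 0x0 0x0 (.nd 5 0x0 0x0 (.nd 3 0x0 0x0 (.nd 2 0x0 0x1 (.nd 1 0x0 0x1 .nil .nil) .nil) .nil) .nil) .nil⟩,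
  ⟨[2], [], [], [],
    .nd 1 0x0 0x0 (.nd 4 0x0 0x0 (.nd 5 0x0 0x0 (.nd 0 0x0 0x0 .nil .nil) .nil) .nil) .nil⟩,
  ⟨[2], [], [], [],
    .nil⟩,
  ⟨[2], [], [], [],
    .nil⟩,
  ⟨[2], [], [], [],
    .nd 2 0x0 0x0 .nil .nil⟩,
  ⟨[2], [], [], [],
    .nd 3 0x0 0x0 .nil .nil⟩,
  ⟨[2], [], [], [],
    .nil⟩,
  ⟨[], [], [], [],
    .nil⟩,
  ⟨[2], [], [], [],
    .nd 5 0x0 0x0 .nil .nil⟩,
  ⟨[2], [], [], [],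
    .nil⟩,
  ⟨[2], [], [], [],
    .nil⟩,
  ⟨[2], [], [], [],
    .nd 4 0x0 0x0 (.nd 4 0x0 0x0 (.nd 1 0x0 0x0 (.nd 4 0x0 0x1 (.nd 2 0x0 0x1 (.nd 5 0x0 0x1 (.nd 4 0x0 0x1 (.nd 2 0x0 0x1 .nil .nil) .nil) .nil) .nil) .nil) .nil) .nil) .nil⟩,
  ⟨[2], [], [], [],
    .nd 1 0x0 0x0 .nil .nil⟩,
  ⟨[2], [], [], [],
    .nil⟩,
  ⟨[2], [], [], [],
    .nil⟩,
  ⟨[2], [], [], [],
    .nd 2 0x0 0x0 (.nd 4 0x0 0x0 .nil .nil) .nil⟩,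
  ⟨[2], [], [], [],
    .nd 3 0x0 0x0 (.nd 5 0x0 0x0 .nil .nil) .nil⟩,
  ⟨[2], [], [], [],
    .nil⟩,
  ⟨[], [], [], [],
    .nil⟩,
  ⟨[2], [], [], [],
    .nd 5 0x0 0x0 (.nd 4 0x0 0x0 .nil .nil) .nil⟩,
  ⟨[2], [], [], [],
    .nil⟩,
  ⟨[2], [], [], [],
    .nil⟩,
  ⟨[2], [], [], [],
    .nd 4 0x0 0x0 (.nd 3 0x0 0x0 (.nd 5 0x0 0x0 (.nd 4 0x0 0x1 .nil .nil) .nil) .nil) .nil⟩,
  ⟨[2], [], [], [],
    .nd 1 0x0 0x0 .nil .nil⟩,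
  ⟨[2], [], [], [],
    .nil⟩,
  ⟨[2], [], [], [],
    .nil⟩,
  ⟨[2], [], [], [],
    .nd 2 0x0 0x0 (.nd 1 0x0 0x0 .nil .nil) .nil⟩,
  ⟨[2], [], [], [],
    .nd 3 0x0 0x0 (.nd 1 0x0 0x0 (.nd 0 0x0 0x0 (.nd 1 0x0 0x0 .nil .nil) .nil) .nil) .nil⟩,
  ⟨[2], [], [], [],
    .nil⟩,
  ⟨[], [], [], [],
    .nil⟩,
  ⟨[2], [], [], [],
    .nd 5 0x0 0x0 .nil .nil⟩,
  ⟨[2], [], [], [],
    .nil⟩,
  ⟨[2], [], [], [],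
    .nil⟩,
  ⟨[2], [], [], [],
    .nd 4 0x0 0x0 (.nd 2 0x0 0x0 (.nd 4 0x0 0x0 (.nd 4 0x0 0x1 (.nd 4 0x0 0x1 (.nd 1 0x0 0x1 .nil .nil) .nil) .nil) .nil) .nil) .nil⟩,
  ⟨[2], [], [], [],
    .nd 1 0x0 0x0 .nil .nil⟩,
  ⟨[2], [], [], [],
    .nil⟩,
  ⟨[2], [], [], [],
    .nil⟩,
  ⟨[2], [], [], [],
    .nd 2 0x0 0x0 .nil .nil⟩,
  ⟨[2], [], [], [],
    .nd 3 0x0 0x0 .nil .nil⟩,
  ⟨[2], [], [], [],
    .nil⟩,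
  ⟨[], [], [], [],
    .nil⟩,
  ⟨[2], [], [], [],
    .nd 5 0x0 0x0 (.nd 5 0x0 0x0 .nil .nil) .nil⟩,
  ⟨[2], [], [], [],
    .nil⟩,
  ⟨[2], [], [], [],
    .nil⟩,
  ⟨[2], [], [], [],
    .nd 4 0x0 0x0 (.nd 1 0x0 0x0 .nil .nil) .nil⟩,
  ⟨[2], [], [], [],
    .nd 1 0x0 0x0 (.nd 1 0x0 0x0 (.nd 2 0x0 0x0 (.nd 4 0x0 0x1 .nil .nil) .nil) .nil) .nil⟩]

theorem fix_ok : fixOk par 1236 (mkTab bt) [4] fix 4 = true := by decide +kernel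

end

end Pool.Agent.P.MP_111ca2_co.C11
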