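import Pool.Agent.K.MP_111ca2_co.C3

/-! The classification in a characteristic that has a certificate. -/

namespace Pool.Agent.P.MP_111ca2_co

theorem classify (K : Type) [Field K] [Finite K] (hc : ringChar K = 2 ∨ Cert (ringChar K))
    (hp : ∀ b : ℤ, 21 ≤ ringChar K → 1 + b ^ 2 ≠ ringChar K) (n : ℕ) (hn : n ∣ Nat.card K - 1)
    (h2 : 2 ≤ n) (h3 : n < Nat.card K - 1) :
    (∃ lam : ℕ, ∀ g : K, g ≠ 0 →
      {x : K × K | (∃ y : K, y ≠ 0 ∧ x.1 = y ^ n) ∧ (∃ y : K, y ≠ 0 ∧ x.2 = y ^ n) ∧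
        x.1 - x.2 = g}.ncard = lam) ↔ n = 2 ∧ Nat.card K % 4 = 3 := by
  classical
  have := Fintype.ofFinite K
  have : Fact (ringChar K).Prime := ⟨CharP.char_is_prime K _⟩
  rw [Nat.card_eq_fintype_card] at *
  obtain ⟨k, hk⟩ := hn
  have hk1 : 1 < k := by
    by_contra h
    interval_cases k <;> omega
  have hq : Fintype.card K = n * k + 1 := by omega
  obtain ⟨γ, hγ⟩ := exists_gen K
  rw [hk] at hγ
  have : NeZero (n * k) := ⟨by positivity⟩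
  have hD : ∀ x : K, (∃ y : K, y ≠ 0 ∧ x = y ^ n) ↔ x ∈ DD K k := by
    intro x
    rw [mem_DD]
    constructor
    · rintro ⟨y, hy, rfl⟩
      rw [← pow_mul, ← hk, FiniteField.pow_card_sub_one_eq_one y hy]
    · intro hx
      obtain ⟨m, _, rfl⟩ := hγ.eq_pow_of_pow_eq_one (ξ := x) (by rw [mul_comm, pow_mul, hx, one_pow])
      rw [← pow_mul, hγ.pow_eq_one_iff_dvd, Nat.mul_dvd_mul_iff_right (by omega)] at hx
      obtain ⟨t, rfl⟩ := hx
      exact ⟨γ ^ t, pow_ne_zero _ (hγ.ne_zero (NeZero.ne _)), by rw [← pow_mul, mul_comm]⟩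
  have hr : ∀ g : K, {x : K × K | (∃ y : K, y ≠ 0 ∧ x.1 = y ^ n) ∧ (∃ y : K, y ≠ 0 ∧ x.2 = y ^ n) ∧
      x.1 - x.2 = g}.ncard = rr k g := by
    intro g
    rw [rr, ← Set.ncard_coe_finset]
    congr 1
    ext x
    simp [hD, and_assoc]
  simp only [hr]
  constructor
  · rintro ⟨lam, hl⟩
    obtain ⟨rfl, m, rfl⟩ := index_two (ringChar K) hc hp hk1 h2 hq hl
    omega
  · rintro ⟨rfl, h4⟩
    exact ⟨_, paley (Nat.odd_iff.2 (by omega)) hq⟩

end Pool.Agent.P.MP_111ca2_co
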